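import Pool.Agent.Lib.MP_2b2af9_co.Mg.G001

/-!
# The group of the elements of `p`-power order
-/

set_option autoImplicit false

open Finset Pool.Agent.Lib.MP_2b2af9_co.Dense

namespace Pool.Agent.Lib.MP_2b2af9_co.Lev

variable {q n : ℕ} [NeZero q] {a b : Fin n → V q}

/-- the element `(q / d) (s, t)` -/
def el (q d : ℕ) (x : ℤ × ℤ) : V q := (((((q / d : ℕ) : ℤ) * x.1 : ℤ) : ZMod q),
      ((((q / d : ℕ) : ℤ) * x.2 : ℤ) : ZMod q))

omit [NeZero q] in
theorem el_sub (d : ℕ) (x y : ℤ × ℤ) : el q d x - el q d y = el q d (x - y) := by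
  refine Prod.ext ?_ ?_
  · show ((((q / d : ℕ) : ℤ) * x.1 : ℤ) : ZMod q) - ((((q / d : ℕ) : ℤ) * y.1 : ℤ) : ZMod q) =
      ((((q / d : ℕ) : ℤ) * (x.1 - y.1) : ℤ) : ZMod q)
    push_cast
    ring
  · show ((((q / d : ℕ) : ℤ) * x.2 : ℤ) : ZMod q) -
      ((((q / d : ℕ) : ℤ) * y.2 : ℤ) : ZMod q) =
      ((((q / d : ℕ) : ℤ) * (x.2 - y.2) : ℤ) : ZMod q)
    push_cast
    ring

theorem el_zero {d : ℕ} (hd : d ∣ q) {x : ℤ × ℤ} (h : el q d x = 0) :
    (d : ℤ) ∣ x.1 ∧ (d : ℤ) ∣ x.2 := by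
  have hq : q ≠ 0 := NeZero.ne q
  have hdiv : ∀ z : ℤ, ((((q / d : ℕ) : ℤ) * z : ℤ) : ZMod q) = 0 → (d : ℤ) ∣ z := by
    intro z hz
    rw [ZMod.intCast_zmod_eq_zero_iff_dvd] at hz
    have hdq : ((q : ℕ) : ℤ) = ((q / d : ℕ) : ℤ) * (d : ℤ) := by
      rw [← Nat.cast_mul, Nat.div_mul_cancel hd]
    rw [hdq] at hz
    refine Int.dvd_of_mul_dvd_mul_left ?_ hz
    intro h0
    rw [h0, zero_mul] at hdq
    exact hq (by exact_mod_cast hdq)
  obtain ⟨e1, e2⟩ := Prod.ext_iff.1 h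
  exact ⟨hdiv _ e1, hdiv _ e2⟩

theorem F_el {d : ℕ} (hd : d ∣ q) (x : ℤ × ℤ) : F b (el q d x) =
    ∑ j, ee d (x.1 * ((b j).1.val : ℤ) + x.2 * ((b j).2.val : ℤ)) := by
  have h := Fb_ee (b := b) hd hd x.1 x.2
  unfold el
  rw [h]
  exact sum_congr rfl fun j _ => (ee_add _ _ _).symm

omit [NeZero q] in
/-- a vanishing sum of `p ^ k`-th roots of unity -/
theorem dvd_of_sum {p k : ℕ} (hp : p.Prime) (z : Fin n → ℤ)
    (h : ∑ j, ee (p ^ k) (z j) = 0) : p ∣ n := by
  classical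
  have : Fact p.Prime := ⟨hp⟩
  have hN : NeZero (p ^ k) := ⟨pow_ne_zero _ hp.ne_zero⟩
  let Y : ℤ → ℕ := fun γ => #{j | ((p ^ k : ℕ) : ℤ) ∣ z j - γ}
  have hY : Pd (p ^ k) Y := by
    intro γ
    show #{j | ((p ^ k : ℕ) : ℤ) ∣ z j - (γ + (p ^ k : ℕ))} = #{j | ((p ^ k : ℕ) : ℤ) ∣ z j - γ}
    congr 1
    ext j
    rw [mem_filter, mem_filter, show z j - (γ + (p ^ k : ℕ)) = z j - γ - (p ^ k : ℕ) by ring,
      dvd_sub_self_right]
  have key : ∀ {R : Type} [CommSemiring R] (g : ℤ → R),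
      (∀ x y : ℤ, ((p ^ k : ℕ) : ℤ) ∣ x - y → g x = g y) →
      ∑ β ∈ range (p ^ k), (Y β : R) * g β = ∑ j, g (z j) := by
    intro R _ g hg
    have h1 : ∀ β ∈ range (p ^ k), (Y β : R) * g β =
        ∑ j, if ((p ^ k : ℕ) : ℤ) ∣ z j - β then g β else 0 := by
      intro β _
      show ((#{j | ((p ^ k : ℕ) : ℤ) ∣ z j - (β : ℤ)} : ℕ) : R) * g β = _
      rw [card_filter, Nat.cast_sum, sum_mul]
      refine sum_congr rfl fun j _ => ?_
      split_ifs <;> simp
    rw [sum_congr rfl h1, sum_comm]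
    refine sum_congr rfl fun j _ => ?_
    have hpos : (0 : ℤ) < ((p ^ k : ℕ) : ℤ) := by exact_mod_cast pow_pos hp.pos k
    have h2 : (((z j % ((p ^ k : ℕ) : ℤ)).toNat : ℕ) : ℤ) = z j % ((p ^ k : ℕ) : ℤ) :=
      Int.toNat_of_nonneg (Int.emod_nonneg _ hpos.ne')
    have h3 : ((p ^ k : ℕ) : ℤ) ∣ z j - (((z j % ((p ^ k : ℕ) : ℤ)).toNat : ℕ) : ℤ) := by
      rw [h2]
      exact Int.dvd_self_sub_emod
    have h4 : (z j % ((p ^ k : ℕ) : ℤ)).toNat < p ^ k := by
      have h5 := Int.emod_lt_of_pos (z j) hpos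
      rw [← h2] at h5
      exact_mod_cast h5
    rw [sum_eq_single ((z j % ((p ^ k : ℕ) : ℤ)).toNat)]
    · rw [if_pos h3]
      exact (hg _ _ h3).symm
    · intro β hβ hne
      rw [if_neg]
      intro h5
      apply hne
      have h6 : ((p ^ k : ℕ) : ℤ) ∣ (((z j % ((p ^ k : ℕ) : ℤ)).toNat : ℕ) : ℤ) - (β : ℤ) := by
        have h7 := dvd_sub h5 h3
        rw [show z j - (β : ℤ) - (z j - (((z j % ((p ^ k : ℕ) : ℤ)).toNat : ℕ) : ℤ)) =
          (((z j % ((p ^ k : ℕ) : ℤ)).toNat : ℕ) : ℤ) - β by ring] at h7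
        exact h7
      have h8 : Nat.ModEq (p ^ k) β (z j % ((p ^ k : ℕ) : ℤ)).toNat := Nat.modEq_iff_dvd.2 h6
      have h9 : β % p ^ k = (z j % ((p ^ k : ℕ) : ℤ)).toNat % p ^ k := h8
      rw [Nat.mod_eq_of_lt (mem_range.1 hβ), Nat.mod_eq_of_lt h4] at h9
      exact h9
    · intro h5
      exact absurd (mem_range.2 h4) h5
  have htot : tot p k Y = n := by
    have h1 := key (R := ℕ) (fun _ => 1) (fun _ _ _ => rfl)
    unfold tot
    simp only [mul_one, Nat.cast_id, sum_const, card_univ, Fintype.card_fin, smul_eq_mul] at h1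
    exact h1
  have hVC : VC p k Y 1 := by
    unfold VC
    rw [← h, ← key (fun γ => ee (p ^ k) γ) (fun x y hxy => ee_congr _ hxy)]
    refine sum_congr rfl fun β _ => ?_
    rw [one_mul]
  have h2 := dvd_of_VC k hY hVC
  rwa [htot] at h2

/-- the case `p ∤ n` -/
theorem partC (h : Sp a b) {p k : ℕ} (hp : p.Prime) (hk : p ^ k ∣ q) (hpn : ¬ p ∣ n) :
    n * p ^ (2 * k) = q ^ 2 ∨ n * (p ^ (2 * k) + 1) ≤ q ^ 2 := by
  classical
  have hF : ∀ x : ℤ × ℤ, F b (el q (p ^ k) x) ≠ 0 := by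
    intro x h0
    rw [F_el hk] at h0
    exact hpn (dvd_of_sum hp _ h0)
  have hpos : 0 < p ^ k := pow_pos hp.pos k
  let K : Finset (V q) := (range (p ^ k) ×ˢ range (p ^ k)).image
    fun x => el q (p ^ k) ((x.1 : ℤ), (x.2 : ℤ))
  have hinj : ∀ x ∈ range (p ^ k) ×ˢ range (p ^ k), ∀ y ∈ range (p ^ k) ×ˢ range (p ^ k),
      el q (p ^ k) ((x.1 : ℤ), (x.2 : ℤ)) = el q (p ^ k) ((y.1 : ℤ), (y.2 : ℤ)) → x = y := by
    rintro ⟨s, t⟩ hx ⟨s', t'⟩ hy hxy
    rw [mem_product, mem_range, mem_range] at hx hy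
    have h1 : el q (p ^ k) (((s : ℤ), (t : ℤ)) - ((s' : ℤ), (t' : ℤ))) = 0 := by
      rw [← el_sub]
      exact sub_eq_zero.2 hxy
    obtain ⟨h2, h3⟩ := el_zero hk h1
    have key : ∀ u v : ℕ, u < p ^ k → v < p ^ k → ((p ^ k : ℕ) : ℤ) ∣ (u : ℤ) - v → u = v := by
      intro u v hu hv huv
      have h4 : Nat.ModEq (p ^ k) v u := Nat.modEq_iff_dvd.2 huv
      have h5 : v % p ^ k = u % p ^ k := h4
      rw [Nat.mod_eq_of_lt hu, Nat.mod_eq_of_lt hv] at h5
      exact h5.symm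
    exact Prod.ext (key s s' hx.1 hy.1 h2) (key t t' hx.2 hy.2 h3)
  have hcard : K.card = p ^ (2 * k) := by
    show ((range (p ^ k) ×ˢ range (p ^ k)).image _).card = _
    rw [card_image_of_injOn hinj, card_product, card_range]
    ring
  rcases h.packing K (by
    intro x hx y hy _
    obtain ⟨x', _, rfl⟩ := mem_image.1 hx
    obtain ⟨y', _, rfl⟩ := mem_image.1 hy
    rw [el_sub]
    exact hF _) with h1 | h1
  · left
    rw [h1, hcard, mul_comm]
  · right
    rw [hcard, mul_comm] at h1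
    exact h1

/-- Galois conjugation -/
theorem F_gal {g : V q} (h0 : F b g ≠ 0) {k : ℕ} (hk : k.Coprime (addOrderOf g))
    (hm1 : 1 < addOrderOf g) : F b (k • g) ≠ 0 := by
  intro hz
  have hm0 : 0 < addOrderOf g := by omega
  obtain ⟨k', hk'⟩ := Nat.exists_mul_mod_eq_one_of_coprime hk hm1
  have hξ : ∀ j : Fin n, (χ (dot (k • g) (b j))) ^ (addOrderOf g) = 1 := by
    intro j
    rw [← χ_nsmul, ← dot_nsmul, smul_smul, mul_comm, ← smul_smul, addOrderOf_nsmul_eq_zero,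
      smul_zero, dot_zero, χ_zero]
  have hcop' : k'.Coprime (addOrderOf g) := by
    have h2 : (k * k').Coprime (addOrderOf g) := by
      rw [Nat.coprime_comm, Nat.coprime_iff_gcd_eq_one, Nat.gcd_rec, hk'.2, Nat.gcd_one_left]
    exact Nat.Coprime.coprime_mul_left h2
  have h1 := galois hm0 (fun j => χ (dot (k • g) (b j))) hξ hz hcop'
  apply h0
  rw [← h1]
  unfold F
  refine sum_congr rfl fun j _ => ?_
  rw [← χ_nsmul, ← dot_nsmul, smul_smul]
  congr 2
  rw [← mod_addOrderOf_nsmul, mul_comm, hk'.2, one_smul]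

/-- the dense case -/
theorem partB (h : Sp a b) {p k : ℕ} (hp : p.Prime) (hk : p ^ k ∣ q)
    (hn : q ^ 2 < n * (p + 1)) : n * p = q ^ 2 ∨ p ^ (2 * k) ∣ n := by
  classical
  have hN : NeZero (p ^ k) := ⟨pow_ne_zero _ hp.ne_zero⟩
  by_cases hE : ∃ x : ℤ × ℤ, el q (p ^ k) x ≠ 0 ∧ F b (el q (p ^ k) x) ≠ 0
  · left
    obtain ⟨x, hx0, hx⟩ := hE
    set g := el q (p ^ k) x with hg
    have hpg : p ^ k • g = 0 := by
      have key : ∀ z : ℤ, p ^ k • ((((q / p ^ k : ℕ) : ℤ) * z : ℤ) : ZMod q) = 0 := by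
        intro z
        rw [nsmul_eq_mul]
        have h1 : ((p ^ k : ℕ) : ZMod q) * ((((q / p ^ k : ℕ) : ℤ) * z : ℤ) : ZMod q) =
            (((p ^ k * (q / p ^ k) : ℕ) : ℕ) : ZMod q) * (z : ZMod q) := by
          rw [Int.cast_mul, Int.cast_natCast, Nat.cast_mul (p ^ k)]
          ring
        rw [h1, Nat.mul_div_cancel' hk, ZMod.natCast_self, zero_mul]
      exact Prod.ext (key _) (key _)
    have hord : addOrderOf g ∣ p ^ k := addOrderOf_dvd_of_nsmul_eq_zero hpg
    have hord1 : 1 < addOrderOf g := by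
      have h1 : addOrderOf g ≠ 1 := by
        rw [Ne, AddMonoid.addOrderOf_eq_one_iff]
        exact hx0
      have h2 : 0 < addOrderOf g := Nat.pos_of_dvd_of_pos hord (pow_pos hp.pos k)
      omega
    have hpord : p ∣ addOrderOf g := by
      obtain ⟨i, hi, he⟩ := (Nat.dvd_prime_pow hp).1 hord
      rw [he]
      apply dvd_pow_self
      rintro rfl
      rw [pow_zero] at he
      omega
    have hcop : ∀ i : ℕ, 0 < i → i < p → i.Coprime (addOrderOf g) := by
      intro i h1 h2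
      have h3 : i.Coprime (p ^ k) := by
        apply Nat.Coprime.pow_right
        rw [Nat.coprime_comm]
        exact (hp.coprime_iff_not_dvd).2 fun h4 => by
          have := Nat.le_of_dvd h1 h4
          omega
      exact Nat.Coprime.coprime_dvd_right hord h3
    have h1 := h.packing ((range p).image fun i => i • g) (by
      intro x hx y hy hxy
      rw [mem_image] at hx hy
      obtain ⟨i, hi, rfl⟩ := hx
      obtain ⟨j, hj, rfl⟩ := hy
      rw [mem_range] at hi hj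
      rcases lt_trichotomy i j with hij | hij | hij
      · refine F_sub_ne ?_
        have h2 : j • g - i • g = (j - i) • g := by
          rw [sub_eq_iff_eq_add, ← add_smul, Nat.sub_add_cancel hij.le]
        rw [h2]
        exact F_gal ‹_› (hcop _ (by omega) (by omega)) hord1
      · exact absurd (by rw [hij]) hxy
      · have h2 : i • g - j • g = (i - j) • g := by
          rw [sub_eq_iff_eq_add, ← add_smul, Nat.sub_add_cancel hij.le]
        rw [h2]
        exact F_gal ‹_› (hcop _ (by omega) (by omega)) hord1)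
    have hle : p ≤ addOrderOf g := Nat.le_of_dvd (by omega) hpord
    have hc : ((range p).image fun i => i • g).card = p := by
      rw [card_image_of_injOn, card_range]
      intro i hi j hj hij
      rw [coe_range, Set.mem_Iio] at hi hj
      exact nsmul_injOn_Iio_addOrderOf (Set.mem_Iio.mpr (by omega)) (Set.mem_Iio.mpr (by omega)) hij
    rw [hc] at h1
    rcases h1 with h1 | h1
    · rw [h1, mul_comm]
    · rw [mul_comm] at h1
      omega
  · right
    push Not at hE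
    -- sum over the group
    have hsum : ∑ s ∈ range (p ^ k), ∑ t ∈ range (p ^ k), F b (el q (p ^ k) ((s : ℤ), (t : ℤ))) =
        (n : ℂ) := by
      have hpos : 0 < p ^ k := pow_pos hp.pos k
      have hz : ∀ s ∈ range (p ^ k), ∀ t ∈ range (p ^ k), ¬ (s = 0 ∧ t = 0) →
          F b (el q (p ^ k) ((s : ℤ), (t : ℤ))) = 0 := by
        intro s hs t ht hst
        apply hE
        intro h0
        obtain ⟨h1, h2⟩ := el_zero hk h0
        have h1 : ((p ^ k : ℕ) : ℤ) ∣ (s : ℤ) := h1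
        have h2 : ((p ^ k : ℕ) : ℤ) ∣ (t : ℤ) := h2
        apply hst
        rw [mem_range] at hs ht
        exact ⟨Nat.eq_zero_of_dvd_of_lt (by exact_mod_cast h1) hs,
          Nat.eq_zero_of_dvd_of_lt (by exact_mod_cast h2) ht⟩
      rw [sum_eq_single 0, sum_eq_single 0]
      · have h1 : el q (p ^ k) (((0 : ℕ) : ℤ), ((0 : ℕ) : ℤ)) = 0 := by
          refine Prod.ext ?_ ?_ <;> simp [el]
        rw [h1, F_zero]
      · intro t ht ht0
        exact hz 0 (mem_range.2 hpos) t ht fun h1 => ht0 h1.2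
      · intro h1
        exact absurd (mem_range.2 hpos) h1
      · intro s hs hs0
        exact sum_eq_zero fun t ht => hz s hs t ht fun h1 => hs0 h1.1
      · intro h1
        exact absurd (mem_range.2 hpos) h1
    -- orthogonality
    have horth : ∀ z : ℤ, ∑ s ∈ range (p ^ k), ee (p ^ k) (s * z) =
        if ((p ^ k : ℕ) : ℤ) ∣ z then ((p ^ k : ℕ) : ℂ) else 0 := by
      intro z
      by_cases hz : ((p ^ k : ℕ) : ℤ) ∣ z
      · rw [if_pos hz]
        have h1 : ∀ s ∈ range (p ^ k), ee (p ^ k) (s * z) = 1 := by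
          intro s _
          rw [← ee_zero (p ^ k)]
          apply ee_congr
          rw [sub_zero]
          exact Dvd.dvd.mul_left hz _
        rw [sum_congr rfl h1, sum_const, card_range, nsmul_eq_mul, mul_one]
      · rw [if_neg hz]
        have h1 := sum_shift_one (p ^ k) (fun s : ℤ => ee (p ^ k) (s * z)) (by
          intro s
          apply ee_congr
          exact ⟨z, by ring⟩)
        have h2 : ∀ s : ℕ, ee (p ^ k) (((s : ℤ) + 1) * z) = ee (p ^ k) z * ee (p ^ k) (s * z) := by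
          intro s
          rw [← ee_add]
          congr 1
          ring
        simp only [h2] at h1
        rw [← mul_sum] at h1
        have h3 : ee (p ^ k) z ≠ 1 := by
          intro h4
          apply hz
          rw [ee_std] at h4
          rw [← ZMod.intCast_zmod_eq_zero_iff_dvd]
          apply ZMod.injective_stdAddChar (N := p ^ k)
          rw [h4, AddChar.map_zero_eq_one]
        have h4 : (ee (p ^ k) z - 1) * ∑ s ∈ range (p ^ k), ee (p ^ k) (s * z) = 0 := by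
          rw [sub_mul, h1, one_mul, sub_self]
        exact (mul_eq_zero.1 h4).resolve_left (sub_ne_zero.2 h3)
    have hval : ∑ s ∈ range (p ^ k), ∑ t ∈ range (p ^ k), F b (el q (p ^ k) ((s : ℤ), (t : ℤ))) =
        ((p ^ (2 * k) * #{j | ((p ^ k : ℕ) : ℤ) ∣ ((b j).1.val : ℤ) ∧
          ((p ^ k : ℕ) : ℤ) ∣ ((b j).2.val : ℤ)} : ℕ) : ℂ) := by
      have h1 : ∀ s ∈ range (p ^ k), ∀ t ∈ range (p ^ k), F b (el q (p ^ k) ((s : ℤ), (t : ℤ))) =
          ∑ j, ee (p ^ k) (s * ((b j).1.val : ℤ)) * ee (p ^ k) (t * ((b j).2.val : ℤ)) := by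
        intro s _ t _
        rw [F_el hk]
        exact sum_congr rfl fun j _ => ee_add _ _ _
      rw [sum_congr rfl fun s hs => sum_congr rfl (h1 s hs)]
      rw [sum_congr rfl fun s _ => sum_comm, sum_comm]
      have h2 : ∀ j : Fin n, ∑ s ∈ range (p ^ k), ∑ t ∈ range (p ^ k),
          ee (p ^ k) (s * ((b j).1.val : ℤ)) * ee (p ^ k) (t * ((b j).2.val : ℤ)) =
          if ((p ^ k : ℕ) : ℤ) ∣ ((b j).1.val : ℤ) ∧ ((p ^ k : ℕ) : ℤ) ∣ ((b j).2.val : ℤ)
            then ((p ^ (2 * k) : ℕ) : ℂ) else 0 := by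
        intro j
        rw [← sum_mul_sum, horth, horth]
        by_cases h3 : ((p ^ k : ℕ) : ℤ) ∣ ((b j).1.val : ℤ)
        · by_cases h4 : ((p ^ k : ℕ) : ℤ) ∣ ((b j).2.val : ℤ)
          · rw [if_pos h3, if_pos h4, if_pos ⟨h3, h4⟩]
            push_cast
            ring
          · rw [if_neg h4, mul_zero, if_neg fun h5 => h4 h5.2]
        · rw [if_neg h3, zero_mul, if_neg fun h5 => h3 h5.1]
      rw [sum_congr rfl fun j _ => h2 j, sum_ite, sum_const_zero, add_zero, sum_const,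
        nsmul_eq_mul]
      push_cast
      ring
    rw [hsum] at hval
    have h1 : n = p ^ (2 * k) * #{j | ((p ^ k : ℕ) : ℤ) ∣ ((b j).1.val : ℤ) ∧
          ((p ^ k : ℕ) : ℤ) ∣ ((b j).2.val : ℤ)} := by exact_mod_cast hval
    rw [h1]
    exact dvd_mul_right _ _

end Pool.Agent.Lib.MP_2b2af9_co.Lev
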