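import Mathlib

/-! Basic facts on the module `(ZMod (p^2))^2`. -/

open Finset

set_option linter.unusedSectionVars false

namespace BHp2

variable {p : ℕ} [hp : Fact p.Prime]

abbrev R (p : ℕ) := ZMod (p ^ 2)
abbrev V (p : ℕ) := ZMod (p ^ 2) × ZMod (p ^ 2)

def dot (x y : V p) : R p := x.1 * y.1 + x.2 * y.2
def rot (x : V p) : V p := (-x.2, x.1)

instance : NeZero (p ^ 2) := ⟨pow_ne_zero 2 hp.out.ne_zero⟩

theorem dot_comm (x y : V p) : dot x y = dot y x := by unfold dot; ring
theorem dot_add (x y z : V p) : dot x (y + z) = dot x y + dot x z := by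
  simp only [dot, Prod.fst_add, Prod.snd_add]; ring
theorem dot_sub (x y z : V p) : dot x (y - z) = dot x y - dot x z := by
  simp only [dot, Prod.fst_sub, Prod.snd_sub]; ring
theorem sub_dot (x y z : V p) : dot (x - y) z = dot x z - dot y z := by
  simp only [dot, Prod.fst_sub, Prod.snd_sub]; ring
theorem add_dot (x y z : V p) : dot (x + y) z = dot x z + dot y z := by
  simp only [dot, Prod.fst_add, Prod.snd_add]; ring
theorem dot_smul (c : R p) (x y : V p) : dot x (c • y) = c * dot x y := by
  simp only [dot, Prod.smul_fst, Prod.smul_snd, smul_eq_mul]; ring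
theorem smul_dot (c : R p) (x y : V p) : dot (c • x) y = c * dot x y := by
  simp only [dot, Prod.smul_fst, Prod.smul_snd, smul_eq_mul]; ring
theorem dot_zero (x : V p) : dot x 0 = 0 := by simp [dot]
theorem rot_smul (c : R p) (x : V p) : rot (c • x) = c • rot x := by
  simp [rot, Prod.smul_def]
theorem rot_sub (x y : V p) : rot (x - y) = rot x - rot y := by
  ext
  · simp only [rot, Prod.fst_sub, Prod.snd_sub]; ring
  · simp only [rot, Prod.fst_sub, Prod.snd_sub]
theorem rot_rot (x : V p) : rot (rot x) = -x := by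
  ext <;> simp [rot]
theorem dot_rot_self (x : V p) : dot (rot x) x = 0 := by
  unfold dot rot; ring
theorem dot_rot_rot (x y : V p) : dot (rot x) (rot y) = dot x y := by
  unfold dot rot; ring

/-- `p` as an element of the ring -/
abbrev π (p : ℕ) : R p := (p : ZMod (p ^ 2))

theorem pp : π p * π p = 0 := by
  have : ((p ^ 2 : ℕ) : ZMod (p ^ 2)) = 0 := ZMod.natCast_self _
  rw [Nat.cast_pow] at this
  rw [← sq]; exact this

theorem p_ne_zero : π p ≠ 0 := by
  intro h
  have h2 := (ZMod.natCast_eq_zero_iff p (p ^ 2)).mp h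
  have h3 := Nat.le_of_dvd hp.out.pos h2
  have h4 := hp.out.two_le
  nlinarith

/-- an element killed by `p` is a multiple of `p` -/
theorem mul_eq_zero_iff (s : R p) : π p * s = 0 ↔ ∃ t, s = π p * t := by
  constructor
  · intro h
    have hs : ((s.val : ℕ) : R p) = s := ZMod.natCast_zmod_val s
    have h' : p ^ 2 ∣ p * s.val := (ZMod.natCast_eq_zero_iff _ _).mp (by
      push_cast; rw [hs]; exact h)
    have h'' : p * p ∣ p * s.val := by rw [← sq]; exact h'
    have h2 : p ∣ s.val := Nat.dvd_of_mul_dvd_mul_left hp.out.pos h''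
    obtain ⟨t, ht⟩ := h2
    refine ⟨(t : R p), ?_⟩
    rw [← hs, ht]; push_cast; ring
  · rintro ⟨t, rfl⟩
    rw [← mul_assoc, pp, zero_mul]

theorem isUnit_of (s : R p) (h : π p * s ≠ 0) : IsUnit s := by
  have hs : ((s.val : ℕ) : R p) = s := ZMod.natCast_zmod_val s
  rw [← hs, ZMod.isUnit_iff_coprime]
  have h2 : ¬ p ∣ s.val := by
    rintro ⟨t, ht⟩
    apply h
    rw [mul_eq_zero_iff]
    refine ⟨(t : R p), ?_⟩
    rw [← hs, ht]; push_cast; ring
  exact ((Nat.Prime.coprime_iff_not_dvd hp.out).mpr h2).symm.pow_right 2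

theorem unit_mul_ne (s : R p) (h : IsUnit s) : π p * s ≠ 0 := by
  intro h2
  obtain ⟨u, rfl⟩ := h
  have : π p = π p * u * ↑u⁻¹ := by rw [mul_assoc, Units.mul_inv, mul_one]
  rw [h2, zero_mul] at this
  exact p_ne_zero this

/-- vectors killed by `p` -/
theorem smul_eq_zero_iff (x : V p) : π p • x = 0 ↔ ∃ w : V p, x = π p • w := by
  constructor
  · intro h
    have h1 : π p * x.1 = 0 := congrArg Prod.fst h
    have h2 : π p * x.2 = 0 := congrArg Prod.snd h
    obtain ⟨t1, ht1⟩ := (mul_eq_zero_iff _).mp h1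
    obtain ⟨t2, ht2⟩ := (mul_eq_zero_iff _).mp h2
    exact ⟨(t1, t2), Prod.ext ht1 ht2⟩
  · rintro ⟨w, rfl⟩
    rw [smul_smul, pp, zero_smul]

/-- primitive vectors -/
def Prim (x : V p) : Prop := π p • x ≠ 0

theorem Prim.unit {x : V p} (h : Prim x) : IsUnit x.1 ∨ IsUnit x.2 := by
  by_contra hc
  push Not at hc
  apply h
  have h1 : π p * x.1 = 0 := by
    by_contra h1; exact hc.1 (isUnit_of _ h1)
  have h2 : π p * x.2 = 0 := by
    by_contra h2; exact hc.2 (isUnit_of _ h2)
  exact Prod.ext h1 h2

theorem Prim.rot {x : V p} (h : Prim x) : Prim (rot x) := by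
  intro h2
  apply h
  have h3 := congrArg BHp2.rot h2
  rw [rot_smul, rot_rot] at h3
  have h4 : BHp2.rot (0 : V p) = 0 := by simp [BHp2.rot]
  rw [h4, smul_neg, neg_eq_zero] at h3
  exact h3

theorem Prim.smul {x : V p} (h : Prim x) {c : R p} (hc : IsUnit c) : Prim (c • x) := by
  intro h2
  apply h
  obtain ⟨u, rfl⟩ := hc
  rw [smul_comm] at h2
  have h3 := congrArg (fun y => (↑u⁻¹ : R p) • y) h2
  simpa [smul_smul] using h3

/-- the annihilator of a primitive vector -/
theorem Prim.exists_smul {g x : V p} (hg : Prim g) (h : dot (BHp2.rot g) x = 0) :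
    ∃ l : R p, x = l • g := by
  unfold dot BHp2.rot at h
  simp only at h
  rcases hg.unit with h1 | h2
  · obtain ⟨u, hu⟩ := h1
    refine ⟨x.1 * ↑u⁻¹, ?_⟩
    apply Prod.ext
    · simp only [Prod.smul_fst, smul_eq_mul]
      rw [← hu, mul_assoc, Units.inv_mul, mul_one]
    · simp only [Prod.smul_snd, smul_eq_mul]
      have h3 : g.1 * x.2 = g.2 * x.1 := by linear_combination h
      have : x.2 = ↑u⁻¹ * (g.1 * x.2) := by rw [← hu, ← mul_assoc, Units.inv_mul, one_mul]
      rw [this, h3]; ring
  · obtain ⟨u, hu⟩ := h2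
    refine ⟨x.2 * ↑u⁻¹, ?_⟩
    apply Prod.ext
    · simp only [Prod.smul_fst, smul_eq_mul]
      have h3 : g.2 * x.1 = g.1 * x.2 := by linear_combination -h
      have : x.1 = ↑u⁻¹ * (g.2 * x.1) := by rw [← hu, ← mul_assoc, Units.inv_mul, one_mul]
      rw [this, h3]; ring
    · simp only [Prod.smul_snd, smul_eq_mul]
      rw [← hu, mul_assoc, Units.inv_mul, mul_one]

/-- the same modulo `p` -/
theorem Prim.exists_smul' {g x : V p} (hg : Prim g) (h : π p * dot (BHp2.rot g) x = 0) :
    ∃ l : R p, π p • x = π p • (l • g) := by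
  have h1 : dot (BHp2.rot g) (π p • x) = 0 := by rw [dot_smul]; exact h
  obtain ⟨l, hl⟩ := hg.exists_smul h1
  have h2 : π p • (l • g) = 0 := by
    have : π p • (π p • x) = 0 := by rw [smul_smul, pp, zero_smul]
    rw [hl] at this; exact this
  have h3 : π p * l = 0 := by
    by_contra h3
    exact (hg.smul (isUnit_of _ h3)) h2
  obtain ⟨t, ht⟩ := (mul_eq_zero_iff _).mp h3
  refine ⟨t, ?_⟩
  rw [hl, ht, smul_smul]

/-- number of values of multiplication by `p` -/
theorem card_p_mul : (univ.image (fun s : R p => π p * s)).card = p := by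
  have h1 : univ.image (fun s : R p => π p * s) = (range p).image (fun k : ℕ => π p * (k : R p)) := by
    ext y
    simp only [mem_image, mem_univ, true_and, mem_range]
    constructor
    · rintro ⟨s, rfl⟩
      refine ⟨s.val % p, Nat.mod_lt _ hp.out.pos, ?_⟩
      have hs : ((s.val : ℕ) : R p) = s := ZMod.natCast_zmod_val s
      have h2 : (s : R p) = ((s.val % p + p * (s.val / p) : ℕ) : R p) := by
        rw [Nat.mod_add_div, hs]
      conv_rhs => rw [h2]
      push_cast
      rw [mul_add, ← mul_assoc, pp, zero_mul, add_zero]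
    · rintro ⟨k, -, rfl⟩
      exact ⟨_, rfl⟩
  rw [h1, card_image_of_injOn, card_range]
  intro k hk l hl h
  simp only [coe_range, Set.mem_Iio] at hk hl
  simp only [← Nat.cast_mul] at h
  have h2 := (ZMod.natCast_eq_natCast_iff' (p * k) (p * l) (p ^ 2)).mp h
  rw [Nat.mod_eq_of_lt, Nat.mod_eq_of_lt] at h2
  · exact Nat.eq_of_mul_eq_mul_left hp.out.pos h2
  · rw [sq]; exact Nat.mul_lt_mul_of_pos_left hl hp.out.pos
  · rw [sq]; exact Nat.mul_lt_mul_of_pos_left hk hp.out.pos

/-- the directions -/
def dir (p : ℕ) : Option (ZMod p) → V p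
  | none => (0, 1)
  | some m => (1, ((ZMod.val m : ℕ) : R p))

theorem dir_prim (v : Option (ZMod p)) : Prim (dir p v) := by
  intro h
  cases v with
  | none =>
    have := congrArg Prod.snd h
    simp [dir] at this
    exact p_ne_zero this
  | some m =>
    have := congrArg Prod.fst h
    simp [dir] at this
    exact p_ne_zero this

/-- every nonzero residue vector has exactly one direction -/
theorem dir_unique (x : V p) (hx : Prim x) : ∃! v : Option (ZMod p), π p * dot (rot (dir p v)) x = 0 := by
  have hval : ∀ s : R p, ((s.val : ℕ) : R p) = s := fun s => ZMod.natCast_zmod_val s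
  by_cases h1 : π p * x.1 = 0
  · refine ⟨none, ?_, ?_⟩
    · simp only [dir, rot, dot]
      linear_combination (-1 : R p) * h1
    · intro v hv
      cases v with
      | none => rfl
      | some m =>
        exfalso
        simp only [dir, rot, dot] at hv
        apply hx
        refine Prod.ext h1 ?_
        show π p * x.2 = 0
        linear_combination hv + ((ZMod.val m : ℕ) : R p) * h1
  · have hu := isUnit_of _ h1
    obtain ⟨u, hu⟩ := hu
    set s : R p := x.2 * ↑u⁻¹ with hs
    have hsx : s * x.1 = x.2 := by rw [hs, ← hu, mul_assoc, Units.inv_mul, mul_one]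
    set m : ZMod p := ((s.val : ℕ) : ZMod p) with hm
    have key : ∀ m' : ZMod p, π p * dot (rot (dir p (some m'))) x = 0 ↔ m' = m := by
      intro m'
      simp only [dir, rot, dot]
      have e : π p * (-((ZMod.val m' : ℕ) : R p) * x.1 + 1 * x.2) =
          π p * ((s - ((ZMod.val m' : ℕ) : R p))) * x.1 := by
        rw [← hsx]; ring
      rw [e]
      have e2 : π p * (s - ((ZMod.val m' : ℕ) : R p)) * x.1 = 0 ↔
          π p * (s - ((ZMod.val m' : ℕ) : R p)) = 0 := by
        constructor
        · intro h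
          have := congrArg (fun y => y * (↑u⁻¹ : R p)) h
          simp only [zero_mul] at this
          rw [← hu, mul_assoc, Units.mul_inv, mul_one] at this
          exact this
        · intro h; rw [h, zero_mul]
      rw [e2]
      have e3 : π p * (s - ((ZMod.val m' : ℕ) : R p)) =
          (((p : ℤ) * ((s.val : ℤ) - (ZMod.val m' : ℤ)) : ℤ) : R p) := by
        push_cast
        rw [hval s]
      rw [e3, ZMod.intCast_zmod_eq_zero_iff_dvd]
      have e4 : ((p ^ 2 : ℕ) : ℤ) = (p : ℤ) * p := by push_cast; ring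
      rw [e4, mul_dvd_mul_iff_left (by exact_mod_cast hp.out.ne_zero)]
      rw [← ZMod.intCast_zmod_eq_zero_iff_dvd]
      push_cast
      rw [ZMod.natCast_zmod_val, sub_eq_zero]
      exact eq_comm
    refine ⟨some m, (key m).mpr rfl, ?_⟩
    intro v hv
    cases v with
    | none =>
      exfalso
      simp only [dir, rot, dot] at hv
      apply h1
      linear_combination (-1 : R p) * hv
    | some m' => rw [(key m').mp hv]

end BHp2
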