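import Pool.Agent.Lib.MP_2b2af9_co.Pair

/-! The case analysis. -/

open Finset

set_option linter.unusedSectionVars false

namespace BHp2

variable {p : ℕ} [hp : Fact p.Prime] {I J : Type} [Fintype I] [DecidableEq I] [Fintype J] [DecidableEq J]

theorem SP.exists_pt {a : I → V p} {b : J → V p} (h : SP a b) : Nonempty I := Fintype.card_pos_iff.mp h.pos

/-- if all directions are planar, then `n = p^2` -/
theorem noF {a : I → V p} {b : J → V p} (h : SP a b) (hX : ∀ c, Prim c → XX a c)
    (hF : ∀ v, ¬ FF b (dir p v)) : Fintype.card I = p ^ 2 := by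
  obtain ⟨i₀⟩ := h.exists_pt
  have h1 : ∀ v ∈ (univ : Finset (Option (ZMod p))), om a (dir p v) (a i₀) = p * N a (dir p v) (a i₀) := by
    intro v _
    exact (planar h.hab (dir_prim v) (hX _ (dir_prim v).rot) (hF v) i₀).symm
  have h2 := I1 full_dir a (a i₀)
  have h3 := I2 full_dir a (a i₀)
  rw [sum_congr rfl h1, ← mul_sum, h3] at h2
  have h4 : (univ.filter fun i => a i = a i₀).card = 1 := by
    rw [card_eq_one]
    refine ⟨i₀, ?_⟩
    ext i
    simp only [mem_filter, mem_univ, true_and, mem_singleton]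
    exact h.inj.eq_iff
  rw [h4] at h2
  have h5 : p * (w a (a i₀) + p * 1) = p * w a (a i₀) + p ^ 2 := by ring
  rw [h5] at h2
  exact (Nat.add_left_cancel h2).symm

theorem card_self {a : I → V p} {b : J → V p} (h : SP a b) (i₀ : I) :
    (univ.filter fun i => a i = a i₀).card = 1 := by
  rw [card_eq_one]
  refine ⟨i₀, ?_⟩
  ext i
  simp only [mem_filter, mem_univ, true_and, mem_singleton]
  exact h.inj.eq_iff

/-- transfer of full directions -/
theorem transfer {a : I → V p} {b : J → V p} (h : SP a b) (hY : p < (cl a).card)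
    (hZ : p < (cl b).card) {v : V p} (hv : Prim v) (hF : FF b v) : FF a (rot v) := by
  by_contra hn
  obtain ⟨j, j', h1, h2⟩ := exists_pair hZ (rot v)
  have h3 := planar h.hba hv.rot (many_X h hY hv.rot.rot) hn j'
  have h4 : p * N b (rot v) (b j') = w b (b j') :=
    FL hv.rot (by rw [rot_rot]; exact hF.neg) (b j')
  have h5 := add_le_om h1 h2
  have h6 := one_le_w b j
  omega

theorem T1_big {a : I → V p} {b : J → V p} (h : SP a b) (hY : p < (cl a).card)
    (hZ : p < (cl b).card) (ha : ∀ u, Prim u → E a (π p • u)) : Fintype.card I = p ^ 2 ∨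
    Fintype.card I = p ^ 3 ∨ Fintype.card I = p ^ 4 := by
  obtain ⟨i₀⟩ := h.exists_pt
  have hw := S_all ha (a i₀)
  have h1 : ∀ v ∈ (univ : Finset (Option (ZMod p))), w a (a i₀) ∣ p * N a (dir p v) (a i₀) := by
    intro v _
    by_cases hF : FF b (dir p v)
    · rw [FL (dir_prim v) (transfer h hY hZ (dir_prim v) hF) (a i₀)]
    · rw [planar h.hab (dir_prim v) (many_X h.symm hZ (dir_prim v).rot) hF i₀]
      have h2 := S_om (ha _ (dir_prim v).rot) (a i₀)
      rw [← hw, sq, mul_assoc] at h2
      have h3 := Nat.eq_of_mul_eq_mul_left hp.out.pos h2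
      rw [h3]
      exact dvd_mul_left _ _
  have h2 := dvd_sum h1
  rw [← mul_sum, I2 full_dir a (a i₀), card_self h i₀, mul_add, mul_one] at h2
  have h3 : w a (a i₀) ∣ p * p := (Nat.dvd_add_right (dvd_mul_left _ _)).mp h2
  rw [← sq] at h3
  obtain ⟨m, hm, hm2⟩ := (Nat.dvd_prime_pow hp.out).mp h3
  rw [hm2] at hw
  interval_cases m
  · left; rw [← hw]; ring
  · right; left; rw [← hw]; ring
  · right; right; rw [← hw]; ring

theorem T1 {a : I → V p} {b : J → V p} (h : SP a b) (hY : p < (cl a).card)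
    (hZ : p < (cl b).card) : Fintype.card I = p ^ 2 ∨
    Fintype.card I = p ^ 3 ∨ Fintype.card I = p ^ 4 := by
  obtain ⟨i₀⟩ := h.exists_pt
  obtain ⟨j₀⟩ := h.symm.exists_pt
  by_cases hb : ∃ j, p < w b (b j)
  · obtain ⟨j, hj⟩ := hb
    exact T1_big h hY hZ (fun u hu => many_S h.symm hj hu)
  by_cases ha : ∃ i, p < w a (a i)
  · obtain ⟨i, hi⟩ := ha
    rw [h.hc]
    exact T1_big h.symm hZ hY (fun u hu => many_S h hi hu)
  push Not at hb ha
  by_cases hF : ∀ v, ¬ FF b (dir p v)
  · left
    exact noF h (fun c hc => many_X h.symm hZ hc) hF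
  push Not at hF
  obtain ⟨v₀, hv₀⟩ := hF
  have hwa : ∀ i, w a (a i) = p := by
    intro i
    apply le_antisymm (ha i)
    rw [← FL (dir_prim v₀) (transfer h hY hZ (dir_prim v₀) hv₀) (a i)]
    exact Nat.le_mul_of_pos_right _ (one_le_N _ _ _)
  have hex : ∃ v, ¬ FF b (dir p v) ∧ 2 ≤ N a (dir p v) (a i₀) := by
    by_contra hcon
    push Not at hcon
    have h1 : ∀ v ∈ (univ : Finset (Option (ZMod p))), N a (dir p v) (a i₀) ≤ 1 := by
      intro v _
      by_cases hF : FF b (dir p v)
      · have h2 := FL (dir_prim v) (transfer h hY hZ (dir_prim v) hF) (a i₀)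
        rw [hwa i₀] at h2
        have h3 : p * N a (dir p v) (a i₀) = p * 1 := by rw [h2, mul_one]
        exact (Nat.eq_of_mul_eq_mul_left hp.out.pos h3).le
      · have := hcon v hF
        omega
    have h2 := sum_le_sum h1
    rw [I2 full_dir a (a i₀), card_self h i₀, hwa i₀] at h2
    simp [ZMod.card] at h2
    have := hp.out.two_le
    omega
  obtain ⟨v, hv, hN⟩ := hex
  have hEb := N2 h (dir_prim v) hN
  have hnF : ¬ FF a (rot (dir p v)) := by
    intro hh
    apply hv
    have h1 := transfer h.symm hZ hY (dir_prim v).rot hh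
    rw [rot_rot] at h1
    exact FF_neg_iff.mp h1
  have hom : ∀ y, p * om b (rot (dir p v)) y = Fintype.card I := by
    intro y
    rw [h.hc]
    apply S_om
    rw [rot_rot, smul_neg]
    exact hEb.neg
  have hpl : ∀ j, p * N b (rot (dir p v)) (b j) = om b (rot (dir p v)) (b j) :=
    fun j => planar h.hba (dir_prim v).rot (many_X h hY (dir_prim v).rot.rot) hnF j
  have hn : p ^ 2 * N b (rot (dir p v)) (b j₀) = Fintype.card I := by
    rw [← hom (b j₀), ← hpl j₀]; ring
  by_cases hN2 : 2 ≤ N b (rot (dir p v)) (b j₀)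
  · have hEa := N2 h.symm (dir_prim v).rot hN2
    have hn' : ∀ i, p ^ 2 * N a (dir p v) (a i) = Fintype.card I := by
      intro i
      rw [← S_om hEa (a i), ← planar h.hab (dir_prim v) (many_X h.symm hZ (dir_prim v).rot) hv i]
      ring
    have hk : N a (dir p v) (a i₀) ∣ w a (a i₀) := by
      apply N_dvd_w (v := dir p v)
      intro i _
      have h1 := (hn' i).trans (hn' i₀).symm
      exact Nat.eq_of_mul_eq_mul_left (pow_pos hp.out.pos 2) h1
    rw [hwa i₀] at hk
    rcases (Nat.dvd_prime hp.out).mp hk with h1 | h1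
    · left; rw [← hn' i₀, h1]; ring
    · right; left; rw [← hn' i₀, h1]; ring
  · left
    have h1 := one_le_N b (rot (dir p v)) j₀
    have h2 : N b (rot (dir p v)) (b j₀) = 1 := by omega
    rw [← hn, h2]; ring

theorem p_dvd_w {a : I → V p} {b : J → V p} (h : SP a b) (hY : (cl a).card ≤ p)
    (hZ : p < (cl b).card) (i₀ : I) : p ∣ w a (a i₀) := by
  by_contra hnd
  have h1 : ∀ v : Option (ZMod p), ∃ i, π p • (a i - a i₀) ≠ 0 ∧
      π p * dot (rot (dir p v)) (a i - a i₀) = 0 := by
    intro v
    by_contra hcon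
    push Not at hcon
    apply hnd
    have h2 : w a (a i₀) = om a (dir p v) (a i₀) := by
      unfold w om
      congr 1
      ext i
      simp only [mem_filter, mem_univ, true_and]
      constructor
      · intro h3; rw [← dot_smul, h3, dot_zero]
      · intro h3
        by_contra h4
        exact hcon i h4 h3
    rw [h2]
    exact om_dvd (many_X h.symm hZ (dir_prim v).rot) _
  choose f hf1 hf2 using h1
  have hinj : Function.Injective (fun v => π p • a (f v)) := by
    intro v v' hvv
    simp only at hvv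
    obtain ⟨v1, -, hu⟩ := dir_unique (a (f v) - a i₀) (hf1 v)
    have e1 := hu v (hf2 v)
    have e2 : v' = v1 := by
      apply hu
      have h3 := hf2 v'
      rw [← dot_smul, smul_sub, ← hvv, ← smul_sub, dot_smul] at h3
      exact h3
    rw [e1, e2]
  have h2 : (univ.image (fun v => π p • a (f v))).card ≤ (cl a).card := by
    apply card_le_card
    intro y hy
    obtain ⟨v, -, rfl⟩ := mem_image.mp hy
    exact mem_cl a _
  rw [card_image_of_injective _ hinj] at h2
  simp [ZMod.card] at h2
  omega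

theorem T2 {a : I → V p} {b : J → V p} (h : SP a b) (hY : (cl a).card ≤ p)
    (hZ : p < (cl b).card) : Fintype.card I = p ∨ Fintype.card I = p ^ 2 ∨
    Fintype.card I = p ^ 3 := by
  obtain ⟨i₀⟩ := h.exists_pt
  obtain ⟨j₀⟩ := h.symm.exists_pt
  have hp2 := hp.out.two_le
  have hX : ∀ c, Prim c → XX a c := fun c hc => many_X h.symm hZ hc
  by_cases ha : ∃ i, p < w a (a i)
  · right
    obtain ⟨i, hi⟩ := ha
    have hw := S_all (fun u hu => many_S h hi hu) (b j₀)
    rw [← h.hc] at hw
    by_cases hF : ∀ v, ¬ FF b (dir p v)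
    · left; exact noF h hX hF
    · right
      push Not at hF
      obtain ⟨v, hv⟩ := hF
      have h1 : p * N b (rot (dir p v)) (b j₀) = w b (b j₀) :=
        FL (dir_prim v).rot (by rw [rot_rot]; exact hv.neg) (b j₀)
      have h2 : Fintype.card I ≤ p ^ 2 * (cl a).card := card_le_of_w (fun i => w_le h.inj _)
      have h3 : p ^ 2 * w b (b j₀) ≤ p ^ 2 * p := by
        rw [hw]; exact h2.trans (Nat.mul_le_mul_left _ hY)
      have h4 : w b (b j₀) ≤ p := Nat.le_of_mul_le_mul_left h3 (pow_pos hp.out.pos 2)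
      have h5 : w b (b j₀) = p := by
        apply le_antisymm h4
        rw [← h1]
        exact Nat.le_mul_of_pos_right _ (one_le_N _ _ _)
      rw [← hw, h5]; ring
  push Not at ha
  have hwa : ∀ i, w a (a i) = p := fun i =>
    le_antisymm (ha i) (Nat.le_of_dvd (one_le_w a i) (p_dvd_w h hY hZ i))
  have hn : Fintype.card I = p * (cl a).card :=
    le_antisymm (card_le_of_w (fun i => (hwa i).le)) (le_card_of_w (fun i => (hwa i).ge))
  have hn2 : Fintype.card I ≤ p ^ 2 := by
    rw [hn, sq]; exact Nat.mul_le_mul_left _ hY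
  by_cases hY1 : (cl a).card ≤ 1
  · left
    have h1 : 0 < (cl a).card := card_pos.mpr ⟨_, mem_cl a i₀⟩
    have h2 : (cl a).card = 1 := by omega
    rw [hn, h2, mul_one]
  right; left
  push Not at hY1
  obtain ⟨y, hy, y', hy', hne⟩ := one_lt_card.mp hY1
  simp only [cl, mem_image, mem_univ, true_and] at hy hy'
  obtain ⟨i₁, rfl⟩ := hy
  obtain ⟨i₂, rfl⟩ := hy'
  set v := a i₁ - a i₂ with hvdef
  have hv : Prim v := by
    unfold Prim
    rw [hvdef, smul_sub]; exact sub_ne_zero.mpr hne
  have hnF : ¬ FF b v := by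
    intro hF
    have h1 : ∀ j, p * N b (rot v) (b j) = w b (b j) :=
      fun j => FL hv.rot (by rw [rot_rot]; exact hF.neg) (b j)
    have h2 : ∀ j, p ≤ w b (b j) := by
      intro j
      rw [← h1 j]
      exact Nat.le_mul_of_pos_right _ (one_le_N _ _ _)
    have h3 := le_card_of_w h2
    rw [← h.hc] at h3
    have h4 : p * p < p * (cl b).card := Nat.mul_lt_mul_of_pos_left hZ hp.out.pos
    rw [← sq] at h4
    omega
  have hpl : ∀ i, p * N a v (a i) = om a v (a i) := fun i => planar h.hab hv (hX _ hv.rot) hnF i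
  have hom : 2 * p ≤ om a v (a i₂) := by
    have h1 := add_le_om (a := a) (v := v) (x := a i₂) (i := i₁) hv
      (by rw [← hvdef, dot_rot_self, mul_zero])
    rw [hwa, hwa] at h1
    omega
  have hk : N a v (a i₂) ∣ w a (a i₂) := by
    apply N_dvd_w (v := v)
    intro i hi
    have h1 : p * N a v (a i) = p * N a v (a i₂) := by
      rw [hpl, hpl, om_congr hi]
    exact Nat.eq_of_mul_eq_mul_left hp.out.pos h1
  rw [hwa] at hk
  rcases (Nat.dvd_prime hp.out).mp hk with h1 | h1
  · exfalso
    have h2 := hpl i₂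
    rw [h1] at h2
    omega
  · have h2 := hpl i₂
    rw [h1] at h2
    have h3 := om_le a v (a i₂)
    rw [← h2, ← sq] at h3
    exact le_antisymm hn2 h3

end BHp2
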