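import Pool.Agent.Lib.MP_2b2af9_co.Cases

/-! The case of few classes. -/

open Finset

set_option linter.unusedSectionVars false

namespace BHp2

variable {p : ℕ} [hp : Fact p.Prime] {I J : Type} [Fintype I] [DecidableEq I] [Fintype J] [DecidableEq J]

theorem rot_neg_rot (y : V p) : rot (-rot y) = y := by
  have h2 : rot (-rot y) = -rot (rot y) := by
    rw [neg_eq_smul, rot_smul, ← neg_eq_smul]
  rw [h2, rot_rot, neg_neg]

theorem Prim.neg {y : V p} (h : Prim y) : Prim (-y) := by
  rw [neg_eq_smul]; exact h.smul isUnit_neg_one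

theorem exists_dot {y : V p} (hy : Prim y) (t : R p) : ∃ x, dot y x = t := by
  rcases hy.unit with h | h
  · obtain ⟨u, hu⟩ := h
    refine ⟨(↑u⁻¹ * t, 0), ?_⟩
    unfold dot
    simp only [mul_zero, add_zero]
    rw [← hu, ← mul_assoc, Units.mul_inv, one_mul]
  · obtain ⟨u, hu⟩ := h
    refine ⟨(0, ↑u⁻¹ * t), ?_⟩
    unfold dot
    simp only [mul_zero, zero_add]
    rw [← hu, ← mul_assoc, Units.mul_inv, one_mul]

/-- few classes and many points: all `p` classes are equally full -/
theorem T3a {a : I → V p} {b : J → V p} (h : SP a b) (hY : (cl a).card ≤ p)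
    (hZ : (cl b).card ≤ p) (hn : p < Fintype.card I) :
    (cl a).card = p ∧ ∀ i, p * w a (a i) = Fintype.card I := by
  have hc : (cl b).card < (univ : Finset J).card := by
    rw [card_univ, ← h.hc]; omega
  obtain ⟨j, -, j', -, hne, he⟩ := exists_ne_map_eq_of_card_lt_of_maps_to hc
    (f := fun j => π p • b j) (by
      intro j _
      exact mem_cl b j)
  have h1 : π p • (b j - b j') = 0 := by
    rw [smul_sub]; exact sub_eq_zero.mpr he
  obtain ⟨y, hy⟩ := (smul_eq_zero_iff _).mp h1
  have hyp : Prim y := prim_of_ne h.symm hne hy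
  have hE := h.hba j j' hne
  rw [hy] at hE
  have hom : ∀ x, p * om a (-rot y) x = Fintype.card I := by
    intro x
    apply S_om
    rw [rot_neg_rot]; exact hE
  have hsurj : (cl a).image (fun z => dot y z) = univ.image (fun s : R p => π p * s) := by
    ext z
    simp only [cl, mem_image, mem_univ, true_and]
    constructor
    · rintro ⟨_, ⟨i, rfl⟩, rfl⟩
      exact ⟨dot y (a i), by rw [dot_smul]⟩
    · rintro ⟨t, rfl⟩
      obtain ⟨x, hx⟩ := exists_dot hyp t
      have h2 := hom x
      have h3 : 0 < om a (-rot y) x := by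
        rcases Nat.eq_zero_or_pos (om a (-rot y) x) with h4 | h4
        · rw [h4, mul_zero] at h2; omega
        · exact h4
      obtain ⟨i, hi⟩ := card_pos.mp h3
      simp only [mem_filter, mem_univ, true_and] at hi
      rw [rot_neg_rot, dot_sub, hx, mul_sub, sub_eq_zero] at hi
      exact ⟨_, ⟨i, rfl⟩, by rw [dot_smul]; exact hi⟩
  have hcard : ((cl a).image (fun z => dot y z)).card = p := by rw [hsurj, card_p_mul]
  have hge : p ≤ (cl a).card := by
    have h2 := card_image_le (s := cl a) (f := fun z => dot y z)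
    omega
  have heq : (cl a).card = p := le_antisymm hY hge
  refine ⟨heq, fun i => ?_⟩
  have hinj : Set.InjOn (fun z => dot y z) (cl a : Set (V p)) := by
    rw [← card_image_iff, hcard, heq]
  rw [← hom (a i)]
  congr 1
  unfold w om
  congr 1
  ext i'
  simp only [mem_filter, mem_univ, true_and]
  rw [rot_neg_rot]
  constructor
  · intro h2; rw [← dot_smul, h2, dot_zero]
  · intro h2
    rw [dot_sub, mul_sub, sub_eq_zero, ← dot_smul, ← dot_smul] at h2
    have h3 := hinj (mem_coe.mpr (mem_cl a i')) (mem_coe.mpr (mem_cl a i)) h2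
    rw [smul_sub]; exact sub_eq_zero.mpr h3

/-- the second set is on one line -/
theorem T3b {a : I → V p} {b : J → V p} (h : SP a b) (hZ : (cl b).card ≤ p) {m : ℕ}
    (hm : m < p) (hwb : ∀ j, w b (b j) = m) {i i' : I} (hii : π p • (a i - a i') ≠ 0) (j j' : J) :
    π p * dot (a i - a i') (b j - b j') = 0 := by
  set z := a i - a i' with hz
  have hne : i ≠ i' := by
    rintro rfl
    apply hii
    rw [hz, sub_self, smul_zero]
  have hE := h.hab i i' hne
  rw [← hz] at hE
  set S := univ.filter (fun j'' => π p * dot z (b j'' - b j') = 0) with hS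
  have hd : p ∣ S.card := by
    have h1 := om_of_E (a := b) (v := -rot z) (d := z) (by rw [rot_neg_rot]) hE (b j')
    have h2 : S.card = om b (-rot z) (b j') := by
      unfold om
      rw [rot_neg_rot]
    rw [h2, h1]
    exact dvd_mul_right _ _
  have hm0 : 0 < m := by rw [← hwb j]; exact one_le_w b j
  have hS2 : S.card = m * (S.image (fun j => π p • b j)).card := by
    rw [card_eq_sum_card_image (fun j => π p • b j) S, mul_comm]
    rw [← smul_eq_mul, ← sum_const]
    apply sum_congr rfl
    intro y hy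
    obtain ⟨k, hk, rfl⟩ := mem_image.mp hy
    rw [← hwb k, w_eq]
    congr 1
    ext k'
    simp only [mem_filter, mem_univ, true_and]
    constructor
    · rintro ⟨-, h1⟩; exact h1
    · intro h1
      refine ⟨?_, h1⟩
      rw [hS, mem_filter] at hk ⊢
      refine ⟨mem_univ _, ?_⟩
      rw [← dot_smul, smul_sub, h1, ← smul_sub, dot_smul]
      exact hk.2
  have hcop : Nat.Coprime p m := by
    rw [Nat.Prime.coprime_iff_not_dvd hp.out]
    intro h1
    have := Nat.le_of_dvd hm0 h1
    omega
  rw [hS2] at hd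
  have hd2 := hcop.dvd_of_dvd_mul_left hd
  have hj'S : j' ∈ S := by
    rw [hS, mem_filter]
    exact ⟨mem_univ _, by rw [sub_self, dot_zero, mul_zero]⟩
  have hpos : 0 < (S.image (fun j => π p • b j)).card :=
    card_pos.mpr ⟨_, mem_image.mpr ⟨j', hj'S, rfl⟩⟩
  have hge := Nat.le_of_dvd hpos hd2
  have hsub : S.image (fun j => π p • b j) ⊆ cl b := by
    intro y hy
    obtain ⟨k, _, rfl⟩ := mem_image.mp hy
    exact mem_cl b k
  have heq := eq_of_subset_of_card_le hsub (hZ.trans hge)
  have hj := mem_cl b j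
  rw [← heq] at hj
  obtain ⟨k, hk, hk2⟩ := mem_image.mp hj
  rw [hS, mem_filter] at hk
  rw [← dot_smul, smul_sub, ← hk2, ← smul_sub, dot_smul]
  exact hk.2

theorem T3 {a : I → V p} {b : J → V p} (h : SP a b) (hY : (cl a).card ≤ p)
    (hZ : (cl b).card ≤ p) : Fintype.card I = 1 ∨ Fintype.card I = p ∨ Fintype.card I = p ^ 2 := by
  obtain ⟨i₀⟩ := h.exists_pt
  obtain ⟨j₀⟩ := h.symm.exists_pt
  have hp2 := hp.out.two_le
  have hpos := h.pos
  by_cases hn1 : Fintype.card I ≤ 1
  · left; omega
  right
  have hpd := h.p_dvd (by omega)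
  by_cases hn : Fintype.card I ≤ p
  · left
    exact le_antisymm hn (Nat.le_of_dvd h.pos hpd)
  right
  push Not at hn
  obtain ⟨hYp, hwa⟩ := T3a h hY hZ hn
  obtain ⟨hZp, hwb⟩ := T3a h.symm hZ hY (by rw [← h.hc]; exact hn)
  rw [← h.hc] at hwb
  obtain ⟨m, hm⟩ := hpd
  have hwa' : ∀ i, w a (a i) = m := fun i =>
    Nat.eq_of_mul_eq_mul_left hp.out.pos ((hwa i).trans hm)
  have hwb' : ∀ j, w b (b j) = m := fun j =>
    Nat.eq_of_mul_eq_mul_left hp.out.pos ((hwb j).trans hm)
  rcases lt_trichotomy m p with hmp | hmp | hmp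
  · exfalso
    have hm2 : 2 ≤ m := by
      by_contra hcon
      have h1 : m ≤ 1 := by omega
      have h2 : p * m ≤ p * 1 := Nat.mul_le_mul_left _ h1
      omega
    -- two classes for `a`
    obtain ⟨y, hy, y', hy', hne⟩ := one_lt_card.mp (show 1 < (cl a).card by omega)
    simp only [cl, mem_image, mem_univ, true_and] at hy hy'
    obtain ⟨i₁, rfl⟩ := hy
    obtain ⟨i₂, rfl⟩ := hy'
    obtain ⟨z, hz, z', hz', hnez⟩ := one_lt_card.mp (show 1 < (cl b).card by omega)
    simp only [cl, mem_image, mem_univ, true_and] at hz hz'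
    obtain ⟨j₁, rfl⟩ := hz
    obtain ⟨j₂, rfl⟩ := hz'
    set v := a i₁ - a i₂ with hvdef
    set u := b j₁ - b j₂ with hudef
    have hv : Prim v := by
      unfold Prim
      rw [hvdef, smul_sub]; exact sub_ne_zero.mpr hne
    have hu : Prim u := by
      unfold Prim
      rw [hudef, smul_sub]; exact sub_ne_zero.mpr hnez
    have hjj : ∀ j j', π p * dot v (b j - b j') = 0 := fun j j' => T3b h hZ hmp hwb' hv j j'
    have hii : ∀ i i', π p * dot u (a i - a i') = 0 := fun i i' => T3b h.symm hY hmp hwa' hu i i'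
    -- `u` is in the direction of `rot v`
    have h1 : π p * dot (rot (rot v)) u = 0 := by
      have h2 : dot (rot (rot v)) u = -dot v u := by
        rw [rot_rot]
        unfold dot
        simp only [Prod.fst_neg, Prod.snd_neg]
        ring
      rw [h2, mul_neg, hjj j₁ j₂, neg_zero]
    have hX : XX a (rot v) := XX_of_pair h.symm hv.rot hu h1
    obtain ⟨l, hl⟩ := hv.rot.exists_smul' h1
    have hlu : IsUnit l := by
      apply isUnit_of
      intro h3
      apply hu
      rw [hl, smul_smul, h3, zero_smul]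
    have hline : ∀ i i', π p * dot (rot v) (a i - a i') = 0 := by
      intro i i'
      have h2 := hii i i'
      rw [← smul_dot, hl, smul_smul, smul_dot] at h2
      obtain ⟨l', hl'⟩ := hlu
      have h3 : π p * dot (rot v) (a i - a i')
          = ↑l'⁻¹ * (π p * l * dot (rot v) (a i - a i')) := by
        rw [← hl']
        have : (l' : R p) * ↑l'⁻¹ = 1 := Units.mul_inv l'
        linear_combination (-(π p * dot (rot v) (a i - a i'))) * this
      rw [h3, h2, mul_zero]
    have hnF : ¬ FF b v := by
      intro hF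
      have h2 : p * N b (rot v) (b j₀) = w b (b j₀) :=
        FL hv.rot (by rw [rot_rot]; exact hF.neg) (b j₀)
      rw [hwb'] at h2
      have h3 := one_le_N b (rot v) j₀
      have h4 : p * 1 ≤ p * N b (rot v) (b j₀) := Nat.mul_le_mul_left _ h3
      omega
    have hpl := planar h.hab hv hX hnF i₂
    have hom : om a v (a i₂) = Fintype.card I := by
      unfold om
      rw [← card_univ]
      congr 1
      apply filter_true_of_mem
      intro i _
      exact hline i i₂
    rw [hom, hm] at hpl
    have hN := Nat.eq_of_mul_eq_mul_left hp.out.pos hpl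
    have hEb := N2 h hv (x := a i₂) (by rw [hN]; exact hm2)
    have hom2 := S_om (a := b) (v := -rot v) (by rw [rot_neg_rot]; exact hEb) (b j₀)
    have hom3 : om b (-rot v) (b j₀) = Fintype.card J := by
      unfold om
      rw [← card_univ]
      congr 1
      apply filter_true_of_mem
      intro j _
      rw [rot_neg_rot]
      exact hjj j j₀
    rw [hom3, ← h.hc] at hom2
    have h5 : 2 * Fintype.card I ≤ p * Fintype.card I := Nat.mul_le_mul_right _ hp2
    omega
  · rw [hm, hmp]; ring
  · exfalso
    have hw := S_all (fun u hu => many_S h (x := a i₀) (by rw [hwa']; exact hmp) hu) (b j₀)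
    rw [← h.hc, ← hwb j₀] at hw
    have hpw : 0 < p * w b (b j₀) := Nat.mul_pos hp.out.pos (one_le_w b j₀)
    have h6 : p ^ 2 * w b (b j₀) = p * (p * w b (b j₀)) := by ring
    rw [h6] at hw
    have h5 : 2 * (p * w b (b j₀)) ≤ p * (p * w b (b j₀)) := Nat.mul_le_mul_right _ hp2
    omega

theorem main {a : I → V p} {b : J → V p} (h : SP a b) :
    ∃ k ≤ 4, Fintype.card I = p ^ k := by
  rcases Nat.lt_or_ge p (cl a).card with hY | hY
  · rcases Nat.lt_or_ge p (cl b).card with hZ | hZ
    · rcases T1 h hY hZ with h1 | h1 | h1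
      · exact ⟨2, by omega, h1⟩
      · exact ⟨3, by omega, h1⟩
      · exact ⟨4, by omega, h1⟩
    · rw [h.hc]
      rcases T2 h.symm hZ hY with h1 | h1 | h1
      · exact ⟨1, by omega, by rw [h1, pow_one]⟩
      · exact ⟨2, by omega, h1⟩
      · exact ⟨3, by omega, h1⟩
  · rcases Nat.lt_or_ge p (cl b).card with hZ | hZ
    · rcases T2 h hY hZ with h1 | h1 | h1
      · exact ⟨1, by omega, by rw [h1, pow_one]⟩
      · exact ⟨2, by omega, h1⟩
      · exact ⟨3, by omega, h1⟩
    · rcases T3 h hY hZ with h1 | h1 | h1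
      · exact ⟨0, by omega, by rw [h1, pow_zero]⟩
      · exact ⟨1, by omega, by rw [h1, pow_one]⟩
      · exact ⟨2, by omega, h1⟩

end BHp2
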