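import Pool.Agent.Lib.MP_2b2af9_co.Basic

/-! Counting lemmas for spectral pairs in `(ZMod (p^2))^2`. -/

open Finset

set_option linter.unusedSectionVars false

namespace BHp2

variable {p : ℕ} [hp : Fact p.Prime] {I J : Type} [Fintype I] [DecidableEq I] [Fintype J] [DecidableEq J]

/-- the Fourier transform of `a` vanishes at `d`, in terms of counts -/
def E (a : I → V p) (d : V p) : Prop :=
  ∀ s j : R p, (univ.filter fun i => dot (a i) d = s).card
    = (univ.filter fun i => dot (a i) d = s + π p * j).card

def w (a : I → V p) (x : V p) : ℕ := (univ.filter fun i => π p • (a i - x) = 0).card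
def om (a : I → V p) (v x : V p) : ℕ := (univ.filter fun i => π p * dot (rot v) (a i - x) = 0).card
def N (a : I → V p) (v x : V p) : ℕ :=
  (univ.filter fun i => π p • (a i - x) = 0 ∧ dot (rot v) (a i - x) = 0).card

def XX (a : I → V p) (c : V p) : Prop := ∃ d, π p • d = π p • c ∧ E a d
def FF (a : I → V p) (c : V p) : Prop := ∀ d, π p • d = π p • c → E a d

theorem E.smul {a : I → V p} {d : V p} (h : E a d) {u : R p} (hu : IsUnit u) : E a (u • d) := by
  obtain ⟨u, rfl⟩ := hu
  intro s j
  have h1 := h (↑u⁻¹ * s) (↑u⁻¹ * j)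
  have e1 : ∀ i, (dot (a i) ((u : R p) • d) = s ↔ dot (a i) d = ↑u⁻¹ * s) := by
    intro i
    rw [dot_smul]
    constructor
    · rintro rfl; rw [← mul_assoc, Units.inv_mul, one_mul]
    · intro h2; rw [h2, ← mul_assoc, Units.mul_inv, one_mul]
  have e2 : ∀ i, (dot (a i) ((u : R p) • d) = s + π p * j ↔
      dot (a i) d = ↑u⁻¹ * s + π p * (↑u⁻¹ * j)) := by
    intro i
    rw [dot_smul]
    constructor
    · intro h2
      have h3 : dot (a i) d = (↑u⁻¹ : R p) * ((u : R p) * dot (a i) d) := by
        rw [← mul_assoc, Units.inv_mul, one_mul]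
      rw [h3, h2]; ring
    · intro h2
      rw [h2, mul_add, ← mul_assoc, Units.mul_inv, one_mul]
      have : (u : R p) * (π p * (↑u⁻¹ * j)) = π p * ((u : R p) * ↑u⁻¹) * j := by ring
      rw [this, Units.mul_inv, mul_one]
  simp_rw [e1, e2]
  exact h1

theorem E.of_smul {a : I → V p} {d : V p} {u : R p} (hu : IsUnit u) (h : E a (u • d)) : E a d := by
  have h1 := h.smul (u := ((hu.unit⁻¹ : (R p)ˣ) : R p)) (Units.isUnit _)
  rw [smul_smul, IsUnit.val_inv_mul, one_smul] at h1
  exact h1

theorem XX.smul {a : I → V p} {c : V p} (h : XX a c) {u : R p} (hu : IsUnit u) : XX a (u • c) := by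
  obtain ⟨d, h1, h2⟩ := h
  exact ⟨u • d, by rw [smul_comm, h1, smul_comm], h2.smul hu⟩

theorem FF.smul {a : I → V p} {c : V p} (h : FF a c) {u : R p} (hu : IsUnit u) : FF a (u • c) := by
  intro d hd
  have h1 : E a ((((hu.unit⁻¹ : (R p)ˣ) : R p)) • d) := by
    apply h
    rw [smul_comm, hd, smul_comm (π p) u c, smul_smul, IsUnit.val_inv_mul, one_smul]
  exact E.of_smul (Units.isUnit _) h1

theorem neg_eq_smul (c : V p) : -c = (-1 : R p) • c := by simp

theorem isUnit_neg_one : IsUnit (-1 : R p) := isUnit_one.neg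

theorem XX.neg {a : I → V p} {c : V p} (h : XX a c) : XX a (-c) := by
  rw [neg_eq_smul]; exact h.smul isUnit_neg_one

theorem FF.neg {a : I → V p} {c : V p} (h : FF a c) : FF a (-c) := by
  rw [neg_eq_smul]; exact h.smul isUnit_neg_one

theorem FF_neg_iff {a : I → V p} {c : V p} : FF a (-c) ↔ FF a c :=
  ⟨fun h => by have := h.neg; rwa [neg_neg] at this, FF.neg⟩

theorem dot_of_smul_eq {d c x : V p} (h : π p • d = π p • c) : π p * dot d x = π p * dot c x := by
  rw [← smul_dot, h, smul_dot]

theorem dot_of_fiber {d c x : V p} (h : π p • d = π p • c) (hx : π p • x = 0) : dot d x = dot c x := by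
  obtain ⟨y, rfl⟩ := (smul_eq_zero_iff x).mp hx
  rw [dot_smul, dot_smul, dot_of_smul_eq h]

/-- the line count in terms of an exponent sum -/
theorem om_of_E {a : I → V p} {v d : V p} (hd : π p • d = π p • rot v) (hE : E a d) (x : V p) :
    om a v x = p * (univ.filter fun i => dot (a i) d = dot x d).card := by
  have h1 : om a v x = (univ.filter fun i => π p * dot (rot v) (a i - x) = 0).card := rfl
  set T : Finset (R p) := (univ.image (fun s : R p => π p * s)).image (fun y => dot x d + y) with hT
  have hTc : T.card = p := by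
    rw [hT, card_image_of_injective _ (add_right_injective _), card_p_mul]
  have hmap : ∀ i ∈ univ.filter (fun i => π p * dot (rot v) (a i - x) = 0), dot (a i) d ∈ T := by
    intro i hi
    rw [mem_filter] at hi
    have h2 := hi.2
    rw [← dot_of_smul_eq hd] at h2
    obtain ⟨t, ht⟩ := (mul_eq_zero_iff _).mp h2
    rw [hT, mem_image]
    refine ⟨π p * t, mem_image.mpr ⟨t, mem_univ _, rfl⟩, ?_⟩
    rw [← ht, dot_sub, dot_comm d, dot_comm d]; ring
  rw [h1, card_eq_sum_card_fiberwise hmap]
  have h3 : ∀ y ∈ T, ((univ.filter fun i => π p * dot (rot v) (a i - x) = 0).filter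
      fun i => dot (a i) d = y).card = (univ.filter fun i => dot (a i) d = dot x d).card := by
    intro y hy
    rw [hT, mem_image] at hy
    obtain ⟨z, hz, rfl⟩ := hy
    obtain ⟨t, -, rfl⟩ := mem_image.mp hz
    rw [hE (dot x d) t]
    congr 1
    ext i
    simp only [mem_filter, mem_univ, true_and, and_iff_right_iff_imp]
    intro h4
    rw [← dot_of_smul_eq hd, dot_sub, dot_comm d, dot_comm d, h4]
    have : π p * (dot x d + π p * t - dot x d) = (π p * π p) * t := by ring
    rw [this, pp, zero_mul]
  rw [sum_congr rfl h3, sum_const, hTc, smul_eq_mul]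

theorem om_dvd {a : I → V p} {v : V p} (h : XX a (rot v)) (x : V p) : p ∣ om a v x := by
  obtain ⟨d, hd, hE⟩ := h
  rw [om_of_E hd hE x]
  exact dvd_mul_right _ _

/-- planar lemma -/
theorem planar {a : I → V p} {b : J → V p} (hab : ∀ i i', i ≠ i' → E b (a i - a i'))
    {v : V p} (hv : Prim v) (hX : XX a (rot v)) (hF : ¬ FF b v) (i₀ : I) :
    p * N a v (a i₀) = om a v (a i₀) := by
  obtain ⟨d, hd, hE⟩ := hX
  unfold FF at hF
  push Not at hF
  obtain ⟨g, hg, hnE⟩ := hF
  have hgp : Prim g := by
    intro h; apply hv; rw [← hg]; exact h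
  rw [om_of_E hd hE]
  congr 1
  set S := univ.filter (fun i => π p * dot (rot v) (a i - a i₀) = 0) with hS
  have hrg : π p • rot g = π p • rot v := by
    rw [← rot_smul, hg, rot_smul]
  -- same value of `rot g` implies same cell
  have key : ∀ i ∈ S, ∀ i' ∈ S, dot (rot g) (a i) = dot (rot g) (a i') →
      π p • (a i - a i') = 0 ∧ dot d (a i) = dot d (a i') := by
    intro i _ i' _ h
    have h1 : dot (rot g) (a i - a i') = 0 := by rw [dot_sub, h, sub_self]
    obtain ⟨l, hl⟩ := hgp.exists_smul h1
    have h2 : π p * l = 0 := by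
      by_contra h2
      have hu := isUnit_of _ h2
      have hne : i ≠ i' := by
        rintro rfl
        rw [sub_self] at hl
        have : Prim (l • g) := hgp.smul hu
        apply this
        rw [← hl, smul_zero]
      have h3 := hab i i' hne
      rw [hl] at h3
      exact hnE (E.of_smul hu h3)
    have h4 : π p • (a i - a i') = 0 := by rw [hl, smul_smul, h2, zero_smul]
    refine ⟨h4, ?_⟩
    have h5 : dot d (a i - a i') = 0 := by
      rw [dot_of_fiber (c := rot g) (by rw [hd, hrg]) h4]; exact h1
    rw [dot_sub, sub_eq_zero] at h5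
    exact h5
  -- images
  set Q := S.image (fun i => (dot (rot g) (a i), dot d (a i))) with hQ
  set T : R p → Finset (R p) := fun y => (univ.image (fun s : R p => π p * s)).image (fun z => y + z)
    with hT
  have hTc : ∀ y, (T y).card = p := by
    intro y
    rw [hT]
    simp only
    rw [card_image_of_injective _ (add_right_injective _), card_p_mul]
  have hQfst : Q.card ≤ p := by
    have h1 : (Q.image Prod.fst).card = Q.card := by
      apply card_image_of_injOn
      intro x hx y hy hxy
      rw [hQ, coe_image] at hx hy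
      obtain ⟨i, hi, rfl⟩ := hx
      obtain ⟨i', hi', rfl⟩ := hy
      simp only at hxy
      have := (key i hi i' hi' hxy).2
      simp only [hxy, this]
    rw [← h1]
    refine le_trans (card_le_card ?_) (hTc (dot (rot g) (a i₀))).le
    intro y hy
    rw [mem_image] at hy
    obtain ⟨z, hz, rfl⟩ := hy
    rw [hQ, mem_image] at hz
    obtain ⟨i, hi, rfl⟩ := hz
    simp only
    rw [hS, mem_filter] at hi
    have h2 := hi.2
    rw [← dot_of_smul_eq hrg] at h2
    obtain ⟨t, ht⟩ := (mul_eq_zero_iff _).mp h2
    rw [hT]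
    simp only [mem_image, mem_univ, true_and]
    refine ⟨π p * t, ⟨t, rfl⟩, ?_⟩
    rw [← ht, dot_sub]; ring
  have hQsnd : (Q.image Prod.snd).card = p := by
    refine Eq.trans (congrArg card ?_) (hTc (dot d (a i₀)))
    ext y
    constructor
    · intro hy
      rw [mem_image] at hy
      obtain ⟨z, hz, rfl⟩ := hy
      rw [hQ, mem_image] at hz
      obtain ⟨i, hi, rfl⟩ := hz
      simp only
      rw [hS, mem_filter] at hi
      have h2 := hi.2
      rw [← dot_of_smul_eq hd] at h2
      obtain ⟨t, ht⟩ := (mul_eq_zero_iff _).mp h2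
      rw [hT]
      simp only [mem_image, mem_univ, true_and]
      refine ⟨π p * t, ⟨t, rfl⟩, ?_⟩
      rw [← ht, dot_sub]; ring
    · intro hy
      rw [hT] at hy
      simp only [mem_image, mem_univ, true_and] at hy
      obtain ⟨z, ⟨t, rfl⟩, rfl⟩ := hy
      have h1 : 0 < (univ.filter fun i => dot (a i) d = dot (a i₀) d).card :=
        card_pos.mpr ⟨i₀, by simp⟩
      rw [hE (dot (a i₀) d) t] at h1
      obtain ⟨i, hi⟩ := card_pos.mp h1
      simp only [mem_filter, mem_univ, true_and] at hi
      rw [mem_image]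
      refine ⟨(dot (rot g) (a i), dot d (a i)), ?_, ?_⟩
      · rw [hQ, mem_image]
        refine ⟨i, ?_, rfl⟩
        rw [hS, mem_filter]
        refine ⟨mem_univ _, ?_⟩
        rw [← dot_of_smul_eq hd, dot_sub, dot_comm d, dot_comm d, hi]
        have : π p * (dot (a i₀) d + π p * t - dot (a i₀) d) = (π p * π p) * t := by ring
        rw [this, pp, zero_mul]
      · simp only
        rw [dot_comm, hi, dot_comm]
  have hinj : Set.InjOn Prod.snd (Q : Set (R p × R p)) := by
    rw [← card_image_iff]
    apply le_antisymm card_image_le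
    rw [hQsnd]; exact hQfst
  have hN : N a v (a i₀) = (univ.filter fun i => dot (a i) d = dot (a i₀) d).card := by
    unfold N
    congr 1
    ext i
    simp only [mem_filter, mem_univ, true_and]
    constructor
    · rintro ⟨h1, h2⟩
      have h3 : dot d (a i - a i₀) = 0 := by rw [dot_of_fiber hd h1]; exact h2
      rw [dot_sub, sub_eq_zero] at h3
      rw [dot_comm, h3, dot_comm]
    · intro h
      have h1 : dot d (a i) = dot d (a i₀) := by rw [dot_comm, h, dot_comm]
      have hiS : i ∈ S := by
        rw [hS, mem_filter]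
        refine ⟨mem_univ _, ?_⟩
        rw [← dot_of_smul_eq hd, dot_sub, h1, sub_self, mul_zero]
      have hi0S : i₀ ∈ S := by
        rw [hS, mem_filter]
        refine ⟨mem_univ _, ?_⟩
        rw [sub_self, dot_zero, mul_zero]
      have h2 : (dot (rot g) (a i), dot d (a i)) = (dot (rot g) (a i₀), dot d (a i₀)) := by
        apply hinj
        · rw [hQ, coe_image]; exact ⟨i, hiS, rfl⟩
        · rw [hQ, coe_image]; exact ⟨i₀, hi0S, rfl⟩
        · exact h1
      have h3 := (Prod.mk.inj h2).1
      have h4 := (key i hiS i₀ hi0S h3).1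
      refine ⟨h4, ?_⟩
      rw [← dot_of_fiber hd h4, dot_sub, h1, sub_self]
  rw [hN]

end BHp2
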