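import Pool.Agent.Lib.MP_2b2af9_co.Count

/-! More counting lemmas. -/

open Finset

set_option linter.unusedSectionVars false

namespace BHp2

variable {p : ℕ} [hp : Fact p.Prime] {I J : Type} [Fintype I] [DecidableEq I] [Fintype J] [DecidableEq J]

theorem pi_sub_iff (s : R p) (m : ZMod p) :
    π p * (s - ((ZMod.val m : ℕ) : R p)) = 0 ↔ m = ((s.val : ℕ) : ZMod p) := by
  have e3 : π p * (s - ((ZMod.val m : ℕ) : R p)) =
      (((p : ℤ) * ((s.val : ℤ) - (ZMod.val m : ℤ)) : ℤ) : R p) := by
    push_cast
    rw [ZMod.natCast_zmod_val s]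
  rw [e3, ZMod.intCast_zmod_eq_zero_iff_dvd]
  have e4 : ((p ^ 2 : ℕ) : ℤ) = (p : ℤ) * p := by push_cast; ring
  rw [e4, mul_dvd_mul_iff_left (by exact_mod_cast hp.out.ne_zero)]
  rw [← ZMod.intCast_zmod_eq_zero_iff_dvd]
  push_cast
  rw [ZMod.natCast_zmod_val, sub_eq_zero]
  exact eq_comm

theorem pi_unique (t u : R p) (hu : IsUnit u) :
    ∃! m : ZMod p, π p * (t + ((ZMod.val m : ℕ) : R p) * u) = 0 := by
  obtain ⟨u, rfl⟩ := hu
  have h : ∀ m : ZMod p, π p * (t + ((ZMod.val m : ℕ) : R p) * u) = 0 ↔
      m = (((-t * ↑u⁻¹ : R p).val : ℕ) : ZMod p) := by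
    intro m
    rw [← pi_sub_iff]
    have hu : (u : R p) * ↑u⁻¹ = 1 := Units.mul_inv u
    constructor
    · intro h
      linear_combination (-(↑u⁻¹ : R p)) * h + (π p * ((ZMod.val m : ℕ) : R p)) * hu
    · intro h
      linear_combination (-(u : R p)) * h + (-(π p) * t) * hu
  refine ⟨_, (h _).mpr rfl, fun m hm => (h m).mp hm⟩

theorem sum_unique {γ : Type} [Fintype γ] [DecidableEq γ] (P : γ → Prop) [DecidablePred P]
    (h : ∃! v, P v) : (∑ v, if P v then 1 else 0) = 1 := by
  obtain ⟨v0, h0, hu⟩ := h
  rw [Finset.sum_eq_single v0]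
  · rw [if_pos h0]
  · intro b _ hb
    rw [if_neg]
    intro h
    exact hb (hu b h)
  · intro h
    exact absurd (mem_univ _) h

theorem FL {a : I → V p} {v : V p} (hv : Prim v) (hF : FF a (rot v)) (x : V p) :
    p * N a v x = w a x := by
  obtain ⟨e0, he0⟩ : ∃ e0 : V p, IsUnit (dot v e0) := by
    rcases hv.unit with h | h
    · exact ⟨(1, 0), by simpa [dot] using h⟩
    · exact ⟨(0, 1), by simpa [dot] using h⟩
  set d : ZMod p → V p := fun m => rot v + (π p * ((ZMod.val m : ℕ) : R p)) • e0 with hddef
  have hd : ∀ m, π p • d m = π p • rot v := by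
    intro m
    rw [hddef]
    simp only
    rw [smul_add, smul_smul, ← mul_assoc, pp, zero_mul, zero_smul, add_zero]
  have hE : ∀ m, om a v x = p * (univ.filter fun i => dot (a i) (d m) = dot x (d m)).card :=
    fun m => om_of_E (hd m) (hF _ (hd m)) x
  have h1 : ∑ m : ZMod p, (univ.filter fun i => dot (a i) (d m) = dot x (d m)).card
      = om a v x := by
    apply Nat.eq_of_mul_eq_mul_left hp.out.pos
    rw [mul_sum, ← sum_congr rfl (fun m _ => hE m)]
    simp [ZMod.card]
  have hiff : ∀ i m, (dot (a i) (d m) = dot x (d m) ↔ dot (d m) (a i - x) = 0) := by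
    intro i m
    rw [dot_sub, sub_eq_zero, dot_comm (a i), dot_comm x]
  have h2 : ∀ i, (∑ m : ZMod p, if dot (a i) (d m) = dot x (d m) then 1 else 0)
      + (if π p • (a i - x) = 0 then 1 else 0)
      = p * (if π p • (a i - x) = 0 ∧ dot (rot v) (a i - x) = 0 then 1 else 0)
        + (if π p * dot (rot v) (a i - x) = 0 then 1 else 0) := by
    intro i
    simp_rw [hiff]
    by_cases h : π p • (a i - x) = 0
    · have h3 : ∀ m, dot (d m) (a i - x) = dot (rot v) (a i - x) :=
        fun m => dot_of_fiber (hd m) h
      have h4 : π p * dot (rot v) (a i - x) = 0 := by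
        rw [← dot_smul, h, dot_zero]
      simp_rw [h3]
      rw [if_pos h, if_pos h4]
      simp [h, ZMod.card]
    · rw [if_neg h]
      have h5 : ¬ (π p • (a i - x) = 0 ∧ dot (rot v) (a i - x) = 0) := fun hh => h hh.1
      rw [if_neg h5]
      by_cases h6 : π p * dot (rot v) (a i - x) = 0
      · rw [if_pos h6]
        obtain ⟨l, hl⟩ := hv.exists_smul' h6
        have hlu : IsUnit l := by
          apply isUnit_of
          intro h7
          apply h
          rw [hl, smul_smul, h7, zero_smul]
        obtain ⟨t, ht⟩ := (mul_eq_zero_iff _).mp h6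
        have h8 : ∀ m : ZMod p, dot (d m) (a i - x)
            = π p * (t + ((ZMod.val m : ℕ) : R p) * (l * dot v e0)) := by
          intro m
          rw [hddef]
          simp only
          rw [add_dot, smul_dot, ht]
          have h9 : π p * dot e0 (a i - x) = π p * (l * dot v e0) := by
            rw [← dot_smul, hl, dot_smul, dot_smul, dot_comm e0 v]
          have h10 : π p * ((ZMod.val m : ℕ) : R p) * dot e0 (a i - x)
              = ((ZMod.val m : ℕ) : R p) * (π p * dot e0 (a i - x)) := by ring
          rw [h10, h9]; ring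
        simp_rw [h8]
        rw [sum_unique _ (pi_unique t (l * dot v e0) (hlu.mul he0))]
        simp
      · rw [if_neg h6]
        have h7 : ∀ m, ¬ (dot (d m) (a i - x) = 0) := by
          intro m h8
          apply h6
          rw [← dot_of_smul_eq (hd m), h8, mul_zero]
        simp [h7]
  have h3 : ∑ i, ((∑ m : ZMod p, if dot (a i) (d m) = dot x (d m) then 1 else 0)
      + (if π p • (a i - x) = 0 then 1 else 0))
      = ∑ i, (p * (if π p • (a i - x) = 0 ∧ dot (rot v) (a i - x) = 0 then 1 else 0)
        + (if π p * dot (rot v) (a i - x) = 0 then 1 else 0)) :=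
    sum_congr rfl (fun i _ => h2 i)
  rw [sum_add_distrib, sum_add_distrib, sum_comm, ← mul_sum] at h3
  simp_rw [← card_filter] at h3
  rw [h1] at h3
  unfold om w N at *
  omega

/-- a complete family of directions -/
def Full (D : Option (ZMod p) → V p) : Prop :=
  ∀ x, Prim x → ∃! v, π p * dot (rot (D v)) x = 0

theorem full_dir : Full (dir p) := fun x hx => dir_unique x hx

theorem full_rot : Full (fun v => rot (dir p v)) := by
  intro x hx
  have h := dir_unique (rot x) hx.rot
  have h2 : ∀ v, dot (rot (dir p v)) (rot x) = -dot (rot (rot (dir p v))) x := by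
    intro v
    rw [dot_rot_rot, rot_rot]
    unfold dot
    simp only [Prod.fst_neg, Prod.snd_neg]
    ring
  simp_rw [h2] at h
  simpa using h

theorem I1 {D : Option (ZMod p) → V p} (hD : Full D) (a : I → V p) (x : V p) :
    ∑ v, om a (D v) x = p * w a x + Fintype.card I := by
  have h2 : ∀ i, (∑ v : Option (ZMod p), if π p * dot (rot (D v)) (a i - x) = 0 then 1 else 0)
      = p * (if π p • (a i - x) = 0 then 1 else 0) + 1 := by
    intro i
    by_cases h : π p • (a i - x) = 0
    · have h4 : ∀ v, π p * dot (rot (D v)) (a i - x) = 0 := by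
        intro v
        rw [← dot_smul, h, dot_zero]
      simp [h, h4, ZMod.card]
    · rw [if_neg h, sum_unique _ (hD _ h)]
      simp
  have h3 := sum_congr (rfl : (univ : Finset I) = univ) (fun i _ => h2 i)
  rw [sum_comm, sum_add_distrib, ← mul_sum] at h3
  simp_rw [← card_filter] at h3
  unfold om w
  rw [h3]
  simp

theorem I2 {D : Option (ZMod p) → V p} (hD : Full D) (a : I → V p) (x : V p) :
    ∑ v, N a (D v) x = w a x + p * (univ.filter fun i => a i = x).card := by
  have h2 : ∀ i, (∑ v : Option (ZMod p), if π p • (a i - x) = 0 ∧ dot (rot (D v)) (a i - x) = 0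
      then 1 else 0)
      = (if π p • (a i - x) = 0 then 1 else 0) + p * (if a i = x then 1 else 0) := by
    intro i
    by_cases h : π p • (a i - x) = 0
    · obtain ⟨y, hy⟩ := (smul_eq_zero_iff _).mp h
      by_cases h5 : a i = x
      · have h6 : ∀ v, dot (rot (D v)) (a i - x) = 0 := by
          intro v
          rw [h5, sub_self, dot_zero]
        simp [h5, dot_zero, ZMod.card]
        ring
      · have hyp : Prim y := by
          intro h6
          apply h5
          rw [h6] at hy
          exact sub_eq_zero.mp hy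
        have h7 := hD y hyp
        simp_rw [← dot_smul, ← hy] at h7
        have h8 : ∀ v, (π p • (a i - x) = 0 ∧ dot (rot (D v)) (a i - x) = 0) ↔
            dot (rot (D v)) (a i - x) = 0 := fun v => ⟨fun hh => hh.2, fun hh => ⟨h, hh⟩⟩
        simp_rw [h8]
        rw [sum_unique _ h7, if_pos h, if_neg h5]
        simp
    · have h5 : a i ≠ x := by
        intro h5
        apply h
        rw [h5, sub_self, smul_zero]
      simp [h, h5]
  have h3 := sum_congr (rfl : (univ : Finset I) = univ) (fun i _ => h2 i)
  rw [sum_comm, sum_add_distrib, ← mul_sum] at h3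
  simp_rw [← card_filter] at h3
  unfold N w
  rw [h3]

theorem card_pi_image (z : R p) : ((univ.image (fun s : R p => π p * s)).image (fun y => z + y)).card = p := by
  rw [card_image_of_injective _ (add_right_injective _), card_p_mul]

theorem S_om {a : I → V p} {v : V p} (h : E a (π p • rot v)) (x : V p) :
    p * om a v x = Fintype.card I := by
  have hmap : ∀ i ∈ (univ : Finset I), π p * dot (rot v) (a i) ∈ univ.image (fun s : R p => π p * s) := by
    intro i _
    exact mem_image.mpr ⟨_, mem_univ _, rfl⟩
  rw [← card_univ, card_eq_sum_card_fiberwise hmap]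
  have h3 : ∀ y ∈ univ.image (fun s : R p => π p * s),
      (univ.filter fun i => π p * dot (rot v) (a i) = y).card = om a v x := by
    intro y hy
    obtain ⟨t, -, rfl⟩ := mem_image.mp hy
    have h4 := h (π p * dot (rot v) x) (t - dot (rot v) x)
    have e1 : ∀ i, dot (a i) (π p • rot v) = π p * dot (rot v) (a i) := by
      intro i; rw [dot_smul, dot_comm]
    have e2 : π p * dot (rot v) x + π p * (t - dot (rot v) x) = π p * t := by ring
    rw [e2] at h4
    simp_rw [e1] at h4
    rw [← h4]
    unfold om
    congr 1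
    ext i
    simp only [mem_filter, mem_univ, true_and]
    rw [dot_sub, mul_sub, sub_eq_zero]
  rw [sum_congr rfl h3, sum_const, card_p_mul, smul_eq_mul]

theorem S_all {a : I → V p} (h : ∀ u, Prim u → E a (π p • u)) (x : V p) :
    p ^ 2 * w a x = Fintype.card I := by
  have h1 := I1 full_dir a x
  have h2 : p * ∑ v, om a (dir p v) x = (p + 1) * Fintype.card I := by
    rw [mul_sum]
    have : ∀ v ∈ (univ : Finset (Option (ZMod p))), p * om a (dir p v) x = Fintype.card I :=
      fun v _ => S_om (h _ (dir_prim v).rot) x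
    rw [sum_congr rfl this, sum_const, smul_eq_mul]
    congr 1
    simp [ZMod.card]
  rw [h1] at h2
  have h3 : p * (p * w a x + Fintype.card I) = p ^ 2 * w a x + p * Fintype.card I := by ring
  have h4 : (p + 1) * Fintype.card I = Fintype.card I + p * Fintype.card I := by ring
  rw [h3, h4] at h2
  exact Nat.add_right_cancel h2

end BHp2
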