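import Mathlib

/-!
# Spectral pairs in `Z_q × Z_q` of density more than `1 / max(4, p + 1)`
-/

set_option autoImplicit false

open Finset

set_option linter.unusedSectionVars false

namespace Pool.Agent.Lib.MP_2b2af9_co.Dense

/-- Galois conjugation of a vanishing sum of roots of unity. -/
theorem galois {m : ℕ} (hm : 0 < m) {J : Type} [Fintype J] (ξ : J → ℂ) (hξ : ∀ j, ξ j ^ m = 1)
    (h : ∑ j, ξ j = 0) {k : ℕ} (hk : k.Coprime m) : ∑ j, ξ j ^ k = 0 := by
  have : NeZero m := ⟨hm.ne'⟩
  have hζ := Complex.isPrimitiveRoot_exp m hm.ne'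
  set ζ : ℂ := Complex.exp (2 * Real.pi * Complex.I / m) with hζdef
  choose e _ he using fun j => hζ.eq_pow_of_pow_eq_one (hξ j)
  let P : Polynomial ℚ := ∑ j, Polynomial.X ^ (e j)
  have hP : ∀ x : ℂ, Polynomial.aeval x P = ∑ j, x ^ (e j) := by
    intro x
    simp [P]
  have h1 : Polynomial.aeval ζ P = 0 := by
    rw [hP, ← h]
    exact sum_congr rfl fun j _ => he j
  have h2 : minpoly ℚ ζ ∣ P := minpoly.dvd ℚ ζ h1
  have hζk : IsPrimitiveRoot (ζ ^ k) m := hζ.pow_of_coprime k hk
  have h3 : minpoly ℚ (ζ ^ k) = minpoly ℚ ζ := by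
    rw [← Polynomial.cyclotomic_eq_minpoly_rat hζk hm, ← Polynomial.cyclotomic_eq_minpoly_rat hζ hm]
  have h4 : Polynomial.aeval (ζ ^ k) P = 0 := by
    obtain ⟨Q, hQ⟩ := h2
    rw [hQ, ← h3, map_mul, minpoly.aeval, zero_mul]
  rw [hP] at h4
  rw [← h4]
  refine sum_congr rfl fun j _ => ?_
  rw [← he j, ← pow_mul, ← pow_mul, mul_comm]

/-- The group. -/
abbrev V (q : ℕ) := ZMod q × ZMod q

variable {q : ℕ} [NeZero q]

/-- The pairing. -/
def dot (x y : V q) : ZMod q := x.1 * y.1 + x.2 * y.2

theorem dot_comm (x y : V q) : dot x y = dot y x := by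
  unfold dot; ring

theorem dot_add (x y z : V q) : dot (x + y) z = dot x z + dot y z := by
  unfold dot; simp only [Prod.fst_add, Prod.snd_add]; ring

theorem dot_sub (x y z : V q) : dot (x - y) z = dot x z - dot y z := by
  unfold dot; simp only [Prod.fst_sub, Prod.snd_sub]; ring

theorem dot_sub' (x y z : V q) : dot x (y - z) = dot x y - dot x z := by
  rw [dot_comm, dot_sub, dot_comm y, dot_comm z]

theorem dot_zero (z : V q) : dot 0 z = 0 := by
  unfold dot; simp

theorem dot_nsmul (k : ℕ) (x z : V q) : dot (k • x) z = k • dot x z := by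
  show (k • x.1) * z.1 + (k • x.2) * z.2 = k • (x.1 * z.1 + x.2 * z.2)
  rw [nsmul_eq_mul, nsmul_eq_mul, nsmul_eq_mul]
  ring

/-- The character. -/
noncomputable def χ (t : ZMod q) : ℂ := ZMod.stdAddChar t

theorem χ_add (s t : ZMod q) : χ (s + t) = χ s * χ t := AddChar.map_add_eq_mul _ _ _

theorem χ_zero : χ (0 : ZMod q) = 1 := AddChar.map_zero_eq_one _

theorem χ_neg (t : ZMod q) : χ (-t) = (starRingEnd ℂ) (χ t) := AddChar.map_neg_eq_conj _ _

theorem χ_nsmul (k : ℕ) (t : ZMod q) : χ (k • t) = χ t ^ k := AddChar.map_nsmul_eq_pow _ _ _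

/-- Orthogonality on the group. -/
theorem sum_χ (c : V q) (hc : c ≠ 0) : ∑ x : V q, χ (dot x c) = 0 := by
  obtain ⟨y, hy⟩ : ∃ y : V q, χ (dot y c) ≠ 1 := by
    by_contra hcon
    push Not at hcon
    apply hc
    have hinj : Function.Injective (ZMod.stdAddChar (N := q)) := ZMod.injective_stdAddChar
    have h0 : ∀ t : ZMod q, χ t = 1 → t = 0 := by
      intro t ht
      apply hinj
      rw [AddChar.map_zero_eq_one]
      exact ht
    have h1 := h0 _ (hcon (1, 0))
    have h2 := h0 _ (hcon (0, 1))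
    unfold dot at h1 h2
    simp only [one_mul, zero_mul, add_zero, zero_add] at h1 h2
    exact Prod.ext h1 h2
  have h1 : χ (dot y c) * ∑ x : V q, χ (dot x c) = ∑ x : V q, χ (dot x c) := by
    rw [mul_sum]
    rw [← Equiv.sum_comp (Equiv.addLeft y) (fun x => χ (dot x c))]
    refine sum_congr rfl fun x _ => ?_
    rw [Equiv.coe_addLeft, dot_add, χ_add]
  have h2 : (χ (dot y c) - 1) * ∑ x : V q, χ (dot x c) = 0 := by
    rw [sub_mul, h1, one_mul, sub_self]
  rcases mul_eq_zero.mp h2 with h3 | h3
  · exact absurd (sub_eq_zero.mp h3) hy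
  · exact h3

theorem card_V : Fintype.card (V q) = q ^ 2 := by
  rw [Fintype.card_prod, ZMod.card]; ring

theorem sum_χ_zero : ∑ x : V q, χ (dot x 0) = (q ^ 2 : ℕ) := by
  have h : ∀ x : V q, χ (dot x 0) = 1 := fun x => by rw [dot_comm, dot_zero, χ_zero]
  rw [sum_congr rfl fun x _ => h x, sum_const, card_univ, card_V, nsmul_eq_mul, mul_one]

/-- A spectral pair. -/
structure Sp {n : ℕ} (a b : Fin n → V q) : Prop where
  pos : 0 < n
  row : ∀ i i', i ≠ i' → ∑ j, χ (dot (a i - a i') (b j)) = 0
  col : ∀ j j', j ≠ j' → ∑ i, χ (dot (a i) (b j - b j')) = 0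

/-- The Fourier transform of the set of the `b j`. -/
noncomputable def F {n : ℕ} (b : Fin n → V q) (x : V q) : ℂ := ∑ j, χ (dot x (b j))

variable {n : ℕ} {a b : Fin n → V q}

theorem F_zero : F b 0 = n := by
  unfold F
  rw [sum_congr rfl fun j _ => by rw [dot_zero, χ_zero], sum_const, card_univ, Fintype.card_fin,
    nsmul_eq_mul, mul_one]

theorem F_neg (x : V q) : F b (-x) = (starRingEnd ℂ) (F b x) := by
  unfold F
  rw [map_sum]
  refine sum_congr rfl fun j _ => ?_
  rw [← χ_neg]
  congr 1
  unfold dot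
  simp only [Prod.fst_neg, Prod.snd_neg]
  ring

theorem F_sub_ne {x y : V q} (h : F b (x - y) ≠ 0) : F b (y - x) ≠ 0 := by
  rw [← neg_sub, F_neg]
  exact (map_ne_zero _).mpr h

theorem normSq_F (x : V q) : (Complex.normSq (F b x) : ℂ) = ∑ j, ∑ j', χ (dot x (b j - b j')) := by
  rw [Complex.normSq_eq_conj_mul_self, ← F_neg]
  unfold F
  rw [mul_comm, sum_mul_sum]
  refine sum_congr rfl fun j _ => sum_congr rfl fun j' _ => ?_
  rw [← χ_add]
  congr 1
  rw [dot_sub']
  unfold dot
  simp only [Prod.fst_neg, Prod.snd_neg]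
  ring

theorem Sp.n0 (h : Sp a b) : (n : ℂ) ≠ 0 := by
  exact_mod_cast h.pos.ne'

theorem Sp.b_inj (h : Sp a b) {j j' : Fin n} (hj : j ≠ j') : b j - b j' ≠ 0 := by
  intro h0
  have h1 := h.col j j' hj
  rw [h0] at h1
  have h2 : ∀ i, χ (dot (a i) (0 : V q)) = 1 := fun i => by rw [dot_comm, dot_zero, χ_zero]
  rw [sum_congr rfl fun i _ => h2 i, sum_const, card_univ, Fintype.card_fin, nsmul_eq_mul,
    mul_one] at h1
  exact h.n0 h1

theorem Sp.F_row (h : Sp a b) {i i' : Fin n} (hi : i ≠ i') : F b (a i - a i') = 0 := h.row i i' hi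

/-- Parseval. -/
theorem Sp.parseval (h : Sp a b) : ∑ x : V q, Complex.normSq (F b x) = (q ^ 2 : ℕ) * (n : ℝ) := by
  have h1 : ((∑ x : V q, Complex.normSq (F b x) : ℝ) : ℂ) = (((q ^ 2 : ℕ) * (n : ℝ) : ℝ) : ℂ) := by
    rw [Complex.ofReal_sum]
    rw [sum_congr rfl fun x _ => normSq_F (b := b) x, sum_comm]
    have h2 : ∀ j : Fin n, ∑ x : V q, ∑ j', χ (dot x (b j - b j')) = (q ^ 2 : ℕ) := by
      intro j
      rw [sum_comm, sum_eq_single j]
      · rw [sub_self, sum_χ_zero]
      · intro j' _ hj'
        exact sum_χ _ (h.b_inj hj'.symm)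
      · intro hj'
        exact absurd (mem_univ j) hj'
    rw [sum_congr rfl fun j _ => h2 j, sum_const, card_univ, Fintype.card_fin, nsmul_eq_mul]
    push_cast
    ring
  exact_mod_cast h1

/-- Completeness. -/
theorem Sp.complete (h : Sp a b) (z : V q) :
    ∑ i, Complex.normSq (F b (a i + z)) = (n : ℝ) ^ 2 := by
  have h1 : ((∑ i, Complex.normSq (F b (a i + z)) : ℝ) : ℂ) = (((n : ℝ) ^ 2 : ℝ) : ℂ) := by
    rw [Complex.ofReal_sum]
    rw [sum_congr rfl fun i _ => normSq_F (b := b) (a i + z), sum_comm]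
    have h2 : ∀ j : Fin n, ∑ i, ∑ j', χ (dot (a i + z) (b j - b j')) = n := by
      intro j
      rw [sum_comm, sum_eq_single j]
      · have h3 : ∀ i, χ (dot (a i + z) (b j - b j)) = 1 := fun i => by
          rw [sub_self, dot_comm, dot_zero, χ_zero]
        rw [sum_congr rfl fun i _ => h3 i, sum_const, card_univ, Fintype.card_fin, nsmul_eq_mul,
          mul_one]
      · intro j' _ hj'
        have h3 : ∀ i, χ (dot (a i + z) (b j - b j')) =
            χ (dot z (b j - b j')) * χ (dot (a i) (b j - b j')) := fun i => by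
          rw [dot_add, χ_add, mul_comm]
        rw [sum_congr rfl fun i _ => h3 i, ← mul_sum, h.col j j' hj'.symm, mul_zero]
      · intro hj'
        exact absurd (mem_univ j) hj'
    rw [sum_congr rfl fun j _ => h2 j, sum_const, card_univ, Fintype.card_fin, nsmul_eq_mul]
    push_cast
    ring
  exact_mod_cast h1

/-- Convolution. -/
theorem Sp.conv (h : Sp a b) (g : V q) :
    ∑ y : V q, F b y * F b (g - y) = (q ^ 2 : ℕ) * F b g := by
  have h1 : ∀ y : V q, F b y * F b (g - y) =
      ∑ j', ∑ j, χ (dot g (b j')) * χ (dot y (b j - b j')) := by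
    intro y
    unfold F
    rw [mul_comm, sum_mul_sum]
    refine sum_congr rfl fun j' _ => sum_congr rfl fun j _ => ?_
    rw [← χ_add, ← χ_add]
    congr 1
    rw [dot_sub, dot_sub']
    ring
  rw [sum_congr rfl fun y _ => h1 y, sum_comm]
  have h2 : ∀ j' : Fin n, ∑ y : V q, ∑ j, χ (dot g (b j')) * χ (dot y (b j - b j')) =
      (q ^ 2 : ℕ) * χ (dot g (b j')) := by
    intro j'
    rw [sum_comm, sum_eq_single j']
    · rw [← mul_sum, sub_self, sum_χ_zero, mul_comm]
    · intro j _ hj
      rw [← mul_sum, sum_χ _ (h.b_inj hj), mul_zero]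
    · intro hj'
      exact absurd (mem_univ j') hj'
  rw [sum_congr rfl fun j' _ => h2 j', ← mul_sum]
  rfl

/-- Packings by translates. -/
theorem Sp.packing (h : Sp a b) (K : Finset (V q))
    (hK : ∀ k ∈ K, ∀ k' ∈ K, k ≠ k' → F b (k - k') ≠ 0) :
    q ^ 2 = K.card * n ∨ (K.card + 1) * n ≤ q ^ 2 := by
  classical
  have hinj : ∀ p ∈ K ×ˢ (univ : Finset (Fin n)), ∀ p' ∈ K ×ˢ (univ : Finset (Fin n)),
      a p.2 + p.1 = a p'.2 + p'.1 → p = p' := by
    rintro ⟨k, i⟩ hp ⟨k', i'⟩ hp' he
    rw [mem_product] at hp hp'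
    have he' : a i + k = a i' + k' := he
    have hkk : k = k' := by
      by_contra hne
      apply hK k hp.1 k' hp'.1 hne
      have h1 : k - k' = a i' - a i := by
        have : a i + k - k' - a i = a i' + k' - k' - a i := by rw [he']
        have h2 : a i + k - k' - a i = k - k' := by abel
        have h3 : a i' + k' - k' - a i = a i' - a i := by abel
        rw [h2, h3] at this
        exact this
      rw [h1]
      apply h.F_row
      rintro rfl
      rw [sub_self, sub_eq_zero] at h1
      exact hne h1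
    subst hkk
    have h1 : a i = a i' := add_right_cancel he'
    by_cases hii : i = i'
    · rw [hii]
    · have h2 := h.F_row hii
      rw [h1, sub_self, F_zero] at h2
      exact absurd h2 h.n0
  let S : Finset (V q) := (K ×ˢ (univ : Finset (Fin n))).image fun p => a p.2 + p.1
  have hS : S.card = K.card * n := by
    rw [card_image_of_injOn hinj, card_product, card_univ, Fintype.card_fin]
  by_cases hall : S = univ
  · left
    rw [← hS, hall, card_univ, card_V]
  · right
    obtain ⟨y, hy⟩ : ∃ y, y ∉ S := by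
      by_contra hcon
      push Not at hcon
      exact hall (eq_univ_iff_forall.mpr hcon)
    have h1 : ∑ x : V q, Complex.normSq (F b (x - y)) = (q ^ 2 : ℕ) * (n : ℝ) := by
      rw [← h.parseval]
      exact Equiv.sum_comp (Equiv.subRight y) fun x => Complex.normSq (F b x)
    have h2 : ∑ x ∈ S, Complex.normSq (F b (x - y)) = K.card * (n : ℝ) ^ 2 := by
      rw [sum_image hinj, sum_product]
      have h3 : ∀ k ∈ K, ∑ i : Fin n, Complex.normSq (F b (a i + k - y)) = (n : ℝ) ^ 2 := by
        intro k _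
        rw [← h.complete (k - y)]
        refine sum_congr rfl fun i _ => ?_
        rw [add_sub_assoc]
      rw [sum_congr rfl h3, sum_const, nsmul_eq_mul]
    have h3 : ∑ x ∈ insert y S, Complex.normSq (F b (x - y)) ≤
        ∑ x : V q, Complex.normSq (F b (x - y)) :=
      sum_le_sum_of_subset_of_nonneg (subset_univ _) fun x _ _ => Complex.normSq_nonneg _
    rw [sum_insert hy, h1, h2, sub_self, F_zero, Complex.normSq_natCast] at h3
    have hnR : (0 : ℝ) < n := by exact_mod_cast h.pos
    have h4 : ((K.card : ℝ) + 1) * n ≤ ((q ^ 2 : ℕ) : ℝ) := by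
      have h5 : (((K.card : ℝ) + 1) * n) * n ≤ ((q ^ 2 : ℕ) : ℝ) * n := by nlinarith
      exact le_of_mul_le_mul_right h5 hnR
    exact_mod_cast h4

/-- The density is `1`, `1/2`, `1/3` or at most `1/4`. -/
theorem Sp.four (h : Sp a b) : q ^ 2 = n ∨ q ^ 2 = 2 * n ∨ q ^ 2 = 3 * n ∨ 4 * n ≤ q ^ 2 := by
  classical
  by_cases hE : ∃ g : V q, g ≠ 0 ∧ F b g ≠ 0
  · obtain ⟨g, hg0, hg⟩ := hE
    by_cases hT : ∃ y : V q, y ≠ 0 ∧ y ≠ g ∧ F b y ≠ 0 ∧ F b (g - y) ≠ 0
    · obtain ⟨y, hy0, hyg, hy, hgy⟩ := hT
      have h1 := h.packing {0, g, y} (by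
        intro k hk k' hk' hne
        simp only [mem_insert, mem_singleton] at hk hk'
        rcases hk with rfl | rfl | rfl <;> rcases hk' with rfl | rfl | rfl
        · exact absurd rfl hne
        · exact F_sub_ne (by rwa [sub_zero])
        · exact F_sub_ne (by rwa [sub_zero])
        · rwa [sub_zero]
        · exact absurd rfl hne
        · exact hgy
        · rwa [sub_zero]
        · exact F_sub_ne hgy
        · exact absurd rfl hne)
      have hc : ({0, g, y} : Finset (V q)).card = 3 := by
        rw [card_insert_of_notMem, card_insert_of_notMem, card_singleton]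
        · rw [mem_singleton]
          exact hyg.symm
        · rw [mem_insert, mem_singleton]
          rintro (h2 | h2)
          · exact hg0 h2.symm
          · exact hy0 h2.symm
      rw [hc] at h1
      rcases h1 with h1 | h1
      · exact Or.inr (Or.inr (Or.inl h1))
      · exact Or.inr (Or.inr (Or.inr h1))
    · right; left
      push Not at hT
      have h1 := h.conv g
      have h2 : ∑ y : V q, F b y * F b (g - y) = 2 * n * F b g := by
        rw [← sum_subset (subset_univ ({0, g} : Finset (V q)))]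
        · rw [sum_pair hg0.symm, sub_zero, sub_self, F_zero]
          ring
        · intro y _ hy
          rw [mem_insert, mem_singleton, not_or] at hy
          by_cases hFy : F b y = 0
          · rw [hFy, zero_mul]
          · rw [hT y hy.1 hy.2 hFy, mul_zero]
      rw [h1] at h2
      have h3 := mul_right_cancel₀ hg h2
      exact_mod_cast h3
  · left
    push Not at hE
    have h1 := h.parseval
    rw [sum_eq_single (0 : V q) (fun x _ hx => by rw [hE x hx, map_zero])
      (fun h0 => absurd (mem_univ _) h0), F_zero, Complex.normSq_natCast] at h1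
    have hnR : (0 : ℝ) < n := by exact_mod_cast h.pos
    have h2 := mul_right_cancel₀ hnR.ne' h1
    exact_mod_cast h2.symm

/-- Prime cliques. -/
theorem Sp.prime (h : Sp a b) : q ^ 2 = n ∨ q ^ 2 = q.minFac * n ∨ (q.minFac + 1) * n ≤ q ^ 2 := by
  classical
  by_cases hE : ∃ g : V q, g ≠ 0 ∧ F b g ≠ 0
  · obtain ⟨g, hg0, hg⟩ := hE
    right
    have hqg : q • g = 0 := by
      refine Prod.ext ?_ ?_
      · show q • g.1 = 0
        rw [nsmul_eq_mul, ZMod.natCast_self, zero_mul]
      · show q • g.2 = 0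
        rw [nsmul_eq_mul, ZMod.natCast_self, zero_mul]
    have hmq : addOrderOf g ∣ q := addOrderOf_dvd_of_nsmul_eq_zero hqg
    have hq0 : 0 < q := Nat.pos_of_ne_zero (NeZero.ne q)
    have hm0 : 0 < addOrderOf g := Nat.pos_of_dvd_of_pos hmq hq0
    have hm1 : addOrderOf g ≠ 1 := by
      rw [Ne, AddMonoid.addOrderOf_eq_one_iff]
      exact hg0
    have hl := Nat.minFac_prime hm1
    have hlq : q.minFac ≤ (addOrderOf g).minFac :=
      Nat.minFac_le_of_dvd hl.two_le ((Nat.minFac_dvd _).trans hmq)
    have hlm : (addOrderOf g).minFac ≤ addOrderOf g := Nat.minFac_le hm0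
    have hgal : ∀ k : ℕ, 0 < k → k < (addOrderOf g).minFac → F b (k • g) ≠ 0 := by
      intro k hk hkl h0
      have hcop : k.Coprime (addOrderOf g) := by
        rw [Nat.coprime_comm]
        by_contra hnc
        obtain ⟨r, hr, hr1, hr2⟩ := Nat.Prime.not_coprime_iff_dvd.mp hnc
        have := Nat.minFac_le_of_dvd hr.two_le hr1
        have := Nat.le_of_dvd hk hr2
        omega
      obtain ⟨k', hk'⟩ := Nat.exists_mul_mod_eq_one_of_coprime hcop (by
        have := hl.two_le
        omega)
      have hξ : ∀ j : Fin n, (χ (dot (k • g) (b j))) ^ (addOrderOf g) = 1 := by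
        intro j
        rw [← χ_nsmul, ← dot_nsmul, smul_smul, mul_comm, ← smul_smul, addOrderOf_nsmul_eq_zero,
          smul_zero, dot_zero, χ_zero]
      have hcop' : k'.Coprime (addOrderOf g) := by
        have h2 : (k * k').Coprime (addOrderOf g) := by
          rw [Nat.coprime_comm, Nat.coprime_iff_gcd_eq_one, Nat.gcd_rec, hk'.2, Nat.gcd_one_left]
        exact Nat.Coprime.coprime_mul_left h2
      have h1 := galois hm0 (fun j => χ (dot (k • g) (b j))) hξ h0 hcop'
      apply hg
      rw [← h1]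
      unfold F
      refine sum_congr rfl fun j _ => ?_
      rw [← χ_nsmul, ← dot_nsmul, smul_smul]
      congr 2
      rw [← mod_addOrderOf_nsmul, mul_comm, hk'.2, one_smul]
    have h1 := h.packing ((range (addOrderOf g).minFac).image fun k => k • g) (by
      intro x hx y hy hxy
      rw [mem_image] at hx hy
      obtain ⟨i, hi, rfl⟩ := hx
      obtain ⟨j, hj, rfl⟩ := hy
      rw [mem_range] at hi hj
      rcases lt_trichotomy i j with hij | hij | hij
      · refine F_sub_ne ?_
        have h2 : j • g - i • g = (j - i) • g := by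
          rw [sub_eq_iff_eq_add, ← add_smul, Nat.sub_add_cancel hij.le]
        rw [h2]
        exact hgal _ (by omega) (by omega)
      · exact absurd (by rw [hij]) hxy
      · have h2 : i • g - j • g = (i - j) • g := by
          rw [sub_eq_iff_eq_add, ← add_smul, Nat.sub_add_cancel hij.le]
        rw [h2]
        exact hgal _ (by omega) (by omega))
    have hc : ((range (addOrderOf g).minFac).image fun k => k • g).card =
        (addOrderOf g).minFac := by
      rw [card_image_of_injOn, card_range]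
      intro i hi j hj hij
      rw [coe_range, Set.mem_Iio] at hi hj
      exact nsmul_injOn_Iio_addOrderOf (Set.mem_Iio.mpr (by omega)) (Set.mem_Iio.mpr (by omega)) hij
    rw [hc] at h1
    rcases h1 with h1 | h1
    · rcases hlq.eq_or_lt with h2 | h2
      · left
        rw [h1, h2]
      · right
        rw [h1]
        exact Nat.mul_le_mul_right n h2
    · right
      exact (Nat.mul_le_mul_right n (by omega)).trans h1
  · left
    push Not at hE
    have h1 := h.parseval
    rw [sum_eq_single (0 : V q) (fun x _ hx => by rw [hE x hx, map_zero])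
      (fun h0 => absurd (mem_univ _) h0), F_zero, Complex.normSq_natCast] at h1
    have hnR : (0 : ℝ) < n := by exact_mod_cast h.pos
    have h2 := mul_right_cancel₀ hnR.ne' h1
    exact_mod_cast h2.symm

end Pool.Agent.Lib.MP_2b2af9_co.Dense
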