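import Pool.Agent.Lib.MP_2b2af9_co.SmallP

/-!
# Blocks: spectral pairs with `p ^ 2 < n < 2 p ^ 2`
-/

set_option autoImplicit false

open Finset

set_option linter.unusedSectionVars false

namespace BHmid

open BHsm

variable {p : ℕ} [hp : Fact p.Prime] {k : ℕ}

/-- The plane over `ℤ / p`. -/
abbrev F2 (p : ℕ) := ZMod p × ZMod p

/-- Reduction of vectors. -/
def rd (v : V p k) : F2 p := (red p k v.1, red p k v.2)

/-- The form on the plane. -/
def fd (a b : F2 p) : ZMod p := a.1 * b.1 + a.2 * b.2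

/-- The determinant. -/
def dt (a b : F2 p) : ZMod p := a.1 * b.2 - a.2 * b.1

/-- The quarter turn. -/
def rot (v : V p k) : V p k := (-v.2, v.1)

/-- The quarter turn of the plane. -/
def frot (a : F2 p) : F2 p := (-a.2, a.1)

theorem rd_sub (v w : V p k) : rd (v - w) = rd v - rd w := by
  unfold rd
  rw [Prod.fst_sub, Prod.snd_sub, map_sub, map_sub, Prod.mk_sub_mk]

theorem rd_rot (v : V p k) : rd (rot v) = frot (rd v) := by
  unfold rd rot frot
  rw [map_neg]

theorem rd_neg (v : V p k) : rd (-v) = -rd v := by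
  unfold rd
  rw [Prod.fst_neg, Prod.snd_neg, map_neg, map_neg, Prod.neg_mk]

theorem red_dot (v w : V p k) : red p k (dot v w) = fd (rd v) (rd w) := by
  unfold dot fd rd
  rw [map_add, map_mul, map_mul]

theorem fd_comm (a b : F2 p) : fd a b = fd b a := by unfold fd; ring
theorem fd_sub (a b c : F2 p) : fd a (b - c) = fd a b - fd a c := by
  unfold fd; rw [Prod.fst_sub, Prod.snd_sub]; ring
theorem sub_fd (a b c : F2 p) : fd (a - b) c = fd a c - fd b c := by
  unfold fd; rw [Prod.fst_sub, Prod.snd_sub]; ring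

theorem red_h (hk : 1 ≤ k) : red p k (h p k) = 0 := by
  unfold h
  rw [map_pow, red_p, zero_pow (by omega)]

theorem dt_swap (a b : F2 p) : dt a b = -dt b a := by unfold dt; ring

theorem dt_basis {d1 d2 ζ : F2 p} (hd : dt d1 d2 ≠ 0) (h1 : dt ζ d1 = 0) (h2 : dt ζ d2 = 0) :
    ζ = 0 := by
  unfold dt at *
  have e1 : ζ.1 * (d1.1 * d2.2 - d1.2 * d2.1) = 0 := by linear_combination d1.1 * h2 - d2.1 * h1
  have e2 : ζ.2 * (d1.1 * d2.2 - d1.2 * d2.1) = 0 := by linear_combination d1.2 * h2 - d2.2 * h1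
  exact Prod.ext ((mul_eq_zero.mp e1).resolve_right hd) ((mul_eq_zero.mp e2).resolve_right hd)

theorem fd_basis {d1 d2 ζ : F2 p} (hd : dt d1 d2 ≠ 0) (h1 : fd d1 ζ = 0) (h2 : fd d2 ζ = 0) :
    ζ = 0 := by
  unfold fd dt at *
  have e1 : ζ.1 * (d1.1 * d2.2 - d1.2 * d2.1) = 0 := by linear_combination d2.2 * h1 - d1.2 * h2
  have e2 : ζ.2 * (d1.1 * d2.2 - d1.2 * d2.1) = 0 := by linear_combination d1.1 * h2 - d2.1 * h1
  exact Prod.ext ((mul_eq_zero.mp e1).resolve_right hd) ((mul_eq_zero.mp e2).resolve_right hd)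

theorem ne_zero_of_dt {a b : F2 p} (hd : dt a b ≠ 0) : a ≠ 0 := by
  rintro rfl
  apply hd
  unfold dt
  simp

/-- Two vectors orthogonal to the same nonzero vector are dependent. -/
theorem dt_of_fd {a b c : F2 p} (hc : c ≠ 0) (h1 : fd a c = 0) (h2 : fd b c = 0) : dt a b = 0 := by
  by_contra hd
  exact hc (fd_basis hd h1 h2)

theorem exists_rot {ζ a : F2 p} (hζ : ζ ≠ 0) (h1 : fd ζ a = 0) : ∃ l : ZMod p, a = l • frot ζ := by
  have hor : ζ.1 ≠ 0 ∨ ζ.2 ≠ 0 := by
    by_contra hcon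
    push Not at hcon
    exact hζ (Prod.ext hcon.1 hcon.2)
  unfold fd at h1
  rcases hor with h2 | h2
  · refine ⟨a.2 / ζ.1, Prod.ext ?_ ?_⟩
    · show a.1 = a.2 / ζ.1 * -ζ.2
      field_simp
      linear_combination h1
    · show a.2 = a.2 / ζ.1 * ζ.1
      field_simp
  · refine ⟨-a.1 / ζ.2, Prod.ext ?_ ?_⟩
    · show a.1 = -a.1 / ζ.2 * -ζ.2
      field_simp
    · show a.2 = -a.1 / ζ.2 * ζ.1
      field_simp
      linear_combination h1

theorem frot_ne {ζ : F2 p} (hζ : ζ ≠ 0) : frot ζ ≠ 0 := by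
  intro h1
  apply hζ
  unfold frot at h1
  have h2 := congrArg Prod.fst h1
  have h3 := congrArg Prod.snd h1
  exact Prod.ext h3 (neg_eq_zero.mp h2)

theorem fd_frot (ζ : F2 p) : fd ζ (frot ζ) = 0 := by unfold fd frot; ring

theorem smul_frot_inj {ζ : F2 p} (hζ : ζ ≠ 0) {l l' : ZMod p} (h1 : l • frot ζ = l' • frot ζ) :
    l = l' := by
  have h2 : (l - l') • frot ζ = 0 := by rw [sub_smul, h1, sub_self]
  rcases smul_eq_zero.mp h2 with h3 | h3
  · exact sub_eq_zero.mp h3
  · exact absurd h3 (frot_ne hζ)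

/-- A vector which is orthogonal to a primitive vector modulo `h`. -/
theorem lemP {z v : V p k} (hz : rd z ≠ 0) (hv : (p : R p k) * dot z v = 0) :
    ∃ (μ : R p k) (u : V p k), v = μ • rot z + h p k • u := by
  obtain ⟨c, hc⟩ := ann hv
  have hor : red p k z.1 ≠ 0 ∨ red p k z.2 ≠ 0 := by
    by_contra hcon
    push Not at hcon
    exact hz (Prod.ext hcon.1 hcon.2)
  unfold dot at hc
  rcases hor with h2 | h2
  · obtain ⟨t, ht⟩ := isUnit_iff_exists_inv.mp (isUnit_of_red h2)
    refine ⟨t * v.2, (t * c, 0), Prod.ext ?_ ?_⟩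
    · show v.1 = t * v.2 * -z.2 + h p k * (t * c)
      linear_combination t * hc - v.1 * ht
    · show v.2 = t * v.2 * z.1 + h p k * 0
      linear_combination -v.2 * ht
  · obtain ⟨t, ht⟩ := isUnit_iff_exists_inv.mp (isUnit_of_red h2)
    refine ⟨-(t * v.1), (0, t * c), Prod.ext ?_ ?_⟩
    · show v.1 = -(t * v.1) * -z.2 + h p k * 0
      linear_combination -v.1 * ht
    · show v.2 = -(t * v.1) * z.1 + h p k * (t * c)
      linear_combination t * hc - v.2 * ht

/-- A vector orthogonal (modulo `h`) to two independent vectors is killed by `p`. -/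
theorem meet {z1 z2 v : V p k} (hd : dt (rd z1) (rd z2) ≠ 0) (h1 : (p : R p k) * dot z1 v = 0)
    (h2 : (p : R p k) * dot z2 v = 0) : (p : R p k) • v = 0 := by
  have hD : red p k (z1.1 * z2.2 - z1.2 * z2.1) ≠ 0 := by
    rw [map_sub, map_mul, map_mul]
    exact hd
  obtain ⟨t, ht⟩ := isUnit_iff_exists_inv.mp (isUnit_of_red hD)
  unfold dot at h1 h2
  refine Prod.ext ?_ ?_
  · show (p : R p k) * v.1 = 0
    linear_combination (t * z2.2) * h1 - (t * z1.2) * h2 - (p : R p k) * v.1 * ht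
  · show (p : R p k) * v.2 = 0
    linear_combination (t * z1.1) * h2 - (t * z2.1) * h1 - (p : R p k) * v.2 * ht

theorem dot_rot_self (w : V p k) : dot w (rot w) = 0 := by unfold dot rot; ring

theorem p_mul_h_mul (c : R p k) : (p : R p k) * (h p k * c) = 0 := by
  rw [← mul_assoc, p_mul_h, zero_mul]

/-- Primitive vectors orthogonal to the same primitive vector define the same relation. -/
theorem same_rel (hk : 1 ≤ k) {z z' w v : V p k} (hz : rd z ≠ 0) (hw : rd w ≠ 0)
    (h1 : (p : R p k) * dot z w = 0) (h2 : (p : R p k) * dot z' w = 0)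
    (hv : (p : R p k) * dot z v = 0) : (p : R p k) * dot z' v = 0 := by
  rw [dot_comm] at h1 h2
  obtain ⟨μ, u, hμ⟩ := lemP hw h1
  obtain ⟨μ', u', hμ'⟩ := lemP hw h2
  have hunit : IsUnit μ := by
    apply isUnit_of_red
    intro h3
    apply hz
    rw [hμ]
    have h4 : rd (μ • rot w + h p k • u) = (red p k μ • rd (rot w)) + (red p k (h p k)) • rd u := by
      refine Prod.ext ?_ ?_
      · show red p k (μ * (rot w).1 + h p k * u.1) = red p k μ * red p k (rot w).1 + red p k (h p k) * red p k u.1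
        rw [map_add, map_mul, map_mul]
      · show red p k (μ * (rot w).2 + h p k * u.2) = red p k μ * red p k (rot w).2 + red p k (h p k) * red p k u.2
        rw [map_add, map_mul, map_mul]
    rw [h4, h3, red_h hk, zero_smul, zero_smul, add_zero]
  obtain ⟨t, ht⟩ := isUnit_iff_exists_inv.mp hunit
  rw [hμ, dot_add, dot_smul, dot_smul, mul_add, p_mul_h_mul, add_zero] at hv
  rw [hμ', dot_add, dot_smul, dot_smul, mul_add, p_mul_h_mul, add_zero]
  have h5 : (p : R p k) * dot (rot w) v = 0 := by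
    linear_combination t * hv - (p : R p k) * dot (rot w) v * ht
  linear_combination μ' * h5

/-! ### Blocks -/

variable {I J : Type} [Fintype I] [Fintype J] [DecidableEq I] [DecidableEq J]

/-- The block of `j` for the vector `z`. -/
def blk (y : J → V p k) (z : V p k) (j : J) : Finset J :=
  univ.filter fun j' => (p : R p k) * dot z (y j' - y j) = 0

theorem mem_blk {y : J → V p k} {z : V p k} {j j' : J} :
    j' ∈ blk y z j ↔ (p : R p k) * dot z (y j' - y j) = 0 := by
  unfold blk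
  rw [mem_filter]
  exact ⟨fun h1 => h1.2, fun h1 => ⟨mem_univ _, h1⟩⟩

theorem blk_self (y : J → V p k) (z : V p k) (j : J) : j ∈ blk y z j := by
  rw [mem_blk, sub_self, dot_zero', mul_zero]

theorem blk_symm {y : J → V p k} {z : V p k} {j j' : J} (h1 : j' ∈ blk y z j) : j ∈ blk y z j' := by
  rw [mem_blk] at h1 ⊢
  rw [dot_sub'] at h1 ⊢
  linear_combination -h1

theorem blk_trans {y : J → V p k} {z : V p k} {j j' j'' : J} (h1 : j' ∈ blk y z j)
    (h2 : j'' ∈ blk y z j') : j'' ∈ blk y z j := by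
  rw [mem_blk] at h1 h2 ⊢
  rw [dot_sub'] at h1 h2 ⊢
  linear_combination h1 + h2

theorem blk_eq {y : J → V p k} {z : V p k} {j j' : J} (h1 : j' ∈ blk y z j) :
    blk y z j' = blk y z j := by
  ext j''
  exact ⟨fun h2 => blk_trans h1 h2, fun h2 => blk_trans (blk_symm h1) h2⟩

theorem blk_line {y : J → V p k} {z : V p k} {j j' : J} (hk : 1 ≤ k) (h1 : j' ∈ blk y z j) :
    fd (rd z) (rd (y j')) = fd (rd z) (rd (y j)) := by
  rw [mem_blk] at h1
  obtain ⟨c, hc⟩ := ann h1
  have h2 : red p k (dot z (y j' - y j)) = 0 := by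
    rw [hc, map_mul, red_h hk, zero_mul]
  rw [red_dot, rd_sub, fd_sub] at h2
  exact sub_eq_zero.mp h2

/-- The vector is a primitive difference of the family `x`. -/
def D (x : I → V p k) (z : V p k) : Prop := rd z ≠ 0 ∧ ∃ i i', z = x i - x i'

/-- The standing assumptions (one-sided). -/
structure BX (x : I → V p k) (y : J → V p k) : Prop where
  sp : SP x y
  hk : 1 ≤ k
  hy : ∀ j j', j ≠ j' → (p : R p k) • (y j - y j') ≠ 0
  nc : ∃ i0 i1 i2, dt (rd (x i1 - x i0)) (rd (x i2 - x i0)) ≠ 0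
  lt : Fintype.card J < 2 * p ^ 2

variable {x : I → V p k} {y : J → V p k}

theorem D.U (hb : BX x y) {z : V p k} (hz : D x z) : U fun j => dot z (y j) := by
  obtain ⟨hz0, i, i', rfl⟩ := hz
  refine hb.sp.row i i' ?_
  rintro rfl
  apply hz0
  rw [sub_self]
  unfold rd
  simp

theorem BX.indep (hb : BX x y) {ζ : F2 p} (hζ : ζ ≠ 0) : ∃ z, D x z ∧ dt ζ (rd z) ≠ 0 := by
  obtain ⟨i0, i1, i2, hd⟩ := hb.nc
  by_cases h1 : dt ζ (rd (x i1 - x i0)) = 0
  · by_cases h2 : dt ζ (rd (x i2 - x i0)) = 0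
    · exact absurd (dt_basis hd h1 h2) hζ
    · refine ⟨_, ⟨?_, i2, i0, rfl⟩, h2⟩
      intro h3
      apply h2
      rw [h3]
      unfold dt
      simp
  · refine ⟨_, ⟨?_, i1, i0, rfl⟩, h1⟩
    intro h3
    apply h1
    rw [h3]
    unfold dt
    simp

/-- Two blocks of independent vectors meet in at most one element. -/
theorem BX.meet (hb : BX x y) {z1 z2 : V p k} (hd : dt (rd z1) (rd z2) ≠ 0) {j j' : J}
    (h1 : j' ∈ blk y z1 j) (h2 : j' ∈ blk y z2 j) : j' = j := by
  by_contra hne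
  exact hb.hy j' j hne (BHmid.meet hd (mem_blk.mp h1) (mem_blk.mp h2))

theorem card_image_lt (hb : BX x y) {z : V p k} (hz : D x z) :
    (univ.image fun j => (p : R p k) * dot z (y j)).card < 2 * p := by
  have h1 := class_mul_le (hz.U hb)
  have h2 := hb.lt
  have h3 : p * (univ.image fun j => (p : R p k) * dot z (y j)).card < p * (2 * p) := by
    calc _ ≤ _ := h1
      _ < _ := h2
      _ = _ := by ring
  exact Nat.lt_of_mul_lt_mul_left h3

theorem N_eq_one (hb : BX x y) {z : V p k} (hz : D x z) (j : J) :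
    N (fun j' => dot z (y j')) (dot z (y j)) = 1 := by
  obtain ⟨z2, hz2, hd⟩ := hb.indep hz.1
  have h1 := (hz.U hb).card_class (dot z (y j))
  have h2 : (univ.filter fun j' => (p : R p k) * dot z (y j') = (p : R p k) * dot z (y j)).card ≤
      (univ.image fun j' => (p : R p k) * dot z2 (y j')).card := by
    refine card_le_card_of_injOn (fun j' => (p : R p k) * dot z2 (y j')) ?_ ?_
    · intro j' _
      rw [mem_coe]
      exact mem_image_of_mem _ (mem_univ j')
    · intro j' hj' j'' hj'' heq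
      rw [mem_coe, mem_filter] at hj' hj''
      refine hb.meet (z1 := z) (z2 := z2) hd ?_ ?_
      · rw [mem_blk, dot_sub', mul_sub, hj'.2, hj''.2, sub_self]
      · rw [mem_blk, dot_sub', mul_sub, sub_eq_zero]
        exact heq
  have h3 := card_image_lt hb hz2
  have h4 : 0 < N (fun j' => dot z (y j')) (dot z (y j)) := by
    unfold N
    rw [card_pos]
    exact ⟨j, by rw [mem_filter]; exact ⟨mem_univ _, rfl⟩⟩
  have h5 : p * N (fun j' => dot z (y j')) (dot z (y j)) < p * 2 := by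
    rw [← h1]
    calc _ ≤ _ := h2
      _ < _ := h3
      _ = _ := by ring
  have h6 := Nat.lt_of_mul_lt_mul_left h5
  omega

/-- A block has `p` elements. -/
theorem card_blk (hb : BX x y) {z : V p k} (hz : D x z) (j : J) : (blk y z j).card = p := by
  have h1 := (hz.U hb).card_class (dot z (y j))
  rw [N_eq_one hb hz j, mul_one] at h1
  refine Eq.trans (congrArg card ?_) h1
  ext j'
  rw [mem_blk, mem_filter, dot_sub', mul_sub, sub_eq_zero]
  exact ⟨fun h2 => ⟨mem_univ _, h2⟩, fun h2 => h2.2⟩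

/-- The products with a primitive difference are distinct. -/
theorem dot_inj (hb : BX x y) {z : V p k} (hz : D x z) {j j' : J} (h1 : dot z (y j' - y j) = 0) :
    j' = j := by
  have h2 := N_eq_one hb hz j
  unfold N at h2
  obtain ⟨a, ha⟩ := card_eq_one.mp h2
  have h3 : j ∈ ({a} : Finset J) := by
    rw [← ha, mem_filter]
    exact ⟨mem_univ _, rfl⟩
  have h4 : j' ∈ ({a} : Finset J) := by
    rw [← ha, mem_filter]
    refine ⟨mem_univ _, ?_⟩
    rw [dot_sub'] at h1
    exact sub_eq_zero.mp h1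
  rw [mem_singleton] at h3 h4
  rw [h3, h4]

/-- The block of `j` is inside one class modulo `p`. -/
def Cst (y : J → V p k) (z : V p k) (j : J) : Prop := ∀ j' ∈ blk y z j, rd (y j') = rd (y j)

/-- The elements of the block of `j` are in distinct classes modulo `p`. -/
def Trv (y : J → V p k) (z : V p k) (j : J) : Prop :=
  ∀ j' ∈ blk y z j, ∀ j'' ∈ blk y z j, rd (y j') = rd (y j'') → j' = j''

/-- The class of a point. -/
def cls (y : J → V p k) (c : F2 p) : Finset J := univ.filter fun j => rd (y j) = c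

theorem mem_cls {y : J → V p k} {c : F2 p} {j : J} : j ∈ cls y c ↔ rd (y j) = c := by
  unfold cls
  rw [mem_filter]
  exact ⟨fun h1 => h1.2, fun h1 => ⟨mem_univ _, h1⟩⟩

theorem Cst.of_mem {z : V p k} {j j' : J} (h1 : Cst y z j) (h2 : j' ∈ blk y z j) : Cst y z j' := by
  intro j'' hj''
  rw [blk_eq h2] at hj''
  rw [h1 j'' hj'', h1 j' h2]

theorem sq_le_cls (hb : BX x y) {z1 z2 : V p k} (hz1 : D x z1) (hz2 : D x z2)
    (hd : dt (rd z1) (rd z2) ≠ 0) {c : F2 p} (h1 : ∀ j ∈ cls y c, Cst y z1 j)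
    (h2 : ∀ j ∈ cls y c, Cst y z2 j) {j0 : J} (hj0 : j0 ∈ cls y c) : p ^ 2 ≤ (cls y c).card := by
  have h3 : (blk y z1 j0).biUnion (blk y z2) ⊆ cls y c := by
    intro j hj
    rw [mem_biUnion] at hj
    obtain ⟨j', hj', hj⟩ := hj
    have h4 : j' ∈ cls y c := by
      rw [mem_cls, h1 j0 hj0 j' hj']
      exact mem_cls.mp hj0
    rw [mem_cls, h2 j' h4 j hj]
    exact mem_cls.mp h4
  refine le_trans ?_ (card_le_card h3)
  rw [card_biUnion]
  · rw [sum_congr rfl fun j _ => card_blk hb hz2 j, sum_const, card_blk hb hz1 j0, smul_eq_mul, sq]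
  · intro j hj j' hj' hne
    rw [Function.onFun, disjoint_left]
    intro a ha ha'
    apply hne
    refine hb.meet hd (j := j') (j' := j) ?_ ?_
    · exact blk_trans (blk_symm hj') hj
    · exact blk_trans ha' (blk_symm ha)

/-- (2): two independent vectors all of whose blocks are inside classes. -/
theorem two_const (hb : BX x y) {z1 z2 : V p k} (hz1 : D x z1) (hz2 : D x z2)
    (hd : dt (rd z1) (rd z2) ≠ 0) (h1 : ∀ j, Cst y z1 j) (h2 : ∀ j, Cst y z2 j) (j0 j1 : J)
    (hj : rd (y j0) ≠ rd (y j1)) : False := by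
  have h3 := sq_le_cls hb hz1 hz2 hd (c := rd (y j0)) (fun j _ => h1 j) (fun j _ => h2 j)
    (mem_cls.mpr rfl)
  have h4 := sq_le_cls hb hz1 hz2 hd (c := rd (y j1)) (fun j _ => h1 j) (fun j _ => h2 j)
    (mem_cls.mpr rfl)
  have h5 : Disjoint (cls y (rd (y j0))) (cls y (rd (y j1))) := by
    rw [disjoint_left]
    intro a ha ha'
    rw [mem_cls] at ha ha'
    exact hj (ha.symm.trans ha')
  have h6 := card_le_card (subset_univ (cls y (rd (y j0)) ∪ cls y (rd (y j1))))
  rw [card_union_of_disjoint h5, card_univ] at h6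
  have h7 := hb.lt
  omega

end BHmid
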