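import Pool.Agent.Lib.MP_2b2af9_co.MidR

/-!
# Two functions on `ℤ / p` whose slopes avoid each other
-/

set_option autoImplicit false

open Finset

namespace BHmid

variable {p : ℕ} [hp : Fact p.Prime]

/-- If the slopes `a` of `f` and `b` of `g` satisfy `e a b + c a + c' b ≠ 0` (unless
`a = b = 0`), then one of the two functions is affine. -/
theorem two_fun (hp2 : p ≠ 2) (f g : ZMod p → ZMod p) (e c c' : ZMod p) (hc : c ≠ 0) (hc' : c' ≠ 0)
    (h : ∀ i j, i ≠ j → ∀ i' j', i' ≠ j' → (f i - f j ≠ 0 ∨ g i' - g j' ≠ 0) →
      e * (f i - f j) * (g i' - g j') + c * (f i - f j) * (i' - j') +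
        c' * (g i' - g j') * (i - j) ≠ 0) :
    (∃ s t, ∀ i, f i = s * i + t) ∨ ∃ s t, ∀ i, g i = s * i + t := by
  classical
  by_cases hf : ∃ s t, ∀ i, f i = s * i + t
  · exact Or.inl hf
  right
  have hodd : p % 2 = 1 := by
    rcases hp.out.eq_two_or_odd with h1 | h1
    · exact absurd h1 hp2
    · exact h1
  set Pf : Finset (ZMod p) := univ.filter fun m => Function.Injective fun i => f i - m * i with hPf
  have h1 : 2 * Pf.card + 1 < p := by
    by_contra hcon
    push Not at hcon
    exact hf (redei hp2 f Pf hcon fun m hm => (mem_filter.mp hm).2)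
  set T : Finset (ZMod p) := (univ \ Pf).filter fun m => m ≠ 0 ∧ e * m + c' ≠ 0 with hT
  set φ : ZMod p → ZMod p := fun m => -(c * m) / (e * m + c') with hφ
  have hφT : ∀ m ∈ T, Function.Injective fun i => g i - φ m * i := by
    intro m hm
    rw [hT, mem_filter, mem_sdiff, hPf, mem_filter] at hm
    obtain ⟨⟨-, hm1⟩, hm2, hm3⟩ := hm
    have hm4 : ¬ Function.Injective fun i => f i - m * i := fun h2 => hm1 ⟨mem_univ _, h2⟩
    rw [Function.Injective] at hm4
    push Not at hm4
    obtain ⟨i, j, hij, hne⟩ := hm4
    intro i' j' hij'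
    by_contra hne'
    have h2 : f i - f j = m * (i - j) := by
      have h9 : f i - m * i = f j - m * j := hij
      linear_combination h9
    have h3 : g i' - g j' = φ m * (i' - j') := by
      have h9 : g i' - φ m * i' = g j' - φ m * j' := hij'
      linear_combination h9
    apply h i j hne i' j' hne' (Or.inl _)
    · rw [h2, h3]
      have h4 : φ m * (e * m + c') = -(c * m) := by
        rw [hφ]
        exact div_mul_cancel₀ _ hm3
      linear_combination (i - j) * (i' - j') * h4
    · rw [h2]
      exact mul_ne_zero hm2 (sub_ne_zero.mpr hne)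
  have hφinj : Set.InjOn φ T := by
    intro m hm m' hm' heq
    rw [mem_coe, hT, mem_filter] at hm hm'
    rw [hφ] at heq
    simp only at heq
    rw [div_eq_div_iff hm.2.2 hm'.2.2] at heq
    have h5 : (c * c') * (m - m') = 0 := by linear_combination -heq
    rcases mul_eq_zero.mp h5 with h6 | h6
    · exact absurd h6 (mul_ne_zero hc hc')
    · exact sub_eq_zero.mp h6
  have hTcard : p ≤ T.card + Pf.card + 2 := by
    have h2 : (univ : Finset (ZMod p)) ⊆ T ∪ Pf ∪ {0, -c' / e} := by
      intro m _
      simp only [mem_union, mem_insert, mem_singleton]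
      by_cases hm1 : m ∈ Pf
      · exact Or.inl (Or.inr hm1)
      · by_cases hm2 : m = 0
        · exact Or.inr (Or.inl hm2)
        · by_cases hm3 : e * m + c' = 0
          · right; right
            have he : e ≠ 0 := by
              rintro rfl
              rw [zero_mul, zero_add] at hm3
              exact hc' hm3
            rw [eq_div_iff he]
            linear_combination hm3
          · left; left
            rw [hT, mem_filter, mem_sdiff]
            exact ⟨⟨mem_univ _, hm1⟩, hm2, hm3⟩
    have h3 := card_le_card h2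
    rw [card_univ, ZMod.card] at h3
    have h4 := card_union_le (T ∪ Pf) {0, -c' / e}
    have h5 := card_union_le T Pf
    have h6 : ({0, -c' / e} : Finset (ZMod p)).card ≤ 2 := card_le_two
    omega
  refine redei hp2 g (T.image φ) ?_ ?_
  · rw [card_image_of_injOn hφinj]
    omega
  · intro m hm
    rw [mem_image] at hm
    obtain ⟨m', hm', rfl⟩ := hm
    exact hφT m' hm'

/-- An affine function is constant or injective. -/
theorem affine_cases {f : ZMod p → ZMod p} (hf : ∃ s t, ∀ i, f i = s * i + t) :
    (∀ i j, f i = f j) ∨ Function.Injective f := by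
  obtain ⟨s, t, hst⟩ := hf
  by_cases hs : s = 0
  · left
    intro i j
    rw [hst, hst, hs, zero_mul, zero_mul]
  · right
    intro i j hij
    rw [hst, hst] at hij
    exact mul_left_cancel₀ hs (add_right_cancel hij)

end BHmid
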