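import Pool.Agent.Lib.MP_2b2af9_co.MidA
import Pool.Agent.Lib.MP_2b2af9_co.MidS

/-!
# A block of rows against a block of columns
-/

set_option autoImplicit false

open Finset

set_option linter.unusedSectionVars false

namespace BHmid

open BHsm

variable {p : ℕ} [hp : Fact p.Prime] {k : ℕ} {I J : Type} [Fintype I] [Fintype J]
  [DecidableEq I] [DecidableEq J] {x : I → V p k} {y : J → V p k}

theorem h_sq (hk : 1 ≤ k) : h p k * h p k = 0 := by
  obtain ⟨d, hd⟩ := red_eq_zero.mp (red_h (p := p) hk)
  have h1 : h p k * h p k = ((p : R p k) * h p k) * d := by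
    nth_rewrite 2 [hd]
    ring
  rw [h1, p_mul_h, zero_mul]

theorem rd_comb (hk : 1 ≤ k) (a : R p k) (v w : V p k) :
    rd (a • v + h p k • w) = red p k a • rd v := by
  refine Prod.ext ?_ ?_
  · show red p k (a * v.1 + h p k * w.1) = red p k a * red p k v.1
    rw [map_add, map_mul, map_mul, red_h hk, zero_mul, add_zero]
  · show red p k (a * v.2 + h p k * w.2) = red p k a * red p k v.2
    rw [map_add, map_mul, map_mul, red_h hk, zero_mul, add_zero]

/-- The elements of a block are indexed by `ℤ / p`. -/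
theorem param (hb : BX x y) {z : V p k} (hz : D x z) (j0 : J) :
    ∃ (jt : ZMod p → J) (ν : ZMod p → R p k) (u : ZMod p → V p k),
      (∀ t, jt t ∈ blk y z j0) ∧ (∀ j ∈ blk y z j0, ∃ t, jt t = j) ∧
      (∀ t, y (jt t) - y j0 = ν t • rot z + h p k • u t) ∧ (∀ t, red p k (dot z (u t)) = t) ∧
      Function.Injective jt := by
  classical
  have h1 : ∀ j, ∃ (a : R p k) (v : V p k), j ∈ blk y z j0 →
      y j - y j0 = a • rot z + h p k • v := by
    intro j
    by_cases hj : j ∈ blk y z j0
    · obtain ⟨a, v, hav⟩ := lemP hz.1 (mem_blk.mp hj)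
      exact ⟨a, v, fun _ => hav⟩
    · exact ⟨0, 0, fun h2 => absurd h2 hj⟩
  choose a v hav using h1
  set τ : J → ZMod p := fun j => red p k (dot z (v j)) with hτ
  have h2 : ∀ j ∈ blk y z j0, dot z (y j - y j0) = h p k * dot z (v j) := by
    intro j hj
    rw [hav j hj, dot_comm, dot_add, dot_smul, dot_smul, dot_comm (rot z) z, dot_rot_self,
      dot_comm (v j) z]
    ring
  have hinj : Set.InjOn τ (blk y z j0) := by
    intro j hj j' hj' heq
    rw [mem_coe] at hj hj'
    apply dot_inj hb hz
    have h3 : dot z (y j - y j') = h p k * (dot z (v j) - dot z (v j')) := by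
      have h4 : y j - y j' = (y j - y j0) - (y j' - y j0) := by abel
      rw [h4, dot_sub', h2 j hj, h2 j' hj']
      ring
    rw [h3, h_mul_eq_zero, map_sub]
    exact sub_eq_zero.mpr heq
  have himg : (blk y z j0).image τ = univ := by
    rw [← card_eq_iff_eq_univ, card_image_of_injOn hinj, card_blk hb hz, ZMod.card]
  have hsurj : ∀ t : ZMod p, ∃ j, j ∈ blk y z j0 ∧ τ j = t := by
    intro t
    have h3 : t ∈ (blk y z j0).image τ := by rw [himg]; exact mem_univ t
    rw [mem_image] at h3
    obtain ⟨j, hj, hjt⟩ := h3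
    exact ⟨j, hj, hjt⟩
  choose jt hjt1 hjt2 using hsurj
  refine ⟨jt, fun t => a (jt t), fun t => v (jt t), hjt1, ?_, ?_, hjt2, ?_⟩
  · intro j hj
    exact ⟨τ j, hinj (mem_coe.mpr (hjt1 _)) (mem_coe.mpr hj) (hjt2 _)⟩
  · intro t
    exact hav _ (hjt1 t)
  · intro t t' htt
    rw [← hjt2 t, ← hjt2 t', htt]

/-- The function attached to a block decides its type. -/
theorem type_of_affine (hb : BX x y) {z : V p k} (hz : D x z) {j0 : J} {jt : ZMod p → J}
    {ν : ZMod p → R p k} {u : ZMod p → V p k} (h1 : ∀ j ∈ blk y z j0, ∃ t, jt t = j)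
    (h2 : ∀ t, y (jt t) - y j0 = ν t • rot z + h p k • u t)
    (haff : ∃ s t, ∀ i, red p k (ν i) = s * i + t) : Cst y z j0 ∨ Trv y z j0 := by
  have h3 : ∀ t, rd (y (jt t)) - rd (y j0) = red p k (ν t) • frot (rd z) := by
    intro t
    rw [← rd_sub, h2, rd_comb hb.hk, rd_rot]
  rcases affine_cases haff with h4 | h4
  · left
    intro j hj
    obtain ⟨t, rfl⟩ := h1 j hj
    obtain ⟨t0, ht0⟩ := h1 j0 (blk_self y z j0)
    have h5 := h3 t
    have h6 := h3 t0
    rw [ht0, sub_self] at h6
    rw [h4 t t0, ← h6] at h5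
    exact sub_eq_zero.mp h5
  · right
    intro j' hj' j'' hj'' heq
    obtain ⟨t', rfl⟩ := h1 j' hj'
    obtain ⟨t'', rfl⟩ := h1 j'' hj''
    have h5 := h3 t'
    have h6 := h3 t''
    rw [heq, h6] at h5
    have h7 := smul_frot_inj hz.1 h5
    rw [h4 h7.symm]

/-- (3): a block of `y` or a block of `x` is constant or transversal. -/
theorem block_block (hp2 : p ≠ 2) (hb : BX x y) (hb' : BX y x) {z w : V p k} (hz : D x z)
    (hw : D y w) (hzw : (p : R p k) * dot z w = 0) (j0 : J) (i0 : I) :
    (Cst x w i0 ∨ Trv x w i0) ∨ (Cst y z j0 ∨ Trv y z j0) := by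
  obtain ⟨jt, ν, u', hj1, hj2, hj3, hj4, hj5⟩ := param hb hz j0
  obtain ⟨it, μ, u, hi1, hi2, hi3, hi4, hi5⟩ := param hb' hw i0
  have hk := hb.hk
  obtain ⟨e', he'⟩ := ann hzw
  have hfd : fd (rd z) (rd w) = 0 := by
    rw [← red_dot, he', map_mul, red_h hk, zero_mul]
  obtain ⟨l, hl⟩ := exists_rot hz.1 hfd
  have hl0 : l ≠ 0 := by
    rintro rfl
    rw [zero_smul] at hl
    exact hw.1 hl
  have hff : frot (rd w) = (-l) • rd z := by
    rw [hl]
    refine Prod.ext ?_ ?_
    · show -(l * (rd z).1) = -l * (rd z).1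
      ring
    · show l * -(rd z).2 = -l * (rd z).2
      ring
  have hfz : frot (rd z) = l⁻¹ • rd w := by
    rw [hl, smul_smul, inv_mul_cancel₀ hl0, one_smul]
  have hfds : ∀ (a : ZMod p) (v v' : F2 p), fd (a • v) v' = a * fd v v' := by
    intro a v v'
    unfold fd
    rw [Prod.smul_fst, Prod.smul_snd, smul_eq_mul, smul_eq_mul]
    ring
  have key := two_fun hp2 (fun s => red p k (μ s)) (fun t => red p k (ν t)) (red p k e') (-l) l⁻¹
    (neg_ne_zero.mpr hl0) (inv_ne_zero hl0) (by
      intro s s' hs t t' ht hne hcon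
      have hP : x (it s) - x (it s') = (μ s - μ s') • rot w + h p k • (u s - u s') := by
        have h1 : x (it s) - x (it s') = (x (it s) - x i0) - (x (it s') - x i0) := by abel
        rw [h1, hi3, hi3, sub_smul, smul_sub]
        abel
      have hQ : y (jt t) - y (jt t') = (ν t - ν t') • rot z + h p k • (u' t - u' t') := by
        have h1 : y (jt t) - y (jt t') = (y (jt t) - y j0) - (y (jt t') - y j0) := by abel
        rw [h1, hj3, hj3, sub_smul, smul_sub]
        abel
      have hrP : rd (x (it s) - x (it s')) = (red p k (μ s) - red p k (μ s')) • frot (rd w) := by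
        rw [hP, rd_comb hk, rd_rot, map_sub]
      have hrQ : rd (y (jt t) - y (jt t')) = (red p k (ν t) - red p k (ν t')) • frot (rd z) := by
        rw [hQ, rd_comb hk, rd_rot, map_sub]
      have hPQ : dot (x (it s) - x (it s')) (y (jt t) - y (jt t')) =
          h p k * ((μ s - μ s') * (ν t - ν t') * e' + (μ s - μ s') * dot (rot w) (u' t - u' t') +
            (ν t - ν t') * dot (rot z) (u s - u s')) := by
        have h2 : dot (rot w) (rot z) = h p k * e' := by
          rw [← he']
          unfold dot rot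
          ring
        have h3 := h_sq (p := p) hk
        rw [hP, hQ, dot_add, dot_smul, dot_smul, dot_comm (rot w), dot_add, dot_smul, dot_smul,
          dot_comm (u s - u s'), dot_add, dot_smul, dot_smul, dot_comm (rot z) (rot w), h2,
          dot_comm (u' t - u' t') (rot w)]
        linear_combination (dot (u' t - u' t') (u s - u s')) * h3
      have hzero : dot (x (it s) - x (it s')) (y (jt t) - y (jt t')) = 0 := by
        rw [hPQ, h_mul_eq_zero, map_add, map_add, map_mul, map_mul, map_mul, map_mul, map_sub,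
          map_sub, red_dot, red_dot, rd_rot, rd_rot, hff, hfz, hfds, hfds, ← red_dot, ← red_dot,
          dot_sub', dot_sub', map_sub, map_sub, hi4, hi4, hj4, hj4]
        linear_combination hcon
      rcases hne with h4 | h4
      · have hD : D x (x (it s) - x (it s')) := by
          refine ⟨?_, _, _, rfl⟩
          rw [hrP]
          exact smul_ne_zero h4 (frot_ne hw.1)
        exact ht (hj5 (dot_inj hb hD hzero))
      · have hD : D y (y (jt t) - y (jt t')) := by
          refine ⟨?_, _, _, rfl⟩
          rw [hrQ]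
          exact smul_ne_zero h4 (frot_ne hz.1)
        rw [dot_comm] at hzero
        exact hs (hi5 (dot_inj hb' hD hzero)))
  rcases key with h1 | h1
  · exact Or.inl (type_of_affine hb' hw hi2 hi3 h1)
  · exact Or.inr (type_of_affine hb hz hj2 hj3 h1)

end BHmid
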