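import Pool.Agent.Lib.MP_2b2af9_co.MidC

/-!
# Class sizes modulo `p` and isolated differences
-/

set_option autoImplicit false

open Finset

set_option linter.unusedSectionVars false

namespace BHmid

open BHsm

variable {p : ℕ} [hp : Fact p.Prime] {k : ℕ} {I J : Type} [Fintype I] [Fintype J]
  [DecidableEq I] [DecidableEq J] {x : I → V p k} {y : J → V p k}

/-- All blocks are constant or transversal. -/
def Aff (y : J → V p k) (z : V p k) : Prop := ∀ j, Cst y z j ∨ Trv y z j

theorem par {a b : F2 p} (hb : b ≠ 0) (h1 : dt a b = 0) : ∃ l : ZMod p, a = l • b := by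
  have h2 : fd (frot b) a = 0 := by
    unfold fd frot
    unfold dt at h1
    linear_combination -h1
  obtain ⟨l, hl⟩ := exists_rot (frot_ne hb) h2
  refine ⟨-l, ?_⟩
  rw [hl]
  refine Prod.ext ?_ ?_
  · show l * -b.1 = -l * b.1
    ring
  · show l * -b.2 = -l * b.2
    ring

theorem fd_smul (a : F2 p) (l : ZMod p) (b : F2 p) : fd a (l • b) = l * fd a b := by
  unfold fd
  rw [Prod.smul_fst, Prod.smul_snd, smul_eq_mul, smul_eq_mul]
  ring

theorem fd_par {a b c : F2 p} (hb : b ≠ 0) (h1 : dt a b = 0) (h2 : fd b c = 0) : fd a c = 0 := by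
  obtain ⟨l, rfl⟩ := par hb h1
  rw [fd_comm, fd_smul, fd_comm, h2, mul_zero]

/-- The normals of independent vectors are independent. -/
theorem dt_normals {z z' w w' : F2 p} (hd : dt z z' ≠ 0) (hw : w ≠ 0) (hw' : w' ≠ 0)
    (h1 : fd z w = 0) (h2 : fd z' w' = 0) : dt w w' ≠ 0 := by
  intro h3
  apply hw
  refine fd_basis hd h1 ?_
  rw [fd_comm]
  rw [fd_comm] at h2
  exact fd_par hw' h3 h2

/-- A union of blocks. -/
theorem dvd_of_union (hb : BX x y) {z : V p k} (hz : D x z) {S : Finset J}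
    (hS : ∀ j ∈ S, blk y z j ⊆ S) : p ∣ S.card := by
  classical
  rw [card_eq_sum_card_image (fun j => (p : R p k) * dot z (y j)) S]
  apply dvd_sum
  intro b hbm
  rw [mem_image] at hbm
  obtain ⟨j, hj, rfl⟩ := hbm
  have h1 : (S.filter fun j' => (p : R p k) * dot z (y j') = (p : R p k) * dot z (y j)) =
      blk y z j := by
    ext j'
    rw [mem_filter, mem_blk, dot_sub', mul_sub, sub_eq_zero]
    constructor
    · exact fun h2 => h2.2
    · intro h2
      refine ⟨hS j hj ?_, h2⟩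
      rw [mem_blk, dot_sub', mul_sub, sub_eq_zero]
      exact h2
  rw [h1, card_blk hb hz]

/-- A transversal block meets every class of its line. -/
theorem exists_in_block (hb : BX x y) {z : V p k} (hz : D x z) {j : J} (ht : Trv y z j)
    {c : F2 p} (hc : fd (rd z) c = fd (rd z) (rd (y j))) : ∃ j' ∈ blk y z j, rd (y j') = c := by
  classical
  have h1 : ∀ j', ∃ l : ZMod p, j' ∈ blk y z j → rd (y j') - rd (y j) = l • frot (rd z) := by
    intro j'
    by_cases hj' : j' ∈ blk y z j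
    · obtain ⟨l, hl⟩ := exists_rot hz.1 (a := rd (y j') - rd (y j)) (by
        rw [fd_sub, blk_line hb.hk hj', sub_self])
      exact ⟨l, fun _ => hl⟩
    · exact ⟨0, fun h2 => absurd h2 hj'⟩
  choose l hl using h1
  have hinj : Set.InjOn l (blk y z j) := by
    intro j' hj' j'' hj'' heq
    rw [mem_coe] at hj' hj''
    apply ht j' hj' j'' hj''
    have h2 := hl j' hj'
    have h3 := hl j'' hj''
    rw [heq, ← h3] at h2
    exact sub_left_injective h2
  have himg : (blk y z j).image l = univ := by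
    rw [← card_eq_iff_eq_univ, card_image_of_injOn hinj, card_blk hb hz, ZMod.card]
  obtain ⟨l', hl'⟩ := exists_rot hz.1 (a := c - rd (y j)) (by rw [fd_sub, hc, sub_self])
  have h4 : l' ∈ (blk y z j).image l := by rw [himg]; exact mem_univ _
  rw [mem_image] at h4
  obtain ⟨j', hj', hjl⟩ := h4
  refine ⟨j', hj', ?_⟩
  have h5 := hl j' hj'
  rw [hjl, ← hl'] at h5
  exact sub_left_injective h5

open Classical in
theorem card_nonconst_le (hb : BX x y) {z : V p k} (hz : D x z) (ha : Aff y z) {c c' : F2 p}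
    (hc : fd (rd z) c = fd (rd z) c') :
    ((cls y c).filter fun j => ¬ Cst y z j).card ≤
      ((cls y c').filter fun j => ¬ Cst y z j).card := by
  classical
  have h1 : ∀ j, ∃ j', j ∈ (cls y c).filter (fun j => ¬ Cst y z j) →
      j' ∈ blk y z j ∧ rd (y j') = c' := by
    intro j
    by_cases hj : j ∈ (cls y c).filter fun j => ¬ Cst y z j
    · have hj2 := mem_filter.mp hj
      obtain ⟨j', hj', hjc⟩ := exists_in_block hb hz ((ha j).resolve_left hj2.2) (c := c') (by
        rw [mem_cls.mp hj2.1, hc])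
      exact ⟨j', fun _ => ⟨hj', hjc⟩⟩
    · exact ⟨j, fun h2 => absurd h2 hj⟩
  choose φ hφ using h1
  refine card_le_card_of_injOn φ ?_ ?_
  · intro j hj
    rw [mem_coe] at hj ⊢
    have hj2 := mem_filter.mp hj
    have h3 := hφ j hj
    rw [mem_filter, mem_cls]
    refine ⟨h3.2, fun h4 => hj2.2 ?_⟩
    exact h4.of_mem (blk_symm h3.1)
  · intro j1 hj1 j2 hj2 heq
    rw [mem_coe] at hj1 hj2
    have h3 := hφ j1 hj1
    have h4 := hφ j2 hj2
    have h5 := mem_filter.mp hj1
    have h6 := mem_filter.mp hj2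
    rw [← heq] at h4
    have h7 : j2 ∈ blk y z j1 := blk_trans h3.1 (blk_symm h4.1)
    refine ((ha j1).resolve_left h5.2) j1 (blk_self y z j1) j2 h7 ?_
    rw [mem_cls.mp h5.1, mem_cls.mp h6.1]

theorem cls_mod (hb : BX x y) {z : V p k} (hz : D x z) (ha : Aff y z) {c c' : F2 p}
    (hc : fd (rd z) c = fd (rd z) c') : (cls y c).card % p = (cls y c').card % p := by
  classical
  have h1 : ∀ c, p ∣ ((cls y c).filter fun j => Cst y z j).card := by
    intro c
    apply dvd_of_union hb hz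
    intro j hj j' hj'
    rw [mem_filter, mem_cls] at hj ⊢
    exact ⟨by rw [hj.2 j' hj', hj.1], hj.2.of_mem hj'⟩
  have h2 : ((cls y c).filter fun j => ¬ Cst y z j).card =
      ((cls y c').filter fun j => ¬ Cst y z j).card :=
    le_antisymm (card_nonconst_le hb hz ha hc) (card_nonconst_le hb hz ha hc.symm)
  have h3 := card_filter_add_card_filter_not (s := cls y c) (fun j => Cst y z j)
  have h4 := card_filter_add_card_filter_not (s := cls y c') (fun j => Cst y z j)
  obtain ⟨a, ha'⟩ := h1 c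
  obtain ⟨b, hb'⟩ := h1 c'
  rw [← h3, ← h4, h2, ha', hb', Nat.mul_add_mod, Nat.mul_add_mod]

/-- (4): the sizes of the classes are constant modulo `p`. -/
theorem cls_mod_all (hb : BX x y) {z1 z2 : V p k} (hz1 : D x z1) (hz2 : D x z2)
    (hd : dt (rd z1) (rd z2) ≠ 0) (ha1 : Aff y z1) (ha2 : Aff y z2) (c c' : F2 p) :
    (cls y c).card % p = (cls y c').card % p := by
  obtain ⟨c'', h1, h2⟩ : ∃ c'', fd (rd z1) c = fd (rd z1) c'' ∧ fd (rd z2) c'' = fd (rd z2) c' := by
    refine ⟨((fd (rd z1) c * (rd z2).2 - fd (rd z2) c' * (rd z1).2) / dt (rd z1) (rd z2),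
      ((rd z1).1 * fd (rd z2) c' - (rd z2).1 * fd (rd z1) c) / dt (rd z1) (rd z2)), ?_, ?_⟩
    · show fd (rd z1) c = (rd z1).1 * _ + (rd z1).2 * _
      field_simp
      unfold dt
      ring
    · show (rd z2).1 * _ + (rd z2).2 * _ = fd (rd z2) c'
      field_simp
      unfold dt
      ring
  rw [cls_mod hb hz1 ha1 h1, cls_mod hb hz2 ha2 h2]

/-- The line of a point. -/
def ln (y : J → V p k) (ζ : F2 p) (σ : ZMod p) : Finset J := univ.filter fun j => fd ζ (rd (y j)) = σ

theorem mem_ln {ζ : F2 p} {σ : ZMod p} {j : J} : j ∈ ln y ζ σ ↔ fd ζ (rd (y j)) = σ := by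
  unfold ln
  rw [mem_filter]
  exact ⟨fun h1 => h1.2, fun h1 => ⟨mem_univ _, h1⟩⟩

theorem sum_ln (y : J → V p k) (ζ : F2 p) : ∑ σ, (ln y ζ σ).card = Fintype.card J := by
  rw [← card_univ (α := J), card_eq_sum_card_fiberwise (f := fun j => fd ζ (rd (y j)))
    (t := univ) (fun _ _ => mem_coe.mpr (mem_univ _))]
  rfl

theorem dvd_ln (hb : BX x y) {z : V p k} (hz : D x z) (σ : ZMod p) : p ∣ (ln y (rd z) σ).card := by
  apply dvd_of_union hb hz
  intro j hj j' hj'
  rw [mem_ln] at hj ⊢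
  rw [blk_line hb.hk hj', hj]

/-- If every class is nonempty, there is a primitive difference, orthogonal to `z` modulo `p`,
which is isolated. -/
theorem exists_isolated (hb : BX x y) {z : V p k} (hz : D x z)
    (hall : ∀ c : F2 p, ∃ j, rd (y j) = c) (hgt : p ^ 2 < Fintype.card J) :
    ∃ w, D y w ∧ fd (rd z) (rd w) = 0 ∧ ∀ z', D x z' → (p : R p k) * dot z' w ≠ 0 := by
  classical
  by_contra hcon
  push Not at hcon
  have hne : ∀ j : J, ∃ j', rd (y j') - rd (y j) = frot (rd z) := by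
    intro j
    obtain ⟨j', hj'⟩ := hall (rd (y j) + frot (rd z))
    exact ⟨j', by rw [hj']; abel⟩
  obtain ⟨σ0, hσ0⟩ : ∃ σ0, (ln y (rd z) σ0).card < 2 * p := by
    by_contra hcon2
    push Not at hcon2
    have h1 : ∑ _σ : ZMod p, 2 * p ≤ ∑ σ, (ln y (rd z) σ).card := sum_le_sum fun σ _ => hcon2 σ
    rw [sum_ln, sum_const, card_univ, ZMod.card, smul_eq_mul] at h1
    have h2 := hb.lt
    nlinarith
  obtain ⟨j0, hj0⟩ : ∃ j0, fd (rd z) (rd (y j0)) = σ0 := by
    have hor : (rd z).1 ≠ 0 ∨ (rd z).2 ≠ 0 := by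
      by_contra hcon3
      push Not at hcon3
      exact hz.1 (Prod.ext hcon3.1 hcon3.2)
    rcases hor with h2 | h2
    · obtain ⟨j, hj⟩ := hall (σ0 / (rd z).1, 0)
      refine ⟨j, ?_⟩
      rw [hj]
      show (rd z).1 * (σ0 / (rd z).1) + (rd z).2 * 0 = σ0
      field_simp
      ring
    · obtain ⟨j, hj⟩ := hall (0, σ0 / (rd z).2)
      refine ⟨j, ?_⟩
      rw [hj]
      show (rd z).1 * 0 + (rd z).2 * (σ0 / (rd z).2) = σ0
      field_simp
      ring
  have hcard0 : (ln y (rd z) σ0).card = p := by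
    obtain ⟨m, hm⟩ := dvd_ln hb hz σ0
    have h1 : 0 < (ln y (rd z) σ0).card := card_pos.mpr ⟨j0, mem_ln.mpr hj0⟩
    rw [hm] at h1 hσ0 ⊢
    have h2 : 0 < m := Nat.pos_of_mul_pos_left h1
    have h3 : m < 2 := by
      have h4 : p * m < p * 2 := by linarith
      exact Nat.lt_of_mul_lt_mul_left h4
    have h5 : m = 1 := by omega
    rw [h5, mul_one]
  have hblk : ∀ z', D x z' → dt (rd z) (rd z') = 0 → blk y z' j0 = ln y (rd z) σ0 := by
    intro z' hz' hpar
    apply eq_of_subset_of_card_le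
    · intro j hj
      rw [mem_ln, ← hj0, ← sub_eq_zero, ← fd_sub]
      refine fd_par hz'.1 hpar ?_
      rw [fd_sub, blk_line hb.hk hj, sub_self]
    · rw [card_blk hb hz', hcard0]
  obtain ⟨j1, hj1⟩ := hne j0
  have hj1m : j1 ∈ ln y (rd z) σ0 := by
    rw [mem_ln, ← hj0, ← sub_eq_zero, ← fd_sub, hj1, fd_frot]
  have hself : dt (rd z) (rd z) = 0 := by unfold dt; ring
  have hw0 : rd (y j1 - y j0) ≠ 0 := by
    rw [rd_sub, hj1]
    exact frot_ne hz.1
  have hall2 : ∀ j j', fd (rd z) (rd (y j')) = fd (rd z) (rd (y j)) → rd (y j') ≠ rd (y j) →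
      j' ∈ blk y z j := by
    intro j j' h1 h2
    have hw : rd (y j' - y j) ≠ 0 := by
      rw [rd_sub]
      exact sub_ne_zero.mpr h2
    have hw2 : fd (rd z) (rd (y j' - y j)) = 0 := by rw [rd_sub, fd_sub, h1, sub_self]
    obtain ⟨z', hz', hzw⟩ := hcon _ ⟨hw, _, _, rfl⟩ hw2
    have h3 : fd (rd z') (rd (y j' - y j)) = 0 := by
      obtain ⟨c, hc⟩ := ann hzw
      rw [← red_dot, hc, map_mul, red_h hb.hk, zero_mul]
    have hpar : dt (rd z) (rd z') = 0 := dt_of_fd hw hw2 h3
    have h4 : j1 ∈ blk y z' j0 := by rw [hblk z' hz' hpar]; exact hj1m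
    have h5 : j1 ∈ blk y z j0 := by rw [hblk z hz hself]; exact hj1m
    rw [mem_blk] at h4 h5 ⊢
    exact same_rel hb.hk hz'.1 hw0 h4 h5 hzw
  have hle : ∀ σ, (ln y (rd z) σ).card ≤ p := by
    intro σ
    by_cases hemp : (ln y (rd z) σ) = ∅
    · rw [hemp, card_empty]
      exact Nat.zero_le _
    · obtain ⟨j, hj⟩ := nonempty_iff_ne_empty.mpr hemp
      refine le_trans (card_le_card ?_) (card_blk hb hz j).le
      intro j' hj'
      rw [mem_ln] at hj hj'
      by_cases h1 : rd (y j') = rd (y j)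
      · obtain ⟨j2, hj2⟩ := hne j
        have h2 : rd (y j2) ≠ rd (y j) := by
          intro h3
          rw [h3, sub_self] at hj2
          exact frot_ne hz.1 hj2.symm
        have h4 : fd (rd z) (rd (y j2)) = fd (rd z) (rd (y j)) := by
          rw [← sub_eq_zero, ← fd_sub, hj2, fd_frot]
        have h5 := hall2 j j2 h4 h2
        have h6 := hall2 j2 j' (by rw [hj', h4, hj]) (by rw [h1]; exact h2.symm)
        exact blk_trans h5 h6
      · exact hall2 j j' (by rw [hj, hj']) h1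
  have h1 : ∑ σ, (ln y (rd z) σ).card ≤ ∑ _σ : ZMod p, p := sum_le_sum fun σ _ => hle σ
  rw [sum_ln, sum_const, card_univ, ZMod.card, smul_eq_mul] at h1
  rw [sq] at hgt
  omega

/-- The blocks of an isolated difference are constant. -/
theorem cst_of_isolated {w : V p k}
    (hiso : ∀ z', D x z' → (p : R p k) * dot z' w ≠ 0) (i : I) : Cst x w i := by
  intro i' hi'
  by_contra h1
  rw [mem_blk, dot_comm] at hi'
  refine hiso (x i' - x i) ⟨?_, _, _, rfl⟩ hi'
  rw [rd_sub]
  exact sub_ne_zero.mpr h1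

theorem BX.two_classes (hb : BX x y) : ∃ i0 i1, rd (x i0) ≠ rd (x i1) := by
  obtain ⟨i0, i1, i2, hd⟩ := hb.nc
  refine ⟨i1, i0, fun h1 => ?_⟩
  rw [rd_sub, h1, sub_self] at hd
  unfold dt at hd
  simp at hd

/-- Not every class can be nonempty. -/
theorem not_all_classes (hb : BX x y) (hb' : BX y x) (hall : ∀ c : F2 p, ∃ j, rd (y j) = c)
    (hgt : p ^ 2 < Fintype.card J) : False := by
  obtain ⟨i0, i1, i2, hd⟩ := hb.nc
  have hz1 : D x (x i1 - x i0) := ⟨ne_zero_of_dt hd, _, _, rfl⟩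
  have hz2 : D x (x i2 - x i0) := ⟨ne_zero_of_dt (by
    rw [dt_swap]
    exact neg_ne_zero.mpr hd), _, _, rfl⟩
  obtain ⟨w1, hw1, hf1, hiso1⟩ := exists_isolated hb hz1 hall hgt
  obtain ⟨w2, hw2, hf2, hiso2⟩ := exists_isolated hb hz2 hall hgt
  obtain ⟨i, i', hii⟩ := hb.two_classes
  exact two_const hb' hw1 hw2 (dt_normals hd hw1.1 hw2.1 hf1 hf2) (cst_of_isolated hiso1)
    (cst_of_isolated hiso2) i i' hii

end BHmid
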