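import Pool.Agent.Lib.MP_2b2af9_co.MidD

/-!
# Two transversal directions
-/

set_option autoImplicit false

open Finset

set_option linter.unusedSectionVars false

namespace BHmid

open BHsm

variable {p : ℕ} [hp : Fact p.Prime] {k : ℕ} {I J : Type} [Fintype I] [Fintype J]
  [DecidableEq I] [DecidableEq J] {x : I → V p k} {y : J → V p k}

theorem exists_pt {ζ : F2 p} (hζ : ζ ≠ 0) (σ : ZMod p) : ∃ c, fd ζ c = σ := by
  have hor : ζ.1 ≠ 0 ∨ ζ.2 ≠ 0 := by
    by_contra hcon3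
    push Not at hcon3
    exact hζ (Prod.ext hcon3.1 hcon3.2)
  rcases hor with h2 | h2
  · refine ⟨(σ / ζ.1, 0), ?_⟩
    show ζ.1 * (σ / ζ.1) + ζ.2 * 0 = σ
    field_simp
    ring
  · refine ⟨(0, σ / ζ.2), ?_⟩
    show ζ.1 * 0 + ζ.2 * (σ / ζ.2) = σ
    field_simp
    ring

/-- A line of the plane. -/
def line (ζ : F2 p) (σ : ZMod p) : Finset (F2 p) := univ.filter fun c => fd ζ c = σ

theorem mem_line {ζ : F2 p} {σ : ZMod p} {c : F2 p} : c ∈ line ζ σ ↔ fd ζ c = σ := by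
  unfold line
  rw [mem_filter]
  exact ⟨fun h1 => h1.2, fun h1 => ⟨mem_univ _, h1⟩⟩

theorem card_line {ζ : F2 p} (hζ : ζ ≠ 0) (σ : ZMod p) : (line ζ σ).card = p := by
  obtain ⟨c0, hc0⟩ := exists_pt hζ σ
  have h1 : line ζ σ = (univ : Finset (ZMod p)).image fun t => c0 + t • frot ζ := by
    ext c
    rw [mem_line, mem_image]
    constructor
    · intro hc
      obtain ⟨l, hl⟩ := exists_rot hζ (a := c - c0) (by rw [fd_sub, hc, hc0, sub_self])
      exact ⟨l, mem_univ _, by rw [← hl]; abel⟩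
    · rintro ⟨t, -, rfl⟩
      have h2 : fd ζ (c0 + t • frot ζ) = fd ζ c0 + t * fd ζ (frot ζ) := by
        rw [← fd_smul]
        unfold fd
        rw [Prod.fst_add, Prod.snd_add]
        ring
      rw [h2, fd_frot, mul_zero, add_zero, hc0]
  rw [h1, card_image_of_injective, card_univ, ZMod.card]
  intro t t' htt
  exact smul_frot_inj hζ (add_left_cancel htt)

theorem card_two_lines {ζ1 ζ2 : F2 p} (hd : dt ζ1 ζ2 ≠ 0) (σ1 σ2 : ZMod p) :
    2 * p ≤ (line ζ1 σ1 ∪ line ζ2 σ2).card + 1 := by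
  have h1 := card_union_add_card_inter (line ζ1 σ1) (line ζ2 σ2)
  have hζ2 : ζ2 ≠ 0 := ne_zero_of_dt (a := ζ2) (b := ζ1) (by
    rw [dt_swap]
    exact neg_ne_zero.mpr hd)
  rw [card_line (ne_zero_of_dt hd), card_line hζ2] at h1
  have h2 : (line ζ1 σ1 ∩ line ζ2 σ2).card ≤ 1 := by
    rw [card_le_one]
    intro a ha b hb
    rw [mem_inter, mem_line, mem_line] at ha hb
    apply sub_eq_zero.mp
    exact fd_basis hd (by rw [fd_sub, ha.1, hb.1, sub_self]) (by rw [fd_sub, ha.2, hb.2, sub_self])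
  omega

theorem sum_cls_le (y : J → V p k) (A : Finset (F2 p)) :
    ∑ c ∈ A, (cls y c).card ≤ Fintype.card J := by
  have h1 : Fintype.card J = ∑ c : F2 p, (cls y c).card := by
    rw [← card_univ (α := J), card_eq_sum_card_fiberwise (f := fun j => rd (y j))
      (t := univ) (fun _ _ => mem_coe.mpr (mem_univ _))]
    rfl
  rw [h1]
  exact sum_le_sum_of_subset (subset_univ A)

/-- The cross: all classes are on two lines and have `p` elements. -/
theorem cross (hb : BX x y) (hdiv : ∀ c : F2 p, p ∣ (cls y c).card) {ζ1 ζ2 : F2 p}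
    (hd : dt ζ1 ζ2 ≠ 0) {σ1 σ2 : ZMod p} (h1 : ∀ c, fd ζ1 c = σ1 → ∃ j, rd (y j) = c)
    (h2 : ∀ c, fd ζ2 c = σ2 → ∃ j, rd (y j) = c) :
    (∀ j, fd ζ1 (rd (y j)) = σ1 ∨ fd ζ2 (rd (y j)) = σ2) ∧
      ∀ c, (fd ζ1 c = σ1 ∨ fd ζ2 c = σ2) → (cls y c).card = p := by
  have hpos : ∀ c, (∃ j, rd (y j) = c) → p ≤ (cls y c).card := by
    rintro c ⟨j, hj⟩
    exact Nat.le_of_dvd (card_pos.mpr ⟨j, mem_cls.mpr hj⟩) (hdiv c)
  have hA : ∀ c ∈ line ζ1 σ1 ∪ line ζ2 σ2, p ≤ (cls y c).card := by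
    intro c hc
    rw [mem_union, mem_line, mem_line] at hc
    rcases hc with hc | hc
    · exact hpos c (h1 c hc)
    · exact hpos c (h2 c hc)
  have hcard := card_two_lines hd σ1 σ2
  have hlt := hb.lt
  have hp0 := hp.out.pos
  constructor
  · intro j
    by_contra hcon
    push Not at hcon
    have hnot : rd (y j) ∉ line ζ1 σ1 ∪ line ζ2 σ2 := by
      rw [mem_union, mem_line, mem_line]
      push Not
      exact hcon
    have h3 := sum_cls_le y (insert (rd (y j)) (line ζ1 σ1 ∪ line ζ2 σ2))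
    rw [sum_insert hnot] at h3
    have h4 : ∑ _c ∈ line ζ1 σ1 ∪ line ζ2 σ2, p ≤ ∑ c ∈ line ζ1 σ1 ∪ line ζ2 σ2, (cls y c).card :=
      sum_le_sum hA
    rw [sum_const, smul_eq_mul] at h4
    have h5 := hpos _ ⟨j, rfl⟩
    have h6 : p * (2 * p) ≤ p * ((line ζ1 σ1 ∪ line ζ2 σ2).card + 1) := Nat.mul_le_mul_left _ hcard
    nlinarith
  · intro c hc
    have hcA : c ∈ line ζ1 σ1 ∪ line ζ2 σ2 := by
      rw [mem_union, mem_line, mem_line]
      exact hc
    by_contra hne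
    obtain ⟨m, hm⟩ := hdiv c
    have h7 := hA c hcA
    have h8 : 2 * p ≤ (cls y c).card := by
      rw [hm] at h7 hne ⊢
      have h9 : m ≠ 0 := by
        rintro rfl
        rw [mul_zero] at h7
        omega
      have h10 : m ≠ 1 := by
        rintro rfl
        exact hne (mul_one p)
      have h11 : 2 ≤ m := by omega
      calc 2 * p = p * 2 := by ring
        _ ≤ p * m := Nat.mul_le_mul_left _ h11
    have h3 := sum_cls_le y (line ζ1 σ1 ∪ line ζ2 σ2)
    rw [← add_sum_erase _ _ hcA] at h3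
    have h4 : ∑ _c ∈ (line ζ1 σ1 ∪ line ζ2 σ2).erase c, p ≤
        ∑ c ∈ (line ζ1 σ1 ∪ line ζ2 σ2).erase c, (cls y c).card :=
      sum_le_sum fun c' hc' => hA c' (mem_of_mem_erase hc')
    rw [sum_const, smul_eq_mul, card_erase_of_mem hcA] at h4
    have h5 : p * (2 * p) ≤ p * ((line ζ1 σ1 ∪ line ζ2 σ2).card - 1 + 2) :=
      Nat.mul_le_mul_left _ (by omega)
    nlinarith

/-- Two independent vectors with transversal blocks. -/
theorem two_trans (hp2 : p ≠ 2) (hb : BX x y) (hb' : BX y x) (hgt : p ^ 2 < Fintype.card J)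
    {z1 z2 z3 : V p k} (hz1 : D x z1) (hz2 : D x z2) (hz3 : D x z3)
    (hd12 : dt (rd z1) (rd z2) ≠ 0) (hd13 : dt (rd z1) (rd z3) ≠ 0)
    (hd23 : dt (rd z2) (rd z3) ≠ 0) (ha1 : Aff y z1) (ha2 : Aff y z2) {j1 j2 : J}
    (hj1 : ¬ Cst y z1 j1) (hj2 : ¬ Cst y z2 j2) : False := by
  classical
  have hp3 : 3 ≤ p := by
    have := hp.out.two_le
    omega
  have hl1 : ∀ c, fd (rd z1) c = fd (rd z1) (rd (y j1)) → ∃ j, rd (y j) = c := by
    intro c hc
    obtain ⟨j, -, hj⟩ := exists_in_block hb hz1 ((ha1 j1).resolve_left hj1) hc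
    exact ⟨j, hj⟩
  have hl2 : ∀ c, fd (rd z2) c = fd (rd z2) (rd (y j2)) → ∃ j, rd (y j) = c := by
    intro c hc
    obtain ⟨j, -, hj⟩ := exists_in_block hb hz2 ((ha2 j2).resolve_left hj2) hc
    exact ⟨j, hj⟩
  by_cases hdiv : ∀ c : F2 p, p ∣ (cls y c).card
  · obtain ⟨hX1, hX2⟩ := cross hb hdiv hd12 hl1 hl2
    set σ1 := fd (rd z1) (rd (y j1)) with hσ1
    set σ2 := fd (rd z2) (rd (y j2)) with hσ2
    have hd21 : dt (rd z2) (rd z1) ≠ 0 := by rw [dt_swap]; exact neg_ne_zero.mpr hd12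
    -- classes on the first line only
    have hcls1 : ∀ j, fd (rd z1) (rd (y j)) = σ1 → fd (rd z2) (rd (y j)) ≠ σ2 →
        blk y z2 j = cls y (rd (y j)) := by
      intro j h1 h2
      apply eq_of_subset_of_card_le
      · intro j' hj'
        rw [mem_cls]
        have h3 := blk_line hb.hk hj'
        have h4 : fd (rd z1) (rd (y j')) = σ1 := by
          rcases hX1 j' with h5 | h5
          · exact h5
          · exact absurd (h3.symm.trans h5) h2
        apply sub_eq_zero.mp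
        exact fd_basis hd12 (by rw [fd_sub, h4, h1, sub_self]) (by rw [fd_sub, h3, sub_self])
      · rw [card_blk hb hz2, hX2 _ (Or.inl h1)]
    have hcls2 : ∀ j, fd (rd z2) (rd (y j)) = σ2 → fd (rd z1) (rd (y j)) ≠ σ1 →
        blk y z1 j = cls y (rd (y j)) := by
      intro j h1 h2
      apply eq_of_subset_of_card_le
      · intro j' hj'
        rw [mem_cls]
        have h3 := blk_line hb.hk hj'
        have h4 : fd (rd z2) (rd (y j')) = σ2 := by
          rcases hX1 j' with h5 | h5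
          · exact absurd (h3.symm.trans h5) h2
          · exact h5
        apply sub_eq_zero.mp
        exact fd_basis hd21 (by rw [fd_sub, h4, h1, sub_self]) (by rw [fd_sub, h3, sub_self])
      · rw [card_blk hb hz1, hX2 _ (Or.inr h1)]
    -- a class on the first line and not on the second
    obtain ⟨j, hjl, hjn⟩ : ∃ j, fd (rd z1) (rd (y j)) = σ1 ∧ fd (rd z2) (rd (y j)) ≠ σ2 := by
      by_cases h1 : fd (rd z2) (rd (y j1)) = σ2
      · obtain ⟨j, hj⟩ := hl1 (rd (y j1) + frot (rd z1)) (by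
          have h2 : fd (rd z1) (rd (y j1) + frot (rd z1)) =
              fd (rd z1) (rd (y j1)) + fd (rd z1) (frot (rd z1)) := by
            unfold fd
            rw [Prod.fst_add, Prod.snd_add]
            ring
          rw [h2, fd_frot, add_zero])
        have hΔ : rd (y j) - rd (y j1) = frot (rd z1) := by rw [hj]; abel
        refine ⟨j, ?_, ?_⟩
        · rw [hσ1, ← sub_eq_zero, ← fd_sub, hΔ, fd_frot]
        · intro h2
          have h3 : fd (rd z2) (frot (rd z1)) = 0 := by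
            rw [← hΔ, fd_sub, h2, h1, sub_self]
          exact frot_ne hz1.1 (fd_basis hd12 (fd_frot _) h3)
      · exact ⟨j1, rfl, h1⟩
    have hB := card_blk hb hz3 j
    have h1 : ((blk y z3 j).filter fun j' => fd (rd z1) (rd (y j')) = σ1).card ≤ 1 := by
      rw [card_le_one]
      have h2 : ∀ a ∈ (blk y z3 j).filter fun j' => fd (rd z1) (rd (y j')) = σ1, a = j := by
        intro a ha
        rw [mem_filter] at ha
        have h3 := blk_line hb.hk ha.1
        have h4 : rd (y a) - rd (y j) = 0 :=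
          fd_basis hd13 (by rw [fd_sub, ha.2, hjl, sub_self]) (by rw [fd_sub, h3, sub_self])
        have h5 : a ∈ blk y z2 j := by
          rw [hcls1 j hjl hjn, mem_cls]
          exact sub_eq_zero.mp h4
        exact hb.meet hd23 h5 ha.1
      intro a ha b hbm
      rw [h2 a ha, h2 b hbm]
    have h2 : ((blk y z3 j).filter fun j' => ¬ fd (rd z1) (rd (y j')) = σ1).card ≤ 1 := by
      rw [card_le_one]
      intro a ha b hbm
      rw [mem_filter] at ha hbm
      have ha2' : fd (rd z2) (rd (y a)) = σ2 := (hX1 a).resolve_left ha.2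
      have hb2' : fd (rd z2) (rd (y b)) = σ2 := (hX1 b).resolve_left hbm.2
      have h3 := blk_line hb.hk ha.1
      have h4 := blk_line hb.hk hbm.1
      have h5 : rd (y b) - rd (y a) = 0 :=
        fd_basis hd23 (by rw [fd_sub, ha2', hb2', sub_self]) (by rw [fd_sub, h3, h4, sub_self])
      have h6 : b ∈ blk y z1 a := by
        rw [hcls2 a ha2' ha.2, mem_cls]
        exact sub_eq_zero.mp h5
      exact (hb.meet hd13 h6 (blk_trans (blk_symm ha.1) hbm.1)).symm
    have h3 := card_filter_add_card_filter_not (s := blk y z3 j)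
      (fun j' => fd (rd z1) (rd (y j')) = σ1)
    rw [hB] at h3
    omega
  · push Not at hdiv
    obtain ⟨c, hc⟩ := hdiv
    refine not_all_classes hb hb' (fun c' => ?_) hgt
    have h1 := cls_mod_all hb hz1 hz2 hd12 ha1 ha2 c c'
    have h2 : (cls y c').Nonempty := by
      rw [nonempty_iff_ne_empty]
      intro h3
      rw [h3, card_empty, Nat.zero_mod] at h1
      exact hc (Nat.dvd_of_mod_eq_zero h1)
    obtain ⟨j, hj⟩ := h2
    exact ⟨j, mem_cls.mp hj⟩

theorem BX.three (hb : BX x y) : ∃ z1 z2 z3, D x z1 ∧ D x z2 ∧ D x z3 ∧ dt (rd z1) (rd z2) ≠ 0 ∧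
    dt (rd z1) (rd z3) ≠ 0 ∧ dt (rd z2) (rd z3) ≠ 0 := by
  obtain ⟨i0, i1, i2, hd⟩ := hb.nc
  have e3 : rd (x i1 - x i2) = rd (x i1 - x i0) - rd (x i2 - x i0) := by
    rw [rd_sub, rd_sub, rd_sub]; abel
  have h13 : dt (rd (x i1 - x i0)) (rd (x i1 - x i2)) ≠ 0 := by
    rw [e3]
    have : dt (rd (x i1 - x i0)) (rd (x i1 - x i0) - rd (x i2 - x i0)) =
        -dt (rd (x i1 - x i0)) (rd (x i2 - x i0)) := by
      unfold dt
      rw [Prod.fst_sub, Prod.snd_sub]
      ring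
    rw [this]
    exact neg_ne_zero.mpr hd
  have h23 : dt (rd (x i2 - x i0)) (rd (x i1 - x i2)) ≠ 0 := by
    rw [e3]
    have : dt (rd (x i2 - x i0)) (rd (x i1 - x i0) - rd (x i2 - x i0)) =
        -dt (rd (x i1 - x i0)) (rd (x i2 - x i0)) := by
      unfold dt
      rw [Prod.fst_sub, Prod.snd_sub]
      ring
    rw [this]
    exact neg_ne_zero.mpr hd
  refine ⟨_, _, _, ⟨ne_zero_of_dt hd, i1, i0, rfl⟩, ⟨ne_zero_of_dt h23, i2, i0, rfl⟩,
    ⟨ne_zero_of_dt (b := rd (x i1 - x i0)) ?_, i1, i2, rfl⟩, hd, h13, h23⟩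
  rw [dt_swap]
  exact neg_ne_zero.mpr h13

/-- A third direction. -/
theorem BX.third (hb : BX x y) {ζ1 ζ2 : F2 p} (h1 : ζ1 ≠ 0) (h2 : ζ2 ≠ 0) :
    ∃ z, D x z ∧ dt ζ1 (rd z) ≠ 0 ∧ dt ζ2 (rd z) ≠ 0 := by
  obtain ⟨z1, z2, z3, hz1, hz2, hz3, h12, h13, h23⟩ := hb.three
  by_contra hcon
  push Not at hcon
  have e1 := hcon z1 hz1
  have e2 := hcon z2 hz2
  have e3 := hcon z3 hz3
  by_cases f1 : dt ζ1 (rd z1) = 0
  · have f2 : dt ζ1 (rd z2) ≠ 0 := fun f => h1 (dt_basis h12 f1 f)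
    have f3 : dt ζ1 (rd z3) ≠ 0 := fun f => h1 (dt_basis h13 f1 f)
    exact h2 (dt_basis h23 (e2 f2) (e3 f3))
  · by_cases f2 : dt ζ1 (rd z2) = 0
    · have f3 : dt ζ1 (rd z3) ≠ 0 := fun f => h1 (dt_basis h23 f2 f)
      exact h2 (dt_basis h13 (e1 f1) (e3 f3))
    · exact h2 (dt_basis h12 (e1 f1) (e2 f2))

/-- Not all of three independent vectors are of affine type. -/
theorem pigeon (hp2 : p ≠ 2) (hb : BX x y) (hb' : BX y x) (hgt : p ^ 2 < Fintype.card J)
    {z1 z2 z3 : V p k} (hz1 : D x z1) (hz2 : D x z2) (hz3 : D x z3)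
    (hd12 : dt (rd z1) (rd z2) ≠ 0) (hd13 : dt (rd z1) (rd z3) ≠ 0)
    (hd23 : dt (rd z2) (rd z3) ≠ 0) (ha1 : Aff y z1) (ha2 : Aff y z2) (ha3 : Aff y z3) :
    False := by
  obtain ⟨j, j', hjj⟩ := hb'.two_classes
  have hd21 : dt (rd z2) (rd z1) ≠ 0 := by rw [dt_swap]; exact neg_ne_zero.mpr hd12
  have hd31 : dt (rd z3) (rd z1) ≠ 0 := by rw [dt_swap]; exact neg_ne_zero.mpr hd13
  have hd32 : dt (rd z3) (rd z2) ≠ 0 := by rw [dt_swap]; exact neg_ne_zero.mpr hd23
  by_cases c1 : ∀ j, Cst y z1 j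
  · by_cases c2 : ∀ j, Cst y z2 j
    · exact two_const hb hz1 hz2 hd12 c1 c2 j j' hjj
    · by_cases c3 : ∀ j, Cst y z3 j
      · exact two_const hb hz1 hz3 hd13 c1 c3 j j' hjj
      · push Not at c2 c3
        obtain ⟨j2, hj2⟩ := c2
        obtain ⟨j3, hj3⟩ := c3
        exact two_trans hp2 hb hb' hgt hz2 hz3 hz1 hd23 hd21 hd31 ha2 ha3 hj2 hj3
  · push Not at c1
    obtain ⟨j1, hj1⟩ := c1
    by_cases c2 : ∀ j, Cst y z2 j
    · by_cases c3 : ∀ j, Cst y z3 j
      · exact two_const hb hz2 hz3 hd23 c2 c3 j j' hjj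
      · push Not at c3
        obtain ⟨j3, hj3⟩ := c3
        exact two_trans hp2 hb hb' hgt hz1 hz3 hz2 hd13 hd12 hd32 ha1 ha3 hj1 hj3
    · push Not at c2
      obtain ⟨j2, hj2⟩ := c2
      exact two_trans hp2 hb hb' hgt hz1 hz2 hz3 hd12 hd13 hd23 ha1 ha2 hj1 hj2

/-- A vector which is not of affine type gives a transversal direction on the other side. -/
theorem other_side (hp2 : p ≠ 2) (hb : BX x y) (hb' : BX y x) {z : V p k} (hz : D x z)
    (hna : ¬ Aff y z) : ∃ w, D y w ∧ (p : R p k) * dot z w = 0 ∧ fd (rd z) (rd w) = 0 ∧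
      Aff x w ∧ ∃ i, ¬ Cst x w i := by
  unfold Aff at hna
  push Not at hna
  obtain ⟨j, hj1, hj2⟩ := hna
  have hj1' := hj1
  unfold Cst at hj1
  push Not at hj1
  obtain ⟨j', hj', hne⟩ := hj1
  have hw : D y (y j' - y j) := ⟨by rw [rd_sub]; exact sub_ne_zero.mpr hne, _, _, rfl⟩
  have hzw : (p : R p k) * dot z (y j' - y j) = 0 := mem_blk.mp hj'
  refine ⟨_, hw, hzw, ?_, ?_, ?_⟩
  · obtain ⟨c, hc⟩ := ann hzw
    rw [← red_dot, hc, map_mul, red_h hb.hk, zero_mul]
  · intro i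
    rcases block_block hp2 hb hb' hz hw hzw j i with h1 | h1
    · exact h1
    · rcases h1 with h2 | h2
      · exact absurd h2 hj1'
      · exact absurd h2 hj2
  · obtain ⟨i, i', hii⟩ := hz.2
    refine ⟨i', fun h1 => ?_⟩
    have h2 := h1 i (by
      rw [mem_blk, ← hii, dot_comm]
      exact hzw)
    apply hz.1
    rw [hii, rd_sub, h2, sub_self]

/-- (5): the main case. -/
theorem no_big (hp2 : p ≠ 2) (hb : BX x y) (hb' : BX y x) (hgt : p ^ 2 < Fintype.card J)
    (hcard : Fintype.card I = Fintype.card J) : False := by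
  have hp3 : 3 ≤ p := by
    have := hp.out.two_le
    omega
  obtain ⟨z, hz, hna⟩ : ∃ z, D x z ∧ ¬ Aff y z := by
    obtain ⟨z1, z2, z3, hz1, hz2, hz3, h12, h13, h23⟩ := hb.three
    by_contra hcon
    push Not at hcon
    exact pigeon hp2 hb hb' hgt hz1 hz2 hz3 h12 h13 h23 (hcon _ hz1) (hcon _ hz2) (hcon _ hz3)
  obtain ⟨w, hw, hzw, hfd, haff, i0, hi0⟩ := other_side hp2 hb hb' hz hna
  have hline : ∀ c, fd (rd w) c = fd (rd w) (rd (x i0)) → ∃ i, rd (x i) = c := by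
    intro c hc
    obtain ⟨i, -, hi⟩ := exists_in_block hb' hw ((haff i0).resolve_left hi0) hc
    exact ⟨i, hi⟩
  obtain ⟨a, ha⟩ : ∃ a, fd (rd w) (rd (x a)) ≠ fd (rd w) (rd (x i0)) := by
    by_contra hcon
    push Not at hcon
    obtain ⟨i0', i1, i2, hd⟩ := hb.nc
    apply hw.1
    refine fd_basis hd ?_ ?_
    · rw [fd_comm, rd_sub, fd_sub, hcon i1, hcon i0', sub_self]
    · rw [fd_comm, rd_sub, fd_sub, hcon i2, hcon i0', sub_self]
  have hpt : ∀ t : ZMod p, ∃ i, rd (x i) = rd (x i0) + t • frot (rd w) := by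
    intro t
    apply hline
    have h2 : fd (rd w) (rd (x i0) + t • frot (rd w)) =
        fd (rd w) (rd (x i0)) + t * fd (rd w) (frot (rd w)) := by
      rw [← fd_smul]
      unfold fd
      rw [Prod.fst_add, Prod.snd_add]
      ring
    rw [h2, fd_frot, mul_zero, add_zero]
  choose i hi using hpt
  set b : F2 p := rd (x a) - rd (x i0) with hbdef
  have hb0 : fd (rd w) b ≠ 0 := by
    rw [hbdef, fd_sub]
    exact sub_ne_zero.mpr ha
  have hrd : ∀ t, rd (x a - x (i t)) = b - t • frot (rd w) := by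
    intro t
    rw [rd_sub, hi, hbdef]
    abel
  have hDt : ∀ t, D x (x a - x (i t)) := by
    intro t
    refine ⟨?_, _, _, rfl⟩
    intro h1
    apply hb0
    rw [hrd] at h1
    rw [sub_eq_zero.mp h1, fd_smul, fd_frot, mul_zero]
  have hdd : ∀ s t : ZMod p, dt (rd (x a - x (i s))) (rd (x a - x (i t))) =
      (s - t) * fd (rd w) b := by
    intro s t
    rw [hrd, hrd]
    unfold dt fd frot
    simp only [Prod.fst_sub, Prod.snd_sub, Prod.smul_fst, Prod.smul_snd, smul_eq_mul]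
    ring
  have h01 : (0 : ZMod p) - 1 ≠ 0 := by
    rw [zero_sub]
    exact neg_ne_zero.mpr one_ne_zero
  have h2ne : (2 : ZMod p) ≠ 0 := by
    intro h1
    have h3 : ((2 : ℕ) : ZMod p) = 0 := by exact_mod_cast h1
    rw [ZMod.natCast_eq_zero_iff] at h3
    have := Nat.le_of_dvd (by norm_num) h3
    omega
  have h02 : (0 : ZMod p) - 2 ≠ 0 := by
    rw [zero_sub]
    exact neg_ne_zero.mpr h2ne
  have h12 : (1 : ZMod p) - 2 ≠ 0 := by
    have : (1 : ZMod p) - 2 = -1 := by ring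
    rw [this]
    exact neg_ne_zero.mpr one_ne_zero
  obtain ⟨t, hnt⟩ : ∃ t, ¬ Aff y (x a - x (i t)) := by
    by_contra hcon
    push Not at hcon
    refine pigeon hp2 hb hb' hgt (hDt 0) (hDt 1) (hDt 2) ?_ ?_ ?_ (hcon 0) (hcon 1) (hcon 2)
    · rw [hdd]; exact mul_ne_zero h01 hb0
    · rw [hdd]; exact mul_ne_zero h02 hb0
    · rw [hdd]; exact mul_ne_zero h12 hb0
  obtain ⟨w', hw', -, hfd', haff', i1, hi1⟩ := other_side hp2 hb hb' (hDt t) hnt
  have hzz : dt (rd z) (rd (x a - x (i t))) ≠ 0 := by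
    obtain ⟨l, hl⟩ := exists_rot hw.1 (a := rd z) (by rw [fd_comm]; exact hfd)
    have hl0 : l ≠ 0 := by
      rintro rfl
      rw [zero_smul] at hl
      exact hz.1 hl
    have h1 : dt (rd z) (rd (x a - x (i t))) = -(l * fd (rd w) b) := by
      rw [hl, hrd]
      unfold dt fd frot
      simp only [Prod.fst_sub, Prod.snd_sub, Prod.smul_fst, Prod.smul_snd, smul_eq_mul]
      ring
    rw [h1]
    exact neg_ne_zero.mpr (mul_ne_zero hl0 hb0)
  have hww := dt_normals hzz hw.1 hw'.1 hfd hfd'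
  obtain ⟨w3, hw3, h1, h2⟩ := hb'.third hw.1 hw'.1
  exact two_trans hp2 hb' hb (by rw [hcard]; exact hgt) hw hw' hw3 hww h1 h2 haff haff' hi0 hi1

end BHmid
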