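import Pool.Agent.Lib.MP_2b2af9_co.MidE

/-!
# No spectral pair with `p ^ 2 < n < 2 p ^ 2`
-/

set_option autoImplicit false

open Finset

set_option linter.unusedSectionVars false

namespace BHmid

open BHsm

variable {p : ℕ} [hp : Fact p.Prime] {k : ℕ} {I J : Type} [Fintype I] [Fintype J]
  [DecidableEq I] [DecidableEq J]

variable (p k) in
/-- Reduction from `ℤ / p ^ (k + 2)` to `ℤ / p ^ (k + 1)`. -/
def tau : R p (k + 1) →+* R p k :=
  ZMod.castHom (pow_dvd_pow p (Nat.le_succ (k + 1))) (R p k)

theorem tau_surj (t : R p k) : ∃ T : R p (k + 1), tau p k T = t := by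
  refine ⟨(t.val : R p (k + 1)), ?_⟩
  rw [map_natCast, ZMod.natCast_zmod_val]

theorem tau_eq_zero {x : R p (k + 1)} : tau p k x = 0 ↔ (p : R p (k + 1)) * x = 0 := by
  constructor
  · intro h1
    have h2 : ((x.val : ℕ) : R p k) = 0 := by
      rw [← h1]
      conv_rhs => rw [← ZMod.natCast_zmod_val x]
      rw [map_natCast]
    rw [ZMod.natCast_eq_zero_iff] at h2
    obtain ⟨m, hm⟩ := h2
    have h3 : x = ((p : R p (k + 1)) ^ (k + 1)) * (m : R p (k + 1)) := by
      rw [← Nat.cast_pow, ← Nat.cast_mul, ← hm, ZMod.natCast_zmod_val]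
    rw [h3, ← mul_assoc, ← pow_succ', cast_pow_succ, zero_mul]
  · intro h1
    obtain ⟨c, rfl⟩ := ann h1
    unfold h
    rw [map_mul, map_pow, map_natCast, cast_pow_succ, zero_mul]

theorem U.down {f : J → R p (k + 1)} (hf : U fun j => (p : R p (k + 1)) * f j) :
    U fun j => tau p k (f j) := by
  have hN : ∀ T : R p (k + 1), N (fun j => tau p k (f j)) (tau p k T) =
      N (fun j => (p : R p (k + 1)) * f j) ((p : R p (k + 1)) * T) := by
    intro T
    unfold N
    congr 1
    ext j
    simp only [mem_filter, mem_univ, true_and]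
    rw [← sub_eq_zero, ← map_sub, tau_eq_zero, mul_sub, sub_eq_zero]
  intro s c
  obtain ⟨S, rfl⟩ := tau_surj s
  obtain ⟨C, rfl⟩ := tau_surj c
  have h1 : tau p k S + h p k * tau p k C = tau p k (S + (p : R p (k + 1)) ^ k * C) := by
    rw [map_add, map_mul, map_pow, map_natCast]
    rfl
  rw [h1, hN, hN, hf ((p : R p (k + 1)) * S) C]
  congr 1
  unfold h
  have h2 : (p : R p (k + 1)) ^ (k + 1) = (p : R p (k + 1)) * (p : R p (k + 1)) ^ k :=
    pow_succ' _ _
  linear_combination C * h2

/-- If all columns are congruent modulo `p`, one can divide by `p`. -/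
theorem descend {x : I → V p (k + 1)} {y : J → V p (k + 1)} (hs : SP x y) (j0 : J)
    (hy : ∀ j, rd (y j) = rd (y j0)) : ∃ (x' : I → V p k) (y' : J → V p k), SP x' y' := by
  have h1 : ∀ j, ∃ g : V p (k + 1), y j - y j0 = (p : R p (k + 1)) • g := by
    intro j
    have h2 : rd (y j - y j0) = 0 := by rw [rd_sub, hy j, sub_self]
    obtain ⟨a, ha⟩ := red_eq_zero.mp (congrArg Prod.fst h2)
    obtain ⟨b, hb⟩ := red_eq_zero.mp (congrArg Prod.snd h2)
    exact ⟨(a, b), Prod.ext ha hb⟩
  choose g hg using h1
  have hdot : ∀ u v : V p (k + 1), dot ((tau p k u.1, tau p k u.2) : V p k)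
      (tau p k v.1, tau p k v.2) = tau p k (dot u v) := by
    intro u v
    unfold dot
    rw [map_add, map_mul, map_mul]
  have hsub : ∀ u v : V p (k + 1), ((tau p k u.1, tau p k u.2) : V p k) - (tau p k v.1, tau p k v.2) =
      (tau p k (u - v).1, tau p k (u - v).2) := by
    intro u v
    rw [Prod.mk_sub_mk, Prod.fst_sub, Prod.snd_sub, map_sub, map_sub]
  refine ⟨fun i => (tau p k (x i).1, tau p k (x i).2), fun j => (tau p k (g j).1, tau p k (g j).2),
    ?_, ?_, hs.card⟩
  · intro i i' hi
    have h2 : (fun j => dot (((tau p k (x i).1, tau p k (x i).2) : V p k) -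
        (tau p k (x i').1, tau p k (x i').2)) (tau p k (g j).1, tau p k (g j).2)) =
        fun j => tau p k (dot (x i - x i') (g j)) := by
      funext j
      rw [hsub, hdot]
    rw [h2]
    apply U.down
    have h3 := (hs.row i i' hi).add_const (-dot (x i - x i') (y j0))
    have h4 : (fun j => dot (x i - x i') (y j) + -dot (x i - x i') (y j0)) =
        fun j => (p : R p (k + 1)) * dot (x i - x i') (g j) := by
      funext j
      rw [← sub_eq_add_neg, ← dot_sub', hg, dot_smul']
    rw [← h4]
    exact h3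
  · intro j j' hj
    have h2 : (fun i => dot ((tau p k (x i).1, tau p k (x i).2) : V p k)
        (((tau p k (g j).1, tau p k (g j).2) : V p k) - (tau p k (g j').1, tau p k (g j').2))) =
        fun i => tau p k (dot (x i) (g j - g j')) := by
      funext i
      rw [hsub, hdot]
    rw [h2]
    apply U.down
    have h4 : (fun i => (p : R p (k + 1)) * dot (x i) (g j - g j')) =
        fun i => dot (x i) (y j - y j') := by
      funext i
      have h5 : y j - y j' = (y j - y j0) - (y j' - y j0) := by abel
      rw [h5, hg, hg, ← smul_sub, dot_smul']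
    rw [h4]
    exact hs.col j j' hj

theorem fd_frot_left (a b : F2 p) : fd (frot a) b = dt a b := by
  unfold fd frot dt
  ring

/-- Columns which are collinear but not all congruent modulo `p`. -/
theorem no_collinear {x : I → V p k} {y : J → V p k} (hb : BX x y) {ζ : F2 p} (hζ : ζ ≠ 0)
    (h1 : ∀ j j', fd ζ (rd (y j') - rd (y j)) = 0) {j0 j1 : J} (hj : rd (y j0) ≠ rd (y j1)) :
    False := by
  have hc : ∀ z, D x z → dt ζ (rd z) ≠ 0 → ∀ j, Cst y z j := by
    intro z hz hd j j' hj'
    apply sub_eq_zero.mp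
    refine fd_basis hd (h1 j j') ?_
    rw [fd_sub, blk_line hb.hk hj', sub_self]
  obtain ⟨z1, z2, z3, hz1, hz2, hz3, h12, h13, h23⟩ := hb.three
  by_cases f1 : dt ζ (rd z1) = 0
  · have f2 : dt ζ (rd z2) ≠ 0 := fun f => hζ (dt_basis h12 f1 f)
    have f3 : dt ζ (rd z3) ≠ 0 := fun f => hζ (dt_basis h13 f1 f)
    exact two_const hb hz2 hz3 h23 (hc z2 hz2 f2) (hc z3 hz3 f3) j0 j1 hj
  · by_cases f2 : dt ζ (rd z2) = 0
    · have f3 : dt ζ (rd z3) ≠ 0 := fun f => hζ (dt_basis h23 f2 f)
      exact two_const hb hz1 hz3 h13 (hc z1 hz1 f1) (hc z3 hz3 f3) j0 j1 hj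
    · exact two_const hb hz1 hz2 h12 (hc z1 hz1 f1) (hc z2 hz2 f2) j0 j1 hj

/-- There is no spectral pair with `p ^ 2 < n < 2 p ^ 2`. -/
theorem mid (hp2 : p ≠ 2) : ∀ (k : ℕ) (a : I → V p k) (b : J → V p k), SP a b →
    p ^ 2 < Fintype.card I → Fintype.card I < 2 * p ^ 2 → False := by
  intro k
  induction k with
  | zero =>
    intro a b hs hgt hlt
    have h2 : 2 ≤ Fintype.card I := by
      have := hp.out.two_le
      nlinarith
    have hn : ¬ p ^ 2 ∣ Fintype.card I := by
      rintro ⟨m, hm⟩
      rw [hm] at hgt hlt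
      have h3 : m < 2 := by
        have h4 : p ^ 2 * m < p ^ 2 * 2 := by linarith
        exact Nat.lt_of_mul_lt_mul_left h4
      have h5 : m = 0 ∨ m = 1 := by omega
      rcases h5 with rfl | rfl
      · omega
      · omega
    have hnp : Fintype.card I ≠ p := by
      have := hp.out.two_le
      intro h3
      nlinarith
    obtain ⟨x, y, i0, i1, i2, hs', h3, h4, h5, hinj⟩ := hs.dichotomy h2 hn hnp
    obtain ⟨j, j', hj⟩ := Fintype.exists_pair_of_one_lt_card (by rw [← hs'.card]; omega :
      1 < Fintype.card J)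
    apply hinj j j' hj
    have hp0 : (p : R p 0) = 0 := by
      have h7 : (p : R p 0) ^ (0 + 1) = 0 := cast_pow_succ (p := p) (k := 0)
      have h8 : (p : R p 0) ^ (0 + 1) = (p : R p 0) := pow_one _
      exact h8.symm.trans h7
    rw [hp0, zero_smul]
  | succ k ih =>
    intro a b hs hgt hlt
    have h2 : 2 ≤ Fintype.card I := by
      have := hp.out.two_le
      nlinarith
    have hn : ¬ p ^ 2 ∣ Fintype.card I := by
      rintro ⟨m, hm⟩
      rw [hm] at hgt hlt
      have h3 : m < 2 := by
        have h4 : p ^ 2 * m < p ^ 2 * 2 := by linarith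
        exact Nat.lt_of_mul_lt_mul_left h4
      have h5 : m = 0 ∨ m = 1 := by omega
      rcases h5 with rfl | rfl
      · omega
      · omega
    have hnp : Fintype.card I ≠ p := by
      have := hp.out.two_le
      intro h3
      nlinarith
    obtain ⟨x, y, i0, i1, i2, hs', h3, h4, h5, hinj⟩ := hs.dichotomy h2 hn hnp
    have hltJ : Fintype.card J < 2 * p ^ 2 := by rw [← hs'.card]; exact hlt
    have hb : BX x y := by
      refine ⟨hs', by omega, hinj, ⟨i0, i1, i2, ?_⟩, hltJ⟩
      rw [h3, h4, h5, sub_zero, sub_zero]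
      unfold dt rd
      simp
    have hJ : Nonempty J := by
      rw [← Fintype.card_pos_iff, ← hs'.card]
      omega
    obtain ⟨j0⟩ := hJ
    by_cases hA : ∀ j, rd (y j) = rd (y j0)
    · obtain ⟨x', y', hs''⟩ := descend hs' j0 hA
      exact ih x' y' hs'' hgt hlt
    · push Not at hA
      obtain ⟨j1, hj1⟩ := hA
      have hne : rd (y j1) - rd (y j0) ≠ 0 := sub_ne_zero.mpr hj1
      by_cases hB : ∀ j2, dt (rd (y j1 - y j0)) (rd (y j2 - y j0)) = 0
      · refine no_collinear hb (ζ := frot (rd (y j1) - rd (y j0))) (frot_ne hne) ?_ hj1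
        have h6 : ∀ j, fd (frot (rd (y j1) - rd (y j0))) (rd (y j) - rd (y j0)) = 0 := by
          intro j
          rw [fd_frot_left, ← rd_sub, ← rd_sub]
          exact hB j
        intro j j'
        have h7 : rd (y j') - rd (y j) = (rd (y j') - rd (y j0)) - (rd (y j) - rd (y j0)) := by abel
        rw [h7, fd_sub, h6, h6, sub_self]
      · push Not at hB
        obtain ⟨j2, hj2⟩ := hB
        have hx : ∀ i i', i ≠ i' → (p : R p (k + 1)) • (x i - x i') ≠ 0 := by
          intro i i' hi hp1
          have hst := (hs'.translate' (y j0)).symm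
          have : Nonempty J := ⟨j0⟩
          have : Nonempty I := ⟨i0⟩
          apply hnp
          rw [hs'.card]
          refine claimA hst.card hst.row hst.col j0 (sub_self _) ?_
            (by rw [← hs'.card]; exact hn) i i' hi hp1
          intro i i' l hall
          have e1 := hall j1
          have e2 := hall j2
          have hD : red p (k + 1) ((y j1 - y j0).1 * (y j2 - y j0).2 -
              (y j1 - y j0).2 * (y j2 - y j0).1) ≠ 0 := by
            rw [map_sub, map_mul, map_mul]
            exact hj2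
          obtain ⟨t, ht⟩ := isUnit_iff_exists_inv.mp (isUnit_of_red hD)
          unfold dot at e1 e2
          refine Prod.ext ?_ ?_
          · show (l • (x i - x i')).1 = 0
            linear_combination (t * (y j2 - y j0).2) * e1 - (t * (y j1 - y j0).2) * e2 -
              (l • (x i - x i')).1 * ht
          · show (l • (x i - x i')).2 = 0
            linear_combination (t * (y j1 - y j0).1) * e2 - (t * (y j2 - y j0).1) * e1 -
              (l • (x i - x i')).2 * ht
        have hb' : BX y x := ⟨hs'.symm, by omega, hx, ⟨j0, j1, j2, hj2⟩, hlt⟩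
        exact no_big hp2 hb hb' (by rw [← hs'.card]; exact hgt) hs'.card

end BHmid
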