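import Mathlib

/-!
# Functions on `ℤ / p` with few slopes (Rédei)
-/

set_option autoImplicit false

open Finset Polynomial

namespace BHmid

variable {p : ℕ} [hp : Fact p.Prime]

theorem sum_pow_low {k : ℕ} (hk : k < p - 1) : ∑ x : ZMod p, x ^ k = 0 := by
  have h1 := FiniteField.sum_pow_lt_card_sub_one (K := ZMod p) k (by rw [ZMod.card]; exact hk)
  exact h1

theorem sum_pow_top : ∑ x : ZMod p, x ^ (p - 1) = -1 := by
  classical
  have h1 : ∀ x : ZMod p, x ^ (p - 1) = if x = 0 then 0 else 1 := by
    intro x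
    by_cases hx : x = 0
    · rw [hx, if_pos rfl, zero_pow]
      have := hp.out.one_lt
      omega
    · rw [if_neg hx, ZMod.pow_card_sub_one_eq_one hx]
  rw [sum_congr rfl fun x _ => h1 x, sum_ite]
  simp only [sum_const_zero, zero_add, sum_const, nsmul_eq_mul, mul_one]
  have h2 : (univ.filter fun x : ZMod p => ¬ x = 0) = univ.erase 0 := by
    ext x
    simp
  rw [h2, card_erase_of_mem (mem_univ _), card_univ, ZMod.card,
    Nat.cast_sub hp.out.one_lt.le, Nat.cast_one, CharP.cast_eq_zero, zero_sub]

/-- The sum of the values of a polynomial of degree `p - 1`. -/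
theorem sum_eval {Q : (ZMod p)[X]} (hQ : Q.natDegree = p - 1) :
    ∑ x : ZMod p, Q.eval x = -Q.leadingCoeff := by
  have h1 : ∀ x : ZMod p, Q.eval x = ∑ i ∈ range (p - 1), Q.coeff i * x ^ i +
      Q.leadingCoeff * x ^ (p - 1) := by
    intro x
    rw [eval_eq_sum_range, sum_range_succ, hQ, Polynomial.leadingCoeff, hQ]
  rw [sum_congr rfl fun x _ => h1 x, sum_add_distrib, sum_comm, ← mul_sum, sum_pow_top]
  rw [sum_eq_zero, zero_add, mul_neg_one]
  intro i hi
  rw [← mul_sum, sum_pow_low (mem_range.mp hi), mul_zero]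

/-- The power sums vanish. -/
theorem power_sums (g : ZMod p → ZMod p) (M : Finset (ZMod p))
    (h : ∀ m ∈ M, Function.Injective fun i => g i - m * i) {k : ℕ} (hk0 : 1 ≤ k)
    (hkM : k ≤ M.card) (hkp : k < p - 1) {j : ℕ} (hj : j ≤ k) :
    ∑ i : ZMod p, i ^ j * g i ^ (k - j) = 0 := by
  classical
  set c : ℕ → ZMod p := fun j => ∑ i : ZMod p, (-i) ^ j * g i ^ (k - j) * (k.choose j : ZMod p)
    with hc
  set P : (ZMod p)[X] := ∑ j ∈ range (k + 1), C (c j) * X ^ j with hP
  have hev : ∀ m : ZMod p, P.eval m = ∑ i : ZMod p, (g i - m * i) ^ k := by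
    intro m
    have h1 : ∀ i : ZMod p, (g i - m * i) ^ k =
        ∑ j ∈ range (k + 1), (-i) ^ j * g i ^ (k - j) * (k.choose j : ZMod p) * m ^ j := by
      intro i
      have h2 : g i - m * i = (-i * m) + g i := by ring
      rw [h2, add_pow]
      apply sum_congr rfl
      intro j _
      rw [mul_pow]
      ring
    rw [sum_congr rfl fun i _ => h1 i, sum_comm, hP, eval_finsetSum]
    apply sum_congr rfl
    intro j _
    rw [eval_mul, eval_C, eval_pow, eval_X, hc, sum_mul]
  have hcoeff : ∀ j, P.coeff j = if j ≤ k then c j else 0 := by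
    intro j
    rw [hP, finsetSum_coeff]
    simp only [coeff_C_mul, coeff_X_pow, mul_ite, mul_one, mul_zero]
    rw [sum_ite_eq]
    simp only [mem_range, Nat.lt_succ_iff]
  have htop : c k = 0 := by
    rw [hc]
    simp only [Nat.sub_self, pow_zero, mul_one, Nat.choose_self, Nat.cast_one]
    have h1 : ∀ i : ZMod p, (-i) ^ k = (-1) ^ k * i ^ k := by
      intro i
      rw [← mul_pow, neg_one_mul]
    rw [sum_congr rfl fun i _ => h1 i, ← mul_sum, sum_pow_low hkp, mul_zero]
  have hdeg : P.natDegree < k := by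
    have h1 : P.natDegree ≤ k - 1 := by
      rw [natDegree_le_iff_coeff_eq_zero]
      intro N hN
      rw [hcoeff]
      by_cases hNk : N ≤ k
      · rw [if_pos hNk]
        have : N = k := by omega
        rw [this, htop]
      · rw [if_neg hNk]
    omega
  have hzero : P = 0 := by
    apply eq_zero_of_natDegree_lt_card_of_eval_eq_zero' P M
    · intro m hm
      rw [hev]
      have hbij : Function.Bijective fun i => g i - m * i :=
        Finite.injective_iff_bijective.mp (h m hm)
      rw [Function.Bijective.sum_comp hbij (fun x => x ^ k), sum_pow_low hkp]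
    · exact lt_of_lt_of_le hdeg hkM
  have h3 := hcoeff j
  rw [hzero, coeff_zero, if_pos hj] at h3
  have h4 : c j = ((-1) ^ j * (k.choose j : ZMod p)) * ∑ i : ZMod p, i ^ j * g i ^ (k - j) := by
    rw [hc, mul_sum]
    apply sum_congr rfl
    intro i _
    have h5 : (-i) ^ j = (-1) ^ j * i ^ j := by rw [← mul_pow, neg_one_mul]
    rw [h5]
    ring
  rw [h4] at h3
  rcases mul_eq_zero.mp h3.symm with h6 | h6
  · exfalso
    rcases mul_eq_zero.mp h6 with h7 | h7
    · exact pow_ne_zero _ (neg_ne_zero.mpr one_ne_zero) h7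
    · rw [ZMod.natCast_eq_zero_iff] at h7
      have h9 : k.factorial = k.choose j * j.factorial * (k - j).factorial :=
        (Nat.choose_mul_factorial_mul_factorial hj).symm
      have h10 : p ∣ k.factorial := by
        rw [h9, mul_assoc]
        exact Dvd.dvd.mul_right h7 _
      have h11 := (hp.out.dvd_factorial).mp h10
      omega
  · exact h6

theorem arith {P d : ℕ} (hd : 2 ≤ d) (hdP : d ≤ P) (heven : 2 ∣ P) :
    2 * (P - (P / d) * d + P / d) ≤ P := by
  obtain ⟨a, ha⟩ : ∃ a, a = P / d := ⟨_, rfl⟩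
  have hd0 : 0 < d := by omega
  have h1 : a * d ≤ P := by rw [ha]; exact Nat.div_mul_le_self P d
  have h2 : P < a * d + d := by
    have := Nat.lt_div_mul_add (a := P) hd0
    rw [ha]
    exact this
  have ha1 : 1 ≤ a := by
    rw [ha]
    exact (Nat.one_le_div_iff hd0).mpr hdP
  rw [← ha]
  obtain ⟨e, he⟩ := heven
  have key : P + 2 * a ≤ 2 * (a * d) := by
    rcases Nat.lt_or_ge a 2 with ha2 | ha2
    · have : a = 1 := by omega
      subst this
      omega
    · rcases Nat.lt_or_ge d 3 with hd3 | hd3
      · have : d = 2 := by omega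
        subst this
        omega
      · obtain ⟨a', rfl⟩ := Nat.exists_eq_add_of_le ha2
        obtain ⟨d', rfl⟩ := Nat.exists_eq_add_of_le hd3
        have h3 : (2 + a') * (3 + d') = 6 + 3 * a' + 2 * d' + a' * d' := by ring
        rw [h3] at h2 ⊢
        nlinarith [Nat.zero_le (a' * d')]
  omega

/-- Rédei: a function on `ℤ / p` with at least `(p - 1) / 2` missing slopes is affine. -/
theorem redei (hp2 : p ≠ 2) (g : ZMod p → ZMod p) (M : Finset (ZMod p))
    (hM : p ≤ 2 * M.card + 1) (h : ∀ m ∈ M, Function.Injective fun i => g i - m * i) :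
    ∃ s t, ∀ i, g i = s * i + t := by
  classical
  have hodd : p % 2 = 1 := by
    rcases hp.out.eq_two_or_odd with h1 | h1
    · exact absurd h1 hp2
    · exact h1
  have hp3 : 3 ≤ p := by
    have := hp.out.two_le
    omega
  set G : (ZMod p)[X] := Lagrange.interpolate univ id g with hG
  have hev : ∀ i : ZMod p, G.eval i = g i := by
    intro i
    exact Lagrange.eval_interpolate_at_node (s := univ) (v := id) g (fun _ _ _ _ h1 => h1) (mem_univ i)
  have hdeg : G.natDegree ≤ p - 1 := by
    have h1 := Lagrange.degree_interpolate_lt (s := (univ : Finset (ZMod p))) (v := id) g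
      (fun _ _ _ _ h1 => h1)
    rw [← hG, card_univ, ZMod.card] at h1
    by_cases hG0 : G = 0
    · rw [hG0]; simp
    · have h2 := (natDegree_lt_iff_degree_lt hG0).mpr h1
      omega
  by_cases hd : G.natDegree ≤ 1
  · obtain ⟨a, b, hab⟩ := exists_eq_X_add_C_of_natDegree_le_one hd
    refine ⟨a, b, fun i => ?_⟩
    rw [← hev i, hab]
    simp
  · exfalso
    push Not at hd
    set d := G.natDegree with hd'
    have hG0 : G ≠ 0 := by
      intro h1
      rw [hd', h1] at hd
      simp at hd
    set a := (p - 1) / d with ha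
    set b := (p - 1) - a * d with hb
    have hle : a * d ≤ p - 1 := Nat.div_mul_le_self _ _
    have harith := arith (P := p - 1) (d := d) (by omega) hdeg (by omega)
    rw [← ha, ← hb] at harith
    have ha1 : 1 ≤ a := by
      rw [ha]
      exact (Nat.one_le_div_iff (by omega)).mpr hdeg
    set Q : (ZMod p)[X] := X ^ b * G ^ a with hQ
    have hQdeg : Q.natDegree = p - 1 := by
      rw [hQ, natDegree_mul (pow_ne_zero _ X_ne_zero) (pow_ne_zero _ hG0), natDegree_X_pow,
        natDegree_pow, ← hd']
      omega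
    have hQlead : Q.leadingCoeff ≠ 0 := by
      rw [Ne, leadingCoeff_eq_zero, hQ]
      exact mul_ne_zero (pow_ne_zero _ X_ne_zero) (pow_ne_zero _ hG0)
    have h1 := sum_eval hQdeg
    have h2 := power_sums g M h (k := b + a) (by omega) (by omega) (by omega) (j := b) (by omega)
    have h3 : ∀ i : ZMod p, Q.eval i = i ^ b * g i ^ (b + a - b) := by
      intro i
      rw [hQ, eval_mul, eval_pow, eval_X, eval_pow, hev, Nat.add_sub_cancel_left]
    rw [sum_congr rfl fun i _ => h3 i, h2] at h1
    exact hQlead (neg_eq_zero.mp h1.symm)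

end BHmid
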