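import Mathlib

/-!
# Arithmetic consequences of the inequalities `n ∣ q^2` or `n (p^(k + 1 - v) + 1) ≤ q^2`
-/

set_option autoImplicit false

open Finset

namespace Pool.Agent.Lib.MP_2b2af9_co.Num

/-- the first inequality, for all prime powers `p ^ k ∣ q` -/
def Cond (n q : ℕ) : Prop := ∀ p k : ℕ, p.Prime → 0 < k → p ^ k ∣ q →
  n ∣ q ^ 2 ∨ n * (p ^ (k + 1 - padicValNat p n) + 1) ≤ q ^ 2

theorem lcm_of {n q : ℕ} (hn : 0 < n) (hq : 0 < q) (h : Cond n q) (hnd : ¬ n ∣ q ^ 2) :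
    q * ∏ p ∈ q.primeFactors, p ∣ n * (Icc 1 (q ^ 2 / n - 1)).lcm id := by
  have h1 : q * ∏ p ∈ q.primeFactors, p = ∏ p ∈ q.primeFactors, p ^ (q.factorization p + 1) := by
    have h2 : ∏ p ∈ q.primeFactors, p ^ q.factorization p = q :=
      Nat.prod_factorization_pow_eq_self hq.ne'
    rw [prod_congr rfl fun p _ => pow_succ p (q.factorization p), prod_mul_distrib]
    congr 1
    exact h2.symm
  rw [h1]
  apply prod_dvd_of_isRelPrime
  · intro p hp p' hp' hne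
    rw [mem_coe, Nat.mem_primeFactors] at hp hp'
    show IsRelPrime (p ^ (q.factorization p + 1)) (p' ^ (q.factorization p' + 1))
    rw [← Nat.coprime_iff_isRelPrime]
    exact Nat.Coprime.pow _ _ ((Nat.coprime_primes hp.1 hp'.1).2 hne)
  · intro p hp
    rw [Nat.mem_primeFactors] at hp
    have hk : 0 < q.factorization p := hp.1.factorization_pos_of_dvd hq.ne' hp.2.1
    have h3 := (h p (q.factorization p) hp.1 hk (Nat.ordProj_dvd q p)).resolve_left hnd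
    set k := q.factorization p
    set v := padicValNat p n
    have h4 : p ^ (k + 1 - v) ≤ q ^ 2 / n - 1 := by
      have h5 : p ^ (k + 1 - v) + 1 ≤ q ^ 2 / n := by
        rw [Nat.le_div_iff_mul_le hn, mul_comm]
        exact h3
      omega
    have h5 : p ^ (k + 1 - v) ∣ (Icc 1 (q ^ 2 / n - 1)).lcm id :=
      dvd_lcm (f := id) (mem_Icc.2 ⟨Nat.pos_of_ne_zero (pow_ne_zero _ hp.1.ne_zero), h4⟩)
    have h6 : p ^ v ∣ n := pow_padicValNat_dvd
    refine dvd_trans ?_ (mul_dvd_mul h6 h5)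
    rw [← pow_add]
    exact pow_dvd_pow _ (by omega)

theorem sqf_of {n q : ℕ} (hn : 0 < n) (hq : Squarefree q) (h : Cond n q) (hle : n ≤ q ^ 2)
    (hbig : 3 * q ^ 2 < 20 * n) : n ∣ q ^ 2 := by
  have hq0 : 0 < q := Nat.pos_of_ne_zero hq.ne_zero
  by_contra hnd
  have h1 := lcm_of hn hq0 h hnd
  rw [Nat.prod_primeFactors_of_squarefree hq, ← sq] at h1
  have hj1 : 1 ≤ q ^ 2 / n := (Nat.le_div_iff_mul_le hn).2 (by omega)
  have hj2 : q ^ 2 / n < 7 := by
    rw [Nat.div_lt_iff_lt_mul hn]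
    omega
  have hdm := Nat.div_add_mod (q ^ 2) n
  have hmod := Nat.mod_lt (q ^ 2) hn
  obtain ⟨e, he⟩ := h1
  generalize hQ : q ^ 2 = Q at *
  have hQ0 : 0 < Q := by
    rw [← hQ]
    exact pow_pos hq0 2
  have hcase : ∀ j c : ℕ, Q / n = j → (Icc 1 (j - 1)).lcm id = c → n * c = Q * e ∧
      n * j + Q % n = Q := by
    intro j c hj hc
    rw [hj] at he hdm
    rw [hc] at he
    exact ⟨he, hdm⟩
  have hdvd : ∀ d : ℕ, n * d = Q → False := fun d hd => hnd ⟨d, hd.symm⟩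
  generalize hj : Q / n = j at *
  have hl0 : (Icc 1 0).lcm id = 1 := by decide
  have hl1 : (Icc 1 1).lcm id = 1 := by decide
  have hl2 : (Icc 1 2).lcm id = 2 := by decide
  have hl3 : (Icc 1 3).lcm id = 6 := by decide
  have hl4 : (Icc 1 4).lcm id = 12 := by decide
  have hl5 : (Icc 1 5).lcm id = 60 := by decide
  interval_cases j
  · obtain ⟨h2, h3⟩ := hcase 1 1 rfl hl0
    rcases Nat.eq_zero_or_pos e with h4 | h4
    · rw [h4] at h2
      omega
    · have h5 : Q * 1 ≤ Q * e := Nat.mul_le_mul_left Q h4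
      exact hdvd 1 (by omega)
  · obtain ⟨h2, h3⟩ := hcase 2 1 rfl hl1
    rcases Nat.eq_zero_or_pos e with h4 | h4
    · rw [h4] at h2
      omega
    · have h5 : Q * 1 ≤ Q * e := Nat.mul_le_mul_left Q h4
      omega
  · obtain ⟨h2, h3⟩ := hcase 3 2 rfl hl2
    rcases Nat.eq_zero_or_pos e with h4 | h4
    · rw [h4] at h2
      omega
    · have h5 : Q * 1 ≤ Q * e := Nat.mul_le_mul_left Q h4
      omega
  · obtain ⟨h2, h3⟩ := hcase 4 6 rfl hl3
    have h4 : e < 2 := by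
      by_contra h4
      have h5 : Q * 2 ≤ Q * e := Nat.mul_le_mul_left Q (by omega)
      omega
    interval_cases e <;> omega
  · obtain ⟨h2, h3⟩ := hcase 5 12 rfl hl4
    have h4 : e < 3 := by
      by_contra h4
      have h5 : Q * 3 ≤ Q * e := Nat.mul_le_mul_left Q (by omega)
      omega
    interval_cases e <;> omega
  · obtain ⟨h2, h3⟩ := hcase 6 60 rfl hl5
    have h4 : e < 11 := by
      by_contra h4
      have h5 : Q * 11 ≤ Q * e := Nat.mul_le_mul_left Q (by omega)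
      omega
    have h5 : e = 10 := by
      interval_cases e <;> omega
    rw [h5] at h2
    exact hdvd 6 (by omega)

theorem weak_of {n q : ℕ} (hn : 0 < n) (hq : 0 < q) (h : Cond n q) {p k : ℕ} (hp : p.Prime)
    (hk : 0 < k) (hpk : p ^ k ∣ q) :
    n * p ^ (k + 1 - padicValNat p n) ≤ q ^ 2 := by
  rcases h p k hp hk hpk with h1 | h1
  · obtain ⟨d, hd⟩ := h1
    have h2 : p ^ (2 * k) ∣ n * d := by
      rw [← hd, pow_mul', sq, sq]
      exact mul_dvd_mul hpk hpk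
    have : Fact p.Prime := ⟨hp⟩
    have hd0 : d ≠ 0 := by
      rintro rfl
      rw [mul_zero] at hd
      exact (pow_pos hq 2).ne' hd
    have h3 : 2 * k ≤ padicValNat p n + padicValNat p d := by
      rw [← padicValNat.mul hn.ne' hd0]
      exact (padicValNat_dvd_iff_le (mul_ne_zero hn.ne' hd0)).1 h2
    have h4 : p ^ (k + 1 - padicValNat p n) ∣ d :=
      dvd_trans (pow_dvd_pow p (by omega)) (pow_padicValNat_dvd (p := p) (n := d))
    rw [hd]
    exact Nat.mul_le_mul_left n (Nat.le_of_dvd (Nat.pos_of_ne_zero hd0) h4)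
  · exact le_trans (Nat.mul_le_mul_left n (Nat.le_succ _)) h1

theorem count_of {q : ℕ} (hq : 0 < q) (S : Finset ℕ)
    (hS : ∀ n ∈ S, 0 < n ∧ n ≤ q ^ 2 ∧ Cond n q) {p k : ℕ} (hp : p.Prime) (hk : 0 < k)
    (hpk : p ^ k ∣ q) : S.card * p ^ (k + 1) ≤ (k + 2) * q ^ 2 := by
  have : Fact p.Prime := ⟨hp⟩
  have hP : 0 < p ^ (k + 1) := pow_pos hp.pos _
  have hdiv : p ^ (k + 1) ∣ q ^ 2 := by
    refine dvd_trans (pow_dvd_pow p (by omega : k + 1 ≤ 2 * k)) ?_
    rw [pow_mul', sq, sq]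
    exact mul_dvd_mul hpk hpk
  obtain ⟨U, hU⟩ := hdiv
  let w : ℕ → ℕ := fun n => min (padicValNat p n) (k + 1)
  have hw : ∀ n, p ^ w n ∣ n := fun n =>
    dvd_trans (pow_dvd_pow p (min_le_left _ _)) pow_padicValNat_dvd
  have hcard : S.card ≤ (range (k + 2) ×ˢ Icc 1 U).card := by
    apply card_le_card_of_injOn (fun n => (w n, n / p ^ w n))
    · intro n hn
      obtain ⟨h1, h2, h3⟩ := hS n hn
      have h4 := weak_of h1 hq h3 hp hk hpk
      have h5 : 0 < p ^ w n := pow_pos hp.pos _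
      rw [mem_coe, mem_product, mem_range, mem_Icc]
      refine ⟨Nat.lt_succ_of_le (min_le_right _ _), Nat.div_pos (Nat.le_of_dvd h1 (hw n)) h5, ?_⟩
      show n / p ^ w n ≤ U
      obtain ⟨m, hm⟩ := hw n
      have h6 : n / p ^ w n = m := Nat.div_eq_of_eq_mul_right h5 hm
      rw [h6]
      have h7 : p ^ (k + 1) = p ^ w n * p ^ (k + 1 - padicValNat p n) := by
        rw [← pow_add]
        congr 1
        show k + 1 = min (padicValNat p n) (k + 1) + (k + 1 - padicValNat p n)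
        omega
      have h8 : p ^ (k + 1) * m ≤ p ^ (k + 1) * U := by
        calc p ^ (k + 1) * m = (p ^ w n * m) * p ^ (k + 1 - padicValNat p n) := by
              rw [h7]
              ring
          _ = n * p ^ (k + 1 - padicValNat p n) := by rw [← hm]
          _ ≤ q ^ 2 := h4
          _ = p ^ (k + 1) * U := hU
      exact Nat.le_of_mul_le_mul_left h8 hP
    · intro x _ y _ hxy
      obtain ⟨e1, e2⟩ := Prod.ext_iff.1 hxy
      have e1' : w x = w y := e1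
      have e2' : x / p ^ w x = y / p ^ w y := e2
      rw [← Nat.div_mul_cancel (hw x), ← Nat.div_mul_cancel (hw y), e2', e1']
  rw [card_product, card_range, Nat.card_Icc, Nat.add_sub_cancel] at hcard
  calc S.card * p ^ (k + 1) ≤ (k + 2) * U * p ^ (k + 1) := Nat.mul_le_mul_right _ hcard
    _ = (k + 2) * q ^ 2 := by
        rw [hU]
        ring

theorem two_pow_aux : ∀ k : ℕ, (k + 2) ^ 2 ≤ 9 * 2 ^ k := by
  intro k
  induction k with
  | zero => norm_num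
  | succ k ih =>
    rcases Nat.eq_zero_or_pos k with rfl | hk
    · norm_num
    · rw [pow_succ 2 k]
      nlinarith

theorem density_of (S : ℕ → Finset ℕ)
    (hS : ∀ q : ℕ, 0 < q → ∀ n ∈ S q, 0 < n ∧ n ≤ q ^ 2 ∧ Cond n q) {ε : ℝ} (hε : 0 < ε) :
    ∃ q₀ : ℕ, ∀ q : ℕ, q₀ ≤ q → ((S q).card : ℝ) ≤ ε * (q : ℝ) ^ 2 := by
  obtain ⟨M, hM⟩ := exists_nat_gt (9 / ε ^ 2)
  refine ⟨M.factorial + 1, fun q hq => ?_⟩
  have hq0 : 0 < q := by omega
  obtain ⟨p, k, hp, hk, hpk, hbig⟩ : ∃ p k : ℕ, p.Prime ∧ 0 < k ∧ p ^ k ∣ q ∧ M < p ^ k := by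
    by_contra hcon
    have h1 : q ∣ M.factorial := by
      rw [Nat.dvd_iff_prime_pow_dvd_dvd]
      intro p k hp hpk
      rcases Nat.eq_zero_or_pos k with rfl | hk
      · rw [pow_zero]
        exact one_dvd _
      · apply Nat.dvd_factorial (pow_pos hp.pos k)
        by_contra h2
        exact hcon ⟨p, k, hp, hk, hpk, by omega⟩
    have h2 := Nat.le_of_dvd (Nat.factorial_pos M) h1
    omega
  have h1 := count_of hq0 (S q) (hS q hq0) hp hk hpk
  have h2 : ((S q).card : ℝ) * (p : ℝ) ^ (k + 1) ≤ ((k : ℝ) + 2) * (q : ℝ) ^ 2 := by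
    exact_mod_cast h1
  have hp2 : (2 : ℝ) ≤ p := by exact_mod_cast hp.two_le
  have hpk0 : (0 : ℝ) < (p : ℝ) ^ k := by positivity
  have h3 : ((k : ℝ) + 2) ^ 2 ≤ 9 * (p : ℝ) ^ k := by
    have h4 : ((k : ℝ) + 2) ^ 2 ≤ 9 * (2 : ℝ) ^ k := by exact_mod_cast two_pow_aux k
    have h5 : (2 : ℝ) ^ k ≤ (p : ℝ) ^ k := by gcongr
    linarith
  have h6 : 9 ≤ ε ^ 2 * (p : ℝ) ^ k := by
    have h7 : (M : ℝ) < (p : ℝ) ^ k := by exact_mod_cast hbig
    rw [div_lt_iff₀ (by positivity)] at hM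
    nlinarith [sq_nonneg ε, pow_pos hε 2]
  have h7 : (k : ℝ) + 2 ≤ ε * (p : ℝ) ^ (k + 1) := by
    have h8 : ((k : ℝ) + 2) ^ 2 ≤ (ε * (p : ℝ) ^ (k + 1)) ^ 2 := by
      calc ((k : ℝ) + 2) ^ 2 ≤ 9 * (p : ℝ) ^ k := h3
        _ ≤ (ε ^ 2 * (p : ℝ) ^ k) * (p : ℝ) ^ k := by gcongr
        _ ≤ (ε ^ 2 * (p : ℝ) ^ k) * (p : ℝ) ^ k * (p : ℝ) ^ 2 := by
            have : (1 : ℝ) ≤ (p : ℝ) ^ 2 := by nlinarith
            have h0 : 0 ≤ (ε ^ 2 * (p : ℝ) ^ k) * (p : ℝ) ^ k := by positivity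
            nlinarith
        _ = (ε * (p : ℝ) ^ (k + 1)) ^ 2 := by ring
    exact le_of_sq_le_sq h8 (by positivity)
  have hP : (0 : ℝ) < (p : ℝ) ^ (k + 1) := by positivity
  have h9 : ((S q).card : ℝ) * (p : ℝ) ^ (k + 1) ≤ (ε * (q : ℝ) ^ 2) * (p : ℝ) ^ (k + 1) := by
    calc ((S q).card : ℝ) * (p : ℝ) ^ (k + 1) ≤ ((k : ℝ) + 2) * (q : ℝ) ^ 2 := h2
      _ ≤ (ε * (p : ℝ) ^ (k + 1)) * (q : ℝ) ^ 2 := by gcongr
      _ = _ := by ring
  exact le_of_mul_le_mul_right h9 hP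

end Pool.Agent.Lib.MP_2b2af9_co.Num
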