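import Pool.Agent.Lib.MP_2b2af9_co.MidA

/-!
# Spectral pairs whose order is not divisible by `p ^ 2`: related differences
-/

set_option autoImplicit false

open Finset

set_option linter.unusedSectionVars false

namespace BHone

open BHsm BHmid

variable {p : ℕ} [hp : Fact p.Prime] {k : ℕ}

/-- Coordinates with respect to a primitive vector. -/
theorem basis {z : V p k} (hz : rd z ≠ 0) : ∃ zr zs : V p k, dot zr (rot z) = 1 ∧
    dot z zs = 1 ∧ ∀ v : V p k, v = dot zr v • rot z + dot z v • zs := by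
  have hor : red p k z.1 ≠ 0 ∨ red p k z.2 ≠ 0 := by
    by_contra hcon
    push Not at hcon
    exact hz (Prod.ext hcon.1 hcon.2)
  rcases hor with h2 | h2
  · obtain ⟨t, ht⟩ := isUnit_iff_exists_inv.mp (isUnit_of_red h2)
    refine ⟨(0, t), (t, 0), ?_, ?_, fun v => Prod.ext ?_ ?_⟩
    · show 0 * -z.2 + t * z.1 = 1
      linear_combination ht
    · show z.1 * t + z.2 * 0 = 1
      linear_combination ht
    · show v.1 = (0 * v.1 + t * v.2) * -z.2 + (z.1 * v.1 + z.2 * v.2) * t
      linear_combination (-v.1) * ht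
    · show v.2 = (0 * v.1 + t * v.2) * z.1 + (z.1 * v.1 + z.2 * v.2) * 0
      linear_combination (-v.2) * ht
  · obtain ⟨t, ht⟩ := isUnit_iff_exists_inv.mp (isUnit_of_red h2)
    refine ⟨(-t, 0), (0, t), ?_, ?_, fun v => Prod.ext ?_ ?_⟩
    · show -t * -z.2 + 0 * z.1 = 1
      linear_combination ht
    · show z.1 * 0 + z.2 * t = 1
      linear_combination ht
    · show v.1 = (-t * v.1 + 0 * v.2) * -z.2 + (z.1 * v.1 + z.2 * v.2) * 0
      linear_combination (-v.1) * ht
    · show v.2 = (-t * v.1 + 0 * v.2) * z.1 + (z.1 * v.1 + z.2 * v.2) * t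
      linear_combination (-v.2) * ht


/-! ### Lines of the plane over `ℤ / p` -/

theorem fd_smul (a : F2 p) (l : ZMod p) (b : F2 p) : fd a (l • b) = l * fd a b := by
  unfold fd
  show a.1 * (l * b.1) + a.2 * (l * b.2) = l * (a.1 * b.1 + a.2 * b.2)
  ring

theorem exists_pt {ζ : F2 p} (hζ : ζ ≠ 0) (σ : ZMod p) : ∃ c, fd ζ c = σ := by
  have hor : ζ.1 ≠ 0 ∨ ζ.2 ≠ 0 := by
    by_contra hcon3
    push Not at hcon3
    exact hζ (Prod.ext hcon3.1 hcon3.2)
  rcases hor with h2 | h2
  · refine ⟨(σ / ζ.1, 0), ?_⟩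
    show ζ.1 * (σ / ζ.1) + ζ.2 * 0 = σ
    field_simp
    ring
  · refine ⟨(0, σ / ζ.2), ?_⟩
    show ζ.1 * 0 + ζ.2 * (σ / ζ.2) = σ
    field_simp
    ring

/-- A line of the plane. -/
def line (ζ : F2 p) (σ : ZMod p) : Finset (F2 p) := univ.filter fun c => fd ζ c = σ

theorem mem_line {ζ : F2 p} {σ : ZMod p} {c : F2 p} : c ∈ line ζ σ ↔ fd ζ c = σ := by
  unfold line
  rw [mem_filter]
  exact ⟨fun h1 => h1.2, fun h1 => ⟨mem_univ _, h1⟩⟩

theorem card_line {ζ : F2 p} (hζ : ζ ≠ 0) (σ : ZMod p) : (line ζ σ).card = p := by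
  obtain ⟨c0, hc0⟩ := exists_pt hζ σ
  have h1 : line ζ σ = (univ : Finset (ZMod p)).image fun t => c0 + t • frot ζ := by
    ext c
    rw [mem_line, mem_image]
    constructor
    · intro hc
      obtain ⟨l, hl⟩ := exists_rot hζ (a := c - c0) (by rw [fd_sub, hc, hc0, sub_self])
      exact ⟨l, mem_univ _, by rw [← hl]; abel⟩
    · rintro ⟨t, -, rfl⟩
      have h2 : fd ζ (c0 + t • frot ζ) = fd ζ c0 + t * fd ζ (frot ζ) := by
        rw [← fd_smul]
        unfold fd
        rw [Prod.fst_add, Prod.snd_add]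
        ring
      rw [h2, fd_frot, mul_zero, add_zero, hc0]
  rw [h1, card_image_of_injective, card_univ, ZMod.card]
  intro t t' htt
  exact smul_frot_inj hζ (add_left_cancel htt)

variable {I J : Type} [Fintype I] [Fintype J] [DecidableEq I] [DecidableEq J]

/-- The elements of a family on a line modulo `p`. -/
def ln (y : J → V p k) (ζ : F2 p) (σ : ZMod p) : Finset J := univ.filter fun j => fd ζ (rd (y j)) = σ

theorem mem_ln {y : J → V p k} {ζ : F2 p} {σ : ZMod p} {j : J} :
    j ∈ ln y ζ σ ↔ fd ζ (rd (y j)) = σ := by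
  unfold ln
  rw [mem_filter]
  exact ⟨fun h1 => h1.2, fun h1 => ⟨mem_univ _, h1⟩⟩

theorem sum_ln (y : J → V p k) (ζ : F2 p) : ∑ σ, (ln y ζ σ).card = Fintype.card J := by
  rw [← card_univ (α := J), card_eq_sum_card_fiberwise (f := fun j => fd ζ (rd (y j)))
    (t := univ) (fun _ _ => mem_coe.mpr (mem_univ _))]
  rfl

/-- The standing assumptions. -/
structure Q1 (x : I → V p k) (y : J → V p k) : Prop where
  sp : SP x y
  hn : ¬ p ^ 2 ∣ Fintype.card I
  hy : ∀ j j', j ≠ j' → (p : R p k) • (y j - y j') ≠ 0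

variable {x : I → V p k} {y : J → V p k}

theorem Q1.unif (hq : Q1 x y) {z : V p k} (hz : D x z) : U fun j => dot z (y j) := by
  obtain ⟨hz0, i, i', rfl⟩ := hz
  refine hq.sp.row i i' ?_
  rintro rfl
  apply hz0
  rw [sub_self]
  unfold rd
  simp

theorem Q1.anti (hq : Q1 x y) {j j' : J} (hj : j ≠ j') {l : R p k} (hl : red p k l = 0) :
    ¬ U fun i => dot (x i) (l • (y j - y j')) := by
  intro hU
  apply hq.hn
  refine (hq.sp.col j j' hj).sq_dvd_of_mul hl ?_
  have h1 : (fun i => l * dot (x i) (y j - y j')) = fun i => dot (x i) (l • (y j - y j')) := by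
    funext i
    rw [dot_smul']
  rw [h1]
  exact hU

/-- A difference orthogonal to a primitive vector divides the other differences in its tube. -/
theorem Q1.dvd_coord (hq : Q1 x y) {z zr zs : V p k}
    (hb : ∀ v : V p k, v = dot zr v • rot z + dot z v • zs) {j1 j2 j j' : J} (hj12 : j1 ≠ j2)
    (hw : dot z (y j1 - y j2) = 0) (hv : (p : R p k) * dot z (y j - y j') = 0) :
    dot zr (y j1 - y j2) ∣ dot zr (y j - y j') := by
  rcases chain (dot zr (y j1 - y j2)) (dot zr (y j - y j')) with h1 | h1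
  · exact h1
  · obtain ⟨l, hl⟩ := h1
    by_cases hl0 : red p k l = 0
    · exfalso
      have hlv : l • (y j - y j') = y j1 - y j2 := by
        obtain ⟨c, hc⟩ := ann hv
        obtain ⟨d, hd⟩ := red_eq_zero.mp hl0
        have e1 := hb (y j - y j')
        have e2 := hb (y j1 - y j2)
        rw [hw, zero_smul, add_zero, hl] at e2
        rw [hc] at e1
        have e3 : l * (h p k * c) = 0 := by
          rw [hd]
          linear_combination (d * c) * p_mul_h (p := p) (k := k)
        refine Eq.trans ?_ e2.symm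
        conv_lhs => rw [e1]
        rw [smul_add, smul_smul, smul_smul, e3, zero_smul, add_zero, mul_comm l]
      have hjj : j ≠ j' := by
        rintro rfl
        rw [sub_self, smul_zero] at hlv
        exact hq.hy j1 j2 hj12 (by rw [← hlv, smul_zero])
      apply hq.anti hjj hl0
      rw [hlv]
      exact hq.sp.col j1 j2 hj12
    · obtain ⟨t, ht⟩ := isUnit_iff_exists_inv.mp (isUnit_of_red hl0)
      exact ⟨t, by rw [hl, mul_assoc, ht, mul_one]⟩

/-- The size of a tube. -/
theorem Q1.card_blk (hq : Q1 x y) {z : V p k} (hz : D x z) (j : J) :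
    (blk y z j).card = p * N (fun j' => dot z (y j')) (dot z (y j)) := by
  rw [← (hq.unif hz).card_class (dot z (y j))]
  congr 1
  ext j'
  rw [mem_blk, mem_filter, dot_sub', mul_sub, sub_eq_zero]
  exact ⟨fun h2 => ⟨mem_univ _, h2⟩, fun h2 => h2.2⟩

theorem Q1.lt_card_blk (hq : Q1 x y) {z : V p k} (hz : D x z) {j1 j2 : J} (hj12 : j1 ≠ j2)
    (hw : dot z (y j1 - y j2) = 0) : p < (blk y z j1).card := by
  rw [hq.card_blk hz]
  have h2 : 2 ≤ N (fun j => dot z (y j)) (dot z (y j1)) := by
    unfold N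
    rw [← card_pair hj12]
    apply card_le_card
    intro j hj
    rw [mem_insert, mem_singleton] at hj
    rw [mem_filter]
    refine ⟨mem_univ _, ?_⟩
    rcases hj with rfl | rfl
    · rfl
    · rw [dot_sub', sub_eq_zero] at hw
      exact hw.symm
  have := hp.out.pos
  nlinarith

/-- Coordinates of the elements of a tube. -/
theorem Q1.coords (hq : Q1 x y) {z zr zs : V p k}
    (hb : ∀ v : V p k, v = dot zr v • rot z + dot z v • zs) {j1 j2 : J} (hj12 : j1 ≠ j2)
    (hw : dot z (y j1 - y j2) = 0) : ∃ ρ c : J → R p k, ∀ j ∈ blk y z j1,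
      dot zr (y j - y j1) = dot zr (y j1 - y j2) * ρ j ∧ dot z (y j - y j1) = h p k * c j := by
  have h1 : ∀ j, ∃ ρ c : R p k, j ∈ blk y z j1 →
      dot zr (y j - y j1) = dot zr (y j1 - y j2) * ρ ∧ dot z (y j - y j1) = h p k * c := by
    intro j
    by_cases hj : j ∈ blk y z j1
    · obtain ⟨c, hc⟩ := ann (mem_blk.mp hj)
      obtain ⟨ρ, hρ⟩ := hq.dvd_coord hb hj12 hw (mem_blk.mp hj)
      exact ⟨ρ, c, fun _ => ⟨hρ, hc⟩⟩
    · exact ⟨0, 0, fun h2 => absurd h2 hj⟩
  choose ρ c hρc using h1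
  exact ⟨ρ, c, hρc⟩

/-- Sibling differences in direction `z`. -/
def SD (y : J → V p k) (z : V p k) : Prop :=
  ∃ (j j' i1 i2 : J) (l : R p k) (u : V p k), j ≠ j' ∧ i1 ≠ i2 ∧ red p k l = 0 ∧
    y j - y j' = l • (y i1 - y i2) + h p k • u ∧ (p : R p k) * dot z (y j - y j') = 0

/-- If there are no sibling differences then a primitive difference is injective. -/
theorem Q1.inj (hq : Q1 x y) {z : V p k} (hz : D x z) (hsd : ¬ SD y z) {j1 j2 : J}
    (hj12 : j1 ≠ j2) : dot z (y j1 - y j2) ≠ 0 := by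
  classical
  intro hw
  obtain ⟨zr, zs, hrr, hss, hb⟩ := basis hz.1
  obtain ⟨ρ, c, hρc⟩ := hq.coords hb hj12 hw
  obtain ⟨a, ha, b, hb2, hne, heq⟩ := exists_ne_map_eq_of_card_lt_of_maps_to
    (s := blk y z j1) (t := (univ : Finset (ZMod p)))
    (by rw [card_univ, ZMod.card]; exact hq.lt_card_blk hz hj12 hw)
    (f := fun j => red p k (ρ j)) (fun _ _ => mem_coe.mpr (mem_univ _))
  apply hsd
  have heq' : red p k (ρ a - ρ b) = 0 := by
    rw [map_sub, sub_eq_zero]
    exact heq
  have e1 : dot zr (y a - y b) = (ρ a - ρ b) * dot zr (y j1 - y j2) := by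
    have e3 : y a - y b = (y a - y j1) - (y b - y j1) := by abel
    rw [e3, dot_sub', (hρc a ha).1, (hρc b hb2).1]
    ring
  have e2 : dot z (y a - y b) = h p k * (c a - c b) := by
    have e3 : y a - y b = (y a - y j1) - (y b - y j1) := by abel
    rw [e3, dot_sub', (hρc a ha).2, (hρc b hb2).2]
    ring
  refine ⟨a, b, j1, j2, ρ a - ρ b, (c a - c b) • zs, hne, hj12, heq', ?_, ?_⟩
  · have e4 := hb (y j1 - y j2)
    rw [hw, zero_smul, add_zero] at e4
    conv_rhs => rw [e4]
    conv_lhs => rw [hb (y a - y b)]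
    rw [e1, e2, smul_smul, smul_smul]
  · rw [e2, ← mul_assoc, p_mul_h, zero_mul]

/-- The level sets of a difference with a sibling lie in classes. -/
theorem Q1.fl (hq : Q1 x y) {j j' i1 i2 : J} {l : R p k} {u : V p k} (hj : j ≠ j') (hi : i1 ≠ i2)
    (hl : red p k l = 0) (hv : y j - y j' = l • (y i1 - y i2) + h p k • u) {z : V p k}
    (hz : D x z) : dot z (y j - y j') ≠ 0 := by
  classical
  intro h0
  obtain ⟨zr, zs, hrr, hss, hb⟩ := basis hz.1
  have hv1 : y j - y j' = dot zr (y j - y j') • rot z := by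
    have e1 := hb (y j - y j')
    rw [h0, zero_smul, add_zero] at e1
    exact e1
  have slope : ∀ m : R p k, U fun i => dot (x i) ((y j - y j') + (h p k * m) • zs) := by
    intro m
    obtain ⟨ρ, c, hρc⟩ := hq.coords hb hj h0
    obtain ⟨a, ha, b, hb2, hne, heq⟩ := exists_ne_map_eq_of_card_lt_of_maps_to
      (s := blk y z j) (t := (univ : Finset (ZMod p)))
      (by rw [card_univ, ZMod.card]; exact hq.lt_card_blk hz hj h0)
      (f := fun j2 => red p k (c j2 - m * ρ j2)) (fun _ _ => mem_coe.mpr (mem_univ _))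
    have e1 : dot zr (y a - y b) = (ρ a - ρ b) * dot zr (y j - y j') := by
      have e3 : y a - y b = (y a - y j) - (y b - y j) := by abel
      rw [e3, dot_sub', (hρc a ha).1, (hρc b hb2).1]
      ring
    have e2 : dot z (y a - y b) = h p k * (m * (ρ a - ρ b)) := by
      have e3 : y a - y b = (y a - y j) - (y b - y j) := by abel
      rw [e3, dot_sub', (hρc a ha).2, (hρc b hb2).2, ← mul_sub, h_mul_eq]
      simp only [map_sub, map_mul] at heq ⊢
      linear_combination heq
    have hvab : y a - y b = (ρ a - ρ b) • ((y j - y j') + (h p k * m) • zs) := by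
      conv_rhs => rw [hv1]
      conv_lhs => rw [hb (y a - y b)]
      rw [e1, e2, smul_add, smul_smul, smul_smul]
      congr 2
      ring
    have hUab := hq.sp.col a b hne
    by_cases hρ0 : red p k (ρ a - ρ b) = 0
    · exfalso
      apply hq.anti hj hρ0
      have e3 : (ρ a - ρ b) • ((y j - y j') + (h p k * m) • zs) = (ρ a - ρ b) • (y j - y j') := by
        obtain ⟨d, hd⟩ := red_eq_zero.mp hρ0
        rw [smul_add, smul_smul, hd]
        have e4 : (p : R p k) * d * (h p k * m) = 0 := by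
          linear_combination (d * m) * p_mul_h (p := p) (k := k)
        rw [e4, zero_smul, add_zero]
      rw [← e3, ← hvab]
      exact hUab
    · rw [hvab] at hUab
      have e3 : (fun i => dot (x i) ((ρ a - ρ b) • ((y j - y j') + (h p k * m) • zs))) =
          fun i => (ρ a - ρ b) * dot (x i) ((y j - y j') + (h p k * m) • zs) := by
        funext i
        rw [dot_smul']
      rw [e3] at hUab
      exact U.of_unit_mul (isUnit_of_red hρ0) hUab
  -- the sibling
  have hμ : (p : R p k) * dot zr (y j - y j') ≠ 0 := by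
    intro h1
    apply hq.hy j j' hj
    rw [hv1, smul_smul, h1, zero_smul]
  obtain ⟨κ, hκ0, hκ⟩ : ∃ κ : R p k, red p k κ = 0 ∧
      h p k * dot zr u = dot zr (y j - y j') * κ := by
    rcases chain ((p : R p k) * dot zr (y j - y j')) (h p k) with h1 | h1
    · obtain ⟨t, ht⟩ := h1
      refine ⟨(p : R p k) * (t * dot zr u), ?_, ?_⟩
      · rw [map_mul, red_p, zero_mul]
      · rw [ht]
        ring
    · obtain ⟨t, ht⟩ := h1
      have ht0 : red p k t ≠ 0 := by
        intro h2
        apply hμ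
        rw [ht, h_mul_eq_zero]
        exact h2
      obtain ⟨s, hs⟩ := isUnit_iff_exists_inv.mp (isUnit_of_red ht0)
      refine ⟨(p : R p k) * (s * dot zr u), ?_, ?_⟩
      · rw [map_mul, red_p, zero_mul]
      · linear_combination (-(s * dot zr u)) * ht - h p k * dot zr u * hs
  have hκu : IsUnit (1 - κ) := by
    apply isUnit_of_red
    rw [map_sub, map_one, hκ0, sub_zero]
    exact one_ne_zero
  obtain ⟨s, hs⟩ := isUnit_iff_exists_inv.mp hκu
  have hlw : l • (y i1 - y i2) = (1 - κ) • ((y j - y j') + (h p k * (-(s * dot z u))) • zs) := by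
    have e1 : l • (y i1 - y i2) = (y j - y j') - h p k • u := by
      rw [hv]
      abel
    have e2 : h p k • u = (dot zr (y j - y j') * κ) • rot z + (h p k * dot z u) • zs := by
      conv_lhs => rw [hb u]
      rw [smul_add, smul_smul, smul_smul, hκ]
    have e3 : κ • (y j - y j') = (dot zr (y j - y j') * κ) • rot z := by
      conv_lhs => rw [hv1]
      rw [smul_smul, mul_comm]
    rw [e1, e2, ← e3, smul_add, sub_smul, one_smul, smul_smul]
    have e4 : (1 - κ) * (h p k * -(s * dot z u)) = -(h p k * dot z u) := by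
      linear_combination (-(h p k * dot z u)) * hs
    rw [e4, neg_smul]
    abel
  apply hq.anti hi hl
  rw [hlw]
  have e3 : (fun i => dot (x i) ((1 - κ) • ((y j - y j') + (h p k * -(s * dot z u)) • zs))) =
      fun i => (1 - κ) * dot (x i) ((y j - y j') + (h p k * -(s * dot z u)) • zs) := by
    funext i
    rw [dot_smul']
  rw [e3]
  exact (slope _).unit_mul hκu

end BHone
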