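import Pool.Agent.Lib.MP_2b2af9_co.OneA

/-!
# Class sizes and sibling differences
-/

set_option autoImplicit false

open Finset

set_option linter.unusedSectionVars false

namespace BHone

open BHsm BHmid

variable {p : ℕ} [hp : Fact p.Prime] {k : ℕ}
variable {I J : Type} [Fintype I] [Fintype J] [DecidableEq I] [DecidableEq J]
variable {x : I → V p k} {y : J → V p k}

/-- The tube of an element for a function. -/
def tub (φ : I → R p k) (i0 : I) : Finset I :=
  univ.filter fun i => (p : R p k) * φ i = (p : R p k) * φ i0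

theorem mem_tub {φ : I → R p k} {i0 i : I} :
    i ∈ tub φ i0 ↔ (p : R p k) * φ i = (p : R p k) * φ i0 := by
  unfold tub
  rw [mem_filter]
  exact ⟨fun h1 => h1.2, fun h1 => ⟨mem_univ _, h1⟩⟩

/-- The size of a union of level sets contained in a tube. -/
theorem card_sat {φ : I → R p k} (hφ : U φ) (i0 : I) {S : Finset I} (hS : S ⊆ tub φ i0)
    (hsat : ∀ i ∈ S, ∀ i', φ i' = φ i → i' ∈ S) :
    S.card = (S.image φ).card * N φ (φ i0) := by
  rw [card_eq_sum_card_image φ S]
  rw [sum_const_nat (m := N φ (φ i0))]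
  intro t ht
  rw [mem_image] at ht
  obtain ⟨i, hi, rfl⟩ := ht
  have h1 := mem_tub.mp (hS hi)
  obtain ⟨c, hc⟩ := ann (x := φ i - φ i0) (by rw [mul_sub, h1, sub_self])
  have h2 : φ i = φ i0 + h p k * c := by rw [← hc]; ring
  rw [hφ (φ i0) c, ← h2]
  unfold N
  congr 1
  ext i'
  simp only [mem_filter, mem_univ, true_and, and_iff_right_iff_imp]
  exact hsat i hi i'

/-- The part of a tube in a class. -/
theorem tube_cls {φ ψ : I → R p k} (hφ : U φ) {u : V p k}
    (hψ : ∀ s, p ∣ N ψ s) (hφψ : ∀ i, φ i = ψ i + h p k * dot (x i) u)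
    (hfl : ∀ i i', φ i = φ i' → rd (x i) = rd (x i')) {η : F2 p} (hη : η ≠ 0)
    (hln : ∀ i i', (p : R p k) * φ i = (p : R p k) * φ i' → fd η (rd (x i)) = fd η (rd (x i')))
    (i0 : I) {C : F2 p} (hC : fd η C = fd η (rd (x i0))) :
    (((tub φ i0) ∩ cls x C).card : ZMod p) = ((N φ (φ i0) : ℕ) : ZMod p) := by
  classical
  set c := N φ (φ i0) with hc
  have hsatC : ∀ C : F2 p, ((tub φ i0) ∩ cls x C).card =
      (((tub φ i0) ∩ cls x C).image φ).card * c := by
    intro C
    refine card_sat hφ i0 inter_subset_left ?_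
    intro i hi i' hii
    rw [mem_inter, mem_tub, mem_cls] at hi ⊢
    rw [hii]
    exact ⟨hi.1, (hfl i' i hii).trans hi.2⟩
  by_cases hpc : p ∣ c
  · rw [hsatC C]
    push_cast
    have h1 : ((c : ℕ) : ZMod p) = 0 := (ZMod.natCast_eq_zero_iff _ _).mpr hpc
    rw [h1, mul_zero]
  · have hc0 : 0 < c := by
      rcases Nat.eq_zero_or_pos c with h1 | h1
      · rw [h1] at hpc
        exact absurd (dvd_zero p) hpc
      · exact h1
    have hA : (tub φ i0).card = p * c := by
      have h1 := hφ.card_class (φ i0)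
      exact h1
    have hAi : ((tub φ i0).image φ).card = p := by
      have h1 := card_sat hφ i0 (Subset.refl (tub φ i0)) (by
        intro i hi i' hii
        rw [mem_tub] at hi ⊢
        rw [hii]
        exact hi)
      rw [hA, ← hc] at h1
      exact (Nat.eq_of_mul_eq_mul_right hc0 h1).symm
    -- `ψ` is constant on the tube
    have hcon : ∀ i ∈ tub φ i0, ∀ i' ∈ tub φ i0, ψ i' = ψ i := by
      intro i hi
      set G : Finset I := univ.filter fun i' => ψ i' = ψ i with hG
      have hGs : G ⊆ tub φ i0 := by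
        intro i' hi'
        rw [hG, mem_filter] at hi'
        rw [mem_tub] at hi ⊢
        rw [← hi, hφψ i', hφψ i, hi'.2, mul_add, mul_add, ← mul_assoc, ← mul_assoc, p_mul_h,
          zero_mul, zero_mul]
      have hGsat : ∀ i1 ∈ G, ∀ i2, φ i2 = φ i1 → i2 ∈ G := by
        intro i1 hi1 i2 hii
        rw [hG, mem_filter] at hi1 ⊢
        refine ⟨mem_univ _, ?_⟩
        rw [← hi1.2]
        have h1 := hfl i2 i1 hii
        have h2 : h p k * dot (x i2) u = h p k * dot (x i1) u := by
          rw [h_mul_eq, red_dot, red_dot, h1]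
        have h3 := hφψ i2
        have h4 := hφψ i1
        rw [hii, h2, h4] at h3
        exact (add_right_cancel h3).symm
      have h1 := card_sat hφ i0 hGs hGsat
      have h2 : p ∣ G.card := hψ (ψ i)
      rw [h1] at h2
      have h3 : p ∣ (G.image φ).card := (hp.out.dvd_mul.mp h2).resolve_right hpc
      have h4 : 0 < (G.image φ).card := by
        rw [card_pos]
        exact ⟨φ i, mem_image_of_mem _ (by rw [hG, mem_filter]; exact ⟨mem_univ _, rfl⟩)⟩
      have h5 : (G.image φ).card ≤ p :=
        le_trans (card_le_card (image_subset_image hGs)) hAi.le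
      have h6 : (G.image φ).card = p := le_antisymm h5 (Nat.le_of_dvd h4 h3)
      rw [h6, ← hc] at h1
      have h7 : G = tub φ i0 := eq_of_subset_of_card_le hGs (by rw [h1, hA])
      intro i' hi'
      rw [← h7, hG, mem_filter] at hi'
      exact hi'.2
    have hle : ∀ C : F2 p, (((tub φ i0) ∩ cls x C).image φ).card ≤ 1 := by
      intro C
      rw [card_le_one]
      intro a ha b hb
      rw [mem_image] at ha hb
      obtain ⟨i, hi, rfl⟩ := ha
      obtain ⟨i', hi', rfl⟩ := hb
      rw [mem_inter, mem_cls] at hi hi'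
      rw [hφψ i, hφψ i', hcon i hi.1 i' hi'.1]
      congr 1
      rw [h_mul_eq, red_dot, red_dot, hi.2, hi'.2]
    have hsum : ∑ C ∈ line η (fd η (rd (x i0))), ((tub φ i0) ∩ cls x C).card = p * c := by
      rw [← hA]
      rw [card_eq_sum_card_fiberwise (s := tub φ i0) (f := fun i => rd (x i))
        (t := line η (fd η (rd (x i0))))]
      · refine sum_congr rfl fun C _ => ?_
        congr 1
        ext i
        rw [mem_inter, mem_cls, mem_filter]
      · intro i hi
        rw [mem_coe, mem_tub] at hi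
        rw [mem_coe, mem_line]
        exact hln i i0 hi
    have hsum2 : ∑ C ∈ line η (fd η (rd (x i0))), (((tub φ i0) ∩ cls x C).image φ).card =
        ∑ _C ∈ line η (fd η (rd (x i0))), 1 := by
      rw [sum_const, card_line hη, smul_eq_mul, mul_one]
      have h1 : (∑ C ∈ line η (fd η (rd (x i0))), (((tub φ i0) ∩ cls x C).image φ).card) * c =
          p * c := by
        rw [sum_mul, ← hsum]
        exact sum_congr rfl fun C _ => (hsatC C).symm
      exact Nat.eq_of_mul_eq_mul_right hc0 h1
    have hall := (sum_eq_sum_iff_of_le fun C _ => hle C).mp hsum2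
    rw [hsatC C, hall C (mem_line.mpr hC), one_mul]

/-- The class sizes in the presence of sibling differences. -/
theorem Q1.sg (hq : Q1 x y) {z : V p k} (hz : rd z ≠ 0) (hsd : SD y z) (C : F2 p) :
    ∃ m : ℕ, (ln x (frot (rd z)) (fd (frot (rd z)) C)).card = p * m ∧
      (m : ZMod p) = ((cls x C).card : ZMod p) := by
  classical
  obtain ⟨j, j', i1, i2, l, u, hj, hi, hl, hv, hzv⟩ := hsd
  set φ : I → R p k := fun i => dot (x i) (y j - y j') with hφdef
  set ψ : I → R p k := fun i => l * dot (x i) (y i1 - y i2) with hψdef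
  have hφ : U φ := hq.sp.col j j' hj
  have hψ : ∀ s, p ∣ N ψ s := fun s => (hq.sp.col i1 i2 hi).dvd_level hl s
  have hφψ : ∀ i, φ i = ψ i + h p k * dot (x i) u := by
    intro i
    show dot (x i) (y j - y j') = l * dot (x i) (y i1 - y i2) + h p k * dot (x i) u
    have e1 : dot (x i) (l • (y i1 - y i2) + h p k • u) =
        l * dot (x i) (y i1 - y i2) + h p k * dot (x i) u := by
      rw [dot_comm, dot_add, dot_smul, dot_smul, dot_comm (y i1 - y i2), dot_comm u]
    rw [← e1, ← hv]
  have hfl : ∀ i i', φ i = φ i' → rd (x i) = rd (x i') := by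
    intro i i' hii
    by_contra hne
    refine hq.fl hj hi hl hv (z := x i - x i') ⟨?_, i, i', rfl⟩ ?_
    · rw [rd_sub]
      exact sub_ne_zero.mpr hne
    · rw [dot_sub, sub_eq_zero]
      exact hii
  obtain ⟨zr, zs, hrr, hss, hb⟩ := basis hz
  obtain ⟨c, hc⟩ := ann hzv
  have hve := hb (y j - y j')
  rw [hc] at hve
  have hμ : (p : R p k) * dot zr (y j - y j') ≠ 0 := by
    intro h1
    apply hq.hy j j' hj
    rw [hve, smul_add, smul_smul, smul_smul, h1, ← mul_assoc, p_mul_h, zero_mul, zero_smul,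
      zero_smul, add_zero]
  have hη : frot (rd z) ≠ 0 := frot_ne hz
  have hln : ∀ i i', (p : R p k) * φ i = (p : R p k) * φ i' →
      fd (frot (rd z)) (rd (x i)) = fd (frot (rd z)) (rd (x i')) := by
    intro i i' hii
    have e1 : (p : R p k) * dot (x i - x i') (y j - y j') = 0 := by
      rw [dot_sub, mul_sub, sub_eq_zero]
      exact hii
    rw [hve, dot_comm, dot_add, dot_smul, dot_smul, mul_add] at e1
    have e2 : (p : R p k) * (h p k * c * dot zs (x i - x i')) = 0 := by
      linear_combination (c * dot zs (x i - x i')) * p_mul_h (p := p) (k := k)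
    rw [e2, add_zero, ← mul_assoc] at e1
    have e3 : red p k (dot (rot z) (x i - x i')) = 0 := by
      by_contra hne
      obtain ⟨t, ht⟩ := isUnit_iff_exists_inv.mp (isUnit_of_red hne)
      apply hμ
      linear_combination t * e1 - (p : R p k) * dot zr (y j - y j') * ht
    rw [red_dot, rd_rot, rd_sub, fd_sub] at e3
    exact sub_eq_zero.mp e3
  set η := frot (rd z) with hηdef
  set S := (ln x η (fd η C)).image fun i => (p : R p k) * φ i with hS
  have hfib : ∀ s ∈ S, ∃ i0, fd η (rd (x i0)) = fd η C ∧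
      (univ.filter fun i => (p : R p k) * φ i = s) = tub φ i0 := by
    intro s hs
    rw [hS, mem_image] at hs
    obtain ⟨i0, hi0, rfl⟩ := hs
    exact ⟨i0, mem_ln.mp hi0, rfl⟩
  refine ⟨∑ s ∈ S, (univ.filter fun i => (p : R p k) * φ i = s).card / p, ?_, ?_⟩
  · rw [mul_sum, card_eq_sum_card_image (fun i => (p : R p k) * φ i) (ln x η (fd η C))]
    refine sum_congr rfl fun s hs => ?_
    obtain ⟨i0, hi0, hi0'⟩ := hfib s hs
    have e1 : (filter (fun i => (p : R p k) * φ i = s) (ln x η (fd η C))) =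
        univ.filter fun i => (p : R p k) * φ i = s := by
      ext i
      rw [mem_filter, mem_filter, mem_ln]
      constructor
      · exact fun h2 => ⟨mem_univ _, h2.2⟩
      · intro h2
        refine ⟨?_, h2.2⟩
        rw [← hi0]
        apply hln
        have h3 : i ∈ tub φ i0 := by
          rw [← hi0', mem_filter]
          exact h2
        exact mem_tub.mp h3
    rw [e1, hi0']
    have e2 : (tub φ i0).card = p * N φ (φ i0) := hφ.card_class (φ i0)
    rw [e2, Nat.mul_div_cancel_left _ hp.out.pos]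
  · have e0 : (cls x C).card = ∑ s ∈ S, ((univ.filter fun i => (p : R p k) * φ i = s) ∩
        cls x C).card := by
      rw [card_eq_sum_card_fiberwise (s := cls x C) (f := fun i => (p : R p k) * φ i) (t := S)]
      · refine sum_congr rfl fun s _ => ?_
        congr 1
        ext i
        rw [mem_inter, mem_filter, mem_filter]
        exact ⟨fun h2 => ⟨⟨mem_univ _, h2.2⟩, h2.1⟩, fun h2 => ⟨h2.2, h2.1.2⟩⟩
      · intro i hi
        rw [mem_coe, mem_cls] at hi
        rw [mem_coe, hS]
        refine mem_image_of_mem _ ?_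
        rw [mem_ln, hi]
    rw [e0]
    push_cast
    refine sum_congr rfl fun s hs => ?_
    obtain ⟨i0, hi0, hi0'⟩ := hfib s hs
    rw [hi0', tube_cls hφ hψ hφψ hfl hη hln i0 hi0.symm]
    have e2 : (tub φ i0).card = p * N φ (φ i0) := hφ.card_class (φ i0)
    rw [e2, Nat.mul_div_cancel_left _ hp.out.pos]

theorem dt_frot (a b : F2 p) : dt (frot a) (frot b) = dt a b := by
  unfold dt frot
  ring

theorem exists_meet {η η' : F2 p} (hd : dt η η' ≠ 0) (s s' : ZMod p) :
    ∃ c, fd η c = s ∧ fd η' c = s' := by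
  refine ⟨((s * η'.2 - s' * η.2) / dt η η', (s' * η.1 - s * η'.1) / dt η η'), ?_, ?_⟩
  · unfold fd
    simp only
    rw [mul_div_assoc', mul_div_assoc', ← add_div, div_eq_iff hd]
    unfold dt
    ring
  · unfold fd
    simp only
    rw [mul_div_assoc', mul_div_assoc', ← add_div, div_eq_iff hd]
    unfold dt
    ring

/-- Sibling differences occur in at most one direction. -/
theorem Q1.sd_par (hq : Q1 x y) {z z' : V p k} (hd : dt (rd z) (rd z') ≠ 0) (h1 : SD y z)
    (h2 : SD y z') : False := by
  have hz : rd z ≠ 0 := ne_zero_of_dt hd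
  have hz' : rd z' ≠ 0 := ne_zero_of_dt (a := rd z') (b := rd z) (by
    rw [dt_swap]
    exact neg_ne_zero.mpr hd)
  have key : ∀ {w : V p k}, rd w ≠ 0 → SD y w → ∀ C C' : F2 p,
      fd (frot (rd w)) C = fd (frot (rd w)) C' →
      ((cls x C).card : ZMod p) = ((cls x C').card : ZMod p) := by
    intro w hw hs C C' hCC
    obtain ⟨m, hm, hmc⟩ := hq.sg hw hs C
    obtain ⟨m', hm', hmc'⟩ := hq.sg hw hs C'
    rw [hCC, hm'] at hm
    have h3 : m' = m := Nat.eq_of_mul_eq_mul_left hp.out.pos hm
    rw [← hmc, ← hmc', h3]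
  have hall : ∀ C C' : F2 p, ((cls x C).card : ZMod p) = ((cls x C').card : ZMod p) := by
    intro C C'
    obtain ⟨C'', h3, h4⟩ := exists_meet (η := frot (rd z)) (η' := frot (rd z'))
      (by rw [dt_frot]; exact hd) (fd (frot (rd z)) C) (fd (frot (rd z')) C')
    rw [← key hz h1 C'' C h3]
    exact key hz' h2 C'' C' h4
  apply hq.hn
  have h5 : ∀ σ : ZMod p, ∃ m : ℕ, (ln x (frot (rd z)) σ).card = p * m ∧
      (m : ZMod p) = ((cls x 0).card : ZMod p) := by
    intro σ
    obtain ⟨C, hC⟩ := exists_pt (frot_ne hz) σ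
    obtain ⟨m, hm, hmc⟩ := hq.sg hz h1 C
    rw [hC] at hm
    exact ⟨m, hm, hmc.trans (hall _ _)⟩
  choose m hm hmc using h5
  rw [← sum_ln x (frot (rd z)), sum_congr rfl fun σ _ => hm σ, ← mul_sum, sq]
  apply mul_dvd_mul_left
  rw [← ZMod.natCast_eq_zero_iff]
  push_cast
  rw [sum_congr rfl fun σ _ => hmc σ, sum_const, card_univ, ZMod.card, nsmul_eq_mul,
    ZMod.natCast_self, zero_mul]

end BHone
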