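import Pool.Agent.Lib.MP_2b2af9_co.OneB

/-!
# The order of a spectral pair is `p` if it is not divisible by `p ^ 2`
-/

set_option autoImplicit false

open Finset

set_option linter.unusedSectionVars false

namespace BHone

open BHsm BHmid

variable {p : ℕ} [hp : Fact p.Prime] {k : ℕ}
variable {I J : Type} [Fintype I] [Fintype J] [DecidableEq I] [DecidableEq J]
variable {x : I → V p k} {y : J → V p k}

/-- The level of a direction: after multiplication by `P` the elements of each tube are the `p`
translates by multiples of `h • rot z`. -/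
structure Lev (y : J → V p k) (z : V p k) (P : R p k) : Prop where
  ex : ∀ (j : J) (t : R p k), ∃ j' ∈ blk y z j, P • (y j' - y j) = (h p k * t) • rot z
  mul : ∀ (j : J), ∀ j' ∈ blk y z j, ∃ t : R p k, P • (y j' - y j) = (h p k * t) • rot z
  inj : ∀ (j : J), ∀ j' ∈ blk y z j, P • (y j' - y j) = 0 → j' = j
  card : ∀ j, (blk y z j).card = p

theorem Q1.level [Nonempty J] (hq : Q1 x y) {z : V p k} (hz : D x z) (hsd : ¬ SD y z) :
    ∃ P : R p k, Lev y z P := by
  classical
  obtain ⟨zr, zs, hrr, hss, hb⟩ := basis hz.1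
  have hcard : ∀ j, (blk y z j).card = p := by
    intro j
    rw [hq.card_blk hz]
    have h1 : N (fun j' => dot z (y j')) (dot z (y j)) = 1 := by
      unfold N
      rw [card_eq_one]
      refine ⟨j, ?_⟩
      ext j'
      rw [mem_filter, mem_singleton]
      constructor
      · rintro ⟨-, h2⟩
        by_contra hne
        apply hq.inj hz hsd hne
        rw [dot_sub', sub_eq_zero]
        exact h2
      · rintro rfl
        exact ⟨mem_univ _, rfl⟩
    rw [h1, mul_one]
  obtain ⟨j0⟩ := ‹Nonempty J›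
  obtain ⟨j1, hj1, hne⟩ : ∃ j1 ∈ blk y z j0, j1 ≠ j0 := by
    by_contra hcon
    push Not at hcon
    have h1 : (blk y z j0).card ≤ 1 := by
      rw [card_le_one]
      intro a ha b hb
      rw [hcon a ha, hcon b hb]
    rw [hcard] at h1
    have := hp.out.one_lt
    omega
  have hz0 : (p : R p k) * dot z (y j1 - y j0) = 0 := mem_blk.mp hj1
  -- proportional coordinates give sibling differences
  have sib : ∀ a b a' b' : J, a ≠ b → a' ≠ b' → (p : R p k) * dot z (y a - y b) = 0 →
      (p : R p k) * dot z (y a' - y b') = 0 → ∀ l : R p k,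
      dot zr (y a - y b) = dot zr (y a' - y b') * l → red p k l ≠ 0 := by
    intro a b a' b' hab hab' h1 h2 l hl hl0
    apply hsd
    obtain ⟨c, hc⟩ := ann h1
    obtain ⟨c', hc'⟩ := ann h2
    refine ⟨a, b, a', b', l, c • zs, hab, hab', hl0, ?_, h1⟩
    obtain ⟨d, hd⟩ := red_eq_zero.mp hl0
    have e3 : l * (h p k * c') = 0 := by
      rw [hd]
      linear_combination (d * c') * p_mul_h (p := p) (k := k)
    conv_lhs => rw [hb (y a - y b)]
    conv_rhs => rw [hb (y a' - y b')]
    rw [hl, hc, hc', smul_add, smul_smul, smul_smul, smul_smul, e3, zero_smul, add_zero,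
      mul_comm l]
  set μ0 := dot zr (y j1 - y j0) with hμ0
  have hpμ : (p : R p k) * μ0 ≠ 0 := by
    intro h1
    obtain ⟨c, hc⟩ := ann hz0
    apply hq.hy j1 j0 hne
    have e1 := hb (y j1 - y j0)
    rw [hc] at e1
    rw [e1, smul_add, smul_smul, smul_smul, ← hμ0, h1, ← mul_assoc, p_mul_h, zero_mul, zero_smul,
      zero_smul, add_zero]
  have hμ0' : μ0 ≠ 0 := by
    intro h1
    rw [h1, mul_zero] at hpμ
    exact hpμ rfl
  have hunit : ∀ a b : J, a ≠ b → (p : R p k) * dot z (y a - y b) = 0 →
      ∃ l : R p k, red p k l ≠ 0 ∧ dot zr (y a - y b) = μ0 * l := by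
    intro a b hab h1
    rcases chain μ0 (dot zr (y a - y b)) with h2 | h2
    · obtain ⟨l, hl⟩ := h2
      exact ⟨l, sib a b j1 j0 hab hne h1 hz0 l hl, hl⟩
    · obtain ⟨l, hl⟩ := h2
      have hl0 := sib j1 j0 a b hne hab hz0 h1 l hl
      obtain ⟨t, ht⟩ := isUnit_iff_exists_inv.mp (isUnit_of_red hl0)
      refine ⟨t, ?_, by rw [hl, mul_assoc, ht, mul_one]⟩
      intro h3
      have h4 := congrArg (red p k) ht
      rw [map_mul, h3, mul_zero, map_one] at h4
      exact zero_ne_one h4
  obtain ⟨P, hP⟩ : ∃ P, h p k = μ0 * P := by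
    rcases chain μ0 (h p k) with h1 | h1
    · exact h1
    · obtain ⟨t, ht⟩ := h1
      exfalso
      apply hpμ
      rw [ht, ← mul_assoc, p_mul_h, zero_mul]
  have hP0 : red p k P = 0 := by
    by_contra h1
    obtain ⟨t, ht⟩ := isUnit_iff_exists_inv.mp (isUnit_of_red h1)
    apply hpμ
    linear_combination (-(p : R p k) * t) * hP + t * p_mul_h (p := p) (k := k) -
      ((p : R p k) * μ0) * ht
  have hPh : ∀ c, P * (h p k * c) = 0 := by
    intro c
    obtain ⟨d, hd⟩ := red_eq_zero.mp hP0
    rw [hd]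
    linear_combination (d * c) * p_mul_h (p := p) (k := k)
  -- coordinates
  have h1 : ∀ j j', ∃ l : R p k, j' ∈ blk y z j → dot zr (y j' - y j) = μ0 * l ∧
      P • (y j' - y j) = (h p k * l) • rot z := by
    intro j j'
    by_cases hj : j' ∈ blk y z j
    · have h2 := mem_blk.mp hj
      have h3 : ∃ l, dot zr (y j' - y j) = μ0 * l := by
        by_cases hjj : j' = j
        · refine ⟨0, ?_⟩
          rw [hjj, sub_self, dot_zero', mul_zero]
        · obtain ⟨l, -, hl⟩ := hunit j' j hjj h2
          exact ⟨l, hl⟩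
      obtain ⟨l, hl⟩ := h3
      refine ⟨l, fun _ => ⟨hl, ?_⟩⟩
      obtain ⟨c, hc⟩ := ann h2
      conv_lhs => rw [hb (y j' - y j)]
      rw [hl, hc, smul_add, smul_smul, smul_smul, hPh, zero_smul, add_zero, hP]
      congr 1
      ring
    · exact ⟨0, fun h2 => absurd h2 hj⟩
  choose l hl using h1
  have linj : ∀ j, Set.InjOn (fun j' => red p k (l j j')) (blk y z j) := by
    intro j a ha b hb' hab
    rw [mem_coe] at ha hb'
    by_contra hne'
    have h2 : (p : R p k) * dot z (y a - y b) = 0 := by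
      have h3 := mem_blk.mp ha
      have h4 := mem_blk.mp hb'
      rw [dot_sub'] at h3 h4 ⊢
      linear_combination h3 - h4
    obtain ⟨l', hl'0, hl'⟩ := hunit a b hne' h2
    have h5 : dot zr (y a - y b) = μ0 * (l j a - l j b) := by
      have e3 : y a - y b = (y a - y j) - (y b - y j) := by abel
      rw [e3, dot_sub', (hl j a ha).1, (hl j b hb').1]
      ring
    have h6 : red p k (l j a - l j b - l') ≠ 0 := by
      have h7 : red p k (l j a) = red p k (l j b) := hab
      rw [map_sub, map_sub, h7, sub_self, zero_sub]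
      exact neg_ne_zero.mpr hl'0
    obtain ⟨t, ht⟩ := isUnit_iff_exists_inv.mp (isUnit_of_red h6)
    apply hμ0'
    linear_combination (-t) * h5 + t * hl' - μ0 * ht
  refine ⟨P, ?_, ?_, ?_, hcard⟩
  · intro j t
    have h2 : (blk y z j).image (fun j' => red p k (l j j')) = univ := by
      apply eq_univ_of_card
      rw [card_image_of_injOn (linj j), hcard, ZMod.card]
    have h3 : red p k t ∈ (blk y z j).image (fun j' => red p k (l j j')) := by
      rw [h2]
      exact mem_univ _
    rw [mem_image] at h3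
    obtain ⟨j', hj', hjt⟩ := h3
    refine ⟨j', hj', ?_⟩
    rw [(hl j j' hj').2, h_mul_eq.mpr hjt]
  · intro j j' hj'
    exact ⟨_, (hl j j' hj').2⟩
  · intro j j' hj' h2
    apply linj j (mem_coe.mpr hj') (mem_coe.mpr (blk_self y z j))
    have h3 : h p k * l j j' = 0 := by
      have h4 : dot zr (P • (y j' - y j)) = 0 := by rw [h2, dot_zero']
      rw [(hl j j' hj').2, dot_smul', hrr, mul_one] at h4
      exact h4
    have h5 : h p k * l j j = 0 := by
      have h4 : dot zr (P • (y j - y j)) = 0 := by rw [sub_self, smul_zero, dot_zero']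
      rw [(hl j j (blk_self y z j)).2, dot_smul', hrr, mul_one] at h4
      exact h4
    show red p k (l j j') = red p k (l j j)
    rw [← h_mul_eq, h3, h5]

/-- The number of elements with a given multiple. -/
def M (y : J → V p k) (P : R p k) (s : V p k) : ℕ := (univ.filter fun j => P • y j = s).card

theorem M_le {z : V p k} {P : R p k} {y : J → V p k} {t : R p k}
    (hex : ∀ j : J, ∃ j' ∈ blk y z j, P • (y j' - y j) = (h p k * t) • rot z)
    (hinj : ∀ (j : J), ∀ j' ∈ blk y z j, P • (y j' - y j) = 0 → j' = j) (s : V p k) :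
    M y P s ≤ M y P (s + (h p k * t) • rot z) := by
  classical
  choose f hf1 hf2 using hex
  unfold M
  refine card_le_card_of_injOn f ?_ ?_
  · intro j hj
    rw [mem_coe, mem_filter] at hj ⊢
    refine ⟨mem_univ _, ?_⟩
    have h1 := hf2 j
    rw [smul_sub, hj.2] at h1
    rw [← h1]
    abel
  · intro j hj j' hj' hjj
    rw [mem_coe, mem_filter] at hj hj'
    refine hinj j' j ?_ ?_
    · have h1 := hf1 j
      rw [hjj] at h1
      exact blk_trans (hf1 j') (blk_symm h1)
    · rw [smul_sub, hj.2, hj'.2, sub_self]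

theorem M_eq {z : V p k} {P : R p k} {y : J → V p k}
    (hex : ∀ (j : J) (t : R p k), ∃ j' ∈ blk y z j, P • (y j' - y j) = (h p k * t) • rot z)
    (hinj : ∀ (j : J), ∀ j' ∈ blk y z j, P • (y j' - y j) = 0 → j' = j) (s : V p k) (t : R p k) :
    M y P (s + (h p k * t) • rot z) = M y P s := by
  apply le_antisymm
  · have h1 := M_le (fun j => hex j (-t)) hinj (s + (h p k * t) • rot z)
    have h2 : s + (h p k * t) • rot z + (h p k * -t) • rot z = s := by
      rw [mul_neg, neg_smul]
      abel
    rwa [h2] at h1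
  · exact M_le (fun j => hex j t) hinj s

/-- Counting along the fibres of a map. -/
theorem dvd_of_fibers {β : Type} [DecidableEq β] (g : J → β) (m : ℕ)
    (hg : ∀ j, m ∣ (univ.filter fun j' => g j' = g j).card) : m ∣ Fintype.card J := by
  rw [← card_univ (α := J), card_eq_sum_card_image g univ]
  refine dvd_sum fun b hb => ?_
  rw [mem_image] at hb
  obtain ⟨j, -, rfl⟩ := hb
  exact hg j

/-- The elements which differ, after multiplication by `P`, by a multiple of `h • rot z`. -/
theorem card_row {z : V p k} (hz : rd z ≠ 0) {P : R p k}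
    (hM : ∀ (s : V p k) (t : R p k), M y P (s + (h p k * t) • rot z) = M y P s) (j : J) :
    (univ.filter fun j' => (p : R p k) • (P • (y j' - y j)) = 0 ∧
      dot z (P • (y j' - y j)) = 0).card = p * M y P (P • y j) := by
  classical
  obtain ⟨zr, zs, hrr, hss, hb⟩ := basis hz
  have h1 : ∀ j', ∃ t : R p k, (p : R p k) • (P • (y j' - y j)) = 0 ∧
      dot z (P • (y j' - y j)) = 0 → P • (y j' - y j) = (h p k * t) • rot z := by
    intro j'
    by_cases hj : (p : R p k) • (P • (y j' - y j)) = 0 ∧ dot z (P • (y j' - y j)) = 0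
    · have h2 : (p : R p k) * dot zr (P • (y j' - y j)) = 0 := by
        rw [← dot_smul', hj.1, dot_zero']
      obtain ⟨t, ht⟩ := ann h2
      refine ⟨t, fun _ => ?_⟩
      have e1 := hb (P • (y j' - y j))
      rw [hj.2, zero_smul, add_zero, ht] at e1
      exact e1
    · exact ⟨0, fun h2 => absurd h2 hj⟩
  choose t ht using h1
  rw [card_eq_sum_card_fiberwise (f := fun j' => red p k (t j')) (t := univ)
    (fun _ _ => mem_coe.mpr (mem_univ _))]
  rw [sum_congr rfl (g := fun _ => M y P (P • y j)), sum_const, card_univ, ZMod.card, smul_eq_mul]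
  intro τ _
  obtain ⟨c, rfl⟩ := red_surj (p := p) (k := k) τ
  rw [← hM (P • y j) c]
  unfold M
  congr 1
  ext j'
  rw [mem_filter, mem_filter, mem_filter]
  constructor
  · rintro ⟨⟨-, h2⟩, h3⟩
    refine ⟨mem_univ _, ?_⟩
    have h4 := ht j' h2
    rw [h_mul_eq.mpr h3, smul_sub] at h4
    rw [← h4]
    abel
  · rintro ⟨-, h2⟩
    have h3 : P • (y j' - y j) = (h p k * c) • rot z := by
      rw [smul_sub, h2]
      abel
    have h4 : (p : R p k) • (P • (y j' - y j)) = 0 ∧ dot z (P • (y j' - y j)) = 0 := by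
      rw [h3]
      constructor
      · rw [smul_smul, ← mul_assoc, p_mul_h, zero_mul, zero_smul]
      · rw [dot_smul', dot_rot_self, mul_zero]
    refine ⟨⟨mem_univ _, h4⟩, ?_⟩
    have h5 := ht j' h4
    rw [h3] at h5
    have h6 := congrArg (dot zr) h5
    rw [dot_smul', dot_smul', hrr, mul_one, mul_one] at h6
    exact (h_mul_eq.mp h6).symm

theorem dot_rot_ne {z1 z2 : V p k} (hd : dt (rd z1) (rd z2) ≠ 0) :
    red p k (dot z1 (rot z2)) ≠ 0 := by
  rw [red_dot, rd_rot]
  intro h1
  apply hd
  rw [dt_swap]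
  unfold fd frot at h1
  unfold dt
  linear_combination -h1

/-- Two independent directions, the first with the smaller multiplier. -/
theorem two_aux {z1 z2 : V p k} (hd : dt (rd z1) (rd z2) ≠ 0) {P1 P2 : R p k}
    (h1 : Lev y z1 P1) (h2 : Lev y z2 P2) (hdiv : P2 ∣ P1) : p ^ 2 ∣ Fintype.card J := by
  classical
  obtain ⟨c, hc⟩ := hdiv
  have hz1 : rd z1 ≠ 0 := ne_zero_of_dt hd
  have hM1 := M_eq h1.ex h1.inj
  have hrow := card_row hz1 hM1
  by_cases hc0 : red p k c = 0
  · -- the level sets are unions of tubes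
    have hlev : ∀ s, p ∣ M y P1 s := by
      intro s
      unfold M
      obtain ⟨d, hd'⟩ := red_eq_zero.mp hc0
      have hcl : ∀ j, P1 • y j = s → ∀ j' ∈ blk y z2 j, P1 • y j' = s := by
        intro j hj j' hj'
        obtain ⟨t, ht⟩ := h2.mul j j' hj'
        have e1 : P1 • (y j' - y j) = 0 := by
          have e2 : P1 • (y j' - y j) = c • (P2 • (y j' - y j)) := by
            rw [smul_smul, hc, mul_comm c]
          rw [e2, ht, smul_smul, hd']
          have e3 : (p : R p k) * d * (h p k * t) = 0 := by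
            linear_combination (d * t) * p_mul_h (p := p) (k := k)
          rw [e3, zero_smul]
        rw [smul_sub, hj, sub_eq_zero] at e1
        exact e1
      rw [card_eq_sum_card_image (fun j => (p : R p k) * dot z2 (y j))
        (univ.filter fun j => P1 • y j = s)]
      refine dvd_sum fun b hb => ?_
      rw [mem_image] at hb
      obtain ⟨j, hj, rfl⟩ := hb
      rw [mem_filter] at hj
      have e1 : (filter (fun j' => (p : R p k) * dot z2 (y j') = (p : R p k) * dot z2 (y j))
          (univ.filter fun j => P1 • y j = s)) = blk y z2 j := by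
        ext j'
        rw [mem_filter, mem_filter, mem_blk, dot_sub', mul_sub, sub_eq_zero]
        constructor
        · exact fun h3 => h3.2
        · intro h3
          refine ⟨⟨mem_univ _, hcl j hj.2 j' ?_⟩, h3⟩
          rw [mem_blk, dot_sub', mul_sub, sub_eq_zero]
          exact h3
      rw [e1, h2.card]
    refine dvd_of_fibers (fun j => ((p : R p k) • (P1 • y j), dot z1 (P1 • y j))) (p ^ 2) ?_
    intro j
    have e1 : (univ.filter fun j' => ((p : R p k) • (P1 • y j'), dot z1 (P1 • y j')) =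
        ((p : R p k) • (P1 • y j), dot z1 (P1 • y j))) =
        univ.filter fun j' => (p : R p k) • (P1 • (y j' - y j)) = 0 ∧
          dot z1 (P1 • (y j' - y j)) = 0 := by
      ext j'
      rw [mem_filter, mem_filter, Prod.mk.injEq, smul_sub, smul_sub, dot_sub', sub_eq_zero,
        sub_eq_zero]
    rw [e1, hrow j, sq]
    exact mul_dvd_mul_left _ (hlev _)
  · -- both directions for the same multiplier
    obtain ⟨c', hc'⟩ := isUnit_iff_exists_inv.mp (isUnit_of_red hc0)
    have hex2 : ∀ (j : J) (t : R p k), ∃ j' ∈ blk y z2 j,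
        P1 • (y j' - y j) = (h p k * t) • rot z2 := by
      intro j t
      obtain ⟨j', hj', hj2⟩ := h2.ex j (c' * t)
      refine ⟨j', hj', ?_⟩
      have e2 : P1 • (y j' - y j) = c • (P2 • (y j' - y j)) := by
        rw [smul_smul, hc, mul_comm c]
      rw [e2, hj2, smul_smul]
      congr 1
      linear_combination (h p k * t) * hc'
    have hinj2 : ∀ (j : J), ∀ j' ∈ blk y z2 j, P1 • (y j' - y j) = 0 → j' = j := by
      intro j j' hj' h3
      apply h2.inj j j' hj'
      have e2 : P2 • (y j' - y j) = c' • (P1 • (y j' - y j)) := by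
        rw [smul_smul, hc]
        congr 1
        linear_combination (-P2) * hc'
      rw [e2, h3, smul_zero]
    have hM2 := M_eq hex2 hinj2
    refine dvd_of_fibers (fun j => (p : R p k) • (P1 • y j)) (p ^ 2) ?_
    intro j
    have e1 : (univ.filter fun j' => (p : R p k) • (P1 • y j') = (p : R p k) • (P1 • y j)) =
        univ.filter fun j' => (p : R p k) • (P1 • (y j' - y j)) = 0 := by
      ext j'
      rw [mem_filter, mem_filter, smul_sub, smul_sub, sub_eq_zero]
    rw [e1]
    have h3 : ∀ j', ∃ t : R p k, (p : R p k) • (P1 • (y j' - y j)) = 0 →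
        dot z1 (P1 • (y j' - y j)) = h p k * t := by
      intro j'
      by_cases hj : (p : R p k) • (P1 • (y j' - y j)) = 0
      · have h4 : (p : R p k) * dot z1 (P1 • (y j' - y j)) = 0 := by
          rw [← dot_smul', hj, dot_zero']
        obtain ⟨t, ht⟩ := ann h4
        exact ⟨t, fun _ => ht⟩
      · exact ⟨0, fun h4 => absurd h4 hj⟩
    choose t ht using h3
    rw [card_eq_sum_card_fiberwise (f := fun j' => red p k (t j')) (t := univ)
      (fun _ _ => mem_coe.mpr (mem_univ _))]
    rw [sum_congr rfl (g := fun _ => p * M y P1 (P1 • y j)), sum_const, card_univ, ZMod.card,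
      smul_eq_mul, ← mul_assoc, sq]
    · exact dvd_mul_right _ _
    · intro τ _
      obtain ⟨b, rfl⟩ := red_surj (p := p) (k := k) τ
      obtain ⟨e, he⟩ := isUnit_iff_exists_inv.mp (isUnit_of_red (dot_rot_ne hd))
      obtain ⟨j2, hj2, hj2'⟩ := hex2 j (b * e)
      have hj2s : P1 • y j2 = P1 • y j + (h p k * (b * e)) • rot z2 := by
        rw [← hj2', smul_sub]
        abel
      rw [← hM2 (P1 • y j) (b * e), ← hj2s, ← hrow j2]
      congr 1
      ext j'
      rw [mem_filter, mem_filter, mem_filter]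
      have e2 : P1 • (y j' - y j2) = P1 • (y j' - y j) - (h p k * (b * e)) • rot z2 := by
        rw [smul_sub, hj2s, smul_sub]
        abel
      have e3 : (p : R p k) • (P1 • (y j' - y j2)) = (p : R p k) • (P1 • (y j' - y j)) := by
        rw [e2, smul_sub (p : R p k), smul_smul (p : R p k) (h p k * (b * e)), ← mul_assoc,
          p_mul_h, zero_mul, zero_smul, sub_zero]
      have e4 : dot z1 (P1 • (y j' - y j2)) = dot z1 (P1 • (y j' - y j)) - h p k * b := by
        have e5 : dot z1 ((h p k * (b * e)) • rot z2) = h p k * b := by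
          rw [dot_smul']
          linear_combination (h p k * b) * he
        rw [e2, dot_sub', e5]
      rw [e3, e4]
      constructor
      · rintro ⟨⟨-, h4⟩, h5⟩
        refine ⟨mem_univ _, h4, ?_⟩
        rw [ht j' h4, h_mul_eq.mpr h5, sub_self]
      · rintro ⟨-, h4, h5⟩
        refine ⟨⟨mem_univ _, h4⟩, ?_⟩
        rw [ht j' h4, sub_eq_zero] at h5
        exact h_mul_eq.mp h5

theorem two_levels {z1 z2 : V p k} (hd : dt (rd z1) (rd z2) ≠ 0) {P1 P2 : R p k}
    (h1 : Lev y z1 P1) (h2 : Lev y z2 P2) : p ^ 2 ∣ Fintype.card J := by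
  rcases chain P2 P1 with h3 | h3
  · exact two_aux hd h1 h2 h3
  · exact two_aux (by rw [dt_swap]; exact neg_ne_zero.mpr hd) h2 h1 h3

/-- The order of a spectral pair is `1`, `p` or a multiple of `p ^ 2`. -/
theorem one {a : I → V p k} {b : J → V p k} (hs : SP a b) (h2 : 2 ≤ Fintype.card I) :
    Fintype.card I = p ∨ p ^ 2 ∣ Fintype.card I := by
  classical
  by_cases hn : p ^ 2 ∣ Fintype.card I
  · exact Or.inr hn
  by_cases hnp : Fintype.card I = p
  · exact Or.inl hnp
  exfalso
  obtain ⟨x, y, i0, i1, i2, hs', h3, h4, h5, hinj⟩ := hs.dichotomy h2 hn hnp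
  have hq : Q1 x y := ⟨hs', hn, hinj⟩
  have hJ : Nonempty J := by
    rw [← Fintype.card_pos_iff, ← hs'.card]
    omega
  have e10 : x i1 - x i0 = (1, 0) := by rw [h3, h4, sub_zero]
  have e20 : x i2 - x i0 = (0, 1) := by rw [h3, h5, sub_zero]
  have e12 : x i1 - x i2 = (1, -1) := by
    rw [h4, h5, Prod.mk_sub_mk, sub_zero, zero_sub]
  have d12 : dt (rd (x i1 - x i0)) (rd (x i2 - x i0)) ≠ 0 := by
    rw [e10, e20]
    unfold dt rd
    simp
  have d13 : dt (rd (x i1 - x i0)) (rd (x i1 - x i2)) ≠ 0 := by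
    rw [e10, e12]
    unfold dt rd
    simp
  have d23 : dt (rd (x i2 - x i0)) (rd (x i1 - x i2)) ≠ 0 := by
    rw [e20, e12]
    unfold dt rd
    simp
  have n1 : rd (x i1 - x i0) ≠ 0 := ne_zero_of_dt d12
  have n2 : rd (x i2 - x i0) ≠ 0 := ne_zero_of_dt d23
  have n3 : rd (x i1 - x i2) ≠ 0 := ne_zero_of_dt (b := rd (x i1 - x i0)) (by
    rw [dt_swap]
    exact neg_ne_zero.mpr d13)
  have hz1 : D x (x i1 - x i0) := ⟨n1, _, _, rfl⟩
  have hz2 : D x (x i2 - x i0) := ⟨n2, _, _, rfl⟩
  have hz3 : D x (x i1 - x i2) := ⟨n3, _, _, rfl⟩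
  have fin : ∀ {z z' : V p k}, D x z → D x z' → dt (rd z) (rd z') ≠ 0 → ¬ SD y z → ¬ SD y z' →
      False := by
    intro z z' hz hz' hd hs1 hs2
    obtain ⟨P1, hP1⟩ := hq.level hz hs1
    obtain ⟨P2, hP2⟩ := hq.level hz' hs2
    apply hn
    rw [hs'.card]
    exact two_levels hd hP1 hP2
  by_cases s1 : SD y (x i1 - x i0)
  · have s2 : ¬ SD y (x i2 - x i0) := fun s2 => hq.sd_par d12 s1 s2
    have s3 : ¬ SD y (x i1 - x i2) := fun s3 => hq.sd_par d13 s1 s3
    exact fin hz2 hz3 d23 s2 s3
  · by_cases s2 : SD y (x i2 - x i0)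
    · have s3 : ¬ SD y (x i1 - x i2) := fun s3 => hq.sd_par d23 s2 s3
      exact fin hz1 hz3 d13 s1 s3
    · exact fin hz1 hz2 d12 s1 s2

end BHone
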