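import Pool.Agent.Lib.MP_2b2af9_co.Count2

/-! Spectral pairs: elementary consequences. -/

open Finset

set_option linter.unusedSectionVars false

namespace BHp2

variable {p : ℕ} [hp : Fact p.Prime] {I J : Type} [Fintype I] [DecidableEq I] [Fintype J] [DecidableEq J]

/-- spectral pairs, in terms of counts -/
structure SP (a : I → V p) (b : J → V p) : Prop where
  hab : ∀ i i', i ≠ i' → E b (a i - a i')
  hba : ∀ j j', j ≠ j' → E a (b j - b j')
  hc : Fintype.card I = Fintype.card J
  pos : 0 < Fintype.card I

theorem SP.symm {a : I → V p} {b : J → V p} (h : SP a b) : SP b a :=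
  ⟨h.hba, h.hab, h.hc.symm, h.hc ▸ h.pos⟩

theorem E.neg {a : I → V p} {c : V p} (h : E a c) : E a (-c) := by
  rw [neg_eq_smul]; exact h.smul isUnit_neg_one

theorem SP.inj {a : I → V p} {b : J → V p} (h : SP a b) : Function.Injective a := by
  intro i i' hii
  by_contra hne
  have h1 := h.hab i i' hne
  rw [hii, sub_self] at h1
  have h2 := h1 0 1
  have h3 : (univ.filter fun j : J => dot (b j) 0 = (0 : R p)) = univ := by
    apply filter_true_of_mem
    intro j _
    exact dot_zero _
  have h4 : (univ.filter fun j : J => dot (b j) 0 = (0 : R p) + π p * 1) = ∅ := by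
    apply filter_false_of_mem
    intro j _
    rw [dot_zero, zero_add, mul_one]
    exact fun h => p_ne_zero h.symm
  rw [h3, h4, card_empty, card_univ, ← h.hc] at h2
  have := h.pos
  omega

theorem prim_of_ne {a : I → V p} {b : J → V p} (h : SP a b) {i i' : I} (hne : i ≠ i') {y : V p}
    (hy : a i - a i' = π p • y) : Prim y := by
  intro h0
  rw [h0] at hy
  exact hne (h.inj (sub_eq_zero.mp hy))

/-- two points in the same class on one line -/
theorem line_pair {a : I → V p} {b : J → V p} (h : SP a b) {v : V p} (hv : Prim v) {i i' : I}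
    (hne : i ≠ i') (h1 : π p • (a i - a i') = 0) (h2 : dot (rot v) (a i - a i') = 0) :
    E b (π p • v) := by
  obtain ⟨l, hl⟩ := hv.exists_smul h2
  have h3 : π p * l = 0 := by
    by_contra h3
    apply hv.smul (isUnit_of _ h3)
    rw [← hl]; exact h1
  obtain ⟨t, ht⟩ := (mul_eq_zero_iff _).mp h3
  have h4 : a i - a i' = t • (π p • v) := by
    rw [hl, ht, smul_smul, mul_comm]
  have h5 : IsUnit t := by
    apply isUnit_of
    intro h5
    apply hne
    apply h.inj
    rw [← sub_eq_zero, h4, smul_smul, mul_comm, h5, zero_smul]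
  have h6 := h.hab i i' hne
  rw [h4] at h6
  exact E.of_smul h5 h6

theorem N2 {a : I → V p} {b : J → V p} (h : SP a b) {v : V p} (hv : Prim v) {x : V p}
    (hN : 2 ≤ N a v x) : E b (π p • v) := by
  unfold N at hN
  obtain ⟨i, hi, i', hi', hne⟩ := one_lt_card.mp hN
  simp only [mem_filter, mem_univ, true_and] at hi hi'
  apply line_pair h hv hne
  · have : a i - a i' = (a i - x) - (a i' - x) := by abel
    rw [this, smul_sub, hi.1, hi'.1, sub_self]
  · have : a i - a i' = (a i - x) - (a i' - x) := by abel
    rw [this, dot_sub, hi.2, hi'.2, sub_self]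

theorem many_S {a : I → V p} {b : J → V p} (h : SP a b) {x : V p} (hw : p < w a x) {u : V p}
    (hu : Prim u) : E b (π p • u) := by
  unfold w at hw
  have hc : (univ.image (fun s : R p => π p * s)).card
      < (univ.filter fun i => π p • (a i - x) = 0).card := by
    rw [card_p_mul]; exact hw
  obtain ⟨i, hi, i', hi', hne, he⟩ := exists_ne_map_eq_of_card_lt_of_maps_to hc
    (f := fun i => dot (rot u) (a i - x)) (by
      intro i hi
      simp only [coe_filter, mem_univ, true_and, Set.mem_ofPred_eq] at hi
      obtain ⟨y, hy⟩ := (smul_eq_zero_iff _).mp hi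
      simp only [hy, dot_smul, coe_image, coe_univ, Set.image_univ, Set.mem_range]
      exact ⟨_, rfl⟩)
  simp only [mem_filter, mem_univ, true_and] at hi hi'
  apply line_pair h hu hne
  · have : a i - a i' = (a i - x) - (a i' - x) := by abel
    rw [this, smul_sub, hi, hi', sub_self]
  · have : a i - a i' = (a i - x) - (a i' - x) := by abel
    rw [this, dot_sub, he, sub_self]

/-- the classes -/
def cl (a : I → V p) : Finset (V p) := univ.image fun i => π p • a i

theorem mem_cl (a : I → V p) (i : I) : π p • a i ∈ cl a := mem_image.mpr ⟨i, mem_univ _, rfl⟩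

/-- pigeonhole for lines -/
theorem exists_pair {a : I → V p} (hY : p < (cl a).card) (c : V p) :
    ∃ i i', π p • (a i - a i') ≠ 0 ∧ π p * dot (rot c) (a i - a i') = 0 := by
  have hc : (univ.image (fun s : R p => π p * s)).card < (cl a).card := by
    rw [card_p_mul]; exact hY
  obtain ⟨x, hx, y, hy, hne, he⟩ := exists_ne_map_eq_of_card_lt_of_maps_to hc
    (f := fun y => dot (rot c) y) (by
      intro y hy
      simp only [cl, coe_image, coe_univ, Set.image_univ, Set.mem_range] at hy
      obtain ⟨i, rfl⟩ := hy
      simp only [dot_smul, coe_image, coe_univ, Set.image_univ, Set.mem_range]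
      exact ⟨_, rfl⟩)
  simp only [cl, mem_image, mem_univ, true_and] at hx hy
  obtain ⟨i, rfl⟩ := hx
  obtain ⟨i', rfl⟩ := hy
  refine ⟨i, i', ?_, ?_⟩
  · rw [smul_sub]; exact sub_ne_zero.mpr hne
  · rw [← dot_smul, smul_sub, dot_sub, he, sub_self]

theorem XX.of_smul {a : I → V p} {c : V p} {u : R p} (hu : IsUnit u) (h : XX a (u • c)) : XX a c := by
  have h1 := h.smul (u := ((hu.unit⁻¹ : (R p)ˣ) : R p)) (Units.isUnit _)
  rw [smul_smul, IsUnit.val_inv_mul, one_smul] at h1
  exact h1

theorem XX_of_pair {a : I → V p} {b : J → V p} (h : SP a b) {c : V p} (hc : Prim c) {i i' : I}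
    (h1 : π p • (a i - a i') ≠ 0) (h2 : π p * dot (rot c) (a i - a i') = 0) : XX b c := by
  obtain ⟨l, hl⟩ := hc.exists_smul' h2
  have hlu : IsUnit l := by
    apply isUnit_of
    intro h3
    apply h1
    rw [hl, smul_smul, h3, zero_smul]
  apply XX.of_smul hlu
  refine ⟨a i - a i', hl, h.hab i i' ?_⟩
  rintro rfl
  apply h1
  rw [sub_self, smul_zero]

theorem many_X {a : I → V p} {b : J → V p} (h : SP a b) (hY : p < (cl a).card) {c : V p}
    (hc : Prim c) : XX b c := by
  obtain ⟨i, i', h1, h2⟩ := exists_pair hY c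
  exact XX_of_pair h hc h1 h2

theorem dvd_card_of_fibres {γ : Type} [DecidableEq γ] (S : Finset I) (f : I → γ) (k : ℕ)
    (h : ∀ i ∈ S, k ∣ (S.filter fun i' => f i' = f i).card) : k ∣ S.card := by
  rw [card_eq_sum_card_image f S]
  apply dvd_sum
  intro y hy
  obtain ⟨i, hi, rfl⟩ := mem_image.mp hy
  exact h i hi

theorem p_dvd_of_E {a : I → V p} {d : V p} (hE : E a d) : p ∣ Fintype.card I := by
  have hd : π p • d = π p • rot (-rot d) := by
    have : rot (-rot d) = d := by
      have h2 : rot (-rot d) = -rot (rot d) := by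
        rw [neg_eq_smul, rot_smul, ← neg_eq_smul]
      rw [h2, rot_rot, neg_neg]
    rw [this]
  rw [← card_univ]
  apply dvd_card_of_fibres univ (fun i => π p * dot (rot (-rot d)) (a i))
  intro i _
  have h1 := om_of_E hd hE (a i)
  have h2 : (univ.filter fun i' => π p * dot (rot (-rot d)) (a i') = π p * dot (rot (-rot d)) (a i)).card
      = om a (-rot d) (a i) := by
    unfold om
    congr 1
    ext i'
    simp only [mem_filter, mem_univ, true_and]
    rw [dot_sub, mul_sub, sub_eq_zero]
  rw [h2, h1]
  exact dvd_mul_right _ _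

theorem SP.p_dvd {a : I → V p} {b : J → V p} (h : SP a b) (h2 : 2 ≤ Fintype.card I) :
    p ∣ Fintype.card I := by
  rw [h.hc] at h2
  have h3 : 1 < Fintype.card J := h2
  obtain ⟨j, j', hne⟩ := Fintype.exists_pair_of_one_lt_card h3
  exact p_dvd_of_E (h.hba j j' hne)

theorem w_eq {a : I → V p} (i : I) : w a (a i) = (univ.filter fun i' => π p • a i' = π p • a i).card := by
  unfold w
  congr 1
  ext i'
  simp only [mem_filter, mem_univ, true_and]
  rw [smul_sub, sub_eq_zero]

theorem card_le_of_w {a : I → V p} {k : ℕ} (h : ∀ i, w a (a i) ≤ k) :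
    Fintype.card I ≤ k * (cl a).card := by
  rw [← card_univ]
  unfold cl
  apply card_le_mul_card_image
  intro y hy
  obtain ⟨i, -, rfl⟩ := mem_image.mp hy
  rw [← w_eq]
  exact h i

theorem le_card_of_w {a : I → V p} {k : ℕ} (h : ∀ i, k ≤ w a (a i)) :
    k * (cl a).card ≤ Fintype.card I := by
  rw [← card_univ]
  unfold cl
  apply mul_card_image_le_card
  intro y hy
  obtain ⟨i, -, rfl⟩ := mem_image.mp hy
  rw [← w_eq]
  exact h i

theorem w_le {a : I → V p} (ha : Function.Injective a) (x : V p) : w a x ≤ p ^ 2 := by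
  unfold w
  have h1 : (univ.filter fun i => π p • (a i - x) = 0).card ≤
      ((univ.image (fun s : R p => π p * s)) ×ˢ (univ.image (fun s : R p => π p * s))).card := by
    apply card_le_card_of_injOn (fun i => a i - x)
    · intro i hi
      simp only [coe_filter, mem_univ, true_and, Set.mem_ofPred_eq] at hi
      obtain ⟨y, hy⟩ := (smul_eq_zero_iff _).mp hi
      rw [mem_coe, mem_product]
      simp only
      rw [hy]
      exact ⟨mem_image.mpr ⟨y.1, mem_univ _, rfl⟩, mem_image.mpr ⟨y.2, mem_univ _, rfl⟩⟩
    · intro i _ i' _ h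
      exact ha (sub_left_injective h)
  rw [card_product, card_p_mul] at h1
  exact h1.trans (le_of_eq (sq p).symm)

theorem one_le_N (a : I → V p) (v : V p) (i : I) : 1 ≤ N a v (a i) := by
  apply card_pos.mpr
  exact ⟨i, by simp [dot_zero]⟩

theorem one_le_w (a : I → V p) (i : I) : 1 ≤ w a (a i) := by
  apply card_pos.mpr
  exact ⟨i, by simp⟩

theorem om_le (a : I → V p) (v x : V p) : om a v x ≤ Fintype.card I := by
  unfold om
  rw [← card_univ]
  exact card_filter_le _ _

theorem add_le_om {a : I → V p} {v x : V p} {i : I} (h1 : π p • (a i - x) ≠ 0)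
    (h2 : π p * dot (rot v) (a i - x) = 0) : w a x + w a (a i) ≤ om a v x := by
  unfold w om
  rw [← card_union_of_disjoint]
  · apply card_le_card
    intro i' hi'
    simp only [mem_union, mem_filter, mem_univ, true_and] at hi' ⊢
    rcases hi' with h | h
    · rw [← dot_smul, h, dot_zero]
    · have : a i' - x = (a i' - a i) + (a i - x) := by abel
      rw [this, dot_add, mul_add, h2, add_zero, ← dot_smul, h, dot_zero]
  · rw [disjoint_filter]
    intro i' _ h3 h4
    apply h1
    have : a i - x = (a i' - x) - (a i' - a i) := by abel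
    rw [this, smul_sub, h3, h4, sub_self]

/-- constant line counts inside a class divide the size of the class -/
theorem N_dvd_w {a : I → V p} {v : V p} {k : ℕ} {x : V p}
    (h : ∀ i, π p • (a i - x) = 0 → N a v (a i) = k) : k ∣ w a x := by
  unfold w
  apply dvd_card_of_fibres _ (fun i => dot (rot v) (a i))
  intro i hi
  simp only [mem_filter, mem_univ, true_and] at hi
  have h1 := h i hi
  have h2 : (filter (fun i' => dot (rot v) (a i') = dot (rot v) (a i))
      (univ.filter fun i => π p • (a i - x) = 0)).card = N a v (a i) := by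
    unfold N
    congr 1
    ext i'
    simp only [mem_filter, mem_univ, true_and]
    rw [dot_sub, sub_eq_zero]
    apply and_congr_left
    intro _
    have e : a i' - x = (a i' - a i) + (a i - x) := by abel
    rw [e, smul_add, hi, add_zero]
  rw [h2, h1]

theorem om_congr {a : I → V p} {v x y : V p} (h : π p • (y - x) = 0) : om a v y = om a v x := by
  unfold om
  congr 1
  ext i
  simp only [mem_filter, mem_univ, true_and]
  have e : a i - x = (a i - y) + (y - x) := by abel
  rw [e, dot_add, mul_add, ← dot_smul (π p) (rot v) (y - x), h, dot_zero, add_zero]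

end BHp2
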