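import Pool.Agent.Lib.MP_2b2af9_co.SmallP

/-!
# Order six over the `2 ^ (k + 1)`-th roots of unity: real blocks and perfect matchings
-/

set_option autoImplicit false

open Finset

set_option linter.unusedSectionVars false

namespace BHsm

instance : Fact (Nat.Prime 2) := ⟨Nat.prime_two⟩

variable {k : ℕ}

theorem two_h : ((2 : ℕ) : R 2 k) * h 2 k = 0 := p_mul_h

theorem h_add_h : h 2 k + h 2 k = 0 := by
  have h1 := two_h (k := k)
  rw [Nat.cast_ofNat] at h1
  linear_combination h1

theorem neg_h : -h 2 k = h 2 k := by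
  have h1 := h_add_h (k := k)
  linear_combination -h1

theorem zmod2 (t : ZMod 2) : t = 0 ∨ t = 1 := by
  revert t; decide

theorem two_ann {x : R 2 k} (hx : ((2 : ℕ) : R 2 k) * x = 0) : x = 0 ∨ x = h 2 k := by
  obtain ⟨c, rfl⟩ := ann hx
  rcases zmod2 (red 2 k c) with h1 | h1
  · left
    exact h_mul_eq_zero.mpr h1
  · right
    have h2 : h 2 k * c = h 2 k * 1 := by
      rw [h_mul_eq, h1, map_one]
    rw [h2, mul_one]

variable {J : Type} [Fintype J] [DecidableEq J]

/-- The sum of the differences in a class. -/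
theorem sum_class (f : J → R 2 k) (s : R 2 k) (T : Finset J)
    (hT : ∀ j ∈ T, ((2 : ℕ) : R 2 k) * f j = ((2 : ℕ) : R 2 k) * s) :
    ∑ j ∈ T, (f j - s) = ((T.filter fun j => f j ≠ s).card) • h 2 k := by
  rw [← sum_filter_add_sum_filter_not T (fun j => f j ≠ s)]
  have h1 : ∑ j ∈ T.filter (fun j => ¬ f j ≠ s), (f j - s) = 0 := by
    apply sum_eq_zero
    intro j hj
    rw [mem_filter, not_not] at hj
    rw [hj.2, sub_self]
  rw [h1, add_zero, ← sum_const]
  refine sum_congr rfl fun j hj => ?_
  rw [mem_filter] at hj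
  rcases two_ann (x := f j - s) (by rw [mul_sub, hT j hj.1, sub_self]) with h2 | h2
  · exact absurd (sub_eq_zero.mp h2) hj.2
  · exact h2

theorem six_sum {f : J → R 2 k} (hf : U f) (hJ : Fintype.card J = 6) (S : Finset J)
    (hS : S.card = 4) (j0 : J) (u v : J) (huv : u ≠ v) (hu : u ∉ S) (hv : v ∉ S)
    (hall : ∀ j ∈ S, ((2 : ℕ) : R 2 k) * f j = ((2 : ℕ) : R 2 k) * f j0) :
    ∑ j ∈ S, (f j - f j0) + (f u - f v) = h 2 k := by
  have huniv : (univ : Finset J) = insert u (insert v S) := by
    symm
    rw [← card_eq_iff_eq_univ, card_insert_of_notMem, card_insert_of_notMem hv, hS, hJ]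
    rw [mem_insert]
    rintro (h1 | h1)
    · exact huv h1
    · exact hu h1
  have hNf : ∀ s, N f s = (univ.filter fun j => f j = s).card := fun s => rfl
  set s := f j0 with hs
  set C := univ.filter fun j => ((2 : ℕ) : R 2 k) * f j = ((2 : ℕ) : R 2 k) * s with hC
  have hcC : C.card = 2 * N f s := hf.card_class s
  have hSC : S ⊆ C := by
    intro j hj
    rw [hC, mem_filter]
    exact ⟨mem_univ _, hall j hj⟩
  by_cases hu' : ((2 : ℕ) : R 2 k) * f u = ((2 : ℕ) : R 2 k) * s
  · have h5 : 5 ≤ C.card := by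
      have h1 : (insert u S).card = 5 := by rw [card_insert_of_notMem hu, hS]
      rw [← h1]
      apply card_le_card
      intro j hj
      rw [mem_insert] at hj
      rcases hj with rfl | hj
      · rw [hC, mem_filter]
        exact ⟨mem_univ _, hu'⟩
      · exact hSC hj
    have h6 : C.card ≤ 6 := by
      rw [← hJ, ← card_univ]
      exact card_le_card (subset_univ _)
    have h7 : C.card = 6 := by omega
    have h8 : C = univ := by
      rw [← card_eq_iff_eq_univ, h7, hJ]
    have h9 : N f s = 3 := by omega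
    have h10 : ∀ j ∈ (univ : Finset J), ((2 : ℕ) : R 2 k) * f j = ((2 : ℕ) : R 2 k) * s := by
      intro j hj
      rw [← h8, hC, mem_filter] at hj
      exact hj.2
    have h11 := sum_class f s univ h10
    have h12 : (univ.filter fun j => f j ≠ s).card = 3 := by
      have h13 : (univ.filter fun j => f j = s).card + (univ.filter fun j => f j ≠ s).card =
          (univ : Finset J).card := card_filter_add_card_filter_not _
      rw [← hNf, h9, card_univ, hJ] at h13
      omega
    rw [h12, huniv, sum_insert, sum_insert hv] at h11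
    · have h14 := h10 v (mem_univ _)
      have h15 := h_add_h (k := k)
      rw [Nat.cast_ofNat] at h14
      have h16 : (3 : ℕ) • h 2 k = h 2 k + h 2 k + h 2 k := by
        rw [succ_nsmul, two_nsmul]
      rw [h16] at h11
      linear_combination h11 - h14 + h15
    · rw [mem_insert]
      rintro (h1 | h1)
      · exact huv h1
      · exact hu h1
  · have huC : u ∉ C := by
      intro h1
      rw [hC, mem_filter] at h1
      exact hu' h1.2
    have h4 : 4 ≤ C.card := by rw [← hS]; exact card_le_card hSC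
    have h5 : C.card ≤ 5 := by
      have h1 : (insert v S).card = 5 := by rw [card_insert_of_notMem hv, hS]
      rw [← h1]
      apply card_le_card
      intro j hj
      have h2 := mem_univ j
      rw [huniv, mem_insert] at h2
      rcases h2 with rfl | h2
      · exact absurd hj huC
      · exact h2
    have h6 : C.card = 4 := by omega
    have h7 : S = C := eq_of_subset_of_card_le hSC (by rw [h6, hS])
    have h8 : N f s = 2 := by omega
    have h9 := sum_class f s S hall
    have h10 : (S.filter fun j => f j ≠ s).card = 2 := by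
      have h11 : (S.filter fun j => f j = s).card + (S.filter fun j => f j ≠ s).card = S.card :=
        card_filter_add_card_filter_not _
      have h12 : (S.filter fun j => f j = s) = univ.filter fun j => f j = s := by
        ext j
        simp only [mem_filter, mem_univ, true_and, and_iff_right_iff_imp]
        intro h13
        rw [h7, hC, mem_filter]
        exact ⟨mem_univ _, by rw [h13]⟩
      rw [h12, ← hNf, h8, hS] at h11
      omega
    rw [h10, two_nsmul, h_add_h] at h9
    have h14 := hf.card_class (f u)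
    set Cu := univ.filter fun j => ((2 : ℕ) : R 2 k) * f j = ((2 : ℕ) : R 2 k) * f u with hCu
    have h15 : Cu ⊆ {u, v} := by
      intro j hj
      have h2 := mem_univ j
      rw [huniv, mem_insert, mem_insert] at h2
      rw [mem_insert, mem_singleton]
      rcases h2 with h2 | h2 | h2
      · exact Or.inl h2
      · exact Or.inr h2
      · exfalso
        apply hu'
        rw [← hall j h2]
        rw [hCu, mem_filter] at hj
        exact hj.2.symm
    have h16 : 1 ≤ N f (f u) := by
      rw [hNf]
      exact card_pos.mpr ⟨u, by rw [mem_filter]; exact ⟨mem_univ _, rfl⟩⟩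
    have h17 : Cu.card ≤ 2 := (card_le_card h15).trans (card_le_two)
    have h18 : Cu = {u, v} := by
      apply eq_of_subset_of_card_le h15
      rw [card_pair huv]
      omega
    have h19 : v ∈ Cu := by
      rw [h18, mem_insert, mem_singleton]
      exact Or.inr rfl
    have h20 : N f (f u) = 1 := by omega
    have h21 : f v ≠ f u := by
      intro h22
      have h23 : ({u, v} : Finset J) ⊆ univ.filter fun j => f j = f u := by
        intro j hj
        rw [mem_insert, mem_singleton] at hj
        rw [mem_filter]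
        refine ⟨mem_univ _, ?_⟩
        rcases hj with rfl | rfl
        · rfl
        · exact h22
      have h24 := card_le_card h23
      rw [card_pair huv, ← hNf] at h24
      omega
    rw [h9, zero_add]
    rw [hCu, mem_filter] at h19
    rcases two_ann (x := f u - f v) (by rw [mul_sub, h19.2, sub_self]) with h25 | h25
    · exact absurd (sub_eq_zero.mp h25).symm h21
    · exact h25

variable {I : Type} [Fintype I] [DecidableEq I] {x : I → V 2 k} {y : J → V 2 k}

/-- There is no real block with three rows and four columns. -/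
theorem no_block (hs : SP x y) (hJ : Fintype.card J = 6) (i1 i2 i3 : I) (h12 : i1 ≠ i2)
    (h23 : i2 ≠ i3) (h13 : i1 ≠ i3) (S : Finset J) (hS : S.card = 4)
    (a12 : ∀ j ∈ S, ∀ j' ∈ S, ((2 : ℕ) : R 2 k) * dot (x i1 - x i2) (y j) =
      ((2 : ℕ) : R 2 k) * dot (x i1 - x i2) (y j'))
    (a23 : ∀ j ∈ S, ∀ j' ∈ S, ((2 : ℕ) : R 2 k) * dot (x i2 - x i3) (y j) =
      ((2 : ℕ) : R 2 k) * dot (x i2 - x i3) (y j')) : False := by
  obtain ⟨j0, hj0⟩ : S.Nonempty := by rw [← card_pos]; omega
  have hc : Sᶜ.card = 2 := by rw [card_compl, hJ, hS]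
  obtain ⟨u, v, huv, huv2⟩ := card_eq_two.mp hc
  have hu : u ∉ S := by
    rw [← mem_compl, huv2, mem_insert]
    exact Or.inl rfl
  have hv : v ∉ S := by
    rw [← mem_compl, huv2, mem_insert, mem_singleton]
    exact Or.inr rfl
  have e13 : ∀ j, dot (x i1 - x i3) (y j) = dot (x i1 - x i2) (y j) + dot (x i2 - x i3) (y j) := by
    intro j
    rw [dot_sub, dot_sub, dot_sub]; ring
  have s12 := six_sum (hs.row i1 i2 h12) hJ S hS j0 u v huv hu hv (fun j hj => a12 j hj j0 hj0)
  have s23 := six_sum (hs.row i2 i3 h23) hJ S hS j0 u v huv hu hv (fun j hj => a23 j hj j0 hj0)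
  have s13 := six_sum (hs.row i1 i3 h13) hJ S hS j0 u v huv hu hv (fun j hj => by
    rw [e13, e13, mul_add, mul_add, a12 j hj j0 hj0, a23 j hj j0 hj0])
  simp only [e13] at s13
  have e : ∑ j ∈ S, (dot (x i1 - x i2) (y j) + dot (x i2 - x i3) (y j) -
      (dot (x i1 - x i2) (y j0) + dot (x i2 - x i3) (y j0))) =
      ∑ j ∈ S, (dot (x i1 - x i2) (y j) - dot (x i1 - x i2) (y j0)) +
      ∑ j ∈ S, (dot (x i2 - x i3) (y j) - dot (x i2 - x i3) (y j0)) := by
    rw [← sum_add_distrib]
    refine sum_congr rfl fun j _ => ?_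
    ring
  rw [e] at s13
  apply h_ne_zero (p := 2) (k := k)
  linear_combination s13 - s12 - s23

theorem perp {z w : V 2 k} (hz : red 2 k z.1 ≠ 0 ∨ red 2 k z.2 ≠ 0) (hzw : dot z w = 0) :
    ∃ r : R 2 k, w = (r * (-z.2), r * z.1) := by
  unfold dot at hzw
  rcases hz with h1 | h1
  · obtain ⟨u, hu⟩ := (isUnit_of_red h1).exists_left_inv
    refine ⟨u * w.2, Prod.ext ?_ ?_⟩
    · show w.1 = u * w.2 * (-z.2)
      linear_combination (-w.1) * hu + u * hzw
    · show w.2 = u * w.2 * z.1
      linear_combination (-w.2) * hu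
  · obtain ⟨u, hu⟩ := (isUnit_of_red h1).exists_left_inv
    refine ⟨-(u * w.1), Prod.ext ?_ ?_⟩
    · show w.1 = -(u * w.1) * (-z.2)
      linear_combination (-w.1) * hu
    · show w.2 = -(u * w.1) * z.1
      linear_combination (-w.2) * hu + u * hzw

theorem exists_dual {z : V 2 k} (hz : red 2 k z.1 ≠ 0 ∨ red 2 k z.2 ≠ 0) :
    ∃ z' : V 2 k, dot z z' = 1 := by
  rcases hz with h1 | h1
  · obtain ⟨u, hu⟩ := (isUnit_of_red h1).exists_left_inv
    refine ⟨(u, 0), ?_⟩
    unfold dot
    linear_combination hu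
  · obtain ⟨u, hu⟩ := (isUnit_of_red h1).exists_left_inv
    refine ⟨(0, u), ?_⟩
    unfold dot
    linear_combination hu

/-- A primitive row difference separates the columns. -/
theorem matching (hs : SP x y) (hJ : Fintype.card J = 6) (ia ib : I)
    (hz : red 2 k (x ia - x ib).1 ≠ 0 ∨ red 2 k (x ia - x ib).2 ≠ 0) (j1 j2 : J) (hj : j1 ≠ j2) :
    dot (x ia - x ib) (y j1 - y j2) ≠ 0 := by
  intro h0
  have hab : ia ≠ ib := by
    rintro rfl
    simp at hz
  have hnot : ¬ 2 ^ 2 ∣ Fintype.card I := by
    rw [hs.card, hJ]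
    decide
  set z := x ia - x ib with hzdef
  -- the columns
  have hf : U fun j => dot z (y j) := hs.row ia ib hab
  have hcS := hf.card_class (dot z (y j1))
  set S0 := univ.filter fun j => ((2 : ℕ) : R 2 k) * dot z (y j) = ((2 : ℕ) : R 2 k) * dot z (y j1)
    with hS0
  have h4S : 4 ≤ S0.card := by
    have h1 : ({j1, j2} : Finset J) ⊆ univ.filter fun j => dot z (y j) = dot z (y j1) := by
      intro j hjj
      rw [mem_insert, mem_singleton] at hjj
      rw [mem_filter]
      refine ⟨mem_univ _, ?_⟩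
      rcases hjj with rfl | rfl
      · rfl
      · rw [dot_sub', sub_eq_zero] at h0
        exact h0.symm
    have h2 := card_le_card h1
    rw [card_pair hj] at h2
    have h3 : N (fun j => dot z (y j)) (dot z (y j1)) =
        (univ.filter fun j => dot z (y j) = dot z (y j1)).card := rfl
    rw [← h3] at h2
    omega
  obtain ⟨S, hSS0, hS4⟩ := exists_subset_card_eq h4S
  -- the rows
  have hg := hs.col j1 j2 hj
  have hcD := hg.card_class (dot (x ia) (y j1 - y j2))
  set D := univ.filter fun i => ((2 : ℕ) : R 2 k) * dot (x i) (y j1 - y j2) =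
    ((2 : ℕ) : R 2 k) * dot (x ia) (y j1 - y j2) with hD
  have h4D : 4 ≤ D.card := by
    have h1 : ({ia, ib} : Finset I) ⊆
        univ.filter fun i => dot (x i) (y j1 - y j2) = dot (x ia) (y j1 - y j2) := by
      intro i hii
      rw [mem_insert, mem_singleton] at hii
      rw [mem_filter]
      refine ⟨mem_univ _, ?_⟩
      rcases hii with rfl | rfl
      · rfl
      · rw [hzdef, dot_sub, sub_eq_zero] at h0
        exact h0.symm
    have h2 := card_le_card h1
    rw [card_pair hab] at h2
    have h3 : N (fun i => dot (x i) (y j1 - y j2)) (dot (x ia) (y j1 - y j2)) =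
        (univ.filter fun i => dot (x i) (y j1 - y j2) = dot (x ia) (y j1 - y j2)).card := rfl
    rw [← h3] at h2
    omega
  obtain ⟨D', hD'D, hD'3⟩ := exists_subset_card_eq (by omega : 3 ≤ D.card)
  obtain ⟨i1, i2, i3, h12, h13, h23, hD'⟩ := card_eq_three.mp hD'3
  have hiD : ∀ i ∈ ({i1, i2, i3} : Finset I), ((2 : ℕ) : R 2 k) * dot (x i) (y j1 - y j2) =
      ((2 : ℕ) : R 2 k) * dot (x ia) (y j1 - y j2) := by
    intro i hi
    rw [← hD'] at hi
    have := hD'D hi
    rw [hD, mem_filter] at this
    exact this.2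
  obtain ⟨r12, hr12⟩ := perp hz h0
  obtain ⟨z', hz'⟩ := exists_dual hz
  have key : ∀ j ∈ S, ∀ j' ∈ S, ∃ μ : R 2 k,
      ((2 : ℕ) : R 2 k) • (y j - y j') = (μ * ((2 : ℕ) : R 2 k)) • (y j1 - y j2) := by
    intro j hjS j' hjS'
    by_cases hjj : j = j'
    · refine ⟨0, ?_⟩
      rw [hjj, sub_self, smul_zero, zero_mul, zero_smul]
    have h1 := hSS0 hjS
    have h2 := hSS0 hjS'
    rw [hS0, mem_filter] at h1 h2
    have h3 : ((2 : ℕ) : R 2 k) * dot z (y j - y j') = 0 := by
      rw [dot_sub', mul_sub, h1.2, h2.2, sub_self]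
    obtain ⟨r, hr⟩ := perp (z := z) (w := (y j - y j') - (dot z (y j - y j')) • z') hz (by
      rw [dot_sub', dot_smul', hz', mul_one, sub_self])
    have hr1 : (y j - y j').1 = r * (-z.2) + dot z (y j - y j') * z'.1 := by
      have := congrArg Prod.fst hr
      simp only [Prod.fst_sub, Prod.smul_fst, smul_eq_mul] at this ⊢
      linear_combination this
    have hr2 : (y j - y j').2 = r * z.1 + dot z (y j - y j') * z'.2 := by
      have := congrArg Prod.snd hr
      simp only [Prod.snd_sub, Prod.smul_snd, smul_eq_mul] at this ⊢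
      linear_combination this
    obtain ⟨δ, hδ⟩ : ∃ δ, δ = dot z (y j - y j') := ⟨_, rfl⟩
    rw [← hδ] at h3 hr1 hr2
    have hw1 : (y j1 - y j2).1 = r12 * (-z.2) := congrArg Prod.fst hr12
    have hw2 : (y j1 - y j2).2 = r12 * z.1 := congrArg Prod.snd hr12
    have hgood : r12 ∣ r → ∃ μ : R 2 k,
        ((2 : ℕ) : R 2 k) • (y j - y j') = (μ * ((2 : ℕ) : R 2 k)) • (y j1 - y j2) := by
      rintro ⟨μ, hμ⟩
      refine ⟨μ, Prod.ext ?_ ?_⟩
      · show ((2 : ℕ) : R 2 k) * (y j - y j').1 = μ * ((2 : ℕ) : R 2 k) * (y j1 - y j2).1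
        rw [hr1, hw1, hμ]
        linear_combination z'.1 * h3
      · show ((2 : ℕ) : R 2 k) * (y j - y j').2 = μ * ((2 : ℕ) : R 2 k) * (y j1 - y j2).2
        rw [hr2, hw2, hμ]
        linear_combination z'.2 * h3
    rcases chain r12 r with h4 | ⟨ν, hν⟩
    · exact hgood h4
    · by_cases hν0 : red 2 k ν = 0
      · exfalso
        apply hnot
        refine (hs.col j j' hjj).sq_dvd_of_mul hν0 ?_
        have h5 : (fun i => ν * dot (x i) (y j - y j')) = fun i => dot (x i) (y j1 - y j2) := by
          funext i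
          obtain ⟨e, he⟩ := red_eq_zero.mp hν0
          unfold dot
          rw [hr1, hr2, hw1, hw2, hν]
          rw [he]
          linear_combination (e * ((x i).1 * z'.1 + (x i).2 * z'.2)) * h3
        rw [h5]
        exact hg
      · apply hgood
        obtain ⟨e, he⟩ := (isUnit_of_red hν0).exists_right_inv
        exact ⟨e, by rw [hν, mul_assoc, he, mul_one]⟩
  have hreal : ∀ i ∈ ({i1, i2, i3} : Finset I), ∀ i' ∈ ({i1, i2, i3} : Finset I), ∀ j ∈ S,
      ∀ j' ∈ S, ((2 : ℕ) : R 2 k) * dot (x i - x i') (y j) =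
        ((2 : ℕ) : R 2 k) * dot (x i - x i') (y j') := by
    intro i hi i' hi' j hjS j' hjS'
    obtain ⟨μ, hμ⟩ := key j hjS j' hjS'
    have h1 : ((2 : ℕ) : R 2 k) * dot (x i - x i') (y j - y j') =
        μ * (((2 : ℕ) : R 2 k) * dot (x i - x i') (y j1 - y j2)) := by
      rw [← dot_smul', hμ, dot_smul', mul_assoc]
    have h2 : ((2 : ℕ) : R 2 k) * dot (x i - x i') (y j1 - y j2) = 0 := by
      rw [dot_sub, mul_sub, hiD i hi, hiD i' hi', sub_self]
    rw [h2, mul_zero, dot_sub', mul_sub, sub_eq_zero] at h1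
    exact h1
  have m1 : i1 ∈ ({i1, i2, i3} : Finset I) := by simp
  have m2 : i2 ∈ ({i1, i2, i3} : Finset I) := by simp
  have m3 : i3 ∈ ({i1, i2, i3} : Finset I) := by simp
  exact no_block hs hJ i1 i2 i3 h12 h23 h13 S hS4 (hreal i1 m1 i2 m2) (hreal i2 m2 i3 m3)

end BHsm
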