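import Pool.Agent.Lib.MP_2b2af9_co.SixA

/-!
# Order six over the `2 ^ (k + 1)`-th roots of unity: classes modulo 2
-/

set_option autoImplicit false

open Finset

set_option linter.unusedSectionVars false

namespace BHsm

/-- The plane over the field with two elements. -/
abbrev C2 := ZMod 2 × ZMod 2

variable {k : ℕ}

/-- Reduction modulo 2. -/
def rd (v : V 2 k) : C2 := (red 2 k v.1, red 2 k v.2)

theorem rd_sub (u v : V 2 k) : rd (u - v) = rd u - rd v := by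
  unfold rd
  rw [Prod.fst_sub, Prod.snd_sub, map_sub, map_sub, Prod.mk_sub_mk]

/-- The pairing modulo 2. -/
def dd (u v : C2) : ZMod 2 := u.1 * v.1 + u.2 * v.2

theorem red_dot (u v : V 2 k) : red 2 k (dot u v) = dd (rd u) (rd v) := by
  unfold dot dd rd
  rw [map_add, map_mul, map_mul]

theorem red_h : red 2 (k + 1) (h 2 (k + 1)) = 0 := by
  unfold h
  rw [map_pow, red_p, zero_pow (Nat.succ_ne_zero k)]

theorem prim_of {v : V 2 k} (hv : rd v ≠ 0) : red 2 k v.1 ≠ 0 ∨ red 2 k v.2 ≠ 0 := by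
  by_contra hcon
  push Not at hcon
  exact hv (Prod.ext hcon.1 hcon.2)

/-- The vector orthogonal to a given one. -/
def pp (d : C2) : C2 := (d.2, d.1)

theorem dd_pp : ∀ d e : C2, d ≠ 0 → dd (pp d) e = 0 → e = 0 ∨ e = d := by decide

theorem dd_pp' : ∀ d e : C2, d ≠ 0 → dd d e = 0 → e = 0 ∨ e = pp d := by decide

theorem pp_ne : ∀ d : C2, d ≠ 0 → pp d ≠ 0 := by decide

variable {I J : Type} [Fintype I] [Fintype J] [DecidableEq I] [DecidableEq J]

/-- A union of classes has an even number of elements. -/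
theorem even_closed {f : J → R 2 k} (hf : U f) (T : Finset J)
    (hT : ∀ j ∈ T, ∀ j', ((2 : ℕ) : R 2 k) * f j' = ((2 : ℕ) : R 2 k) * f j → j' ∈ T) :
    2 ∣ T.card := by
  rw [card_eq_sum_card_fiberwise (f := fun j => ((2 : ℕ) : R 2 k) * f j) (t := univ)
    (fun j _ => mem_univ _)]
  refine dvd_sum fun u _ => ?_
  by_cases hu : ∃ j ∈ T, ((2 : ℕ) : R 2 k) * f j = u
  · obtain ⟨j, hj, rfl⟩ := hu
    have h1 : (T.filter fun j' => ((2 : ℕ) : R 2 k) * f j' = ((2 : ℕ) : R 2 k) * f j) =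
        univ.filter fun j' => ((2 : ℕ) : R 2 k) * f j' = ((2 : ℕ) : R 2 k) * f j := by
      ext j'
      simp only [mem_filter, mem_univ, true_and, and_iff_right_iff_imp]
      exact hT j hj j'
    rw [h1]
    exact hf.dvd_card_class _
  · rw [filter_false_of_mem, card_empty]
    · exact dvd_zero _
    · intro j hj hju
      exact hu ⟨j, hj, hju⟩

theorem partner {f : J → R 2 k} (hf : U f) (j : J) : ∃ j', f j' = f j + h 2 k := by
  have h1 := hf (f j) 1
  rw [mul_one] at h1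
  have h2 : 0 < N f (f j) := by
    unfold N
    exact card_pos.mpr ⟨j, by rw [mem_filter]; exact ⟨mem_univ _, rfl⟩⟩
  rw [h1] at h2
  unfold N at h2
  obtain ⟨j', hj'⟩ := card_pos.mp h2
  rw [mem_filter] at hj'
  exact ⟨j', hj'.2⟩

/-- Related columns. -/
theorem rel_mod {z w w' : V 2 (k + 1)}
    (hr : ((2 : ℕ) : R 2 (k + 1)) * dot z w = ((2 : ℕ) : R 2 (k + 1)) * dot z w') :
    dd (rd z) (rd w - rd w') = 0 := by
  rw [← rd_sub, ← red_dot, dot_sub']
  rcases two_ann (x := dot z w - dot z w') (by rw [mul_sub, hr, sub_self]) with h1 | h1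
  · rw [h1, map_zero]
  · rw [h1, red_h]

theorem rel_of_eq {a b : R 2 k} (hab : a = b + h 2 k) :
    ((2 : ℕ) : R 2 k) * a = ((2 : ℕ) : R 2 k) * b := by
  rw [hab, mul_add, two_h, add_zero]

/-- The size of a class modulo 2. -/
def cl (y : J → V 2 k) (t : C2) : ℕ := (univ.filter fun j => rd (y j) = t).card

theorem cl_sum (y : J → V 2 k) :
    cl y (0, 0) + cl y (0, 1) + cl y (1, 0) + cl y (1, 1) = Fintype.card J := by
  have h1 : Fintype.card J = ∑ t : C2, cl y t := by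
    rw [← card_univ]
    exact card_eq_sum_card_fiberwise (fun j _ => mem_univ _)
  rw [h1, Fintype.sum_prod_type]
  have h2 : ∀ g : ZMod 2 → ℕ, ∑ t, g t = g 0 + g 1 := fun g => Fin.sum_univ_two g
  rw [h2, h2, h2]
  ring

theorem cl_pos {y : J → V 2 k} {t : C2} (h1 : 0 < cl y t) : ∃ j, rd (y j) = t := by
  obtain ⟨j, hj⟩ := card_pos.mp h1
  rw [mem_filter] at hj
  exact ⟨j, hj.2⟩

theorem cl_pos' (y : J → V 2 k) (j : J) : 0 < cl y (rd (y j)) :=
  card_pos.mpr ⟨j, by rw [mem_filter]; exact ⟨mem_univ _, rfl⟩⟩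

/-- All directions occur. -/
def T3 (x : I → V 2 k) : Prop := ∀ d : C2, d ≠ 0 → ∃ i i', rd (x i) - rd (x i') = d

theorem T3_of {x : I → V 2 k} {i0 i1 i2 : I} (h01 : rd (x i0) ≠ rd (x i1))
    (h02 : rd (x i0) ≠ rd (x i2)) (h12 : rd (x i1) ≠ rd (x i2)) : T3 x := by
  intro d hd
  have key : ∀ u0 u1 u2 d : C2, u0 ≠ u1 → u0 ≠ u2 → u1 ≠ u2 → d ≠ 0 →
      u0 - u1 = d ∨ u0 - u2 = d ∨ u1 - u2 = d := by decide
  rcases key _ _ _ d h01 h02 h12 hd with h1 | h1 | h1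
  · exact ⟨i0, i1, h1⟩
  · exact ⟨i0, i2, h1⟩
  · exact ⟨i1, i2, h1⟩

theorem c2_self : ∀ u : C2, u - u = 0 := by decide

theorem cl_pair {x : I → V 2 (k + 1)} {y : J → V 2 (k + 1)} (hs : SP x y) (hx : T3 x) (t d : C2)
    (hd : d ≠ 0) : 2 ∣ cl y t + cl y (t + d) := by
  obtain ⟨i, i', hii⟩ := hx (pp d) (pp_ne d hd)
  have hne : i ≠ i' := by
    rintro rfl
    rw [c2_self] at hii
    exact pp_ne d hd hii.symm
  have h1 : cl y t + cl y (t + d) = (univ.filter fun j => rd (y j) = t ∨ rd (y j) = t + d).card := by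
    rw [filter_or, card_union_of_disjoint]
    · rfl
    · rw [disjoint_filter]
      intro j _ h2 h3
      rw [h2] at h3
      have key : ∀ t d : C2, d ≠ 0 → t ≠ t + d := by decide
      exact key t d hd h3
  rw [h1]
  refine even_closed (hs.row i i' hne) _ ?_
  intro j hj j' hjj
  rw [mem_filter] at hj ⊢
  refine ⟨mem_univ _, ?_⟩
  have h2 := rel_mod hjj
  rw [rd_sub, hii] at h2
  have k1 : ∀ u v : C2, v - u = 0 → v = u := by decide
  have k2 : ∀ u v d : C2, v - u = d → v = u + d := by decide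
  have k3 : ∀ t d : C2, t + d + d = t := by decide
  rcases dd_pp d _ hd h2 with h3 | h3
  · rw [k1 _ _ h3]
    exact hj.2
  · rw [k2 _ _ _ h3]
    rcases hj.2 with h4 | h4
    · right
      rw [h4]
    · left
      rw [h4, k3]

/-- The two columns of smallest classes. -/
theorem cl_even {x : I → V 2 (k + 1)} {y : J → V 2 (k + 1)} (hs : SP x y)
    (hJ : Fintype.card J = 6) (hx : T3 x) (hy : T3 y) : ∀ t, 2 ∣ cl y t := by
  have hI : Fintype.card I = 6 := by rw [hs.card, hJ]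
  by_contra hcon
  push Not at hcon
  obtain ⟨t0, ht0⟩ := hcon
  have hodd : ∀ t, ¬ 2 ∣ cl y t := by
    intro t ht
    by_cases htt : t = t0
    · rw [htt] at ht
      exact ht0 ht
    · have h1 := cl_pair hs hx t (t0 - t) (by
        have key : ∀ t t0 : C2, t ≠ t0 → t0 - t ≠ 0 := by decide
        exact key t t0 htt)
      rw [add_sub_cancel] at h1
      omega
  obtain ⟨t1, t2, htt, ht1, ht2⟩ : ∃ t1 t2 : C2, t1 ≠ t2 ∧ cl y t1 = 1 ∧ cl y t2 = 1 := by
    have h1 := cl_sum y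
    rw [hJ] at h1
    have a1 := hodd (0, 0)
    have a2 := hodd (0, 1)
    have a3 := hodd (1, 0)
    have a4 := hodd (1, 1)
    have h2 : (cl y (0, 0) = 1 ∧ cl y (0, 1) = 1) ∨ (cl y (0, 0) = 1 ∧ cl y (1, 0) = 1) ∨
        (cl y (0, 1) = 1 ∧ cl y (1, 0) = 1) := by omega
    rcases h2 with h2 | h2 | h2
    · exact ⟨(0, 0), (0, 1), by decide, h2.1, h2.2⟩
    · exact ⟨(0, 0), (1, 0), by decide, h2.1, h2.2⟩
    · exact ⟨(0, 1), (1, 0), by decide, h2.1, h2.2⟩
  obtain ⟨j1, hj1⟩ := card_eq_one.mp ht1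
  obtain ⟨j2, hj2⟩ := card_eq_one.mp ht2
  have hj1' : rd (y j1) = t1 := by
    have : j1 ∈ univ.filter fun j => rd (y j) = t1 := by rw [hj1]; exact mem_singleton_self _
    rw [mem_filter] at this
    exact this.2
  have hj2' : rd (y j2) = t2 := by
    have : j2 ∈ univ.filter fun j => rd (y j) = t2 := by rw [hj2]; exact mem_singleton_self _
    rw [mem_filter] at this
    exact this.2
  have hj12 : j1 ≠ j2 := by
    rintro rfl
    exact htt (hj1'.symm.trans hj2')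
  have hd : t1 - t2 ≠ 0 := by
    have key : ∀ t1 t2 : C2, t1 ≠ t2 → t1 - t2 ≠ 0 := by decide
    exact key t1 t2 htt
  have hmatch : ∀ i i', rd (x i) - rd (x i') = pp (t1 - t2) →
      dot (x i - x i') (y j1 - y j2) = h 2 (k + 1) := by
    intro i i' hii
    have hne : i ≠ i' := by
      rintro rfl
      rw [c2_self] at hii
      exact pp_ne _ hd hii.symm
    obtain ⟨j', hj'⟩ := partner (hs.row i i' hne) j1
    have h1 := rel_mod (rel_of_eq hj')
    rw [rd_sub, hii, hj1'] at h1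
    have key : ∀ t1 t2 u : C2, t1 ≠ t2 → dd (pp (t1 - t2)) (u - t1) = 0 → u = t1 ∨ u = t2 := by
      decide
    rcases key t1 t2 _ htt h1 with h2 | h2
    · exfalso
      have h3 : j' ∈ univ.filter fun j => rd (y j) = t1 := by
        rw [mem_filter]; exact ⟨mem_univ _, h2⟩
      rw [hj1, mem_singleton] at h3
      rw [h3] at hj'
      exact h_ne_zero (left_eq_add.mp hj')
    · have h3 : j' ∈ univ.filter fun j => rd (y j) = t2 := by
        rw [mem_filter]; exact ⟨mem_univ _, h2⟩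
      rw [hj2, mem_singleton] at h3
      rw [h3] at hj'
      rw [dot_sub', hj', sub_add_cancel_left, neg_h]
  have hle : ∀ t, 0 < cl x t → cl x (t + pp (t1 - t2)) ≤ 1 := by
    intro t ht
    obtain ⟨i, hi⟩ := cl_pos ht
    unfold cl
    rw [card_le_one]
    intro i' hi' i'' hi''
    rw [mem_filter] at hi' hi''
    have key : ∀ t e : C2, t - (t + e) = e := by decide
    have h1 := hmatch i i' (by rw [hi, hi'.2, key])
    have h2 := hmatch i i'' (by rw [hi, hi''.2, key])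
    by_contra hne
    have h3 : dot (y j1 - y j2) (x i' - x i'') = 0 := by
      rw [dot_comm]
      have h4 : dot (x i' - x i'') (y j1 - y j2) =
          dot (x i - x i'') (y j1 - y j2) - dot (x i - x i') (y j1 - y j2) := by
        rw [dot_sub, dot_sub, dot_sub]; ring
      rw [h4, h1, h2, sub_self]
    refine matching hs.symm hI j1 j2 (prim_of ?_) i' i'' hne h3
    rw [rd_sub, hj1', hj2']
    exact hd
  obtain ⟨i, i', hii⟩ := hx (pp (t1 - t2)) (pp_ne _ hd)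
  have h1 : cl x (rd (x i)) = 1 := by
    have h2 := hle (rd (x i')) (cl_pos' x i')
    have key : ∀ u v e : C2, u - v = e → v + e = u := by decide
    rw [key _ _ _ hii] at h2
    have h3 := cl_pos' x i
    omega
  have hoddx : ∀ t, ¬ 2 ∣ cl x t := by
    intro t ht
    by_cases htt : t = rd (x i)
    · rw [htt, h1] at ht
      omega
    · have h2 := cl_pair hs.symm hy t (rd (x i) - t) (by
        have key : ∀ t t0 : C2, t ≠ t0 → t0 - t ≠ 0 := by decide
        exact key _ _ htt)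
      rw [add_sub_cancel, h1] at h2
      omega
  have hle1 : ∀ t, cl x t ≤ 1 := by
    intro t
    have h2 : 0 < cl x (t + pp (t1 - t2)) := by
      have := hoddx (t + pp (t1 - t2))
      omega
    have h3 := hle _ h2
    have key : ∀ t e : C2, t + e + e = t := by decide
    rw [key] at h3
    exact h3
  have h4 := cl_sum x
  rw [hI] at h4
  have b1 := hle1 (0, 0)
  have b2 := hle1 (0, 1)
  have b3 := hle1 (1, 0)
  have b4 := hle1 (1, 1)
  omega

/-- Three classes of size two. -/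
theorem cl_two {x : I → V 2 (k + 1)} {y : J → V 2 (k + 1)} (hs : SP x y)
    (hJ : Fintype.card J = 6) (hx : T3 x) (hy : T3 y) :
    ∃ t0, cl y t0 = 0 ∧ ∀ t, t ≠ t0 → cl y t = 2 := by
  have he := cl_even hs hJ hx hy
  have h1 := cl_sum y
  rw [hJ] at h1
  have a1 := he (0, 0)
  have a2 := he (0, 1)
  have a3 := he (1, 0)
  have a4 := he (1, 1)
  have hdir : ∀ d : C2, d ≠ 0 → ∃ t, 0 < cl y t ∧ 0 < cl y (t + d) := by
    intro d hd
    obtain ⟨j, j', hjj⟩ := hy d hd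
    refine ⟨rd (y j'), cl_pos' y j', ?_⟩
    have key : ∀ u v e : C2, u - v = e → v + e = u := by decide
    rw [key _ _ _ hjj]
    exact cl_pos' y j
  have d1 : (0 < cl y (0, 0) ∧ 0 < cl y (0, 1)) ∨ (0 < cl y (1, 0) ∧ 0 < cl y (1, 1)) := by
    obtain ⟨t, ht, ht'⟩ := hdir (0, 1) (by decide)
    have key : ∀ t : C2, (t = (0, 0) ∧ t + (0, 1) = (0, 1)) ∨ (t = (0, 1) ∧ t + (0, 1) = (0, 0)) ∨
        (t = (1, 0) ∧ t + (0, 1) = (1, 1)) ∨ (t = (1, 1) ∧ t + (0, 1) = (1, 0)) := by decide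
    rcases key t with ⟨h2, h3⟩ | ⟨h2, h3⟩ | ⟨h2, h3⟩ | ⟨h2, h3⟩ <;> rw [h3] at ht' <;> rw [h2] at ht
    · exact Or.inl ⟨ht, ht'⟩
    · exact Or.inl ⟨ht', ht⟩
    · exact Or.inr ⟨ht, ht'⟩
    · exact Or.inr ⟨ht', ht⟩
  have d2 : (0 < cl y (0, 0) ∧ 0 < cl y (1, 0)) ∨ (0 < cl y (0, 1) ∧ 0 < cl y (1, 1)) := by
    obtain ⟨t, ht, ht'⟩ := hdir (1, 0) (by decide)
    have key : ∀ t : C2, (t = (0, 0) ∧ t + (1, 0) = (1, 0)) ∨ (t = (1, 0) ∧ t + (1, 0) = (0, 0)) ∨
        (t = (0, 1) ∧ t + (1, 0) = (1, 1)) ∨ (t = (1, 1) ∧ t + (1, 0) = (0, 1)) := by decide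
    rcases key t with ⟨h2, h3⟩ | ⟨h2, h3⟩ | ⟨h2, h3⟩ | ⟨h2, h3⟩ <;> rw [h3] at ht' <;> rw [h2] at ht
    · exact Or.inl ⟨ht, ht'⟩
    · exact Or.inl ⟨ht', ht⟩
    · exact Or.inr ⟨ht, ht'⟩
    · exact Or.inr ⟨ht', ht⟩
  have d3 : (0 < cl y (0, 0) ∧ 0 < cl y (1, 1)) ∨ (0 < cl y (0, 1) ∧ 0 < cl y (1, 0)) := by
    obtain ⟨t, ht, ht'⟩ := hdir (1, 1) (by decide)
    have key : ∀ t : C2, (t = (0, 0) ∧ t + (1, 1) = (1, 1)) ∨ (t = (1, 1) ∧ t + (1, 1) = (0, 0)) ∨
        (t = (0, 1) ∧ t + (1, 1) = (1, 0)) ∨ (t = (1, 0) ∧ t + (1, 1) = (0, 1)) := by decide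
    rcases key t with ⟨h2, h3⟩ | ⟨h2, h3⟩ | ⟨h2, h3⟩ | ⟨h2, h3⟩ <;> rw [h3] at ht' <;> rw [h2] at ht
    · exact Or.inl ⟨ht, ht'⟩
    · exact Or.inl ⟨ht', ht⟩
    · exact Or.inr ⟨ht, ht'⟩
    · exact Or.inr ⟨ht', ht⟩
  have h5 : (cl y (0, 0) = 0 ∧ cl y (0, 1) = 2 ∧ cl y (1, 0) = 2 ∧ cl y (1, 1) = 2) ∨
      (cl y (0, 0) = 2 ∧ cl y (0, 1) = 0 ∧ cl y (1, 0) = 2 ∧ cl y (1, 1) = 2) ∨
      (cl y (0, 0) = 2 ∧ cl y (0, 1) = 2 ∧ cl y (1, 0) = 0 ∧ cl y (1, 1) = 2) ∨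
      (cl y (0, 0) = 2 ∧ cl y (0, 1) = 2 ∧ cl y (1, 0) = 2 ∧ cl y (1, 1) = 0) := by omega
  have hall : ∀ t : C2, t = (0, 0) ∨ t = (0, 1) ∨ t = (1, 0) ∨ t = (1, 1) := by decide
  rcases h5 with ⟨e1, e2, e3, e4⟩ | ⟨e1, e2, e3, e4⟩ | ⟨e1, e2, e3, e4⟩ | ⟨e1, e2, e3, e4⟩
  · refine ⟨(0, 0), e1, fun t ht => ?_⟩
    rcases hall t with rfl | rfl | rfl | rfl
    · exact absurd rfl ht
    · exact e2
    · exact e3
    · exact e4
  · refine ⟨(0, 1), e2, fun t ht => ?_⟩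
    rcases hall t with rfl | rfl | rfl | rfl
    · exact e1
    · exact absurd rfl ht
    · exact e3
    · exact e4
  · refine ⟨(1, 0), e3, fun t ht => ?_⟩
    rcases hall t with rfl | rfl | rfl | rfl
    · exact e1
    · exact e2
    · exact absurd rfl ht
    · exact e4
  · refine ⟨(1, 1), e4, fun t ht => ?_⟩
    rcases hall t with rfl | rfl | rfl | rfl
    · exact e1
    · exact e2
    · exact e3
    · exact absurd rfl ht

end BHsm
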