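import Pool.Agent.Lib.MP_2b2af9_co.SixB

/-!
# There is no spectral pair of order six in `(ℤ / 2 ^ (k + 1)) ^ 2`
-/

set_option autoImplicit false

open Finset

set_option linter.unusedSectionVars false

namespace BHsm

variable {k : ℕ} {I J : Type} [Fintype I] [Fintype J] [DecidableEq I] [DecidableEq J]

theorem get2 {y : J → V 2 k} {t : C2} (ht : cl y t = 2) : ∃ a b, a ≠ b ∧ rd (y a) = t ∧
    rd (y b) = t ∧ ∀ j, rd (y j) = t → j = a ∨ j = b := by
  obtain ⟨a, b, hab, hS⟩ := card_eq_two.mp ht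
  have h1 : ∀ j, rd (y j) = t ↔ j = a ∨ j = b := by
    intro j
    have h2 : j ∈ (univ.filter fun j => rd (y j) = t) ↔ j ∈ ({a, b} : Finset J) := by rw [hS]
    rw [mem_filter, mem_insert, mem_singleton] at h2
    simpa using h2
  exact ⟨a, b, hab, (h1 a).mpr (Or.inl rfl), (h1 b).mpr (Or.inr rfl), fun j hj => (h1 j).mp hj⟩

/-- Row differences congruent to `v` and the two columns congruent to `pp v`. -/
theorem inner {x : I → V 2 (k + 1)} {y : J → V 2 (k + 1)} (hs : SP x y) (hy0 : cl y 0 = 0)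
    {v : C2} (hv : v ≠ 0) {q q' : J} (hq : rd (y q) = pp v)
    (hqq : ∀ j, rd (y j) = pp v → j = q ∨ j = q') {i i' : I} (hi : rd (x i) - rd (x i') = v) :
    dot (x i - x i') (y q - y q') = h 2 (k + 1) := by
  have hne : i ≠ i' := by
    rintro rfl
    rw [c2_self] at hi
    exact hv hi.symm
  obtain ⟨j', hj'⟩ := partner (hs.row i i' hne) q
  have h1 := rel_mod (rel_of_eq hj')
  rw [rd_sub, hi, hq] at h1
  have h2 : rd (y j') = pp v := by
    have key : ∀ v u : C2, v ≠ 0 → dd v (u - pp v) = 0 → u = pp v ∨ u = 0 := by decide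
    rcases key v _ hv h1 with h3 | h3
    · exact h3
    · exfalso
      have h4 := cl_pos' y j'
      rw [h3, hy0] at h4
      exact lt_irrefl _ h4
  rcases hqq j' h2 with h3 | h3
  · exfalso
    rw [h3] at hj'
    exact h_ne_zero (left_eq_add.mp hj')
  · rw [h3] at hj'
    rw [dot_sub', hj', sub_add_cancel_left, neg_h]

/-- Two pairs of columns which form a union of classes. -/
theorem two_pairs {f : J → R 2 k} (hf : U f) (hinj : ∀ j j', j ≠ j' → f j ≠ f j')
    {q q' r r' : J} (h1 : q ≠ q') (h2 : q ≠ r) (_h3 : q ≠ r') (h4 : q' ≠ r) (h5 : q' ≠ r')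
    (_h6 : r ≠ r')
    (hT : ∀ j, j = q ∨ j = q' ∨ j = r ∨ j = r' → ∀ j', f j' = f j + h 2 k →
      j' = q ∨ j' = q' ∨ j' = r ∨ j' = r') :
    ((2 : ℕ) : R 2 k) * (f q - f q') = ((2 : ℕ) : R 2 k) * (f r - f r') ∨
      ((2 : ℕ) : R 2 k) * (f q - f q') = -(((2 : ℕ) : R 2 k) * (f r - f r')) := by
  have hh := h_add_h (k := k)
  have h2h := two_h (k := k)
  have hself : ∀ j, f j ≠ f j + h 2 k := fun j he => h_ne_zero (left_eq_add.mp he)
  obtain ⟨j1, hj1⟩ := partner hf q
  rcases hT q (Or.inl rfl) j1 hj1 with e | e | e | e <;> rw [e] at hj1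
  · exact absurd hj1 (hself q)
  · -- the partner of `q` is `q'`
    obtain ⟨j2, hj2⟩ := partner hf r
    rcases hT r (Or.inr (Or.inr (Or.inl rfl))) j2 hj2 with e | e | e | e <;> rw [e] at hj2
    · exfalso
      apply hinj q' r h4
      rw [hj1, hj2, add_assoc, hh, add_zero]
    · exfalso
      apply hinj q r h2
      have : f q + h 2 k = f r + h 2 k := by rw [← hj1, hj2]
      exact add_right_cancel this
    · exact absurd hj2 (hself r)
    · left
      rw [hj1, hj2, sub_add_cancel_left, sub_add_cancel_left]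
  · -- the partner of `q` is `r`
    obtain ⟨j2, hj2⟩ := partner hf q'
    rcases hT q' (Or.inr (Or.inl rfl)) j2 hj2 with e | e | e | e <;> rw [e] at hj2
    · exfalso
      apply hinj r q' h4.symm
      rw [hj1, hj2, add_assoc, hh, add_zero]
    · exact absurd hj2 (hself q')
    · exfalso
      apply hinj q q' h1
      have : f q + h 2 k = f q' + h 2 k := by rw [← hj1, hj2]
      exact add_right_cancel this
    · left
      rw [hj1, hj2]
      ring
  · -- the partner of `q` is `r'`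
    obtain ⟨j2, hj2⟩ := partner hf q'
    rcases hT q' (Or.inr (Or.inl rfl)) j2 hj2 with e | e | e | e <;> rw [e] at hj2
    · exfalso
      apply hinj r' q' h5.symm
      rw [hj1, hj2, add_assoc, hh, add_zero]
    · exact absurd hj2 (hself q')
    · right
      rw [hj1, hj2]
      ring
    · exfalso
      apply hinj q q' h1
      have : f q + h 2 k = f q' + h 2 k := by rw [← hj1, hj2]
      exact add_right_cancel this

/-- The union of the classes `pp v'` and `pp v''`, for a row difference congruent to `v`. -/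
theorem cross {x : I → V 2 (k + 1)} {y : J → V 2 (k + 1)} (hs : SP x y)
    (hJ : Fintype.card J = 6) {v w w' : C2} (hv : v ≠ 0)
    (hw : w ≠ w') (hww : ∀ u : C2, (dd v (u - w) = 0 → u = w ∨ u = w') ∧
      (dd v (u - w') = 0 → u = w ∨ u = w')) {q q' r r' : J} (hqq' : q ≠ q') (hrr' : r ≠ r')
    (hq : rd (y q) = w) (hq' : rd (y q') = w) (hr : rd (y r) = w') (hr' : rd (y r') = w')
    (hQ : ∀ j, rd (y j) = w → j = q ∨ j = q') (hR : ∀ j, rd (y j) = w' → j = r ∨ j = r')
    {i i' : I} (hi : rd (x i) - rd (x i') = v) :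
    ((2 : ℕ) : R 2 (k + 1)) * dot (x i - x i') (y q - y q') =
        ((2 : ℕ) : R 2 (k + 1)) * dot (x i - x i') (y r - y r') ∨
      ((2 : ℕ) : R 2 (k + 1)) * dot (x i - x i') (y q - y q') =
        -(((2 : ℕ) : R 2 (k + 1)) * dot (x i - x i') (y r - y r')) := by
  have hne : i ≠ i' := by
    rintro rfl
    rw [c2_self] at hi
    exact hv hi.symm
  have hpr : red 2 (k + 1) (x i - x i').1 ≠ 0 ∨ red 2 (k + 1) (x i - x i').2 ≠ 0 := by
    apply prim_of
    rw [rd_sub, hi]
    exact hv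
  rw [dot_sub', dot_sub']
  refine two_pairs (hs.row i i' hne) ?_ hqq' ?_ ?_ ?_ ?_ hrr' ?_
  · intro j j' hjj he
    refine matching hs hJ i i' hpr j j' hjj ?_
    rw [dot_sub', sub_eq_zero]
    exact he
  · rintro rfl
    exact hw (hq.symm.trans hr)
  · rintro rfl
    exact hw (hq.symm.trans hr')
  · rintro rfl
    exact hw (hq'.symm.trans hr)
  · rintro rfl
    exact hw (hq'.symm.trans hr')
  · intro j hj j' hj'
    have h1 := rel_mod (rel_of_eq hj')
    rw [rd_sub, hi] at h1
    have h2 : rd (y j) = w ∨ rd (y j) = w' := by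
      rcases hj with rfl | rfl | rfl | rfl
      · exact Or.inl hq
      · exact Or.inl hq'
      · exact Or.inr hr
      · exact Or.inr hr'
    have h3 : rd (y j') = w ∨ rd (y j') = w' := by
      rcases h2 with h2 | h2
      · rw [h2] at h1
        exact (hww _).1 h1
      · rw [h2] at h1
        exact (hww _).2 h1
    rcases h3 with h3 | h3
    · rcases hQ j' h3 with h4 | h4
      · exact Or.inl h4
      · exact Or.inr (Or.inl h4)
    · rcases hR j' h3 with h4 | h4
      · exact Or.inr (Or.inr (Or.inl h4))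
      · exact Or.inr (Or.inr (Or.inr h4))

/-- Three classes of size two on both sides. -/
theorem final {x : I → V 2 (k + 1)} {y : J → V 2 (k + 1)} (hs : SP x y)
    (hJ : Fintype.card J = 6) (hx0 : cl x 0 = 0) (hx : ∀ t, t ≠ 0 → cl x t = 2)
    (hy0 : cl y 0 = 0) (hy : ∀ t, t ≠ 0 → cl y t = 2) : False := by
  obtain ⟨a1, b1, hab1, ha1, hb1, hA1⟩ := get2 (hx (1, 0) (by decide))
  obtain ⟨a2, b2, hab2, ha2, hb2, hA2⟩ := get2 (hx (0, 1) (by decide))
  obtain ⟨a0, b0, hab0, ha0, hb0, hA0⟩ := get2 (hx (1, 1) (by decide))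
  obtain ⟨q1, r1, hqr1, hq1, hr1, hB1⟩ := get2 (hy (0, 1) (by decide))
  obtain ⟨q2, r2, hqr2, hq2, hr2, hB2⟩ := get2 (hy (1, 0) (by decide))
  obtain ⟨q0, r0, hqr0, hq0, hr0, hB0⟩ := get2 (hy (1, 1) (by decide))
  have hh := h_add_h (k := k + 1)
  -- rows `a0`, `b0` against the columns `q1, r1` and `q2, r2`
  have in1 : ∀ i i', rd (x i) - rd (x i') = (1, 0) →
      dot (x i - x i') (y q1 - y r1) = h 2 (k + 1) :=
    fun i i' hi => inner hs hy0 (v := (1, 0)) (by decide) hq1 hB1 hi
  have in2 : ∀ i i', rd (x i) - rd (x i') = (0, 1) →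
      dot (x i - x i') (y q2 - y r2) = h 2 (k + 1) :=
    fun i i' hi => inner hs hy0 (v := (0, 1)) (by decide) hq2 hB2 hi
  have in0 : ∀ i i', rd (x i) - rd (x i') = (1, 1) →
      dot (x i - x i') (y q0 - y r0) = h 2 (k + 1) :=
    fun i i' hi => inner hs hy0 (v := (1, 1)) (by decide) hq0 hB0 hi
  have e1 := in1 a0 a2 (by rw [ha0, ha2]; decide)
  have e1' := in1 b0 a2 (by rw [hb0, ha2]; decide)
  have e2 := in2 a0 a1 (by rw [ha0, ha1]; decide)
  have e2' := in2 b0 a1 (by rw [hb0, ha1]; decide)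
  have e0 := in0 a1 a2 (by rw [ha1, ha2]; decide)
  have e0b := in0 b1 a2 (by rw [hb1, ha2]; decide)
  have e0c := in0 a1 b2 (by rw [ha1, hb2]; decide)
  -- the two relations
  have c1 := cross hs hJ (v := (0, 1)) (w := (1, 1)) (w' := (0, 1)) (by decide) (by decide)
    (by decide) hqr0 hqr1 hq0 hr0 hq1 hr1 hB0 hB1 (i := a1) (i' := a0) (by rw [ha1, ha0]; decide)
  have c2 := cross hs hJ (v := (1, 0)) (w := (1, 1)) (w' := (1, 0)) (by decide) (by decide)
    (by decide) hqr0 hqr2 hq0 hr0 hq2 hr2 hB0 hB2 (i := a2) (i' := a0) (by rw [ha2, ha0]; decide)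
  -- the difference of the rows `a0`, `b0` on the columns `q0, r0`
  have h0 : dot (x a0 - x b0) (y q0 - y r0) = h 2 (k + 1) := by
    have hU := hs.col q0 r0 hqr0
    set f : I → R 2 (k + 1) := fun i => dot (x i) (y q0 - y r0) with hf
    have f1 : f a1 = f a2 + h 2 (k + 1) := by
      rw [hf]
      simp only
      rw [dot_sub] at e0
      linear_combination e0
    have f2 : f b1 = f a1 := by
      rw [hf]
      simp only
      rw [dot_sub] at e0 e0b
      linear_combination e0b - e0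
    have f3 : f b2 = f a2 := by
      rw [hf]
      simp only
      rw [dot_sub] at e0 e0c
      linear_combination e0 - e0c
    have hcov : ∀ i, i = a0 ∨ i = b0 ∨ (i = a1 ∨ i = b1) ∨ (i = a2 ∨ i = b2) := by
      intro i
      have key : ∀ t : C2, t = 0 ∨ t = (1, 0) ∨ t = (0, 1) ∨ t = (1, 1) := by decide
      rcases key (rd (x i)) with h1 | h1 | h1 | h1
      · exfalso
        have h2 := cl_pos' x i
        rw [h1, hx0] at h2
        exact lt_irrefl _ h2
      · exact Or.inr (Or.inr (Or.inl (hA1 i h1)))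
      · exact Or.inr (Or.inr (Or.inr (hA2 i h1)))
      · rcases hA0 i h1 with h2 | h2
        · exact Or.inl h2
        · exact Or.inr (Or.inl h2)
    have hdist : a0 ≠ a1 ∧ a0 ≠ b1 ∧ a0 ≠ a2 ∧ a0 ≠ b2 ∧ b0 ≠ a1 ∧ b0 ≠ b1 ∧ b0 ≠ a2 ∧ b0 ≠ b2 ∧
        a1 ≠ a2 ∧ a1 ≠ b2 ∧ b1 ≠ a2 ∧ b1 ≠ b2 := by
      refine ⟨?_, ?_, ?_, ?_, ?_, ?_, ?_, ?_, ?_, ?_, ?_, ?_⟩ <;> rintro rfl
      · rw [ha1] at ha0; exact absurd ha0 (by decide)
      · rw [hb1] at ha0; exact absurd ha0 (by decide)
      · rw [ha2] at ha0; exact absurd ha0 (by decide)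
      · rw [hb2] at ha0; exact absurd ha0 (by decide)
      · rw [ha1] at hb0; exact absurd hb0 (by decide)
      · rw [hb1] at hb0; exact absurd hb0 (by decide)
      · rw [ha2] at hb0; exact absurd hb0 (by decide)
      · rw [hb2] at hb0; exact absurd hb0 (by decide)
      · rw [ha2] at ha1; exact absurd ha1 (by decide)
      · rw [hb2] at ha1; exact absurd ha1 (by decide)
      · rw [ha2] at hb1; exact absurd hb1 (by decide)
      · rw [hb2] at hb1; exact absurd hb1 (by decide)
    obtain ⟨n1, n2, n3, n4, n5, n6, n7, n8, n9, n10, n11, n12⟩ := hdist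
    have huniv : (univ : Finset I) = {a0, b0, a1, b1, a2, b2} := by
      ext i
      simp only [mem_univ, mem_insert, mem_singleton, true_iff]
      rcases hcov i with h1 | h1 | (h1 | h1) | (h1 | h1)
      · exact Or.inl h1
      · exact Or.inr (Or.inl h1)
      · exact Or.inr (Or.inr (Or.inl h1))
      · exact Or.inr (Or.inr (Or.inr (Or.inl h1)))
      · exact Or.inr (Or.inr (Or.inr (Or.inr (Or.inl h1))))
      · exact Or.inr (Or.inr (Or.inr (Or.inr (Or.inr h1))))
    have hN : ∀ s, N f s = (if f a0 = s then 1 else 0) + (if f b0 = s then 1 else 0) +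
        2 * (if f a1 = s then 1 else 0) + 2 * (if f a2 = s then 1 else 0) := by
      intro s
      unfold N
      rw [card_filter, huniv, sum_insert, sum_insert, sum_insert, sum_insert, sum_insert,
        sum_singleton, f2, f3]
      · ring
      · simp only [mem_singleton]; exact hab2
      · simp only [mem_insert, mem_singleton, not_or]; exact ⟨n11, n12⟩
      · simp only [mem_insert, mem_singleton, not_or]; exact ⟨hab1, n9, n10⟩
      · simp only [mem_insert, mem_singleton, not_or]; exact ⟨n5, n6, n7, n8⟩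
      · simp only [mem_insert, mem_singleton, not_or]; exact ⟨hab0, n1, n2, n3, n4⟩
    have hne : ∀ s : R 2 (k + 1), s ≠ s + h 2 (k + 1) := fun s he => h_ne_zero (left_eq_add.mp he)
    have hb : f b0 = f a0 + h 2 (k + 1) := by
      by_contra hcon
      have h1 := hU (f a0) 1
      rw [mul_one] at h1
      have hN1 := hN (f a0)
      have hN2 := hN (f a0 + h 2 (k + 1))
      rw [if_pos rfl] at hN1
      rw [if_neg (hne (f a0)), if_neg hcon] at hN2
      have h2 : (if f a1 = f a0 then 1 else 0) = if f a2 = f a0 + h 2 (k + 1) then 1 else 0 := by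
        congr 1
        rw [f1, eq_iff_iff]
        constructor
        · intro h3
          rw [← h3, add_assoc, hh, add_zero]
        · intro h3
          rw [h3, add_assoc, hh, add_zero]
      have h3 : (if f a2 = f a0 then 1 else 0) = if f a1 = f a0 + h 2 (k + 1) then 1 else 0 := by
        congr 1
        rw [f1, eq_iff_iff]
        constructor
        · intro h3
          rw [h3]
        · intro h3
          exact add_right_cancel h3
      rw [h2, h3] at hN1
      have h4 : N f (f a0) = N f (f a0 + h 2 (k + 1)) := h1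
      rw [hN1, hN2] at h4
      by_cases hz : f b0 = f a0
      · rw [if_pos hz] at h4
        omega
      · rw [if_neg hz] at h4
        omega
    rw [dot_sub]
    have h5 : dot (x b0) (y q0 - y r0) = dot (x a0) (y q0 - y r0) + h 2 (k + 1) := hb
    rw [h5, sub_add_cancel_left, neg_h]
  -- the basis
  have hdet : red 2 (k + 1) ((x a1 - x a0).1 * (x a2 - x a0).2 - (x a1 - x a0).2 * (x a2 - x a0).1)
      ≠ 0 := by
    have g1 : rd (x a1 - x a0) = (0, 1) := by rw [rd_sub, ha1, ha0]; decide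
    have g2 : rd (x a2 - x a0) = (1, 0) := by rw [rd_sub, ha2, ha0]; decide
    have g3 : red 2 (k + 1) (x a1 - x a0).1 = 0 := congrArg Prod.fst g1
    have g4 : red 2 (k + 1) (x a1 - x a0).2 = 1 := congrArg Prod.snd g1
    have g5 : red 2 (k + 1) (x a2 - x a0).1 = 1 := congrArg Prod.fst g2
    rw [map_sub, map_mul, map_mul, g3, g4, g5]
    simp
  obtain ⟨D, hD⟩ := (isUnit_of_red hdet).exists_left_inv
  obtain ⟨al, hal⟩ : ∃ al, x a0 - x b0 = al := ⟨_, rfl⟩
  obtain ⟨E1, hE1⟩ : ∃ E1, x a1 - x a0 = E1 := ⟨_, rfl⟩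
  obtain ⟨E2, hE2⟩ : ∃ E2, x a2 - x a0 = E2 := ⟨_, rfl⟩
  have halr : rd al = 0 := by rw [← hal, rd_sub, ha0, hb0, c2_self]
  obtain ⟨u, hu⟩ := red_eq_zero.mp (show red 2 (k + 1) al.1 = 0 from congrArg Prod.fst halr)
  obtain ⟨w, hw⟩ := red_eq_zero.mp (show red 2 (k + 1) al.2 = 0 from congrArg Prod.snd halr)
  rw [hE1, hE2] at hD
  -- `al = 2 P E1 + 2 Q E2`
  obtain ⟨P, hP⟩ : ∃ P, P = D * (u * E2.2 - w * E2.1) := ⟨_, rfl⟩
  obtain ⟨Q, hQ⟩ : ∃ Q, Q = D * (E1.1 * w - E1.2 * u) := ⟨_, rfl⟩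
  have hal1 : al.1 = ((2 : ℕ) : R 2 (k + 1)) * (P * E1.1 + Q * E2.1) := by
    rw [hu, hP, hQ]
    linear_combination (-((2 : ℕ) : R 2 (k + 1)) * u) * hD
  have hal2 : al.2 = ((2 : ℕ) : R 2 (k + 1)) * (P * E1.2 + Q * E2.2) := by
    rw [hw, hP, hQ]
    linear_combination (-((2 : ℕ) : R 2 (k + 1)) * w) * hD
  have hdot : ∀ z, dot al z = ((2 : ℕ) : R 2 (k + 1)) * (P * dot E1 z + Q * dot E2 z) := by
    intro z
    unfold dot
    rw [hal1, hal2]; ring
  have h2h := two_h (k := k + 1)
  -- values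
  have v1 : dot al (y q1 - y r1) = 0 := by
    have g : al = (x a0 - x a2) - (x b0 - x a2) := by rw [← hal]; abel
    rw [g, dot_sub, e1, e1', sub_self]
  have v2 : dot al (y q2 - y r2) = 0 := by
    have g : al = (x a0 - x a1) - (x b0 - x a1) := by rw [← hal]; abel
    rw [g, dot_sub, e2, e2', sub_self]
  have w1 : dot E2 (y q1 - y r1) = h 2 (k + 1) := by
    have g : dot E2 (y q1 - y r1) = -dot (x a0 - x a2) (y q1 - y r1) := by
      rw [← hE2, dot_sub, dot_sub]; ring
    rw [g, e1, neg_h]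
  have w2 : dot E1 (y q2 - y r2) = h 2 (k + 1) := by
    have g : dot E1 (y q2 - y r2) = -dot (x a0 - x a1) (y q2 - y r2) := by
      rw [← hE1, dot_sub, dot_sub]; ring
    rw [g, e2, neg_h]
  have w0 : dot E1 (y q0 - y r0) = dot E2 (y q0 - y r0) + h 2 (k + 1) := by
    have g : dot E1 (y q0 - y r0) - dot E2 (y q0 - y r0) = dot (x a1 - x a2) (y q0 - y r0) := by
      rw [← hE1, ← hE2, dot_sub, dot_sub, dot_sub]; ring
    rw [e0] at g
    linear_combination g
  rw [hE1] at c1
  rw [hE2] at c2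
  rw [hdot] at v1 v2
  rw [w1] at v1
  rw [w2] at v2
  rw [hal, hdot] at h0
  have z1 : P * (((2 : ℕ) : R 2 (k + 1)) * dot E1 (y q1 - y r1)) = 0 := by
    linear_combination v1 - Q * h2h
  have z2 : Q * (((2 : ℕ) : R 2 (k + 1)) * dot E2 (y q2 - y r2)) = 0 := by
    linear_combination v2 - P * h2h
  have z3 : P * (((2 : ℕ) : R 2 (k + 1)) * dot E1 (y q0 - y r0)) = 0 := by
    rcases c1 with c1 | c1
    · rw [c1, z1]
    · rw [c1, mul_neg, z1, neg_zero]
  have z4 : Q * (((2 : ℕ) : R 2 (k + 1)) * dot E2 (y q0 - y r0)) = 0 := by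
    rcases c2 with c2 | c2
    · rw [c2, z2]
    · rw [c2, mul_neg, z2, neg_zero]
  apply h_ne_zero (p := 2) (k := k + 1)
  linear_combination z3 + z4 - h0

end BHsm
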