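import Pool.Agent.Lib.MP_2b2af9_co.SixC

/-!
# Order six over the `2 ^ (k + 1)`-th roots of unity: the remaining cases
-/

set_option autoImplicit false

open Finset

set_option linter.unusedSectionVars false

namespace BHsm

/-! ### All columns congruent modulo `p` -/

section descent

variable {p : ℕ} [hp : Fact p.Prime] {k : ℕ}

variable (p k) in
/-- Reduction modulo `p ^ (k + 1)`. -/
def cst : R p (k + 1) →+* R p k :=
  ZMod.castHom (pow_dvd_pow p (Nat.le_succ (k + 1))) (ZMod (p ^ (k + 1)))

theorem cst_eq_zero {c : R p (k + 1)} : cst p k c = 0 ↔ (p : R p (k + 1)) * c = 0 := by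
  constructor
  · intro h1
    have h2 : ((c.val : ℕ) : R p k) = 0 := by
      rw [← h1]
      show _ = ZMod.castHom (pow_dvd_pow p (Nat.le_succ (k + 1))) (ZMod (p ^ (k + 1))) c
      rw [ZMod.castHom_apply, ZMod.natCast_val]
    rw [ZMod.natCast_eq_zero_iff] at h2
    obtain ⟨m, hm⟩ := h2
    have h3 : c = (p : R p (k + 1)) ^ (k + 1) * (m : R p (k + 1)) := by
      rw [← Nat.cast_pow, ← Nat.cast_mul, ← hm, ZMod.natCast_zmod_val]
    rw [h3, ← mul_assoc, ← pow_succ', cast_pow_succ, zero_mul]
  · intro h1
    obtain ⟨d, rfl⟩ := ann h1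
    unfold h
    rw [map_mul, map_pow, map_natCast, cast_pow_succ, zero_mul]

theorem cst_eq {a b : R p (k + 1)} :
    cst p k a = cst p k b ↔ (p : R p (k + 1)) * a = (p : R p (k + 1)) * b := by
  rw [← sub_eq_zero, ← map_sub, cst_eq_zero, mul_sub, sub_eq_zero]

theorem cst_surj (t : R p k) : ∃ c : R p (k + 1), cst p k c = t := by
  refine ⟨(t.val : R p (k + 1)), ?_⟩
  rw [map_natCast, ZMod.natCast_zmod_val]

variable {J : Type} [Fintype J]

theorem U.descend {g : J → R p (k + 1)} (hf : U fun j => (p : R p (k + 1)) * g j) :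
    U fun j => cst p k (g j) := by
  have h1 : ∀ a : R p (k + 1), N (fun j => cst p k (g j)) (cst p k a) =
      N (fun j => (p : R p (k + 1)) * g j) ((p : R p (k + 1)) * a) := by
    intro a
    unfold N
    congr 1
    ext j
    simp only [mem_filter, mem_univ, true_and]
    exact cst_eq
  intro s c
  obtain ⟨a, rfl⟩ := cst_surj s
  obtain ⟨b, rfl⟩ := cst_surj c
  have h2 : cst p k a + h p k * cst p k b = cst p k (a + (p : R p (k + 1)) ^ k * b) := by
    unfold h
    rw [map_add, map_mul, map_pow, map_natCast]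
  rw [h2, h1, h1, hf _ b]
  congr 1
  unfold h
  ring

variable {I : Type} [Fintype I]

theorem SP.descend {x : I → V p (k + 1)} {w : J → V p (k + 1)}
    (hs : SP x fun j => (p : R p (k + 1)) • w j) :
    SP (fun i => ((cst p k (x i).1, cst p k (x i).2) : V p k))
      (fun j => ((cst p k (w j).1, cst p k (w j).2) : V p k)) := by
  refine ⟨?_, ?_, hs.card⟩
  · intro i i' hi
    have h1 := hs.row i i' hi
    simp only [dot_smul'] at h1
    have h2 := h1.descend
    have h3 : (fun j => cst p k (dot (x i - x i') (w j))) = fun j =>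
        dot (((cst p k (x i).1, cst p k (x i).2) : V p k) - (cst p k (x i').1, cst p k (x i').2))
          (cst p k (w j).1, cst p k (w j).2) := by
      funext j
      unfold dot
      simp only [Prod.fst_sub, Prod.snd_sub, map_add, map_mul, map_sub]
    rw [h3] at h2
    exact h2
  · intro j j' hj
    have h1 := hs.col j j' hj
    have h0 : (fun i => dot (x i) ((p : R p (k + 1)) • w j - (p : R p (k + 1)) • w j')) =
        fun i => (p : R p (k + 1)) * dot (x i) (w j - w j') := by
      funext i
      rw [← smul_sub, dot_smul']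
    rw [h0] at h1
    have h2 := h1.descend
    have h3 : (fun i => cst p k (dot (x i) (w j - w j'))) = fun i =>
        dot ((cst p k (x i).1, cst p k (x i).2) : V p k)
          (((cst p k (w j).1, cst p k (w j).2) : V p k) - (cst p k (w j').1, cst p k (w j').2)) := by
      funext i
      unfold dot
      simp only [Prod.fst_sub, Prod.snd_sub, map_add, map_mul, map_sub]
    rw [h3] at h2
    exact h2

end descent

variable {k : ℕ} {I J : Type} [Fintype I] [Fintype J] [DecidableEq I] [DecidableEq J]

/-- Two classes of columns, one of which has two elements. -/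
theorem two_classes_aux {x : I → V 2 (k + 1)} {y : J → V 2 (k + 1)} (hs : SP x y)
    (hJ : Fintype.card J = 6) {i0 i1 i2 : I} (h0 : rd (x i0) = 0) (h1 : rd (x i1) = (1, 0))
    (h2 : rd (x i2) = (0, 1)) {t t' : C2} (htt : t ≠ t')
    (hall : ∀ j, rd (y j) = t ∨ rd (y j) = t') (ht : cl y t = 2) : False := by
  obtain ⟨b, b', hbb, hb, hb', hB⟩ := get2 ht
  have key : ∀ i i', dd (rd (x i) - rd (x i')) (t - t') ≠ 0 →
      dot (x i - x i') (y b - y b') = h 2 (k + 1) := by
    intro i i' hd
    have hne : i ≠ i' := by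
      rintro rfl
      rw [c2_self] at hd
      exact hd (by unfold dd; simp)
    obtain ⟨j', hj'⟩ := partner (hs.row i i' hne) b
    have h3 := rel_mod (rel_of_eq hj')
    rw [rd_sub, hb] at h3
    have h4 : rd (y j') = t := by
      rcases hall j' with h5 | h5
      · exact h5
      · exfalso
        rw [h5] at h3
        have g : ∀ a t t' : C2, dd a (t' - t) = 0 → dd a (t - t') = 0 := by decide
        exact hd (g _ _ _ h3)
    rcases hB j' h4 with h5 | h5
    · exfalso
      rw [h5] at hj'
      exact h_ne_zero (left_eq_add.mp hj')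
    · rw [h5] at hj'
      rw [dot_sub', hj', sub_add_cancel_left, neg_h]
  have same : ∀ i i' i'', rd (x i) ≠ rd (x i') → dd (rd (x i) - rd (x i'')) (t - t') ≠ 0 →
      dd (rd (x i') - rd (x i'')) (t - t') ≠ 0 → False := by
    intro i i' i'' hne hd hd'
    have h3 := key i i'' hd
    have h4 := key i' i'' hd'
    refine matching hs hJ i i' (prim_of ?_) b b' hbb ?_
    · rw [rd_sub]
      have g : ∀ u v : C2, u ≠ v → u - v ≠ 0 := by decide
      exact g _ _ hne
    · have h5 : dot (x i - x i') (y b - y b') =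
          dot (x i - x i'') (y b - y b') - dot (x i' - x i'') (y b - y b') := by
        rw [dot_sub, dot_sub, dot_sub]; ring
      rw [h5, h3, h4, sub_self]
  have hu : t - t' = (0, 1) ∨ t - t' = (1, 0) ∨ t - t' = (1, 1) := by
    have g : ∀ u v : C2, u ≠ v → u - v = (0, 1) ∨ u - v = (1, 0) ∨ u - v = (1, 1) := by decide
    exact g _ _ htt
  rcases hu with hu | hu | hu
  · refine same i0 i1 i2 ?_ ?_ ?_
    · rw [h0, h1]; decide
    · rw [h0, h2, hu]; decide
    · rw [h1, h2, hu]; decide
  · refine same i0 i2 i1 ?_ ?_ ?_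
    · rw [h0, h2]; decide
    · rw [h0, h1, hu]; decide
    · rw [h2, h1, hu]; decide
  · refine same i1 i2 i0 ?_ ?_ ?_
    · rw [h1, h2]; decide
    · rw [h1, h0, hu]; decide
    · rw [h2, h0, hu]; decide

theorem two_classes {x : I → V 2 (k + 1)} {y : J → V 2 (k + 1)} (hs : SP x y)
    (hJ : Fintype.card J = 6) {i0 i1 i2 : I} (h0 : rd (x i0) = 0) (h1 : rd (x i1) = (1, 0))
    (h2 : rd (x i2) = (0, 1)) {t t' : C2} (htt : t ≠ t')
    (hall : ∀ j, rd (y j) = t ∨ rd (y j) = t') (ht : 0 < cl y t) (ht' : 0 < cl y t') : False := by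
  have hu : t - t' = (0, 1) ∨ t - t' = (1, 0) ∨ t - t' = (1, 1) := by
    have g : ∀ u v : C2, u ≠ v → u - v = (0, 1) ∨ u - v = (1, 0) ∨ u - v = (1, 1) := by decide
    exact g _ _ htt
  obtain ⟨i, i', hd⟩ : ∃ i i', dd (rd (x i) - rd (x i')) (t - t') ≠ 0 := by
    rcases hu with hu | hu | hu
    · exact ⟨i0, i2, by rw [h0, h2, hu]; decide⟩
    · exact ⟨i0, i1, by rw [h0, h1, hu]; decide⟩
    · exact ⟨i0, i1, by rw [h0, h1, hu]; decide⟩
  have hne : i ≠ i' := by
    rintro rfl
    rw [c2_self] at hd
    exact hd (by unfold dd; simp)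
  have hcl : ∀ s, (s = t ∨ s = t') → 2 ∣ cl y s := by
    intro s hs'
    refine even_closed (hs.row i i' hne) _ ?_
    intro j hj j' hjj
    rw [mem_filter] at hj ⊢
    refine ⟨mem_univ _, ?_⟩
    have h3 := rel_mod hjj
    rw [rd_sub, hj.2] at h3
    by_contra hcon
    apply hd
    have h4 : rd (y j') - s = t - t' := by
      have g : ∀ u v : C2, u - v = v - u := by decide
      rcases hs' with rfl | rfl
      · rcases hall j' with h5 | h5
        · exact absurd h5 hcon
        · rw [h5]; exact g _ _
      · rcases hall j' with h5 | h5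
        · rw [h5]
        · exact absurd h5 hcon
    rw [← h4]
    exact h3
  have hsum : cl y t + cl y t' = 6 := by
    rw [← hJ, ← card_univ]
    unfold cl
    rw [← card_union_of_disjoint, ← filter_or]
    · congr 1
      rw [filter_eq_self]
      intro j _
      exact hall j
    · rw [disjoint_filter]
      intro j _ h3 h4
      exact htt (h3.symm.trans h4)
  have h3 := hcl t (Or.inl rfl)
  have h4 := hcl t' (Or.inr rfl)
  have h5 : cl y t = 2 ∨ cl y t' = 2 := by omega
  rcases h5 with h5 | h5
  · exact two_classes_aux hs hJ h0 h1 h2 htt hall h5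
  · exact two_classes_aux hs hJ h0 h1 h2 htt.symm (fun j => (hall j).symm) h5

theorem cl_translate (x : I → V 2 k) (c : V 2 k) (t : C2) :
    cl (fun i => x i - c) t = cl x (t + rd c) := by
  unfold cl
  congr 1
  ext i
  simp only [mem_filter, mem_univ, true_and]
  rw [rd_sub]
  have g : ∀ u v t : C2, u - v = t ↔ u = t + v := by decide
  exact g _ _ _

theorem rd_surj (t : C2) : ∃ c : V 2 k, rd c = t := by
  obtain ⟨a, ha⟩ := red_surj (p := 2) (k := k) t.1
  obtain ⟨b, hb⟩ := red_surj (p := 2) (k := k) t.2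
  exact ⟨(a, b), Prod.ext ha hb⟩

/-- There is no spectral pair of order six. -/
theorem six : ∀ (k : ℕ) (a b : Fin 6 → V 2 k), ¬ SP a b := by
  intro k
  induction k with
  | zero =>
    intro a b hs
    obtain ⟨i, i', hne, heq⟩ := Fintype.exists_ne_map_eq_of_card_lt a (by
      rw [Fintype.card_prod, ZMod.card, Fintype.card_fin]
      norm_num)
    exact hs.inj hne heq
  | succ k ih =>
    intro a b hs
    have hJ : Fintype.card (Fin 6) = 6 := Fintype.card_fin 6
    obtain ⟨x, y, i0, i1, i2, hs', h0, h1, h2, -⟩ := hs.dichotomy (by rw [hJ]; norm_num)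
      (by rw [hJ]; norm_num) (by rw [hJ]; norm_num)
    have r0 : rd (x i0) = 0 := by
      rw [h0]
      unfold rd
      simp
    have r1 : rd (x i1) = (1, 0) := by
      rw [h1]
      unfold rd
      simp
    have r2 : rd (x i2) = (0, 1) := by
      rw [h2]
      unfold rd
      simp
    have hx : T3 x := T3_of (i0 := i0) (i1 := i1) (i2 := i2) (by rw [r0, r1]; decide)
      (by rw [r0, r2]; decide) (by rw [r1, r2]; decide)
    by_cases hc0 : ∀ j, rd (y j) = rd (y 0)
    · -- all columns are congruent
      have hs2 := hs'.translate' (y 0)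
      have hw : ∀ j, ∃ w : V 2 (k + 1), y j - y 0 = ((2 : ℕ) : R 2 (k + 1)) • w := by
        intro j
        have h3 : rd (y j - y 0) = 0 := by rw [rd_sub, hc0 j, c2_self]
        obtain ⟨u, hu⟩ := red_eq_zero.mp
          (show red 2 (k + 1) (y j - y 0).1 = 0 from congrArg Prod.fst h3)
        obtain ⟨v, hv⟩ := red_eq_zero.mp
          (show red 2 (k + 1) (y j - y 0).2 = 0 from congrArg Prod.snd h3)
        exact ⟨(u, v), Prod.ext hu hv⟩
      choose w hw using hw
      have h3 : (fun j => y j - y 0) = fun j => ((2 : ℕ) : R 2 (k + 1)) • w j := funext hw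
      rw [h3] at hs2
      exact ih _ _ hs2.descend
    · push Not at hc0
      obtain ⟨j1, hj1⟩ := hc0
      by_cases hc1 : ∀ j, rd (y j) = rd (y 0) ∨ rd (y j) = rd (y j1)
      · exact two_classes hs' hJ r0 r1 r2 hj1.symm hc1 (cl_pos' y 0) (cl_pos' y j1)
      · push Not at hc1
        obtain ⟨j2, hj2, hj2'⟩ := hc1
        have hy : T3 y := T3_of (i0 := 0) (i1 := j1) (i2 := j2) hj1.symm hj2.symm hj2'.symm
        obtain ⟨t0, ht0, ht0'⟩ := cl_two hs' hJ hx hy
        obtain ⟨s0, hs0, hs0'⟩ := cl_two hs'.symm hJ hy hx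
        obtain ⟨c, hc⟩ := rd_surj (k := k + 1) s0
        obtain ⟨d, hd⟩ := rd_surj (k := k + 1) t0
        refine final ((hs'.translate c).translate' d) hJ ?_ ?_ ?_ ?_
        · rw [cl_translate, hc, zero_add]
          exact hs0
        · intro t ht
          rw [cl_translate, hc]
          apply hs0'
          have g : ∀ t s : C2, t ≠ 0 → t + s ≠ s := by decide
          exact g _ _ ht
        · rw [cl_translate, hd, zero_add]
          exact ht0
        · intro t ht
          rw [cl_translate, hd]
          apply ht0'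
          have g : ∀ t s : C2, t ≠ 0 → t + s ≠ s := by decide
          exact g _ _ ht

end BHsm
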