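import Pool.Agent.Lib.MP_2b2af9_co.SmallU

/-!
# Spectral pairs of small order in `(ℤ / p ^ (k + 1)) ^ 2`
-/

set_option autoImplicit false

open Finset

set_option linter.unusedSectionVars false

namespace BHsm

/-- The group. -/
abbrev V (p k : ℕ) := R p k × R p k

variable {p : ℕ} [hp : Fact p.Prime] {k : ℕ}

instance : Fact (1 < p ^ (k + 1)) := ⟨Nat.one_lt_pow (Nat.succ_ne_zero k) hp.out.one_lt⟩

theorem zne : (0 : R p k) ≠ 1 := zero_ne_one

/-- The pairing. -/
def dot (x y : V p k) : R p k := x.1 * y.1 + x.2 * y.2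

theorem dot_comm (x y : V p k) : dot x y = dot y x := by
  unfold dot; ring

theorem dot_add (x y z : V p k) : dot (x + y) z = dot x z + dot y z := by
  unfold dot; simp only [Prod.fst_add, Prod.snd_add]; ring

theorem dot_sub (x y z : V p k) : dot (x - y) z = dot x z - dot y z := by
  unfold dot; simp only [Prod.fst_sub, Prod.snd_sub]; ring

theorem dot_sub' (x y z : V p k) : dot x (y - z) = dot x y - dot x z := by
  unfold dot; simp only [Prod.fst_sub, Prod.snd_sub]; ring

theorem dot_smul (l : R p k) (x z : V p k) : dot (l • x) z = l * dot x z := by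
  unfold dot; simp only [Prod.smul_fst, Prod.smul_snd, smul_eq_mul]; ring

theorem dot_smul' (l : R p k) (x z : V p k) : dot x (l • z) = l * dot x z := by
  unfold dot; simp only [Prod.smul_fst, Prod.smul_snd, smul_eq_mul]; ring

theorem dot_zero (z : V p k) : dot 0 z = 0 := by
  unfold dot; simp

theorem dot_zero' (z : V p k) : dot z 0 = 0 := by
  unfold dot; simp

theorem annV {w : V p k} (hw : (p : R p k) • w = 0) : ∃ c d : R p k, w = (h p k * c, h p k * d) := by
  obtain ⟨c, hc⟩ := ann (p := p) (k := k) (x := w.1) (congrArg Prod.fst hw)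
  obtain ⟨d, hd⟩ := ann (p := p) (k := k) (x := w.2) (congrArg Prod.snd hw)
  exact ⟨c, d, Prod.ext hc hd⟩

theorem dot_h (x : V p k) (c d : R p k) :
    dot x (h p k * c, h p k * d) = h p k * (c * x.1 + d * x.2) := by
  unfold dot; ring

theorem exists_tau (w : V p k) (hw : w ≠ 0) :
    ∃ t : ℕ, ((p : R p k) ^ t) • w ≠ 0 ∧ (p : R p k) • (((p : R p k) ^ t) • w) = 0 := by
  classical
  have hex : ∃ t : ℕ, ((p : R p k) ^ t) • w = 0 := ⟨k + 1, by rw [cast_pow_succ, zero_smul]⟩
  have h0 : Nat.find hex ≠ 0 := by
    intro h1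
    have h2 := Nat.find_spec hex
    rw [h1, pow_zero, one_smul] at h2
    exact hw h2
  obtain ⟨t, ht⟩ := Nat.exists_eq_succ_of_ne_zero h0
  refine ⟨t, Nat.find_min hex (by omega), ?_⟩
  have h2 := Nat.find_spec hex
  rw [ht] at h2
  rw [smul_smul, ← pow_succ']
  exact h2

/-- Two vectors orthogonal to the same nonzero vector are proportional. -/
theorem prop_of_orth {F : Type} [Field F] {a b c d x y : F} (hz : x ≠ 0 ∨ y ≠ 0)
    (hab : a ≠ 0 ∨ b ≠ 0) (h1 : a * x + b * y = 0) (h2 : c * x + d * y = 0) :
    ∃ l : F, c = l * a ∧ d = l * b := by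
  have hdet : c * b = d * a := by
    rcases hz with hz | hz
    · apply mul_right_cancel₀ hz
      linear_combination b * h2 - d * h1
    · apply mul_right_cancel₀ hz
      linear_combination c * h1 - a * h2
  rcases hab with ha | hb
  · refine ⟨c / a, (div_mul_cancel₀ c ha).symm, ?_⟩
    rw [div_mul_eq_mul_div, hdet, mul_div_assoc, div_self ha, mul_one]
  · refine ⟨d / b, ?_, (div_mul_cancel₀ d hb).symm⟩
    rw [div_mul_eq_mul_div, ← hdet, mul_div_assoc, div_self hb, mul_one]

/-- If all line sums of a family of points of the plane over `ℤ / p` are equal. -/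
theorem sq_dvd_of_lines {I : Type} [Fintype I] (X Y : I → ZMod p)
    (hl : ∀ u v : ZMod p, u ≠ 0 ∨ v ≠ 0 →
      p * (univ.filter fun i => u * X i + v * Y i = 0).card = Fintype.card I) :
    p ^ 2 ∣ Fintype.card I := by
  classical
  have hpt : ∀ i, (∑ t : ZMod p, if X i + t * Y i = 0 then 1 else 0) + (if Y i = 0 then 1 else 0) =
      1 + p * (if X i = 0 ∧ Y i = 0 then 1 else 0) := by
    intro i
    by_cases hY : Y i = 0
    · by_cases hX : X i = 0
      · simp [hY, hX, ZMod.card]
        ring
      · simp [hY, hX]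
    · have h1 : ∀ t : ZMod p, X i + t * Y i = 0 ↔ t = -(X i) / Y i := by
        intro t
        rw [eq_div_iff hY]
        constructor
        · intro h2; linear_combination h2
        · intro h2; linear_combination h2
      simp [hY, h1]
  have hsum : (∑ t : ZMod p, (univ.filter fun i => X i + t * Y i = 0).card) +
      (univ.filter fun i => Y i = 0).card = Fintype.card I +
        p * (univ.filter fun i => X i = 0 ∧ Y i = 0).card := by
    simp only [card_filter]
    rw [sum_comm, ← sum_add_distrib, sum_congr rfl fun i _ => hpt i, sum_add_distrib, mul_sum]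
    simp
  have h1 : ∀ t : ZMod p, p * (univ.filter fun i => X i + t * Y i = 0).card = Fintype.card I := by
    intro t
    rw [← hl 1 t (Or.inl one_ne_zero)]
    simp only [one_mul]
  have h2 : p * (univ.filter fun i => Y i = 0).card = Fintype.card I := by
    rw [← hl 0 1 (Or.inr one_ne_zero)]
    simp only [zero_mul, zero_add, one_mul]
  have h3 := congrArg (fun m => p * m) hsum
  simp only [mul_add, mul_sum, h2] at h3
  rw [sum_congr rfl fun t _ => h1 t, sum_const, card_univ, ZMod.card, smul_eq_mul] at h3
  refine ⟨(univ.filter fun i => X i = 0 ∧ Y i = 0).card, ?_⟩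
  have h4 := Nat.add_left_cancel h3
  rw [h4]; ring

section

variable {I J : Type} [Fintype I] [Fintype J] [Nonempty I] [DecidableEq I] [DecidableEq J]
  {x : I → V p k} {y : J → V p k}

/-- More than `p` columns whose differences are killed by `p`. -/
theorem factG (col : ∀ j j', j ≠ j' → U fun i => dot (x i) (y j - y j')) (S : Finset J)
    (hS : p < S.card) (hd : ∀ j ∈ S, ∀ j' ∈ S, (p : R p k) • (y j - y j') = 0) :
    p ^ 2 ∣ Fintype.card I := by
  obtain ⟨j0, hj0⟩ : S.Nonempty := by
    rw [← card_pos]; omega
  have hcd : ∀ j, ∃ c d : R p k, j ∈ S → y j - y j0 = (h p k * c, h p k * d) := by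
    intro j
    by_cases hj : j ∈ S
    · obtain ⟨c, d, hcd⟩ := annV (hd j hj j0 hj0)
      exact ⟨c, d, fun _ => hcd⟩
    · exact ⟨0, 0, fun h1 => absurd h1 hj⟩
  choose c d hcd using hcd
  refine sq_dvd_of_lines (fun i => red p k (x i).1) (fun i => red p k (x i).2) ?_
  intro u v huv
  obtain ⟨j, hj, j', hj', hne, heq⟩ := exists_ne_map_eq_of_card_lt_of_maps_to
    (s := S) (t := (univ : Finset (ZMod p))) (by rw [card_univ, ZMod.card]; exact hS)
    (f := fun j => v * red p k (c j) - u * red p k (d j)) (fun _ _ => mem_coe.mpr (mem_univ _))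
  have h1 : y j - y j' = (h p k * (c j - c j'), h p k * (d j - d j')) := by
    have h2 : y j - y j' = (y j - y j0) - (y j' - y j0) := by abel
    rw [h2, hcd j hj, hcd j' hj', Prod.mk_sub_mk, mul_sub, mul_sub]
  have hU := col j j' hne
  rw [h1] at hU
  have hor : red p k (c j - c j') ≠ 0 ∨ red p k (d j - d j') ≠ 0 := by
    by_contra hcon
    push Not at hcon
    have h3 : h p k * (c j - c j') = 0 := h_mul_eq_zero.mpr hcon.1
    have h4 : h p k * (d j - d j') = 0 := h_mul_eq_zero.mpr hcon.2
    rw [h3, h4] at hU
    exact hU.not_const 0 fun i => dot_zero' _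
  have hfun : (fun i => dot (x i) (h p k * (c j - c j'), h p k * (d j - d j'))) =
      fun i => h p k * ((c j - c j') * (x i).1 + (d j - d j') * (x i).2) := by
    funext i
    exact dot_h _ _ _
  rw [hfun] at hU
  obtain ⟨l, hl1, hl2⟩ : ∃ l : ZMod p, red p k (c j - c j') = l * u ∧ red p k (d j - d j') = l * v := by
    refine prop_of_orth (x := v) (y := -u) ?_ huv (by ring) ?_
    · rcases huv with h3 | h3
      · exact Or.inr (neg_ne_zero.mpr h3)
      · exact Or.inl h3
    · rw [map_sub, map_sub]
      linear_combination heq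
  have hl0 : l ≠ 0 := by
    rintro rfl
    rw [zero_mul] at hl1 hl2
    rcases hor with h3 | h3
    · exact h3 hl1
    · exact h3 hl2
  rw [← hU.red_level 0]
  congr 2
  ext i
  simp only [mem_filter, mem_univ, true_and, map_add, map_mul, hl1, hl2]
  have h5 : l * u * (red p k) (x i).1 + l * v * (red p k) (x i).2 =
      l * (u * (red p k) (x i).1 + v * (red p k) (x i).2) := by ring
  rw [h5, mul_eq_zero]
  constructor
  · exact fun h6 => Or.inr h6
  · rintro (h6 | h6)
    · exact absurd h6 hl0
    · exact h6

/-- A column difference of order `p` forces `n = p`. -/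
theorem claimA (hIJ : Fintype.card I = Fintype.card J)
    (row : ∀ i i', i ≠ i' → U fun j => dot (x i - x i') (y j))
    (col : ∀ j j', j ≠ j' → U fun i => dot (x i) (y j - y j'))
    (i0 : I) (hi0 : x i0 = 0)
    (nd : ∀ (j j' : J) (l : R p k), (∀ i, dot (x i) (l • (y j - y j')) = 0) → l • (y j - y j') = 0)
    (hn : ¬ p ^ 2 ∣ Fintype.card I) (j1 j2 : J) (hj : j1 ≠ j2)
    (hp1 : (p : R p k) • (y j1 - y j2) = 0) : Fintype.card I = p := by
  obtain ⟨c, d, hcd⟩ := annV hp1
  have hU := col j1 j2 hj
  have hUy := hU
  have hor : red p k c ≠ 0 ∨ red p k d ≠ 0 := by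
    by_contra hcon
    push Not at hcon
    have h3 : h p k * c = 0 := h_mul_eq_zero.mpr hcon.1
    have h4 : h p k * d = 0 := h_mul_eq_zero.mpr hcon.2
    rw [hcd, h3, h4] at hU
    exact hU.not_const 0 fun i => dot_zero' _
  have hfun : (fun i => dot (x i) (y j1 - y j2)) = fun i => h p k * (c * (x i).1 + d * (x i).2) := by
    funext i
    rw [hcd]
    exact dot_h _ _ _
  rw [hfun] at hU
  have hlev := hU.red_level
  obtain ⟨m, hm⟩ := hUy.dvd_card
  have hm' : ∀ t, (univ.filter fun i => red p k (c * (x i).1 + d * (x i).2) = t).card = m := by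
    intro t
    have h1 := hlev t
    rw [hm] at h1
    exact Nat.eq_of_mul_eq_mul_left hp.out.pos h1
  have hpm : ¬ p ∣ m := by
    rintro ⟨m', rfl⟩
    apply hn
    rw [hm]
    exact ⟨m', by ring⟩
  -- step 1
  have hlift : ∀ (j j' : J), (p : R p k) • (y j - y j') ≠ 0 → ∃ (l c' d' : R p k), red p k l = 0 ∧
      l • (y j - y j') = (h p k * c', h p k * d') ∧ (red p k c' ≠ 0 ∨ red p k d' ≠ 0) := by
    intro j j' hne
    obtain ⟨t, ht1, ht2⟩ := exists_tau _ hne
    obtain ⟨c', d', hcd'⟩ := annV ht2
    refine ⟨(p : R p k) ^ t * (p : R p k), c', d', ?_, ?_, ?_⟩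
    · rw [map_mul, red_p, mul_zero]
    · rw [← hcd', smul_smul]
    · by_contra hcon
      push Not at hcon
      have h3 : h p k * c' = 0 := h_mul_eq_zero.mpr hcon.1
      have h4 : h p k * d' = 0 := h_mul_eq_zero.mpr hcon.2
      rw [hcd', h3, h4] at ht1
      exact ht1 rfl
  have step1 : ∀ i i', red p k (c * (x i).1 + d * (x i).2) = red p k (c * (x i').1 + d * (x i').2) →
      red p k (x i - x i').1 = 0 ∧ red p k (x i - x i').2 = 0 := by
    intro i i' hφ
    by_contra hcon
    have hz : red p k (x i - x i').1 ≠ 0 ∨ red p k (x i - x i').2 ≠ 0 := by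
      by_contra h1
      push Not at h1
      exact hcon h1
    have hii : i ≠ i' := by
      rintro rfl
      rw [sub_self] at hz
      simp at hz
    have hf := row i i' hii
    have hzy : dot (x i - x i') (y j1 - y j2) = 0 := by
      rw [hcd, dot_h, h_mul_eq_zero]
      simp only [Prod.fst_sub, Prod.snd_sub, map_add, map_mul, map_sub] at hφ ⊢
      linear_combination hφ
    have hf12 : dot (x i - x i') (y j1) = dot (x i - x i') (y j2) := by
      rw [dot_sub', sub_eq_zero] at hzy
      exact hzy
    have hcard := hf.card_class (dot (x i - x i') (y j1))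
    have h2 : 2 ≤ N (fun j => dot (x i - x i') (y j)) (dot (x i - x i') (y j1)) := by
      unfold N
      rw [← card_pair hj]
      apply card_le_card
      intro j hjj
      rw [mem_insert, mem_singleton] at hjj
      rw [mem_filter]
      refine ⟨mem_univ _, ?_⟩
      rcases hjj with rfl | rfl
      · rfl
      · exact hf12.symm
    have hz2 : red p k (x i - x i').1 ≠ 0 ∨ red p k (x i - x i').2 ≠ 0 := hz
    apply hn
    have hkey : ∀ j ∈ (univ.filter fun j => (p : R p k) * dot (x i - x i') (y j) =
        (p : R p k) * dot (x i - x i') (y j1)), (p : R p k) • (y j - y j1) = 0 := by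
      intro j hjS
      rw [mem_filter] at hjS
      by_contra hne
      have hjj : j ≠ j1 := by
        rintro rfl
        rw [sub_self, smul_zero] at hne
        exact hne rfl
      obtain ⟨l, c', d', hl, hlw, hcd'⟩ := hlift j j1 hne
      obtain ⟨l', hl'⟩ := red_eq_zero.mp hl
      have hzw : dot (x i - x i') (l • (y j - y j1)) = 0 := by
        rw [dot_smul', hl', dot_sub']
        linear_combination l' * hjS.2
      rw [hlw, dot_h, h_mul_eq_zero, map_add, map_mul, map_mul] at hzw
      have hzy' := hzy
      rw [hcd, dot_h, h_mul_eq_zero, map_add, map_mul, map_mul] at hzy'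
      obtain ⟨q, hq1, hq2⟩ := prop_of_orth hz2 hor hzy' hzw
      have hq0 : q ≠ 0 := by
        rintro rfl
        rw [zero_mul] at hq1 hq2
        rcases hcd' with h5 | h5
        · exact h5 hq1
        · exact h5 hq2
      obtain ⟨qq, hqq⟩ := red_surj (p := p) (k := k) q
      have hqu : IsUnit qq := isUnit_of_red (by rw [hqq]; exact hq0)
      have hUw : U fun i => l * dot (x i) (y j - y j1) := by
        have h6 : (fun i => l * dot (x i) (y j - y j1)) = fun i => qq * dot (x i) (y j1 - y j2) := by
          funext i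
          rw [← dot_smul', hlw, hcd, dot_h, dot_h]
          have h7 : qq * (h p k * (c * (x i).1 + d * (x i).2)) =
              h p k * (qq * (c * (x i).1 + d * (x i).2)) := by ring
          rw [h7, h_mul_eq]
          simp only [map_add, map_mul, hq1, hq2, hqq]
          ring
        rw [h6]
        exact hUy.unit_mul hqu
      exact hn ((col j j1 hjj).sq_dvd_of_mul hl hUw)
    refine factG (x := x) (y := y) col
      (univ.filter fun j => (p : R p k) * dot (x i - x i') (y j) =
        (p : R p k) * dot (x i - x i') (y j1)) ?_ ?_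
    · rw [hcard]
      have := hp.out.pos
      nlinarith
    · intro j hjS j' hjS'
      have h8 : y j - y j' = (y j - y j1) - (y j' - y j1) := by abel
      rw [h8, smul_sub, hkey j hjS, hkey j' hjS', sub_zero]
  -- step 3
  have step3 : ∀ j j', (p : R p k) • (y j - y j') = 0 := by
    intro j j'
    by_contra hne
    have hjj : j ≠ j' := by
      rintro rfl
      rw [sub_self, smul_zero] at hne
      exact hne rfl
    obtain ⟨l, c', d', hl, hlw, hcd'⟩ := hlift j j' hne
    have hψ : ∀ i, l * dot (x i) (y j - y j') = h p k * (c' * (x i).1 + d' * (x i).2) := by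
      intro i
      rw [← dot_smul', hlw, dot_h]
    have hdvd := (col j j' hjj).dvd_level hl 0
    set D : Finset I := univ.filter fun i => l * dot (x i) (y j - y j') = 0 with hD
    have hDN : N (fun i => l * dot (x i) (y j - y j')) 0 = D.card := rfl
    rw [hDN] at hdvd
    have hi0D : i0 ∈ D := by
      rw [hD, mem_filter]
      refine ⟨mem_univ _, ?_⟩
      rw [hi0, dot_zero, mul_zero]
    have hcardD : D.card = (D.image fun i => red p k (c * (x i).1 + d * (x i).2)).card * m := by
      rw [card_eq_sum_card_image (fun i => red p k (c * (x i).1 + d * (x i).2)) D]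
      rw [sum_const_nat (m := m)]
      intro t ht
      rw [mem_image] at ht
      obtain ⟨i, hiD, rfl⟩ := ht
      rw [← hm' (red p k (c * (x i).1 + d * (x i).2))]
      congr 1
      ext i'
      simp only [mem_filter, mem_univ, true_and, and_iff_right_iff_imp]
      intro h9
      obtain ⟨h10, h11⟩ := step1 i' i h9
      rw [hD, mem_filter] at hiD ⊢
      refine ⟨mem_univ _, ?_⟩
      rw [← hiD.2, hψ, hψ, h_mul_eq]
      simp only [Prod.fst_sub, Prod.snd_sub, map_sub] at h10 h11
      simp only [map_add, map_mul]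
      linear_combination red p k c' * h10 + red p k d' * h11
    rw [hcardD] at hdvd
    have h12 : p ∣ (D.image fun i => red p k (c * (x i).1 + d * (x i).2)).card :=
      (hp.out.dvd_mul.mp hdvd).resolve_right hpm
    have h13 : (D.image fun i => red p k (c * (x i).1 + d * (x i).2)).card ≤ p := by
      calc _ ≤ (univ : Finset (ZMod p)).card := card_le_card (subset_univ _)
        _ = p := by rw [card_univ, ZMod.card]
    have h14 : 0 < (D.image fun i => red p k (c * (x i).1 + d * (x i).2)).card :=
      card_pos.mpr ⟨_, mem_image_of_mem _ hi0D⟩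
    have h15 : (D.image fun i => red p k (c * (x i).1 + d * (x i).2)).card = p :=
      le_antisymm h13 (Nat.le_of_dvd h14 h12)
    rw [h15, ← hm, ← card_univ] at hcardD
    have h16 : D = univ := (card_eq_iff_eq_univ D).mp (by rw [hcardD, card_univ])
    have h17 := nd j j' l (fun i => by
      rw [dot_smul']
      have h18 : i ∈ D := by rw [h16]; exact mem_univ i
      rw [hD, mem_filter] at h18
      exact h18.2)
    rw [hlw] at h17
    have h19 : h p k * c' = 0 := congrArg Prod.fst h17
    have h20 : h p k * d' = 0 := congrArg Prod.snd h17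
    rw [h_mul_eq_zero] at h19 h20
    rcases hcd' with h21 | h21
    · exact h21 h19
    · exact h21 h20
  have hle : Fintype.card I ≤ p := by
    by_contra hlt
    push Not at hlt
    apply hn
    refine factG (x := x) (y := y) col univ ?_ (fun j _ j' _ => step3 j j')
    rw [card_univ, ← hIJ]
    exact hlt
  exact le_antisymm hle (Nat.le_of_dvd Fintype.card_pos hUy.dvd_card)

theorem class_mul_le {f : J → R p k} (hf : U f) :
    p * (univ.image fun j => (p : R p k) * f j).card ≤ Fintype.card J := by
  rw [← card_univ (α := J)]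
  refine mul_card_image_le_card _ _ fun u hu => ?_
  rw [mem_image] at hu
  obtain ⟨j, -, rfl⟩ := hu
  rw [hf.card_class]
  have h1 : 0 < N f (f j) := by
    unfold N
    rw [card_pos]
    exact ⟨j, by rw [mem_filter]; exact ⟨mem_univ _, rfl⟩⟩
  exact Nat.le_mul_of_pos_right _ h1

/-- If no column difference has order `p`. -/
theorem claimB (hJ : 0 < Fintype.card J)
    (row : ∀ i i', i ≠ i' → U fun j => dot (x i - x i') (y j))
    (i0 i1 i2 : I) (hi0 : x i0 = 0) (hi1 : x i1 = (1, 0)) (hi2 : x i2 = (0, 1))
    (hinj : ∀ j j', j ≠ j' → (p : R p k) • (y j - y j') ≠ 0) : p ^ 2 ≤ Fintype.card J := by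
  have hne1 : i1 ≠ i0 := by
    rintro rfl
    rw [hi0] at hi1
    exact zne (congrArg Prod.fst hi1)
  have hne2 : i2 ≠ i0 := by
    rintro rfl
    rw [hi0] at hi2
    exact zne (congrArg Prod.snd hi2)
  have h1 := row i1 i0 hne1
  have h2 := row i2 i0 hne2
  have e1 : (fun j => dot (x i1 - x i0) (y j)) = fun j => (y j).1 := by
    funext j
    rw [hi1, hi0, sub_zero]
    unfold dot
    simp
  have e2 : (fun j => dot (x i2 - x i0) (y j)) = fun j => (y j).2 := by
    funext j
    rw [hi2, hi0, sub_zero]
    unfold dot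
    simp
  rw [e1] at h1
  rw [e2] at h2
  have h3 := class_mul_le h1
  have h4 := class_mul_le h2
  have h5 : Fintype.card J ≤ (univ.image fun j => (p : R p k) * (y j).1).card *
      (univ.image fun j => (p : R p k) * (y j).2).card := by
    rw [← card_product, ← card_univ (α := J)]
    refine card_le_card_of_injOn (fun j => ((p : R p k) * (y j).1, (p : R p k) * (y j).2)) ?_ ?_
    · intro j _
      rw [mem_coe, mem_product]
      exact ⟨mem_image_of_mem _ (mem_univ j), mem_image_of_mem _ (mem_univ j)⟩
    · intro j _ j' _ hjj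
      by_contra hne
      apply hinj j j' hne
      simp only [Prod.mk.injEq] at hjj
      refine Prod.ext ?_ ?_
      · show (p : R p k) * ((y j).1 - (y j').1) = 0
        rw [mul_sub, hjj.1, sub_self]
      · show (p : R p k) * ((y j).2 - (y j').2) = 0
        rw [mul_sub, hjj.2, sub_self]
  set A := (univ.image fun j => (p : R p k) * (y j).1).card
  set B := (univ.image fun j => (p : R p k) * (y j).2).card
  have h6 : p ^ 2 * Fintype.card J ≤ Fintype.card J * Fintype.card J := by
    calc p ^ 2 * Fintype.card J ≤ p ^ 2 * (A * B) := Nat.mul_le_mul_left _ h5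
      _ = (p * A) * (p * B) := by ring
      _ ≤ Fintype.card J * Fintype.card J := Nat.mul_le_mul h3 h4
  exact Nat.le_of_mul_le_mul_right h6 hJ

end

end BHsm
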