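import Pool.Agent.Lib.MP_2b2af9_co.SmallQ
import Pool.Agent.Lib.MP_2b2af9_co.OneC

/-!
# The order of a spectral pair of small order
-/

set_option autoImplicit false

open Finset

set_option linter.unusedSectionVars false

namespace BHsm

section

variable {p : ℕ} [hp : Fact p.Prime]

/-- The residues of an integer vector. -/
def toV (p k : ℕ) (x : ℤ × ℤ) : V p k := ((x.1 : R p k), (x.2 : R p k))

theorem dot_toV (k : ℕ) (x y : ℤ × ℤ) :
    dot (toV p k x) (toV p k y) = ((dotZ x y : ℤ) : R p k) := by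
  unfold dot toV dotZ
  push_cast
  ring

theorem toV_sub (k : ℕ) (x y : ℤ × ℤ) : toV p k x - toV p k y = toV p k (x - y) := by
  unfold toV
  rw [Prod.mk_sub_mk, Prod.fst_sub, Prod.snd_sub, Int.cast_sub, Int.cast_sub]

theorem SPZ.toSP {k n : ℕ} {a b : Fin n → ℤ × ℤ} (hs : SPZ (p ^ (k + 1)) a b) :
    SP (fun i => toV p k (a i)) (fun j => toV p k (b j)) := by
  refine ⟨fun i i' hi => ?_, fun j j' hj => ?_, rfl⟩
  · apply U.of_sum
    rw [← hs.row i i' hi]
    refine sum_congr rfl fun j _ => ?_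
    rw [toV_sub, dot_toV, e_std]
  · apply U.of_sum
    rw [← hs.col j j' hj]
    refine sum_congr rfl fun i _ => ?_
    rw [toV_sub, dot_toV, e_std]

end

theorem e_one (m : ℤ) : e 1 m = 1 := by
  have := e_pow_q 1 one_ne_zero m
  rwa [pow_one] at this

theorem main {p n q : ℕ} (hp : p.Prime) (hn : 0 < n) (hq : 0 < q)
    (hpr : ∀ P : ℕ, P.Prime → P ∣ q → P ≠ p → n ≤ P + 1)
    (hsm : ¬ p ^ 2 ∣ n ∨ n < 2 * p ^ 2 ∨ n ≤ 9)
    {a b : Fin n → ℤ × ℤ} (hs : SPZ q a b) : n ∣ q ^ 2 := by
  have : Fact p.Prime := ⟨hp⟩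
  have hp2 := hp.two_le
  by_contra hnd
  have hn1 : n ≠ 1 := by
    rintro rfl
    exact hnd (one_dvd _)
  have hnq : ¬ n ∣ q := fun h1 => hnd (h1.trans (dvd_pow_self q two_ne_zero))
  obtain ⟨k, hkq, hsk⟩ := hs.reduce (by omega) q hq hpr hnq
  have hk0 : k ≠ 0 := by
    rintro rfl
    have h1 := hsk.row ⟨0, hn⟩ ⟨1, by omega⟩ (by
      intro h2
      have := congrArg Fin.val h2
      simp at this)
    rw [pow_zero] at h1
    simp only [e_one] at h1
    rw [sum_const, card_univ, Fintype.card_fin, nsmul_eq_mul, mul_one] at h1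
    have : n = 0 := by exact_mod_cast h1
    omega
  obtain ⟨k', rfl⟩ := Nat.exists_eq_succ_of_ne_zero hk0
  have hSP := hsk.toSP (p := p) (k := k')
  have hpq : p ∣ q := (dvd_pow_self p (Nat.succ_ne_zero k')).trans hkq
  have hp2q : p ^ 2 ∣ q ^ 2 := pow_dvd_pow_of_dvd hpq 2
  -- order eight
  have h8 : p = 2 → n ≠ 8 := by
    rintro rfl rfl
    by_cases hk : k' = 0
    · subst hk
      obtain ⟨i, i', hne, heq⟩ := Fintype.exists_ne_map_eq_of_card_lt
        (fun i => toV 2 0 (a i)) (by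
          rw [Fintype.card_prod, ZMod.card, Fintype.card_fin]
          norm_num)
      exact hSP.inj hne heq
    · apply hnd
      have h1 : 2 ^ 2 ∣ q := (pow_dvd_pow 2 (by omega)).trans hkq
      have h2 : (2 ^ 2) ^ 2 ∣ q ^ 2 := pow_dvd_pow_of_dvd h1 2
      exact dvd_trans (by norm_num) h2
  rcases BHone.one hSP (by rw [Fintype.card_fin]; omega) with h1 | h1
  · rw [Fintype.card_fin] at h1
    apply hnq
    rw [h1]
    exact hpq
  · rw [Fintype.card_fin] at h1
    have hsm' : n < 2 * p ^ 2 ∨ n ≤ 9 := hsm.resolve_left fun h2 => h2 h1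
    obtain ⟨m, hm⟩ := h1
    have hm0 : m ≠ 0 := by
      rintro rfl
      omega
    by_cases hm1 : m = 1
    · apply hnd
      rw [hm, hm1, mul_one]
      exact hp2q
    · have hm2 : 2 ≤ m := by omega
      have h2 : p ^ 2 * 2 ≤ n := by
        rw [hm]
        exact Nat.mul_le_mul_left _ hm2
      have h3 : n ≤ 9 := by
        rcases hsm' with h4 | h4
        · exfalso
          nlinarith
        · exact h4
      have h5 : p = 2 := by
        by_contra hne
        have : 3 ≤ p := by omega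
        nlinarith
      subst h5
      apply h8 rfl
      omega

end BHsm
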