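import Pool.Agent.Lib.MP_2b2af9_co.SmallA

/-!
# A normal form for families of points of `(ℤ / p ^ (k + 1)) ^ 2`
-/

set_option autoImplicit false

open Finset

set_option linter.unusedSectionVars false

namespace BHsm

variable {p : ℕ} [hp : Fact p.Prime] {k : ℕ}

/-- The family `a` is, up to a translation, the image of a family `x` which contains `(0, 0)`,
`(1, 0)` and (unless the second vector is `0`) `(0, 1)` under the map given by two vectors. -/
def Normal {I : Type} (a x : I → V p k) (d1 d2 : V p k) (i0 i1 : I) : Prop :=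
  x i0 = 0 ∧ x i1 = (1, 0) ∧ ((∃ i2, x i2 = (0, 1)) ∨ d2 = 0) ∧
    ∀ i, a i - a i0 = (x i).1 • d1 + (x i).2 • d2

theorem normal_aux {I : Type} [Fintype I] [DecidableEq I] (a : I → V p k) (i0 i1 : I)
    (hne : a i1 ≠ a i0)
    (h1 : ∀ i, (a i1 - a i0).1 ∣ (a i - a i0).1) :
    ∃ (x : I → V p k) (d1 d2 : V p k), Normal a x d1 d2 i0 i1 := by
  have hi : i1 ≠ i0 := by
    rintro rfl
    exact hne rfl
  have hα : ∀ i, ∃ α : R p k, (a i - a i0).1 = α * (a i1 - a i0).1 ∧ (i = i0 → α = 0) ∧
      (i = i1 → α = 1) := by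
    intro i
    by_cases hii0 : i = i0
    · refine ⟨0, ?_, fun _ => rfl, fun h2 => absurd (h2.symm.trans hii0) hi⟩
      rw [hii0, sub_self, zero_mul]
      rfl
    · by_cases hii1 : i = i1
      · refine ⟨1, ?_, fun h2 => absurd h2 hii0, fun _ => rfl⟩
        rw [hii1, one_mul]
      · obtain ⟨c, hc⟩ := h1 i
        exact ⟨c, by rw [hc, mul_comm], fun h2 => absurd h2 hii0, fun h2 => absurd h2 hii1⟩
  choose α hα1 hα2 hα3 using hα
  set β : I → R p k := fun i => (a i - a i0).2 - α i * (a i1 - a i0).2 with hβ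
  have : Nonempty I := ⟨i0⟩
  obtain ⟨i2, hi2⟩ := exists_dvd_all β
  have hβ0 : β i0 = 0 := by
    rw [hβ]
    simp only
    rw [hα2 i0 rfl, sub_self, zero_mul, sub_zero]
    rfl
  have hβ1 : β i1 = 0 := by
    rw [hβ]
    simp only
    rw [hα3 i1 rfl, one_mul, sub_self]
  by_cases hz : β i2 = 0
  · have hall : ∀ i, β i = 0 := by
      intro i
      have := hi2 i
      rw [hz, zero_dvd_iff] at this
      exact this
    refine ⟨fun i => (α i, 0), a i1 - a i0, 0, ?_, ?_, Or.inr rfl, ?_⟩
    · show (α i0, (0 : R p k)) = 0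
      rw [hα2 i0 rfl]
      rfl
    · show (α i1, (0 : R p k)) = (1, 0)
      rw [hα3 i1 rfl]
    · intro i
      have h2 := hall i
      rw [hβ] at h2
      simp only at h2
      refine Prod.ext ?_ ?_
      · show (a i - a i0).1 = α i * (a i1 - a i0).1 + 0 * 0
        rw [hα1 i]; ring
      · show (a i - a i0).2 = α i * (a i1 - a i0).2 + 0 * 0
        linear_combination h2
  · have hγ : ∀ i, ∃ γ : R p k, β i = γ * β i2 ∧ (i = i0 → γ = 0) ∧ (i = i1 → γ = 0) ∧
        (i = i2 → γ = 1) := by
      intro i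
      by_cases hii0 : i = i0
      · refine ⟨0, ?_, fun _ => rfl, fun _ => rfl, fun h2 => ?_⟩
        · rw [hii0, hβ0, zero_mul]
        · exfalso
          apply hz
          rw [← h2, hii0, hβ0]
      · by_cases hii1 : i = i1
        · refine ⟨0, ?_, fun _ => rfl, fun _ => rfl, fun h2 => ?_⟩
          · rw [hii1, hβ1, zero_mul]
          · exfalso
            apply hz
            rw [← h2, hii1, hβ1]
        · by_cases hii2 : i = i2
          · refine ⟨1, ?_, fun h2 => absurd h2 hii0, fun h2 => absurd h2 hii1, fun _ => rfl⟩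
            rw [hii2, one_mul]
          · obtain ⟨c, hc⟩ := hi2 i
            exact ⟨c, by rw [hc, mul_comm], fun h2 => absurd h2 hii0, fun h2 => absurd h2 hii1,
              fun h2 => absurd h2 hii2⟩
    choose γ hγ1 hγ2 hγ3 hγ4 using hγ
    refine ⟨fun i => (α i - γ i * α i2, γ i), a i1 - a i0, a i2 - a i0, ?_, ?_, Or.inl ⟨i2, ?_⟩, ?_⟩
    · show (α i0 - γ i0 * α i2, γ i0) = 0
      rw [hα2 i0 rfl, hγ2 i0 rfl, zero_mul, sub_zero]
      rfl
    · show (α i1 - γ i1 * α i2, γ i1) = (1, 0)
      rw [hα3 i1 rfl, hγ3 i1 rfl, zero_mul, sub_zero]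
    · show (α i2 - γ i2 * α i2, γ i2) = (0, 1)
      rw [hγ4 i2 rfl, one_mul, sub_self]
    · intro i
      have h2 := hγ1 i
      have h3 := hα1 i
      have h4 := hα1 i2
      rw [hβ] at h2
      simp only at h2
      refine Prod.ext ?_ ?_
      · show (a i - a i0).1 = (α i - γ i * α i2) * (a i1 - a i0).1 + γ i * (a i2 - a i0).1
        linear_combination h3 - γ i * h4
      · show (a i - a i0).2 = (α i - γ i * α i2) * (a i1 - a i0).2 + γ i * (a i2 - a i0).2
        linear_combination h2

theorem exists_normal {I : Type} [Fintype I] [DecidableEq I] (a : I → V p k) (i' i'' : I)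
    (hne : a i' ≠ a i'') :
    ∃ (x : I → V p k) (d1 d2 : V p k) (i0 i1 : I), Normal a x d1 d2 i0 i1 := by
  have : Nonempty I := ⟨i''⟩
  obtain ⟨⟨i1, b1⟩, hall⟩ := exists_dvd_all (I := I × Bool)
    (fun s => if s.2 then (a s.1 - a i'').1 else (a s.1 - a i'').2)
  have hne1 : a i1 ≠ a i'' := by
    intro he
    apply hne
    have h1 := hall (i', true)
    have h2 := hall (i', false)
    simp only [he, sub_self, Prod.fst_zero, Prod.snd_zero, ite_self, zero_dvd_iff, if_true,
      Bool.false_eq_true, if_false] at h1 h2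
    exact sub_eq_zero.mp (Prod.ext h1 h2)
  cases b1 with
  | true =>
    have h1 : ∀ i, (a i1 - a i'').1 ∣ (a i - a i'').1 := by
      intro i
      have := hall (i, true)
      simpa using this
    obtain ⟨x, d1, d2, hN⟩ := normal_aux a i'' i1 hne1 h1
    exact ⟨x, d1, d2, i'', i1, hN⟩
  | false =>
    have h1 : ∀ i, (a i1 - a i'').2 ∣ (a i - a i'').2 := by
      intro i
      have := hall (i, false)
      simpa using this
    obtain ⟨x, d1, d2, hN⟩ := normal_aux (fun i => (a i).swap) i'' i1
      (fun he => hne1 (Prod.swap_injective he)) h1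
    refine ⟨x, d1.swap, d2.swap, i'', i1, hN.1, hN.2.1, ?_, ?_⟩
    · rcases hN.2.2.1 with h2 | h2
      · exact Or.inl h2
      · right
        rw [h2]
        rfl
    · intro i
      have h3 := hN.2.2.2 i
      refine Prod.ext ?_ ?_
      · exact congrArg Prod.snd h3
      · exact congrArg Prod.fst h3

end BHsm
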