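import Pool.Agent.Lib.MP_2b2af9_co.SmallN

/-!
# Spectral pairs in `(ℤ / p ^ (k + 1)) ^ 2` of order less than `p ^ 2 + p`
-/

set_option autoImplicit false

open Finset

set_option linter.unusedSectionVars false

namespace BHsm

variable {p : ℕ} [hp : Fact p.Prime] {k : ℕ}

/-- A spectral pair. -/
structure SP {I J : Type} [Fintype I] [Fintype J] (x : I → V p k) (y : J → V p k) : Prop where
  row : ∀ i i', i ≠ i' → U fun j => dot (x i - x i') (y j)
  col : ∀ j j', j ≠ j' → U fun i => dot (x i) (y j - y j')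
  card : Fintype.card I = Fintype.card J

variable {I J : Type} [Fintype I] [Fintype J] [DecidableEq I] [DecidableEq J]

theorem SP.symm {x : I → V p k} {y : J → V p k} (hs : SP x y) : SP y x := by
  refine ⟨?_, ?_, hs.card.symm⟩
  · intro j j' hj
    have h1 : (fun i => dot (y j - y j') (x i)) = fun i => dot (x i) (y j - y j') := by
      funext i
      exact dot_comm _ _
    rw [h1]
    exact hs.col j j' hj
  · intro i i' hi
    have h1 : (fun j => dot (y j) (x i - x i')) = fun j => dot (x i - x i') (y j) := by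
      funext j
      exact dot_comm _ _
    rw [h1]
    exact hs.row i i' hi

/-- Translations of the rows. -/
theorem SP.translate {x : I → V p k} {y : J → V p k} (hs : SP x y) (t : V p k) :
    SP (fun i => x i - t) y := by
  refine ⟨?_, ?_, hs.card⟩
  · intro i i' hi
    have h1 : (fun j => dot (x i - t - (x i' - t)) (y j)) = fun j => dot (x i - x i') (y j) := by
      funext j
      congr 1
      abel
    rw [h1]
    exact hs.row i i' hi
  · intro j j' hj
    have h1 : (fun i => dot (x i - t) (y j - y j')) =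
        fun i => dot (x i) (y j - y j') + -dot t (y j - y j') := by
      funext i
      rw [dot_sub]; ring
    rw [h1]
    exact (hs.col j j' hj).add_const _

theorem SP.translate' {x : I → V p k} {y : J → V p k} (hs : SP x y) (t : V p k) :
    SP x (fun j => y j - t) := (hs.symm.translate t).symm

theorem SP.inj {x : I → V p k} {y : J → V p k} (hs : SP x y) {i i' : I} (hi : i ≠ i') :
    x i ≠ x i' := by
  intro h1
  have : Nonempty J := by
    rw [← Fintype.card_pos_iff, ← hs.card]
    exact Fintype.card_pos_iff.mpr ⟨i⟩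
  refine (hs.row i i' hi).not_const 0 fun j => ?_
  rw [h1, sub_self, dot_zero]

/-- The new columns. -/
def cols (d1 d2 : V p k) (b : J → V p k) (j : J) : V p k := (dot d1 (b j), dot d2 (b j))

theorem SP.normal {a : I → V p k} {b : J → V p k} (hs : SP a b) {x : I → V p k} {d1 d2 : V p k}
    {i0 i1 : I} (hN : Normal a x d1 d2 i0 i1) : SP x (cols d1 d2 b) := by
  have key : ∀ i (w : V p k), dot (a i) w = dot (x i) (dot d1 w, dot d2 w) + dot (a i0) w := by
    intro i w
    have h1 := hN.2.2.2 i
    have h2 : dot (a i - a i0) w = dot ((x i).1 • d1 + (x i).2 • d2) w := by rw [h1]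
    rw [dot_sub, dot_add, dot_smul, dot_smul] at h2
    have h3 : dot (x i) (dot d1 w, dot d2 w) = (x i).1 * dot d1 w + (x i).2 * dot d2 w := rfl
    rw [h3]
    linear_combination h2
  refine ⟨?_, ?_, hs.card⟩
  · intro i i' hi
    have h1 : (fun j => dot (x i - x i') (cols d1 d2 b j)) = fun j => dot (a i - a i') (b j) := by
      funext j
      rw [dot_sub, dot_sub, key i, key i']
      unfold cols
      ring
    rw [h1]
    exact hs.row i i' hi
  · intro j j' hj
    have h1 : (fun i => dot (x i) (cols d1 d2 b j - cols d1 d2 b j')) =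
        fun i => dot (a i) (b j - b j') + -dot (a i0) (b j - b j') := by
      funext i
      rw [key i]
      have h2 : cols d1 d2 b j - cols d1 d2 b j' = (dot d1 (b j - b j'), dot d2 (b j - b j')) := by
        unfold cols
        rw [Prod.mk_sub_mk, dot_sub', dot_sub']
      rw [h2]
      ring
    rw [h1]
    exact (hs.col j j' hj).add_const _

theorem exists_pair_of_rank_one [Nonempty J] {f : J → R p k} (hf : U f) :
    ∃ j j', j ≠ j' ∧ (p : R p k) * f j = (p : R p k) * f j' := by
  obtain ⟨j0⟩ := ‹Nonempty J›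
  have h1 := hf.card_class (f j0)
  have h2 : 0 < N f (f j0) := by
    unfold N
    rw [card_pos]
    exact ⟨j0, by rw [mem_filter]; exact ⟨mem_univ _, rfl⟩⟩
  have h3 : 1 < (univ.filter fun j => (p : R p k) * f j = (p : R p k) * f j0).card := by
    rw [h1]
    have := hp.out.one_lt
    nlinarith
  obtain ⟨j, hj, j', hj', hne⟩ := one_lt_card.mp h3
  rw [mem_filter] at hj hj'
  exact ⟨j, j', hne, hj.2.trans hj'.2.symm⟩

/-- Either the order is `p` or no column difference is killed by `p` and there are rows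
`(0, 0)`, `(1, 0)`, `(0, 1)`. -/
theorem SP.dichotomy {a : I → V p k} {b : J → V p k} (hs : SP a b) (h2 : 2 ≤ Fintype.card I)
    (hn : ¬ p ^ 2 ∣ Fintype.card I) (hnp : Fintype.card I ≠ p) :
    ∃ (x : I → V p k) (y : J → V p k) (i0 i1 i2 : I), SP x y ∧ x i0 = 0 ∧ x i1 = (1, 0) ∧
      x i2 = (0, 1) ∧ ∀ j j', j ≠ j' → (p : R p k) • (y j - y j') ≠ 0 := by
  obtain ⟨i', i'', hne⟩ := Fintype.exists_pair_of_one_lt_card (by omega : 1 < Fintype.card I)
  obtain ⟨x, d1, d2, i0, i1, hN⟩ := exists_normal a i' i'' (hs.inj hne)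
  have hs' := hs.normal hN
  have : Nonempty I := ⟨i0⟩
  have hJ : Nonempty J := by
    rw [← Fintype.card_pos_iff, ← hs.card]
    exact Fintype.card_pos_iff.mpr ⟨i0⟩
  have hinj : ∀ j j', j ≠ j' → (p : R p k) • (cols d1 d2 b j - cols d1 d2 b j') ≠ 0 := by
    intro j j' hj hp1
    refine hnp (claimA hs'.card hs'.row hs'.col i0 hN.1 ?_ hn j j' hj hp1)
    intro j j' l hall
    have h3 := hall i1
    rw [hN.2.1] at h3
    have h4 : (l • (cols d1 d2 b j - cols d1 d2 b j')).1 = 0 := by
      have h5 : dot ((1, 0) : V p k) (l • (cols d1 d2 b j - cols d1 d2 b j')) =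
          (l • (cols d1 d2 b j - cols d1 d2 b j')).1 := by
        unfold dot
        simp
      rw [h5] at h3
      exact h3
    refine Prod.ext h4 ?_
    rcases hN.2.2.1 with ⟨i2, hi2⟩ | hd
    · have h6 := hall i2
      rw [hi2] at h6
      have h5 : dot ((0, 1) : V p k) (l • (cols d1 d2 b j - cols d1 d2 b j')) =
          (l • (cols d1 d2 b j - cols d1 d2 b j')).2 := by
        unfold dot
        simp
      rw [h5] at h6
      exact h6
    · show l * (dot d2 (b j) - dot d2 (b j')) = 0
      rw [hd, dot_zero, dot_zero, sub_zero, mul_zero]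
  rcases hN.2.2.1 with ⟨i2, hi2⟩ | hd
  · exact ⟨x, cols d1 d2 b, i0, i1, i2, hs', hN.1, hN.2.1, hi2, hinj⟩
  · exfalso
    have hne1 : i1 ≠ i0 := by
      rintro rfl
      have h7 := hN.2.1
      rw [hN.1] at h7
      exact zne (congrArg Prod.fst h7)
    obtain ⟨j, j', hj, hjj⟩ := exists_pair_of_rank_one (hs'.row i1 i0 hne1)
    apply hinj j j' hj
    rw [hN.2.1, hN.1, sub_zero] at hjj
    have h8 : ∀ w : V p k, dot ((1, 0) : V p k) w = w.1 := by
      intro w
      unfold dot
      simp
    rw [h8, h8] at hjj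
    refine Prod.ext ?_ ?_
    · show (p : R p k) * ((cols d1 d2 b j).1 - (cols d1 d2 b j').1) = 0
      rw [mul_sub, hjj, sub_self]
    · show (p : R p k) * (dot d2 (b j) - dot d2 (b j')) = 0
      rw [hd, dot_zero, dot_zero, sub_zero, mul_zero]

/-- The order is `1`, `p`, a multiple of `p ^ 2` or at least `p ^ 2 + p`. -/
theorem SP.small {a : I → V p k} {b : J → V p k} (hs : SP a b) (h2 : 2 ≤ Fintype.card I) :
    Fintype.card I = p ∨ p ^ 2 ∣ Fintype.card I ∨ p ^ 2 + p ≤ Fintype.card I := by
  by_cases hn : p ^ 2 ∣ Fintype.card I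
  · exact Or.inr (Or.inl hn)
  · by_cases hnp : Fintype.card I = p
    · exact Or.inl hnp
    · right; right
      obtain ⟨x, y, i0, i1, i2, hs', h3, h4, h5, hinj⟩ := hs.dichotomy h2 hn hnp
      have hJ : 0 < Fintype.card J := by rw [← hs.card]; omega
      have : Nonempty I := ⟨i0⟩
      have h6 := claimB hJ hs'.row i0 i1 i2 h3 h4 h5 hinj
      rw [← hs.card] at h6
      obtain ⟨i', i'', hne⟩ := Fintype.exists_pair_of_one_lt_card (by omega : 1 < Fintype.card I)
      have h7 : p ∣ Fintype.card I := by
        rw [hs.card]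
        exact (hs.row i' i'' hne).dvd_card
      obtain ⟨m, hm⟩ := h7
      rw [hm] at h6 hn ⊢
      have h8 : p ≤ m := by
        rw [sq] at h6
        exact Nat.le_of_mul_le_mul_left h6 hp.out.pos
      have h9 : m ≠ p := by
        rintro rfl
        exact hn ⟨1, by ring⟩
      have h10 : p + 1 ≤ m := by omega
      calc p ^ 2 + p = p * (p + 1) := by ring
        _ ≤ p * m := Nat.mul_le_mul_left _ h10

end BHsm
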