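import Pool.Agent.Lib.MP_2b2af9_co.SmallP
import Pool.Agent.Lib.MP_2b2af9_co.Dense

/-!
# Dropping large prime factors of `q`
-/

set_option autoImplicit false

open Finset

set_option linter.unusedSectionVars false

namespace BHsm

/-- The `q`-th root of unity with exponent `m`. -/
noncomputable def e (q : ℕ) (m : ℤ) : ℂ := Complex.exp (2 * Real.pi * Complex.I * m / q)

theorem e_add (q : ℕ) (m m' : ℤ) : e q (m + m') = e q m * e q m' := by
  unfold e
  rw [← Complex.exp_add]
  congr 1
  push_cast
  ring

theorem e_zero (q : ℕ) : e q 0 = 1 := by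
  unfold e
  simp

theorem e_ne_zero (q : ℕ) (m : ℤ) : e q m ≠ 0 := Complex.exp_ne_zero _

theorem e_pow (q : ℕ) (m : ℤ) (c : ℕ) : e q m ^ c = e q (c * m) := by
  unfold e
  rw [← Complex.exp_nat_mul]
  congr 1
  push_cast
  ring

theorem e_std (q : ℕ) [NeZero q] (m : ℤ) : e q m = ZMod.stdAddChar ((m : ℤ) : ZMod q) :=
  (ZMod.stdAddChar_coe m).symm

theorem e_pow_q (q : ℕ) (hq : q ≠ 0) (m : ℤ) : e q m ^ q = 1 := by
  have : NeZero q := ⟨hq⟩
  rw [e_pow, e_std]
  push_cast
  rw [ZMod.natCast_self, zero_mul, AddChar.map_zero_eq_one]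

theorem e_mul (M q' : ℕ) (hM : M ≠ 0) (hq' : q' ≠ 0) (u m : ℤ) :
    e (M * q') ((u * q' + M) * m) = e M (u * m) * e q' m := by
  unfold e
  rw [← Complex.exp_add]
  congr 1
  have h1 : (M : ℂ) ≠ 0 := by exact_mod_cast hM
  have h2 : (q' : ℂ) ≠ 0 := by exact_mod_cast hq'
  push_cast
  field_simp

section

variable {P a q' : ℕ} [hP : Fact P.Prime] {J : Type} [Fintype J] [DecidableEq J]

variable (P a q') in
/-- The sum over the arguments with a given residue. -/
noncomputable def G (f : J → ℤ) (t : R P a) : ℂ :=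
  ∑ j ∈ univ.filter (fun j => ((f j : ℤ) : R P a) = t), e q' (f j)

theorem G_shift (hq' : q' ≠ 0) (hcop : P.Coprime q') (f : J → ℤ)
    (hs : ∑ j, e (P ^ (a + 1) * q') (f j) = 0) (t c : R P a) :
    G P a q' f t = G P a q' f (t + h P a * c) := by
  have hM : P ^ (a + 1) ≠ 0 := NeZero.ne _
  have hhat : ∀ u : R P a, IsUnit u →
      ∑ j, ZMod.stdAddChar (u * ((f j : ℤ) : R P a)) * e q' (f j) = 0 := by
    intro u hu
    have hucop : u.val.Coprime (P ^ (a + 1)) := by
      have h1 := (ZMod.isUnit_iff_coprime u.val (P ^ (a + 1))).mp (by rwa [ZMod.natCast_zmod_val])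
      exact h1
    have hcopM : (P ^ (a + 1)).Coprime q' := Nat.Coprime.pow_left _ hcop
    have hk : (u.val * q' + P ^ (a + 1)).Coprime (P ^ (a + 1) * q') := by
      apply Nat.Coprime.mul_right
      · rw [Nat.coprime_add_self_left]
        exact Nat.Coprime.mul_left hucop hcopM.symm
      · have h1 : (u.val * q' + P ^ (a + 1)).Coprime q' ↔ (P ^ (a + 1)).Coprime q' := by
          rw [Nat.coprime_mul_right_add_left]
        exact h1.mpr hcopM
    have h2 := Pool.Agent.Lib.MP_2b2af9_co.Dense.galois (m := P ^ (a + 1) * q')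
      (Nat.pos_of_ne_zero (mul_ne_zero hM hq')) (fun j => e (P ^ (a + 1) * q') (f j))
      (fun j => e_pow_q _ (mul_ne_zero hM hq') _) hs hk
    rw [← h2]
    refine sum_congr rfl fun j _ => ?_
    rw [e_pow]
    have h3 := e_mul (P ^ (a + 1)) q' hM hq' (u.val : ℤ) (f j)
    have h4 : (((u.val * q' + P ^ (a + 1) : ℕ) : ℤ) * f j) =
        ((u.val : ℤ) * (q' : ℤ) + ((P ^ (a + 1) : ℕ) : ℤ)) * f j := by push_cast; ring
    rw [h4, h3, e_std (P ^ (a + 1))]
    congr 2
    push_cast
    rw [ZMod.natCast_zmod_val]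
  have key : ∀ t : R P a, ((P ^ (a + 1) : ℕ) : ℂ) * G P a q' f t =
      ∑ u : R P a, ZMod.stdAddChar (u * (-t)) *
        ∑ j, ZMod.stdAddChar (u * ((f j : ℤ) : R P a)) * e q' (f j) := by
    intro t
    simp only [mul_sum]
    rw [sum_comm]
    have h1 : ∀ j, ∑ u : R P a, ZMod.stdAddChar (u * (-t)) *
        (ZMod.stdAddChar (u * ((f j : ℤ) : R P a)) * e q' (f j)) =
        if ((f j : ℤ) : R P a) = t then ((P ^ (a + 1) : ℕ) : ℂ) * e q' (f j) else 0 := by
      intro j
      have h2 := AddChar.sum_mulShift (((f j : ℤ) : R P a) - t)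
        (ZMod.isPrimitive_stdAddChar (P ^ (a + 1)))
      have h3 : ∀ u : R P a, ZMod.stdAddChar (u * (-t)) *
          (ZMod.stdAddChar (u * ((f j : ℤ) : R P a)) * e q' (f j)) =
          ZMod.stdAddChar (u * (((f j : ℤ) : R P a) - t)) * e q' (f j) := by
        intro u
        rw [← mul_assoc, ← AddChar.map_add_eq_mul]
        congr 2
        ring
      rw [sum_congr rfl fun u _ => h3 u, ← sum_mul, h2, ZMod.card]
      by_cases h4 : ((f j : ℤ) : R P a) = t
      · rw [if_pos (by rw [h4, sub_self]), if_pos h4]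
      · rw [if_neg (fun h5 => h4 (sub_eq_zero.mp h5)), if_neg h4, Nat.cast_zero, zero_mul]
    rw [sum_congr rfl fun j _ => h1 j, ← sum_filter, ← mul_sum]
    rfl
  have hMc : ((P ^ (a + 1) : ℕ) : ℂ) ≠ 0 := by exact_mod_cast hM
  apply mul_left_cancel₀ hMc
  rw [key, key]
  refine sum_congr rfl fun u _ => ?_
  by_cases hu : red P a u = 0
  · have h1 : u * (-(t + h P a * c)) = u * (-t) := by
      have h2 : h P a * u = 0 := h_mul_eq_zero.mpr hu
      linear_combination (-c) * h2
    rw [h1]
  · rw [hhat u (isUnit_of_red hu), mul_zero, mul_zero]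

/-- Two roots of unity whose sum is a root of unity. -/
theorem six_dvd (hq' : q' ≠ 0) {x y z : ℤ} (hxyz : e q' x + e q' y = e q' z) : 6 ∣ q' := by
  obtain ⟨w, hw⟩ : ∃ w, w = e q' (x - z) := ⟨_, rfl⟩
  obtain ⟨v, hv⟩ : ∃ v, v = e q' (y - z) := ⟨_, rfl⟩
  have hz := e_ne_zero q' z
  have h1 : w + v = 1 := by
    apply mul_right_cancel₀ hz
    rw [hw, hv, add_mul, ← e_add, ← e_add, one_mul, sub_add_cancel, sub_add_cancel]
    exact hxyz
  have hwq : w ^ q' = 1 := by rw [hw]; exact e_pow_q q' hq' _
  have hvq : v ^ q' = 1 := by rw [hv]; exact e_pow_q q' hq' _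
  have hnorm : ∀ u : ℂ, u ^ q' = 1 → (starRingEnd ℂ) u * u = 1 := by
    intro u hu
    have h2 : ‖u‖ = 1 := Complex.norm_eq_one_of_pow_eq_one hu hq'
    rw [← Complex.normSq_eq_conj_mul_self, Complex.normSq_eq_norm_sq, h2]
    simp
  have h3 := hnorm w hwq
  have h4 := hnorm v hvq
  have h5 : (starRingEnd ℂ) w + (starRingEnd ℂ) v = 1 := by
    rw [← map_add, h1, map_one]
  have h6 : w * v = 1 := by
    linear_combination (-(w * v)) * h5 + v * h3 + w * h4 + h1
  have h7 : w ^ 2 - w + 1 = 0 := by
    linear_combination w * h1 - h6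
  have h8 : w ^ 3 = -1 := by
    linear_combination (w + 1) * h7
  have h9 : Even q' := by
    have h10 : (-1 : ℂ) ^ q' = 1 := by
      rw [← h8, ← pow_mul, mul_comm, pow_mul, hwq, one_pow]
    by_contra hodd
    rw [Nat.not_even_iff_odd] at hodd
    rw [hodd.neg_one_pow] at h10
    norm_num at h10
  have h11 : 3 ∣ q' := by
    by_contra h3q
    have h12 : (w ^ 2) ^ 3 = 1 := by
      rw [← pow_mul, mul_comm, pow_mul, h8]
      norm_num
    have h13 : (w ^ 2) ^ q' = 1 := by
      rw [← pow_mul, mul_comm, pow_mul, hwq, one_pow]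
    have h14 : orderOf (w ^ 2) ∣ Nat.gcd 3 q' :=
      Nat.dvd_gcd (orderOf_dvd_of_pow_eq_one h12) (orderOf_dvd_of_pow_eq_one h13)
    have h15 : Nat.gcd 3 q' = 1 := (Nat.Prime.coprime_iff_not_dvd Nat.prime_three).mpr h3q
    rw [h15, Nat.dvd_one, orderOf_eq_one_iff] at h14
    have h16 : w = 2 := by linear_combination h14 - h7
    rw [h16] at h14
    norm_num at h14
  obtain ⟨r, hr⟩ := h9
  obtain ⟨s, hs⟩ := h11
  omega

/-- A prime `P` can be dropped if there are fewer than `P` summands, or `P + 1` summands. -/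
theorem drop (hq' : q' ≠ 0) (hcop : P.Coprime q') (f : J → ℤ)
    (hs : ∑ j, e (P ^ (a + 1) * q') (f j) = 0)
    (hJ : Fintype.card J < P ∨ (Fintype.card J = P + 1 ∧ ¬ 6 ∣ q')) :
    ∑ j, e q' (f j) = 0 := by
  have hsum : ∑ j, e q' (f j) = ∑ t : R P a, G P a q' f t := by
    unfold G
    rw [sum_fiberwise]
  rw [hsum]
  apply sum_eq_zero
  intro t _
  by_contra hG
  -- every class of the coset is nonempty
  have hpos : ∀ t' : R P a, G P a q' f t' ≠ 0 → ∃ j, ((f j : ℤ) : R P a) = t' := by
    intro t' ht'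
    by_contra hcon
    push Not at hcon
    apply ht'
    unfold G
    rw [filter_false_of_mem (fun j _ => hcon j), sum_empty]
  have hs1 : ∀ c : ZMod P, ∃ j, ((f j : ℤ) : R P a) = t + h P a * (c.val : R P a) := by
    intro c
    apply hpos
    rw [← G_shift hq' hcop f hs]
    exact hG
  choose s hs2 using hs1
  have hinj : ∀ c c' : ZMod P, h P a * (c.val : R P a) = h P a * (c'.val : R P a) → c = c' := by
    intro c c' hc
    rw [h_mul_eq, map_natCast, map_natCast, ZMod.natCast_zmod_val, ZMod.natCast_zmod_val] at hc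
    exact hc
  have hsinj : Function.Injective s := by
    intro c c' hcc
    apply hinj
    have h1 := hs2 c
    rw [hcc, hs2 c'] at h1
    exact (add_left_cancel h1).symm
  have hcard : P ≤ Fintype.card J := by
    have h1 := Fintype.card_le_of_injective s hsinj
    rwa [ZMod.card] at h1
  rcases hJ with hJ | ⟨hJ, h6⟩
  · omega
  · have hcompl : ((univ.image s)ᶜ).card = 1 := by
      rw [card_compl, card_image_of_injective _ hsinj, card_univ, ZMod.card, hJ]
      omega
    obtain ⟨j0, hj0⟩ := card_eq_one.mp hcompl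
    have hall : ∀ j, j ≠ j0 → ∃ c, s c = j := by
      intro j hj
      by_contra hcon
      push Not at hcon
      have h1 : j ∈ (univ.image s)ᶜ := by
        rw [mem_compl, mem_image]
        rintro ⟨c, -, hc⟩
        exact hcon c hc
      rw [hj0, mem_singleton] at h1
      exact hj h1
    have hj0s : ∀ c, s c ≠ j0 := by
      intro c hc
      have h1 : j0 ∈ (univ.image s)ᶜ := by rw [hj0]; exact mem_singleton_self _
      rw [mem_compl, mem_image] at h1
      exact h1 ⟨c, mem_univ _, hc⟩
    by_cases hin : ∃ c : ZMod P, ((f j0 : ℤ) : R P a) = t + h P a * (c.val : R P a)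
    · obtain ⟨c0, hc0⟩ := hin
      obtain ⟨c1, hc1⟩ : ∃ c1 : ZMod P, c1 ≠ c0 := ⟨c0 + 1, by simp⟩
      apply h6
      have g1 : G P a q' f t = e q' (f (s c1)) := by
        rw [G_shift hq' hcop f hs t (c1.val : R P a)]
        unfold G
        have h2 : (univ.filter fun j => ((f j : ℤ) : R P a) = t + h P a * (c1.val : R P a)) =
            {s c1} := by
          ext j
          simp only [mem_filter, mem_univ, true_and, mem_singleton]
          constructor
          · intro h3
            by_cases hj : j = j0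
            · exfalso
              rw [hj, hc0] at h3
              exact hc1 (hinj _ _ (add_left_cancel h3)).symm
            · obtain ⟨c, rfl⟩ := hall j hj
              rw [hs2 c] at h3
              rw [hinj _ _ (add_left_cancel h3)]
          · rintro rfl
            exact hs2 c1
        rw [h2, sum_singleton]
      have g0 : G P a q' f t = e q' (f (s c0)) + e q' (f j0) := by
        rw [G_shift hq' hcop f hs t (c0.val : R P a)]
        unfold G
        have h2 : (univ.filter fun j => ((f j : ℤ) : R P a) = t + h P a * (c0.val : R P a)) =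
            {s c0, j0} := by
          ext j
          simp only [mem_filter, mem_univ, true_and, mem_insert, mem_singleton]
          constructor
          · intro h3
            by_cases hj : j = j0
            · exact Or.inr hj
            · obtain ⟨c, rfl⟩ := hall j hj
              rw [hs2 c] at h3
              left
              rw [hinj _ _ (add_left_cancel h3)]
          · rintro (rfl | rfl)
            · exact hs2 c0
            · exact hc0
        rw [h2, sum_pair (hj0s c0)]
      exact six_dvd hq' (g0.symm.trans g1)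
    · push Not at hin
      have hG0 : G P a q' f ((f j0 : ℤ) : R P a) ≠ 0 := by
        unfold G
        have h2 : (univ.filter fun j => ((f j : ℤ) : R P a) = ((f j0 : ℤ) : R P a)) = {j0} := by
          ext j
          simp only [mem_filter, mem_univ, true_and, mem_singleton]
          constructor
          · intro h3
            by_contra hj
            obtain ⟨c, rfl⟩ := hall j hj
            rw [hs2 c] at h3
            exact hin c h3.symm
          · rintro rfl
            rfl
        rw [h2, sum_singleton]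
        exact e_ne_zero _ _
      rw [G_shift hq' hcop f hs _ 1] at hG0
      obtain ⟨j, hj⟩ := hpos _ hG0
      by_cases hjj : j = j0
      · rw [hjj, mul_one] at hj
        exact h_ne_zero (left_eq_add.mp hj)
      · obtain ⟨c, rfl⟩ := hall j hjj
        rw [hs2 c] at hj
        apply hin (c - 1)
        have h2 : h P a * (((c - 1 : ZMod P).val : ℕ) : R P a) = h P a * ((c.val : R P a) - 1) := by
          rw [h_mul_eq, map_natCast, map_sub, map_natCast, ZMod.natCast_zmod_val,
            ZMod.natCast_zmod_val, map_one]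
        rw [h2]
        linear_combination -hj

end

/-! ### Spectral pairs with integer entries -/

/-- The pairing. -/
def dotZ (x y : ℤ × ℤ) : ℤ := x.1 * y.1 + x.2 * y.2

/-- A spectral pair, given by integers. -/
structure SPZ (q : ℕ) {n : ℕ} (a b : Fin n → ℤ × ℤ) : Prop where
  row : ∀ i i', i ≠ i' → ∑ j, e q (dotZ (a i - a i') (b j)) = 0
  col : ∀ j j', j ≠ j' → ∑ i, e q (dotZ (a i) (b j - b j')) = 0

theorem SPZ.drop {P c q' n : ℕ} (hP : P.Prime) (hq' : q' ≠ 0) (hcop : P.Coprime q')
    {a b : Fin n → ℤ × ℤ} (hs : SPZ (P ^ (c + 1) * q') a b)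
    (hn : n < P ∨ (n = P + 1 ∧ ¬ 6 ∣ q')) : SPZ q' a b := by
  have : Fact P.Prime := ⟨hP⟩
  refine ⟨fun i i' hi => ?_, fun j j' hj => ?_⟩
  · exact BHsm.drop (a := c) hq' hcop _ (hs.row i i' hi) (by rwa [Fintype.card_fin])
  · exact BHsm.drop (a := c) hq' hcop _ (hs.col j j' hj) (by rwa [Fintype.card_fin])

/-- All prime factors but `p` can be dropped. -/
theorem SPZ.reduce {p n : ℕ} (hn : 2 ≤ n) {a b : Fin n → ℤ × ℤ} :
    ∀ q : ℕ, 0 < q → (∀ P : ℕ, P.Prime → P ∣ q → P ≠ p → n ≤ P + 1) → ¬ n ∣ q → SPZ q a b →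
      ∃ k, p ^ k ∣ q ∧ SPZ (p ^ k) a b := by
  intro q
  induction q using Nat.strong_induction_on with
  | _ q ih =>
    intro hq hpr hnq hs
    by_cases hex : ∃ P : ℕ, P.Prime ∧ P ∣ q ∧ P ≠ p
    · obtain ⟨P, hP, hPq, hPp⟩ := hex
      obtain ⟨c, q', hq'P, hqq⟩ := Nat.exists_eq_pow_mul_and_not_dvd hq.ne' P hP.ne_one
      have hc : c ≠ 0 := by
        rintro rfl
        rw [pow_zero, one_mul] at hqq
        exact hq'P (hqq ▸ hPq)
      obtain ⟨c', rfl⟩ := Nat.exists_eq_succ_of_ne_zero hc
      have hq'0 : q' ≠ 0 := by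
        rintro rfl
        exact hq'P (dvd_zero _)
      have hcop : P.Coprime q' := (Nat.Prime.coprime_iff_not_dvd hP).mpr hq'P
      have hq'q : q' ∣ q := by rw [hqq]; exact dvd_mul_left _ _
      have hnP : n ≠ P := by
        rintro rfl
        exact hnq hPq
      have h1 := hpr P hP hPq hPp
      have hs' : SPZ q' a b := by
        rw [hqq] at hs
        refine hs.drop hP hq'0 hcop ?_
        by_cases h2 : n < P
        · exact Or.inl h2
        · right
          refine ⟨by omega, ?_⟩
          intro h6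
          have h7 : (2 : ℕ) ∣ q' := dvd_trans (by norm_num) h6
          have h8 : (3 : ℕ) ∣ q' := dvd_trans (by norm_num) h6
          have h9 : ∀ r : ℕ, r.Prime → r ∣ q' → r ≠ p → n < r := by
            intro r hr hrq hrp
            have g1 := hpr r hr (hrq.trans hq'q) hrp
            have g2 : r ≠ P := by
              rintro rfl
              exact hq'P hrq
            have g3 : r ≠ n := by
              rintro rfl
              exact hnq (hrq.trans hq'q)
            omega
          have hP2 := hP.two_le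
          by_cases hp2 : (2 : ℕ) = p
          · have := h9 3 Nat.prime_three h8 (by omega)
            omega
          · have := h9 2 Nat.prime_two h7 hp2
            omega
      have hlt : q' < q := by
        rw [hqq]
        have g1 : 1 < P ^ (c' + 1) := Nat.one_lt_pow (Nat.succ_ne_zero _) hP.one_lt
        have g2 : 0 < q' := Nat.pos_of_ne_zero hq'0
        exact (Nat.lt_mul_iff_one_lt_left g2).mpr g1
      obtain ⟨k, hk1, hk2⟩ := ih q' hlt (Nat.pos_of_ne_zero hq'0)
        (fun r hr hrq hrp => hpr r hr (hrq.trans hq'q) hrp)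
        (fun h2 => hnq (h2.trans hq'q)) hs'
      exact ⟨k, hk1.trans hq'q, hk2⟩
    · push Not at hex
      have h1 := Nat.eq_prime_pow_of_unique_prime_dvd hq.ne' (fun {d} hd hdq => hex d hd hdq)
      refine ⟨q.primeFactorsList.length, by rw [← h1], ?_⟩
      rw [← h1]
      exact hs

end BHsm
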