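import Pool.Agent.Lib.MP_2b2af9_co.Vanish

/-!
# The ring `ℤ / p ^ (k + 1)` and functions whose values are invariant under the shift by `p ^ k`
-/

set_option autoImplicit false

open Finset

set_option linter.unusedSectionVars false

namespace BHsm

/-- The ring. -/
abbrev R (p k : ℕ) := ZMod (p ^ (k + 1))

variable {p : ℕ} [hp : Fact p.Prime] {k : ℕ}

instance : NeZero (p ^ (k + 1)) := ⟨pow_ne_zero _ hp.out.ne_zero⟩

variable (p k) in
/-- The element `p ^ k`, a generator of the annihilator of `p`. -/
def h : R p k := (p : R p k) ^ k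

variable (p k) in
/-- Reduction modulo `p`. -/
def red : R p k →+* ZMod p := ZMod.castHom (dvd_pow_self p (Nat.succ_ne_zero k)) (ZMod p)

theorem cast_pow_succ : ((p : R p k)) ^ (k + 1) = 0 := by
  have := ZMod.natCast_self (p ^ (k + 1))
  rw [Nat.cast_pow] at this
  exact this

theorem p_mul_h : (p : R p k) * h p k = 0 := by
  unfold h
  rw [← pow_succ']
  exact cast_pow_succ

theorem red_p : red p k (p : R p k) = 0 := by
  rw [map_natCast]
  exact ZMod.natCast_self p

theorem ann {x : R p k} (hx : (p : R p k) * x = 0) : ∃ c : R p k, x = h p k * c := by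
  have h1 : ((p * x.val : ℕ) : R p k) = 0 := by
    rw [Nat.cast_mul, ZMod.natCast_zmod_val]
    exact hx
  rw [ZMod.natCast_eq_zero_iff] at h1
  have h2 : p ^ k ∣ x.val :=
    Nat.dvd_of_mul_dvd_mul_left hp.out.pos ((pow_succ' p k).symm.dvd.trans h1)
  obtain ⟨m, hm⟩ := h2
  refine ⟨(m : R p k), ?_⟩
  unfold h
  rw [← Nat.cast_pow, ← Nat.cast_mul, ← hm, ZMod.natCast_zmod_val]

theorem red_eq_zero {c : R p k} : red p k c = 0 ↔ ∃ d : R p k, c = (p : R p k) * d := by
  constructor
  · intro h1
    have h2 : ((c.val : ℕ) : ZMod p) = 0 := by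
      rw [← h1]
      show _ = ZMod.castHom (dvd_pow_self p (Nat.succ_ne_zero k)) (ZMod p) c
      rw [ZMod.castHom_apply, ZMod.natCast_val]
    rw [ZMod.natCast_eq_zero_iff] at h2
    obtain ⟨m, hm⟩ := h2
    refine ⟨(m : R p k), ?_⟩
    rw [← Nat.cast_mul, ← hm, ZMod.natCast_zmod_val]
  · rintro ⟨d, rfl⟩
    rw [map_mul, red_p, zero_mul]

theorem h_mul_eq_zero {c : R p k} : h p k * c = 0 ↔ red p k c = 0 := by
  constructor
  · intro h1
    have h2 : ((p ^ k * c.val : ℕ) : R p k) = 0 := by
      rw [Nat.cast_mul, ZMod.natCast_zmod_val, Nat.cast_pow]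
      exact h1
    rw [ZMod.natCast_eq_zero_iff] at h2
    have h3 : p ∣ c.val :=
      Nat.dvd_of_mul_dvd_mul_left (pow_pos hp.out.pos k) ((pow_succ p k).symm.dvd.trans h2)
    obtain ⟨m, hm⟩ := h3
    rw [red_eq_zero]
    refine ⟨(m : R p k), ?_⟩
    rw [← Nat.cast_mul, ← hm, ZMod.natCast_zmod_val]
  · intro h1
    obtain ⟨d, rfl⟩ := red_eq_zero.mp h1
    rw [← mul_assoc, mul_comm (h p k), p_mul_h, zero_mul]

theorem h_mul_eq {c d : R p k} : h p k * c = h p k * d ↔ red p k c = red p k d := by
  rw [← sub_eq_zero, ← mul_sub, h_mul_eq_zero, map_sub, sub_eq_zero]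

theorem h_ne_zero : h p k ≠ 0 := by
  intro h1
  have h2 : h p k * 1 = 0 := by rw [mul_one, h1]
  rw [h_mul_eq_zero, map_one] at h2
  exact one_ne_zero h2

theorem red_surj (t : ZMod p) : ∃ c : R p k, red p k c = t := by
  refine ⟨(t.val : R p k), ?_⟩
  rw [map_natCast, ZMod.natCast_zmod_val]

theorem isUnit_of_red {c : R p k} (hc : red p k c ≠ 0) : IsUnit c := by
  have h1 : ¬ p ∣ c.val := by
    rintro ⟨m, hm⟩
    apply hc
    rw [red_eq_zero]
    refine ⟨(m : R p k), ?_⟩
    rw [← Nat.cast_mul, ← hm, ZMod.natCast_zmod_val]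
  have h2 : (c.val).Coprime (p ^ (k + 1)) := by
    apply Nat.Coprime.pow_right
    rw [Nat.coprime_comm]
    exact (Nat.Prime.coprime_iff_not_dvd hp.out).mpr h1
  have h3 := (ZMod.isUnit_iff_coprime c.val (p ^ (k + 1))).mpr h2
  rwa [ZMod.natCast_zmod_val] at h3

theorem exists_form (x : R p k) : ∃ (i : ℕ) (u : R p k), IsUnit u ∧ x = (p : R p k) ^ i * u := by
  by_cases hx : x = 0
  · exact ⟨k + 1, 1, isUnit_one, by rw [hx, cast_pow_succ, zero_mul]⟩
  · have hv : x.val ≠ 0 := by
      rw [Ne, ZMod.val_eq_zero]
      exact hx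
    obtain ⟨i, m, hm, hxm⟩ := Nat.exists_eq_pow_mul_and_not_dvd hv p hp.out.ne_one
    refine ⟨i, (m : R p k), ?_, ?_⟩
    · have h2 : m.Coprime (p ^ (k + 1)) := by
        apply Nat.Coprime.pow_right
        rw [Nat.coprime_comm]
        exact (Nat.Prime.coprime_iff_not_dvd hp.out).mpr hm
      exact (ZMod.isUnit_iff_coprime m (p ^ (k + 1))).mpr h2
    · rw [← Nat.cast_pow, ← Nat.cast_mul, ← hxm, ZMod.natCast_zmod_val]

theorem chain (x y : R p k) : x ∣ y ∨ y ∣ x := by
  obtain ⟨i, u, hu, rfl⟩ := exists_form x
  obtain ⟨j, v, hv, rfl⟩ := exists_form y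
  rcases le_total i j with hij | hij
  · left
    rw [IsUnit.mul_right_dvd hu]
    exact dvd_mul_of_dvd_left (pow_dvd_pow _ hij) _
  · right
    rw [IsUnit.mul_right_dvd hv]
    exact dvd_mul_of_dvd_left (pow_dvd_pow _ hij) _

/-- Among finitely many elements one divides all others. -/
theorem exists_dvd_all {I : Type} [Fintype I] [Nonempty I] (f : I → R p k) :
    ∃ i0, ∀ i, f i0 ∣ f i := by
  classical
  have key : ∀ s : Finset I, s.Nonempty → ∃ i0 ∈ s, ∀ i ∈ s, f i0 ∣ f i := by
    intro s hs
    induction hs using Finset.Nonempty.cons_induction with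
    | singleton a => exact ⟨a, mem_singleton_self a, fun i hi => by rw [mem_singleton.mp hi]⟩
    | cons a s ha hs ih =>
      obtain ⟨i0, hi0, hall⟩ := ih
      rcases chain (f a) (f i0) with h1 | h1
      · refine ⟨a, mem_cons_self a s, fun i hi => ?_⟩
        rw [mem_cons] at hi
        rcases hi with rfl | hi
        · exact dvd_rfl
        · exact h1.trans (hall i hi)
      · refine ⟨i0, mem_cons_of_mem hi0, fun i hi => ?_⟩
        rw [mem_cons] at hi
        rcases hi with rfl | hi
        · exact h1
        · exact hall i hi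
  obtain ⟨i0, -, hi0⟩ := key univ univ_nonempty
  exact ⟨i0, fun i => hi0 i (mem_univ i)⟩

/-! ### Counting -/

variable {J : Type} [Fintype J]

/-- The number of arguments with a given value. -/
def N (f : J → R p k) (s : R p k) : ℕ := (univ.filter fun j => f j = s).card

/-- The distribution of the values of `f` is invariant under the shift by `h`. -/
def U (f : J → R p k) : Prop := ∀ s c : R p k, N f s = N f (s + h p k * c)

theorem card_ann : (univ.filter fun x : R p k => (p : R p k) * x = 0).card = p := by
  have h1 : (univ.filter fun x : R p k => (p : R p k) * x = 0) =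
      (univ : Finset (ZMod p)).image fun t => h p k * (t.val : R p k) := by
    ext x
    simp only [mem_filter, mem_univ, true_and, mem_image]
    constructor
    · intro hx
      obtain ⟨c, rfl⟩ := ann hx
      refine ⟨red p k c, ?_⟩
      rw [h_mul_eq, map_natCast, ZMod.natCast_zmod_val]
    · rintro ⟨t, rfl⟩
      rw [← mul_assoc, p_mul_h, zero_mul]
  rw [h1, card_image_of_injective, card_univ, ZMod.card]
  intro t t' ht
  simp only at ht
  rw [h_mul_eq, map_natCast, map_natCast, ZMod.natCast_zmod_val, ZMod.natCast_zmod_val] at ht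
  exact ht

theorem card_ann' (s : R p k) :
    (univ.filter fun x : R p k => (p : R p k) * x = (p : R p k) * s).card = p := by
  refine Eq.trans (card_bij (fun x _ => x - s) ?_ ?_ ?_) (card_ann (p := p) (k := k))
  · intro x hx
    rw [mem_filter] at hx ⊢
    exact ⟨mem_univ _, by rw [mul_sub, hx.2, sub_self]⟩
  · intro x _ y _ hxy
    exact sub_left_injective hxy
  · intro y hy
    rw [mem_filter] at hy
    refine ⟨y + s, ?_, by simp⟩
    rw [mem_filter]
    exact ⟨mem_univ _, by rw [mul_add, hy.2, zero_add]⟩

/-- The size of a class. -/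
theorem U.card_class {f : J → R p k} (hf : U f) (s : R p k) :
    (univ.filter fun j => (p : R p k) * f j = (p : R p k) * s).card = p * N f s := by
  classical
  rw [card_eq_sum_card_fiberwise (f := f)
    (t := univ.filter fun x : R p k => (p : R p k) * x = (p : R p k) * s)]
  · rw [sum_congr rfl (g := fun _ => N f s), sum_const, card_ann', smul_eq_mul]
    intro x hx
    rw [mem_filter] at hx
    obtain ⟨c, hc⟩ : ∃ c, x - s = h p k * c := ann (by rw [mul_sub, hx.2, sub_self])
    have h1 : x = s + h p k * c := by rw [← hc]; ring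
    rw [hf s c, ← h1]
    unfold N
    congr 1
    ext j
    simp only [mem_filter, mem_univ, true_and]
    constructor
    · exact fun h2 => h2.2
    · intro h2
      exact ⟨by rw [h2, hx.2], h2⟩
  · intro j hj
    rw [mem_coe, mem_filter] at hj ⊢
    exact ⟨mem_univ _, hj.2⟩

theorem U.dvd_card_class {f : J → R p k} (hf : U f) (u : R p k) :
    p ∣ (univ.filter fun j => (p : R p k) * f j = u).card := by
  by_cases hu : ∃ s, u = (p : R p k) * s
  · obtain ⟨s, rfl⟩ := hu
    rw [hf.card_class]
    exact dvd_mul_right _ _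
  · rw [filter_false_of_mem, card_empty]
    · exact dvd_zero _
    · intro j _ hj
      exact hu ⟨f j, hj.symm⟩

/-- Level sets of a proper multiple of a uniform function. -/
theorem U.dvd_level {f : J → R p k} (hf : U f) {l : R p k} (hl : red p k l = 0) (s : R p k) :
    p ∣ N (fun j => l * f j) s := by
  classical
  obtain ⟨d, rfl⟩ := red_eq_zero.mp hl
  unfold N
  rw [card_eq_sum_card_fiberwise (f := fun j => (p : R p k) * f j) (t := univ)
    (fun j _ => mem_univ _)]
  refine dvd_sum fun u _ => ?_
  by_cases hu : d * u = s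
  · have h1 : (filter (fun j => (p : R p k) * f j = u) (univ.filter fun j => (p : R p k) * d * f j = s))
        = univ.filter fun j => (p : R p k) * f j = u := by
      ext j
      simp only [mem_filter, mem_univ, true_and, and_iff_right_iff_imp]
      rintro rfl
      rw [← hu]; ring
    rw [h1]
    exact hf.dvd_card_class u
  · have h1 : (filter (fun j => (p : R p k) * f j = u) (univ.filter fun j => (p : R p k) * d * f j = s))
        = ∅ := by
      rw [filter_eq_empty_iff]
      intro j hj hju
      rw [mem_filter] at hj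
      apply hu
      rw [← hju, ← hj.2]; ring
    rw [h1, card_empty]
    exact dvd_zero _

theorem U.dvd_card {f : J → R p k} (hf : U f) : p ∣ Fintype.card J := by
  classical
  rw [← card_univ, card_eq_sum_card_fiberwise (f := fun j => (p : R p k) * f j) (t := univ)
    (fun j _ => mem_univ _)]
  exact dvd_sum fun u _ => hf.dvd_card_class u

/-- A uniform function all of whose level sets have a size divisible by `p`. -/
theorem U.sq_dvd {f : J → R p k} (hf : U f) (hd : ∀ s, p ∣ N f s) : p ^ 2 ∣ Fintype.card J := by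
  classical
  rw [← card_univ, card_eq_sum_card_fiberwise (f := fun j => (p : R p k) * f j) (t := univ)
    (fun j _ => mem_univ _)]
  refine dvd_sum fun u _ => ?_
  by_cases hu : ∃ s, u = (p : R p k) * s
  · obtain ⟨s, rfl⟩ := hu
    rw [hf.card_class, sq]
    exact mul_dvd_mul_left _ (hd s)
  · rw [filter_false_of_mem, card_empty]
    · exact dvd_zero _
    · intro j _ hj
      exact hu ⟨f j, hj.symm⟩

/-- If `f` and `l * f` are both uniform with `p ∣ l`. -/
theorem U.sq_dvd_of_mul {f : J → R p k} (hf : U f) {l : R p k} (hl : red p k l = 0)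
    (hlf : U fun j => l * f j) : p ^ 2 ∣ Fintype.card J :=
  hlf.sq_dvd fun s => hf.dvd_level hl s

/-- Multiples by units. -/
theorem U.unit_mul {f : J → R p k} (hf : U f) {u : R p k} (hu : IsUnit u) : U fun j => u * f j := by
  obtain ⟨v, hv⟩ := hu.exists_left_inv
  have h1 : ∀ s, N (fun j => u * f j) s = N f (v * s) := by
    intro s
    unfold N
    congr 1
    ext j
    simp only [mem_filter, mem_univ, true_and]
    constructor
    · rintro rfl
      rw [← mul_assoc, hv, one_mul]
    · intro h2
      rw [h2, ← mul_assoc, mul_comm u v, hv, one_mul]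
  intro s c
  rw [h1, h1, hf (v * s) (v * c)]
  congr 1
  ring

theorem U.of_unit_mul {f : J → R p k} {u : R p k} (hu : IsUnit u) (hf : U fun j => u * f j) :
    U f := by
  obtain ⟨v, hv⟩ := hu.exists_left_inv
  have h1 := hf.unit_mul (u := v) (IsUnit.of_mul_eq_one _ hv)
  have h2 : (fun j => v * (u * f j)) = f := by
    funext j
    rw [← mul_assoc, hv, one_mul]
  rwa [h2] at h1

theorem U.add_const {f : J → R p k} (hf : U f) (a : R p k) : U fun j => f j + a := by
  have h1 : ∀ s, N (fun j => f j + a) s = N f (s - a) := by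
    intro s
    unfold N
    congr 1
    ext j
    simp only [mem_filter, mem_univ, true_and]
    exact eq_sub_iff_add_eq.symm
  intro s c
  rw [h1, h1, hf (s - a) c]
  congr 1
  ring

/-- A uniform function is not constant. -/
theorem U.not_const {f : J → R p k} (hf : U f) [Nonempty J] (s : R p k) : ¬ ∀ j, f j = s := by
  intro hc
  have h1 := hf s 1
  have h2 : N f s = Fintype.card J := by
    unfold N
    rw [filter_true_of_mem (fun j _ => hc j), card_univ]
  have h3 : N f (s + h p k * 1) = 0 := by
    unfold N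
    rw [filter_false_of_mem, card_empty]
    intro j _ hj
    rw [hc j, mul_one] at hj
    exact h_ne_zero (left_eq_add.mp hj)
  rw [h2, h3] at h1
  exact Fintype.card_ne_zero h1

/-- The reduced function of a function with values in the annihilator of `p`. -/
theorem U.red_level {g : J → R p k} (hf : U fun j => h p k * g j) (t : ZMod p) :
    p * (univ.filter fun j => red p k (g j) = t).card = Fintype.card J := by
  classical
  have h1 : ∀ t' : ZMod p, (univ.filter fun j => red p k (g j) = t').card =
      N (fun j => h p k * g j) 0 := by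
    intro t'
    obtain ⟨c, rfl⟩ := red_surj (p := p) (k := k) t'
    rw [hf 0 c, zero_add]
    unfold N
    congr 1
    ext j
    simp only [mem_filter, mem_univ, true_and]
    exact h_mul_eq.symm
  rw [← card_univ (α := J), card_eq_sum_card_fiberwise (s := (univ : Finset J))
    (f := fun j => red p k (g j)) (t := univ) (fun j _ => mem_univ _)]
  rw [sum_congr rfl (g := fun _ => N (fun j => h p k * g j) 0) (fun t' _ => h1 t'), sum_const,
    card_univ, ZMod.card, smul_eq_mul, h1 t]

/-- Vanishing sums of roots of unity. -/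
theorem U.of_sum {f : J → R p k} (hs : ∑ j, ZMod.stdAddChar (f j) = (0 : ℂ)) : U f := by
  classical
  intro s c
  refine BHp2.vanish p k (p ^ (k + 1)) rfl (N f) ?_ s c
  rw [← hs]
  have h2 : ∀ s : R p k, ((N f s : ℕ) : ℂ) * ZMod.stdAddChar s
      = ∑ i ∈ univ.filter (fun i => f i = s), ZMod.stdAddChar (f i) := by
    intro s
    rw [sum_congr rfl (g := fun _ => ZMod.stdAddChar s)]
    · rw [sum_const, nsmul_eq_mul]
      rfl
    · intro i hi
      rw [(mem_filter.mp hi).2]
  simp only [h2]
  rw [Finset.sum_fiberwise]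

end BHsm
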