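import Mathlib

/-! Vanishing sums of roots of unity of prime power order. -/

open Finset Polynomial

namespace BHp2

theorem vanish (p : ℕ) [hp : Fact p.Prime] (n Q : ℕ) [NeZero Q] (hQ : Q = p ^ (n + 1)) (f : ZMod Q → ℕ)
    (h : ∑ s, (f s : ℂ) * ZMod.stdAddChar s = 0) (s t : ZMod Q) :
    f s = f (s + (p : ZMod Q) ^ n * t) := by
  have hQpos : 0 < Q := by rw [hQ]; exact pow_pos hp.out.pos _
  have hPpos : 0 < p ^ n := pow_pos hp.out.pos _
  set ζ : ℂ := ZMod.stdAddChar (1 : ZMod Q) with hζdef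
  have hζ : IsPrimitiveRoot ζ Q := by
    have h1 : ζ = Complex.exp (2 * Real.pi * Complex.I / (Q : ℂ)) := by
      rw [hζdef]
      have := ZMod.stdAddChar_coe (N := Q) 1
      simpa using this
    rw [h1]
    exact Complex.isPrimitiveRoot_exp Q hQpos.ne'
  have hpow : ∀ x : ZMod Q, ZMod.stdAddChar x = ζ ^ x.val := by
    intro x
    rw [hζdef, ← AddChar.map_nsmul_eq_pow]
    congr 1
    simp
  set F : ℤ[X] := ∑ x : ZMod Q, C (f x : ℤ) * X ^ x.val with hF
  have hF0 : aeval ζ F = 0 := by
    rw [hF, map_sum]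
    simp only [map_mul, map_pow, aeval_X]
    rw [← h]
    apply sum_congr rfl
    intro x _
    rw [hpow]
    congr 1
    simp
  have hdvd : cyclotomic Q ℤ ∣ F := by
    rw [cyclotomic_eq_minpoly hζ hQpos]
    exact minpoly.isIntegrallyClosed_dvd (hζ.isIntegral hQpos) hF0
  obtain ⟨G, hG⟩ := hdvd
  have hcoeff : ∀ x : ZMod Q, F.coeff x.val = f x := by
    intro x
    rw [hF, finsetSum_coeff]
    simp only [coeff_C_mul, coeff_X_pow]
    rw [Finset.sum_eq_single x]
    · simp
    · intro y _ hy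
      rw [if_neg, mul_zero]
      intro h1
      exact hy (ZMod.val_injective Q h1.symm)
    · intro h1; exact absurd (mem_univ _) h1
  have hFdeg : F.natDegree < Q := by
    refine lt_of_le_of_lt (natDegree_sum_le_of_forall_le _ _ (n := Q - 1) ?_) (by omega)
    intro x _
    refine (natDegree_C_mul_X_pow_le _ _).trans ?_
    have := ZMod.val_lt x
    omega
  have hGdeg : ∀ m, p ^ n ≤ m → G.coeff m = 0 := by
    intro m hm
    by_cases hG0 : G = 0
    · rw [hG0, coeff_zero]
    apply coeff_eq_zero_of_natDegree_lt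
    have h1 : F.natDegree = (cyclotomic Q ℤ).natDegree + G.natDegree := by
      rw [hG]
      exact natDegree_mul (cyclotomic_ne_zero _ _) hG0
    rw [natDegree_cyclotomic, hQ, Nat.totient_prime_pow_succ hp.out] at h1
    have h2 : p ^ (n + 1) = p ^ n * (p - 1) + p ^ n := by
      have h4 := hp.out.pos
      obtain ⟨c, hc⟩ : ∃ c, p = c + 1 := ⟨p - 1, by omega⟩
      rw [pow_succ]
      nth_rewrite 2 [hc]
      nth_rewrite 3 [hc]
      rw [Nat.add_sub_cancel]; ring
    rw [hQ] at hFdeg
    omega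
  have hcyc : cyclotomic Q ℤ = ∑ i ∈ range p, (X ^ (p ^ n)) ^ i := by
    rw [hQ]
    exact cyclotomic_prime_pow_eq_geom_sum hp.out
  have hFc : ∀ m < Q, F.coeff m = G.coeff (m % p ^ n) := by
    intro m hm
    rw [hG, hcyc, sum_mul, finsetSum_coeff]
    have hk : m / p ^ n < p := by
      apply Nat.div_lt_of_lt_mul
      rw [← pow_succ, ← hQ]; exact hm
    rw [Finset.sum_eq_single (m / p ^ n)]
    · rw [← pow_mul, coeff_X_pow_mul', if_pos (Nat.mul_div_le _ _)]
      congr 1
      exact Nat.sub_eq_of_eq_add (Nat.mod_add_div m (p ^ n)).symm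
    · intro k _ hk2
      rw [← pow_mul, coeff_X_pow_mul']
      split_ifs with h1
      · apply hGdeg
        have h2 : k ≤ m / p ^ n := by
          rw [Nat.le_div_iff_mul_le hPpos, mul_comm]; exact h1
        have h3 : k + 1 ≤ m / p ^ n := by omega
        have h4 : p ^ n * (k + 1) ≤ m :=
          (Nat.mul_le_mul_left _ h3).trans (Nat.mul_div_le _ _)
        rw [mul_add, mul_one] at h4
        omega
      · rfl
    · intro h1
      exact absurd (mem_range.mpr hk) h1
  have hf : ∀ x : ZMod Q, (f x : ℤ) = G.coeff (x.val % p ^ n) := by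
    intro x
    rw [← hcoeff, hFc _ (ZMod.val_lt x)]
  have hmod : (s + (p : ZMod Q) ^ n * t).val % p ^ n = s.val % p ^ n := by
    have hd : p ^ n ∣ Q := by rw [hQ]; exact pow_dvd_pow _ (Nat.le_succ n)
    have h1 : (((s + (p : ZMod Q) ^ n * t).val : ℕ) : ZMod (p ^ n)) = ((s.val : ℕ) : ZMod (p ^ n)) := by
      rw [ZMod.natCast_val, ZMod.natCast_val]
      have h2 : ∀ x : ZMod Q, (x.cast : ZMod (p ^ n)) = ZMod.castHom hd (ZMod (p ^ n)) x := by
        intro x; rfl
      rw [h2, h2, map_add, map_mul, map_pow, map_natCast]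
      have h3 : ((p : ZMod (p ^ n))) ^ n = 0 := by
        have := ZMod.natCast_self (p ^ n)
        rw [Nat.cast_pow] at this
        exact this
      rw [h3, zero_mul, add_zero]
    exact (ZMod.natCast_eq_natCast_iff' _ _ _).mp h1
  have h1 := hf (s + (p : ZMod Q) ^ n * t)
  rw [hmod, ← hf s] at h1
  exact_mod_cast h1.symm

end BHp2
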